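import Pool.Agent.GH.CombU.XD
import Pool.Agent.GH.MatU.Defs

/-!
# The combinatorial input `CombA` for `p = 2` (`x = k/2`) and `p = 3` (`x = k`)
-/

namespace GH.CombU

open GH.Comb

/-- `p = 2`, weights `4z + 2a`. -/
def sys2 (a : ℕ) (ha : a < 2) : Sys where
  p := 2
  q := 3
  M1 := 1
  M0 := 0
  e := a
  lin := 2
  C0 := a - 1
  hp := by norm_num
  hq := by norm_num
  hM1 := by norm_num
  hpq := by norm_num
  hlin := by norm_num
  hz := by intro z hz; omega
  hR := by intro R s n z k h1 h2 h3 h4 h5 h6 h7; omega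
  hR0 := by intro R z k h1 h2; omega
  hev := by intro z; exact dvd_mul_right _ _
  he0 := by omega

/-- `p = 3`, weights `6z` (`a = 0`), `6z + 4` (`a = 1`), `6z + 2` (`a = 2`). -/
def sys3 (a : ℕ) : Sys where
  p := 3
  q := 2
  M1 := 2
  M0 := if a = 1 then 1 else 0
  e := if a = 2 then 1 else 0
  lin := 2
  C0 := if a = 0 then -1 else 0
  hp := by norm_num
  hq := by norm_num
  hM1 := by norm_num
  hpq := by norm_num
  hlin := by norm_num
  hz := by intro z hz; split_ifs at * <;> omega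
  hR := by intro R s n z k h1 h2 h3 h4 h5 h6 h7; split_ifs at * <;> omega
  hR0 := by intro R z k h1 h2; split_ifs at * <;> omega
  hev := by intro z; exact dvd_mul_right _ _
  he0 := by split_ifs <;> norm_num

theorem Ta2 {a : ℕ} (ha : a < 2) (n z : ℕ) :
    MatU.Ta 2 a n (2 * 1 * z + a) = min (n - (z - a) / 3) (z - 1 - (z - a) / 3 - n) := by
  have h1 : (2 * 1 * z + a) % 2 = a := by omega
  have h2 : (2 * 1 * z + a) / 2 = z := by omega
  unfold MatU.Ta MatU.TT MatU.tt
  rw [if_pos h1, if_pos (Or.inl rfl), h1, h2]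

theorem Ta3 {a : ℕ} {m : ℕ} (h1 : m % 3 = a) (h2 : Even m) (n : ℕ) :
    MatU.Ta 3 a n m = min (n - (m / 3 - a) / 4) (m / 3 - 1 - (m / 3 - a) / 4 - n) := by
  unfold MatU.Ta MatU.TT MatU.tt
  rw [if_pos h1, if_pos (Or.inr h2), h1]

theorem Ta3_ne {a n m : ℕ} (h : MatU.Ta 3 a n m ≠ 0) : m % 3 = a ∧ m % 2 = 0 := by
  unfold MatU.Ta MatU.TT at h
  split_ifs at h with h1 h2
  · have h3 : Even m := by
      rcases h2 with h2 | h2
      · omega
      · exact h2
    exact ⟨h1, Nat.even_iff.1 h3⟩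
  · exact absurd rfl h
  · exact absurd rfl h

/-- The data for `p = 2`. -/
def xd2 (a : ℕ) (ha : a < 2) : XD where
  S := sys2 a ha
  p := 2
  ρ := a
  A := 1
  B0 := a
  B := MatU.BB 2
  Z := MatU.Zb 2
  T := MatU.Ta 2 a
  s := MatU.ss 2
  t := MatU.tt 2
  L := fun n ↦ 3 * n + 2
  hpp := rfl
  hcop := by norm_num
  hA := by norm_num
  hρ := rfl
  B_zero := by simp [MatU.BB]
  B_step := by
    intro n
    have h1 : (n + 1) * (n + 1 + 1) / 2 = n * (n + 1) / 2 + (n + 1) := by
      have : (n + 1) * (n + 1 + 1) = n * (n + 1) + (n + 1) * 2 := by ring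
      rw [this, Nat.add_mul_div_right _ _ (by norm_num)]
    simp only [MatU.BB, if_true, sys2, h1]
    push_cast
    generalize (((n * (n + 1) / 2 : ℕ)) : ℤ) = w
    omega
  B_conv := by
    intro n
    have h1 : ∀ n : ℕ, (n + 1) * (n + 1 + 1) / 2 = n * (n + 1) / 2 + (n + 1) := by
      intro n
      have : (n + 1) * (n + 1 + 1) = n * (n + 1) + (n + 1) * 2 := by ring
      rw [this, Nat.add_mul_div_right _ _ (by norm_num)]
    have h2 := h1 n
    have h3 := h1 (n + 1)
    simp only [MatU.BB, if_true]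
    have h4 : (n + 2) * (n + 2 + 1) / 2 = (n + 1 + 1) * (n + 1 + 1 + 1) / 2 := rfl
    rw [h4, h3, h2]
    omega
  bd := by
    intro k n hkn
    constructor <;> simp only [sys2] <;> push_cast <;> omega
  T_zero := by
    intro m
    unfold MatU.Ta MatU.TT MatU.tt
    split_ifs <;> omega
  T_step := by
    intro n z
    rw [Ta2 ha, Ta2 ha]
    unfold Sys.ee
    simp only [sys2]
    split_ifs <;> omega
  T_ne := by
    intro n m h
    refine ⟨m / 2, ?_⟩
    unfold MatU.Ta at h
    split_ifs at h with h1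
    · omega
    · exact absurd rfl h
  T_supp := by
    intro n m h
    unfold MatU.Zb at h
    unfold MatU.Ta MatU.TT MatU.tt
    simp only [if_true] at h
    split_ifs <;> omega
  T_suppL := by
    intro n m h
    unfold MatU.Ta MatU.TT MatU.tt
    split_ifs <;> omega
  T_fin := by
    intro m
    refine ⟨m, ?_⟩
    intro n hn
    unfold MatU.Ta MatU.TT MatU.tt
    split_ifs <;> omega
  T_start := by
    intro n z h0 h1
    rw [Ta2 ha] at h0 h1
    unfold MatU.tt MatU.ss Sys.M
    simp only [sys2, if_true]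
    refine ⟨by omega, by omega, by omega, by omega⟩

/-- The data for `p = 3`. -/
def xd3 (a : ℕ) (ha : a < 3) : XD where
  S := sys3 a
  p := 3
  ρ := a
  A := 2
  B0 := if a = 0 then 0 else if a = 1 then 4 else 2
  B := MatU.BB 3
  Z := MatU.Zb 3
  T := MatU.Ta 3 a
  s := MatU.ss 3
  t := MatU.tt 3
  L := fun n ↦ 2 * n + 2
  hpp := rfl
  hcop := by norm_num
  hA := by norm_num
  hρ := by
    unfold Nat.ModEq
    split_ifs <;> omega
  B_zero := by simp [MatU.BB]
  B_step := by
    intro n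
    simp only [MatU.BB, sys3]
    push_cast
    have h1 : ((n : ℤ) + 1) * ((n : ℤ) + 1 + 1) - (n : ℤ) * ((n : ℤ) + 1) = 2 * ((n : ℤ) + 1) := by
      ring
    rw [h1]
    split_ifs <;> omega
  B_conv := by
    intro n
    simp only [MatU.BB]
    norm_num
    nlinarith
  bd := by
    intro k n hkn
    constructor <;> simp only [sys3] <;> push_cast <;> split_ifs <;> omega
  T_zero := by
    intro m
    unfold MatU.Ta MatU.TT MatU.tt
    split_ifs <;> omega
  T_step := by
    intro n z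
    have h1 : (3 * 2 * z + (if a = 0 then 0 else if a = 1 then 4 else 2)) % 3 = a := by
      split_ifs <;> omega
    have h2 : Even (3 * 2 * z + (if a = 0 then 0 else if a = 1 then 4 else 2)) := by
      rw [Nat.even_iff]
      split_ifs <;> omega
    rw [Ta3 h1 h2, Ta3 h1 h2]
    unfold Sys.ee
    simp only [sys3]
    rcases (show a = 0 ∨ a = 1 ∨ a = 2 by omega) with rfl | rfl | rfl
    · norm_num only [if_true, if_false]
      split_ifs <;> omega
    · norm_num only [if_true, if_false]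
      split_ifs <;> omega
    · norm_num only [if_true, if_false]
      split_ifs <;> omega
  T_ne := by
    intro n m h
    obtain ⟨h1, h2⟩ := Ta3_ne h
    refine ⟨m / 6, ?_⟩
    split_ifs <;> omega
  T_supp := by
    intro n m h
    by_contra hne
    obtain ⟨h1, h2⟩ := Ta3_ne hne
    rw [Ta3 h1 (Nat.even_iff.2 h2)] at hne
    unfold MatU.Zb at h
    rw [if_neg (by norm_num)] at h
    omega
  T_suppL := by
    intro n m h
    unfold MatU.Ta MatU.TT MatU.tt
    split_ifs <;> omega
  T_fin := by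
    intro m
    refine ⟨m, ?_⟩
    intro n hn
    unfold MatU.Ta MatU.TT MatU.tt
    split_ifs <;> omega
  T_start := by
    intro n z
    rcases (show a = 0 ∨ a = 1 ∨ a = 2 by omega) with rfl | rfl | rfl
    · simp only [if_true]
      intro h0 h1
      have e1 : (3 * 2 * z + 0) % 3 = 0 := by omega
      have e2 : Even (3 * 2 * z + 0) := by
        rw [Nat.even_iff]
        omega
      rw [Ta3 e1 e2] at h0 h1
      have e3 : MatU.tt 3 (3 * 2 * z + 0) = ((3 * 2 * z + 0) / 3 - 0) / 4 := by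
        unfold MatU.tt
        rw [e1]
      have e4 : MatU.ss 3 (3 * 2 * z + 0) = (3 * 2 * z + 0) / 2 - 1 := by
        unfold MatU.ss
        rw [if_neg (by norm_num)]
      rw [e3, e4]
      show _ ∧ ((z : ℤ) - 0) / 2 = n ∧ 2 * (n : ℤ) + 2 ≤ 2 * z + 0 ∧ _ = 2 * (2 * (z : ℤ) + 0) +
        2 * (-1) + 2 * z
      refine ⟨by omega, by omega, by omega, by omega⟩
    · simp only [if_true, one_ne_zero, if_false]
      intro h0 h1
      have e1 : (3 * 2 * z + 4) % 3 = 1 := by omega
      have e2 : Even (3 * 2 * z + 4) := by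
        rw [Nat.even_iff]
        omega
      rw [Ta3 e1 e2] at h0 h1
      have e3 : MatU.tt 3 (3 * 2 * z + 4) = ((3 * 2 * z + 4) / 3 - 1) / 4 := by
        unfold MatU.tt
        rw [e1]
      have e4 : MatU.ss 3 (3 * 2 * z + 4) = (3 * 2 * z + 4) / 2 - 1 := by
        unfold MatU.ss
        rw [if_neg (by norm_num)]
      rw [e3, e4]
      show _ ∧ ((z : ℤ) - 0) / 2 = n ∧ 2 * (n : ℤ) + 2 ≤ 2 * z + 1 ∧ _ = 2 * (2 * (z : ℤ) + 1) +
        2 * 0 + 2 * z
      refine ⟨by omega, by omega, by omega, by omega⟩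
    · simp only [OfNat.ofNat_ne_zero, OfNat.ofNat_ne_one, if_false]
      intro h0 h1
      have e1 : (3 * 2 * z + 2) % 3 = 2 := by omega
      have e2 : Even (3 * 2 * z + 2) := by
        rw [Nat.even_iff]
        omega
      rw [Ta3 e1 e2] at h0 h1
      have e3 : MatU.tt 3 (3 * 2 * z + 2) = ((3 * 2 * z + 2) / 3 - 2) / 4 := by
        unfold MatU.tt
        rw [e1]
      have e4 : MatU.ss 3 (3 * 2 * z + 2) = (3 * 2 * z + 2) / 2 - 1 := by
        unfold MatU.ss
        rw [if_neg (by norm_num)]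
      rw [e3, e4]
      show _ ∧ ((z : ℤ) - 1) / 2 = n ∧ 2 * (n : ℤ) + 2 ≤ 2 * z + 0 ∧ _ = 2 * (2 * (z : ℤ) + 0) +
        2 * 0 + 2 * z
      refine ⟨by omega, by omega, by omega, by omega⟩

/-- The combinatorial input for `p = 2`, `x = k/2 ≡ a mod 2`. -/
theorem combA2 {a : ℕ} (ha : a < 2) : Pot.CombA 2 a (MatU.BB 2) (MatU.Zb 2) (MatU.Ta 2 a)
    (MatU.ss 2) (MatU.tt 2) (xd2 a ha).h :=
  haveI : Fact (xd2 a ha).p.Prime := ⟨Nat.prime_two⟩
  (xd2 a ha).combA

/-- The combinatorial input for `p = 3`, `x = k ≡ a mod 3`. -/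
theorem combA3 {a : ℕ} (ha : a < 3) : Pot.CombA 3 a (MatU.BB 3) (MatU.Zb 3) (MatU.Ta 3 a)
    (MatU.ss 3) (MatU.tt 3) (xd3 a ha).h :=
  haveI : Fact (xd3 a ha).p.Prime := ⟨Nat.prime_three⟩
  (xd3 a ha).combA

end GH.CombU
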