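import Pool.Agent.GH.CombU.P13

/-!
# The number of zeros for `p = 13`: floor formula and lattice points

`B13 c (n+1) - B13 c n` as a sum of floors; `B13 c n` is the number of pairs `(m, l)` of naturals
with `14 m + 13 l < 12 n - D`, `D = 14 - M0 - 14 e`.
-/

namespace GH.CombU

theorem B13_step (c : ℕ) (hc : c ≤ 5) (n : ℕ) : (B13 c (n + 1) : ℤ) - B13 c n =
    (n : ℤ) + e13 c - ((M013 c : ℤ) + e13 c - n - 2) / 13 - 1 - (2 * n + 2 - M013 c) / 14 -
      (2 * n + 1 - M013 c) / 14 := by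
  have h1 := (sys13 c hc).FZ_step 0 0 n
  rw [← B13_eq_FZ c hc, ← B13_eq_FZ c hc, Sys.incZ_zero] at h1
  have h2 : (sys13 c hc).N 0 0 ((n : ℤ) + 1) = (n : ℤ) + e13 c -
      ((M013 c : ℤ) + e13 c - n - 2) / 13 - 1 - (2 * n + 2 - M013 c) / 14 -
      (2 * n + 1 - M013 c) / 14 := by
    unfold Sys.N Sys.X Sys.Y Sys.M
    simp only [sys13]
    have e1 : 1 * ((n : ℤ) + 1) + e13 c - 0 - 1 = n + e13 c := by ring
    have e2 : 1 * (14 * 0 + (M013 c : ℤ) - ((n : ℤ) + 1)) + e13 c - 0 - 1 =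
        (M013 c : ℤ) + e13 c - n - 2 := by ring
    have e3 : 2 * ((n : ℤ) + 1) - (14 * 0 + (M013 c : ℤ)) = 2 * n + 2 - M013 c := by ring
    have e4 : 2 * (n : ℤ) + 2 - M013 c - 1 = 2 * n + 1 - M013 c := by ring
    rw [e1, e2, e3, e4]
    norm_num
  linarith

/-- The number of pairs `(m, l)` of naturals with `14 m + 13 l = y`. -/
def rep13 (y : ℤ) : ℤ := y / 13 + (-y) / 14 + 1

theorem sum_div13 (x : ℤ) : ∑ i ∈ Finset.range 12, (x + i) / 13 = x - (x + 12) / 13 := by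
  obtain ⟨r, k, hx, h0, h1⟩ : ∃ r k : ℤ, x = r + 13 * k ∧ 0 ≤ r ∧ r < 13 :=
    ⟨x % 13, x / 13, by omega, by omega, by omega⟩
  subst hx
  have h2 : ∀ i : ℤ, (r + 13 * k + i) / 13 = (r + i) / 13 + k := by
    intro i
    rw [show r + 13 * k + i = r + i + 13 * k by ring, Int.add_mul_ediv_left _ _ (by norm_num)]
  simp only [Finset.sum_range_succ, Finset.sum_range_zero, h2]
  interval_cases r <;> norm_num <;> ring

theorem sum_div14 (x : ℤ) : ∑ i ∈ Finset.range 12, (-(x + i)) / 14 =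
    -x - 13 - (-(x + 12)) / 14 - (-(x + 13)) / 14 := by
  obtain ⟨r, k, hx, h0, h1⟩ : ∃ r k : ℤ, x = r + 14 * k ∧ 0 ≤ r ∧ r < 14 :=
    ⟨x % 14, x / 14, by omega, by omega, by omega⟩
  subst hx
  have h2 : ∀ i : ℤ, (-(r + 14 * k + i)) / 14 = (-(r + i)) / 14 - k := by
    intro i
    rw [show -(r + 14 * k + i) = -(r + i) + 14 * (-k) by ring,
      Int.add_mul_ediv_left _ _ (by norm_num)]
    ring
  simp only [Finset.sum_range_succ, Finset.sum_range_zero, h2]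
  interval_cases r <;> norm_num <;> ring

theorem B13_step_rep (c : ℕ) (hc : c ≤ 5) (n : ℕ) : (B13 c (n + 1) : ℤ) - B13 c n =
    ∑ i ∈ Finset.range 12, rep13 (12 * n - (14 - M013 c - 14 * e13 c) + i) := by
  rw [B13_step c hc]
  unfold rep13
  rw [Finset.sum_add_distrib, Finset.sum_add_distrib, sum_div13, sum_div14]
  simp only [Finset.sum_const, Finset.card_range]
  have e1 : (12 * (n : ℤ) - (14 - M013 c - 14 * e13 c) + 12) / 13 =
      ((M013 c : ℤ) + e13 c - n - 2) / 13 + (n + e13 c) := by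
    rw [← Int.add_mul_ediv_left _ _ (by norm_num : (13 : ℤ) ≠ 0)]
    congr 1
    ring
  have e2 : (-(12 * (n : ℤ) - (14 - M013 c - 14 * e13 c) + 12)) / 14 =
      (2 * (n : ℤ) + 2 - M013 c) / 14 + (-n - e13 c) := by
    rw [← Int.add_mul_ediv_left _ _ (by norm_num : (14 : ℤ) ≠ 0)]
    congr 1
    ring
  have e3 : (-(12 * (n : ℤ) - (14 - M013 c - 14 * e13 c) + 13)) / 14 =
      (2 * (n : ℤ) + 1 - M013 c) / 14 + (-n - e13 c) := by
    rw [← Int.add_mul_ediv_left _ _ (by norm_num : (14 : ℤ) ≠ 0)]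
    congr 1
    ring
  rw [e1, e2, e3]
  norm_num
  ring

end GH.CombU
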