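import Mathlib

/-!
# GH13: the ghost numbers for `p = 13`, `N = 1`

`c = 0, …, 5` is the component (weights `k = 12 m + 2 c`), `m` the weight variable.
`cen13 c m - 1 = dim S_k(Γ_0(13))`, `t13 c m = dim S_k(1)`, `s13 c m = k/2 - 1`.
-/

namespace GH.CombU

/-- `0, 1, 0, 0, 0, 0`. -/
def e13 (c : ℕ) : ℕ := if c = 1 then 1 else 0

/-- `0, 0, 4, 6, 8, 10`. -/
def M013 (c : ℕ) : ℕ := if c ≤ 1 then 0 else 2 * c

/-- `dim S_k(Γ_0(13)) + 1`. -/
def cen13 (c m : ℕ) : ℕ := 14 * m + M013 c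

/-- `dim S_k(1)`. -/
def t13 (c m : ℕ) : ℕ := m - e13 c

/-- `k/2 - 1`. -/
def s13 (c m : ℕ) : ℕ := 6 * m + c - 1

/-- The multiplicity of `m` as a zero of the `n`-th ghost coefficient. -/
def T13 (c n m : ℕ) : ℕ := min (n - t13 c m) (cen13 c m - 1 - t13 c m - n)

/-- A bound for the zeros. -/
def Z13 (n : ℕ) : ℕ := n + 2

/-- The number of zeros of the `n`-th ghost coefficient. -/
def B13 (c n : ℕ) : ℕ := ∑ m ∈ Finset.range (Z13 n), T13 c n m

/-- The weight with `dim S_k(1) = n`. -/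
def zf13 (c n : ℕ) : ℕ := n + e13 c

end GH.CombU
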