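import Mathlib

/-!
# `p = 5`: the numbers

Variable `y`, centres `y = m = 2z` (`m = dim S_k(Γ_0(5)) + 1`), weight `k = 2m` (`e = 0`) or
`k = 2m + 2` (`e = 1`), `t = dim S_k(1)`, `s = k/2 - 1`.
-/

namespace GH.CombU

/-- `t_m = ⌊(m/2 - e)/3⌋`. -/
def t5 (e m : ℕ) : ℕ := (m / 2 - e) / 3

/-- The multiplicity of the zero `m` of the `n`-th minor. -/
def T5 (e n m : ℕ) : ℕ := if m % 2 = 0 then min (n - t5 e m) (m - 1 - t5 e m - n) else 0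

/-- The slope `k/2 - 1`. -/
def s5 (e m : ℕ) : ℕ := m - 1 + e

/-- The valuation at the root: `∑ ⌊8l/5⌋` (`e = 0`), `∑ ⌈8l/5⌉` (`e = 1`). -/
def B5 (e n : ℕ) : ℕ := ∑ l ∈ Finset.range n, (8 * (l + 1) + 4 * e) / 5

/-- All centres of the `n`-th minor are below. -/
def Z5 (n : ℕ) : ℕ := 6 * n + 2

end GH.CombU
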