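import Mathlib

/-!
# GH-LN: the ghost numbers for `(p, N) = (3, 2), (3, 4), (5, 2)`

`m` is the weight variable: `k = 2 m` for `(3, 2)` and `(3, 4)`, `k = 4 m + 2 c` for `(5, 2)`,
`c = 0, 1` the component. `t` is the dimension of the forms of level `N` and weight `k` which
vanish at infinity, `cen - 1` the dimension minus two of the forms of level `N p`, `s = k/2 - 1`.
-/

namespace GH.CombU

/-- The type: `0, 1, 2, 3` for `(3, 2)`, `(3, 4)`, `(5, 2)` with `c = 0`, `(5, 2)` with `c = 1`. -/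
def cenLN (i m : ℕ) : ℕ :=
  if i = 0 then 2 * m else if i = 1 then 4 * m else if i = 2 then 6 * m else 6 * m + 2

/-- `⌊m/2⌋, m, m, m`. -/
def tLN (i m : ℕ) : ℕ := if i = 0 then m / 2 else m

/-- `k/2 - 1 = m - 1, m - 1, 2 m - 1, 2 m`. -/
def sLN (i m : ℕ) : ℕ :=
  if i = 0 then m - 1 else if i = 1 then m - 1 else if i = 2 then 2 * m - 1 else 2 * m

/-- The multiplicity of `m` as a zero of the `n`-th minor. -/
def TLN (i n m : ℕ) : ℕ := min (n - tLN i m) (cenLN i m - 1 - tLN i m - n)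

/-- A bound for the zeros. -/
def ZLN (n : ℕ) : ℕ := 2 * n + 2

/-- The number of zeros of the `n`-th minor. -/
def BLN (i n : ℕ) : ℕ := ∑ m ∈ Finset.range (ZLN n), TLN i n m

/-- The prime. -/
def pLN (i : ℕ) : ℕ := if i ≤ 1 then 3 else 5

end GH.CombU
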