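import Pool.Agent.GH.CombU.FZST

/-!
# Combinatorics of the hulls, the pairs `(p, N)` with `X_0(Np)` of genus zero

Types `(q, p, M1)`: `(2, 3, 2)`, `(1, 3, 4)`, `(1, 5, 6)`, `(1, 13, 14)` for `(3, 2)`, `(3, 4)`,
`(5, 2)`, `(13, 1)`. The increments at the node `z mod p^ν` are `∑_(j ≤ ν) N_j`.
-/

namespace GH.CombU

open GH.Comb

theorem ediv_sub_le {k u v : ℤ} (hk : 0 < k) (h : v ≤ u) : u / k - v / k ≤ u - v := by
  have h1 : u ≤ v + k * (u - v) := by nlinarith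
  have h2 := Int.ediv_le_ediv hk h1
  rw [Int.add_mul_ediv_left _ _ hk.ne'] at h2
  linarith

/-- An interval contains at most as many multiples of `d k` as of `d`. -/
theorem mult_anti {d k x y : ℤ} (hd : 0 < d) (hk : 0 < k) (h : x ≤ y) :
    y / (d * k) - x / (d * k) ≤ y / d - x / d := by
  rw [← Int.ediv_ediv_of_nonneg hd.le, ← Int.ediv_ediv_of_nonneg hd.le]
  exact ediv_sub_le hk (Int.ediv_le_ediv hd h)

theorem sum_form (w B : ℕ → ℤ) (ν : ℕ) :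
    ∑ j ∈ Finset.range (ν + 1), (w j + w (j + 1) - 2) - 2 * ∑ j ∈ Finset.range (ν + 1), B j =
      (w 0 - 2 - 2 * B 0) + w (ν + 1) +
        2 * ∑ j ∈ Finset.range ν, (w (j + 1) - 1 - B (j + 1)) := by
  induction ν with
  | zero =>
    simp
    ring
  | succ ν ih =>
    have h1 := Finset.sum_range_succ (fun j ↦ w j + w (j + 1) - 2) (ν + 1)
    have h2 := Finset.sum_range_succ B (ν + 1)
    have h3 := Finset.sum_range_succ (fun j ↦ w (j + 1) - 1 - B (j + 1)) ν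
    rw [h1, h2, h3]
    linarith

namespace Sys

/-- The types. -/
structure IsG (S : Sys) : Prop where
  ty : (S.q = 2 ∧ S.p = 3 ∧ S.M1 = 2) ∨ (S.q = 1 ∧ S.p = 3 ∧ S.M1 = 4) ∨
    (S.q = 1 ∧ S.p = 5 ∧ S.M1 = 6) ∨ (S.q = 1 ∧ S.p = 13 ∧ S.M1 = 14)
  ev : 2 ∣ S.M0
  q2 : S.q = 2 → S.M0 = 0 ∧ S.e = 0

variable {S : Sys}

theorem IsG.even (hS : S.IsG) (z : ℤ) : 2 ∣ S.M z := by
  obtain ⟨u, hu⟩ := hS.ev
  unfold M
  rcases hS.ty with ⟨_, _, h⟩ | ⟨_, _, h⟩ | ⟨_, _, h⟩ | ⟨_, _, h⟩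
  · exact ⟨z + u, by rw [h, hu]; ring⟩
  · exact ⟨2 * z + u, by rw [h, hu]; ring⟩
  · exact ⟨3 * z + u, by rw [h, hu]; ring⟩
  · exact ⟨7 * z + u, by rw [h, hu]; ring⟩

theorem IsG.p3 (hS : S.IsG) : 3 ≤ S.p := by
  rcases hS.ty with ⟨_, h, _⟩ | ⟨_, h, _⟩ | ⟨_, h, _⟩ | ⟨_, h, _⟩ <;> rw [h] <;> norm_num

/-- The level zero bracket. -/
theorem IsG.br (hS : S.IsG) {R : ℤ} (h2 : 2 ≤ R) (he : 2 ∣ R) :
    0 ≤ S.q * R - 2 - 2 * (R / S.M1 + (R - 1) / S.M1) ∧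
      (S.p ≠ 3 → 4 ≤ R → 2 ≤ S.q * R - 2 - 2 * (R / S.M1 + (R - 1) / S.M1)) := by
  rcases hS.ty with ⟨h, h', h''⟩ | ⟨h, h', h''⟩ | ⟨h, h', h''⟩ | ⟨h, h', h''⟩ <;>
  · rw [h, h', h'']
    omega

/-- A term of a positive level is nonnegative, and positive beyond the first centre. -/
theorem IsG.term (hS : S.IsG) {j : ℕ} {z n : ℤ}
    (hw : 1 ≤ S.X z n / S.p ^ j - S.Y z n / S.p ^ j) :
    0 ≤ S.X z n / S.p ^ j - S.Y z n / S.p ^ j - 1 -
      ((2 * n - S.M z) / (S.M1 * S.p ^ j) + (2 * n - S.M z - 1) / (S.M1 * S.p ^ j)) ∧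
    (S.M1 * S.p ^ j ≤ 2 * n - S.M z → 1 ≤ S.X z n / S.p ^ j - S.Y z n / S.p ^ j - 1 -
      ((2 * n - S.M z) / (S.M1 * S.p ^ j) + (2 * n - S.M z - 1) / (S.M1 * S.p ^ j))) := by
  have hL := S.Lpos j
  have hP := S.ppos j
  have hXY := S.X_sub_Y z n
  have hpq := S.hpq
  have hp3 := hS.p3
  set R := 2 * n - S.M z with hR
  have h1 : (R - 1) / (S.M1 * S.p ^ j) ≤ R / (S.M1 * S.p ^ j) :=
    Int.ediv_le_ediv hL (by linarith)
  set a := R / (S.M1 * S.p ^ j) with ha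
  have key : 1 ≤ a → (S.p + 1) * a ≤ S.X z n / S.p ^ j - S.Y z n / S.p ^ j := by
    intro h
    have h2 : S.M1 * S.p ^ j * a ≤ R := Int.mul_ediv_self_le hL.ne'
    have h3 : S.Y z n + S.p ^ j * ((S.p + 1) * a) ≤ S.X z n := by
      have h4 : S.q * (S.M1 * S.p ^ j * a) ≤ S.q * R := mul_le_mul_of_nonneg_left h2 S.hq.le
      have h5 : S.q * (S.M1 * S.p ^ j * a) = S.p ^ j * ((S.p + 1) * a) := by rw [hpq]; ring
      linarith
    have h4 := Int.ediv_le_ediv hP h3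
    rw [Int.add_mul_ediv_left _ _ hP.ne'] at h4
    linarith
  have key2 : 1 ≤ a → 4 * a ≤ (S.p + 1) * a := fun h ↦
    mul_le_mul_of_nonneg_right (by linarith) (by linarith)
  constructor
  · rcases le_or_gt a 0 with h | h
    · linarith
    · have := key h
      have := key2 h
      linarith
  · intro h
    have h2 : 1 ≤ a := by
      rw [ha, Int.le_ediv_iff_mul_le hL]
      linarith
    have := key h2
    have := key2 h2
    linarith

theorem IsG.lev (_ : S.IsG) {ν : ℕ} {z n : ℤ} (hW : S.W ν z n) (j : ℕ) (hj : j ≤ ν) :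
    1 ≤ S.X z n / S.p ^ j - S.Y z n / S.p ^ j := by
  obtain ⟨t, ht, ht1, ht2⟩ := hW
  have := ediv_lt_of_dvd (S.ppos j) ((pow_dvd_pow S.p hj).trans ht) ht1 ht2
  linarith

theorem IsG.R2 (hS : S.IsG) {ν : ℕ} {z n : ℤ} (hW : S.W ν z n) : 2 ≤ 2 * n - S.M z := by
  have h1 := S.R_pos_of_W hW
  obtain ⟨u, hu⟩ := hS.even z
  omega

theorem IsG.YX (_ : S.IsG) {z n : ℤ} (h : 0 ≤ 2 * n - S.M z) : S.Y z n ≤ S.X z n := by
  have h1 := S.X_sub_Y z n
  have h2 := mul_nonneg S.hq.le h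
  linarith

/-- The main formula. -/
theorem incZ_sub' (S : Sys) (ν : ℕ) (z n : ℤ) :
    S.incZ ν z n - S.incZ ν z (S.M z - n) =
      (S.q * (2 * n - S.M z) - 2 -
        2 * ((2 * n - S.M z) / S.M1 + (2 * n - S.M z - 1) / S.M1)) +
      (S.X z n / S.p ^ (ν + 1) - S.Y z n / S.p ^ (ν + 1)) +
      2 * ∑ j ∈ Finset.range ν, (S.X z n / S.p ^ (j + 1) - S.Y z n / S.p ^ (j + 1) - 1 -
        ((2 * n - S.M z) / (S.M1 * S.p ^ (j + 1)) +
          (2 * n - S.M z - 1) / (S.M1 * S.p ^ (j + 1)))) := by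
  have h1 := S.incZ_sub ν z n
  have h2 := sum_form (fun j ↦ S.X z n / S.p ^ j - S.Y z n / S.p ^ j)
    (fun j ↦ (2 * n - S.M z) / (S.M1 * S.p ^ j) + (2 * n - S.M z - 1) / (S.M1 * S.p ^ j)) ν
  rw [h1, h2]
  simp only [pow_zero, Int.ediv_one, mul_one]
  rw [S.X_sub_Y]

/-- The main inequality: a window with a multiple of `p^ν`. -/
theorem IsG.incZ_sub_ge (hS : S.IsG) {ν : ℕ} {z n : ℤ} (hW : S.W ν z n) :
    0 ≤ S.incZ ν z n - S.incZ ν z (S.M z - n) ∧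
      S.X z n / S.p ^ (ν + 1) - S.Y z n / S.p ^ (ν + 1) ≤
        S.incZ ν z n - S.incZ ν z (S.M z - n) ∧
      (6 ≤ 2 * n - S.M z → 2 ≤ S.incZ ν z n - S.incZ ν z (S.M z - n)) ∧
      (4 ≤ 2 * n - S.M z → ¬ S.W ν z (S.M z / 2 + 1) →
        2 ≤ S.incZ ν z n - S.incZ ν z (S.M z - n)) := by
  have hR := hS.R2 hW
  have hev := hS.even z
  have hevR : 2 ∣ 2 * n - S.M z := by omega
  obtain ⟨hb1, hb2⟩ := hS.br hR hevR
  have hA := S.incZ_sub' ν z n
  have hYX := hS.YX (show 0 ≤ 2 * n - S.M z by linarith)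
  have hlast : 0 ≤ S.X z n / S.p ^ (ν + 1) - S.Y z n / S.p ^ (ν + 1) := by
    have := Int.ediv_le_ediv (S.ppos (ν + 1)) hYX
    linarith
  have hterm : ∀ j ∈ Finset.range ν,
      0 ≤ S.X z n / S.p ^ (j + 1) - S.Y z n / S.p ^ (j + 1) - 1 -
        ((2 * n - S.M z) / (S.M1 * S.p ^ (j + 1)) +
          (2 * n - S.M z - 1) / (S.M1 * S.p ^ (j + 1))) := fun j hj ↦
    (hS.term (hS.lev hW (j + 1) (by have := Finset.mem_range.1 hj; omega))).1
  have hsum := Finset.sum_nonneg hterm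
  -- one positive term is enough
  have one : 1 ≤ ν → 1 ≤ S.X z n / S.p ^ 1 - S.Y z n / S.p ^ 1 - 1 -
        ((2 * n - S.M z) / (S.M1 * S.p ^ 1) +
          (2 * n - S.M z - 1) / (S.M1 * S.p ^ 1)) →
      2 ≤ S.incZ ν z n - S.incZ ν z (S.M z - n) := by
    intro hν h
    have h1 := Finset.single_le_sum hterm (Finset.mem_range.2 (show 0 < ν by omega))
    simp only [zero_add] at h1
    linarith
  have hXY := S.X_sub_Y z n
  have hL1 := S.Lpos 1
  refine ⟨by linarith, by linarith, ?_, ?_⟩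
  · intro h6
    by_cases hp : S.p = 3
    · rcases Nat.eq_zero_or_pos ν with h0 | h0
      · subst h0
        simp only [Finset.range_zero, Finset.sum_empty, zero_add, pow_one, mul_zero,
          add_zero] at hA hlast
        have h7 : 6 ≤ S.q * (2 * n - S.M z) := by
          have := mul_le_mul_of_nonneg_left h6 S.hq.le
          have := S.hq
          nlinarith
        rw [hp] at hA
        omega
      · apply one h0
        rcases le_or_gt (S.M1 * S.p ^ 1) (2 * n - S.M z) with h | h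
        · exact (hS.term (hS.lev hW 1 h0)).2 h
        · have h1 : (2 * n - S.M z) / (S.M1 * S.p ^ 1) = 0 :=
            Int.ediv_eq_zero_of_lt (by linarith) h
          have h2 : (2 * n - S.M z - 1) / (S.M1 * S.p ^ 1) = 0 :=
            Int.ediv_eq_zero_of_lt (by linarith) (by linarith)
          have h7 : 6 ≤ S.q * (2 * n - S.M z) := by
            have := mul_le_mul_of_nonneg_left h6 S.hq.le
            have := S.hq
            nlinarith
          rw [h1, h2, pow_one, hp]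
          omega
    · have := hb2 hp (by linarith)
      linarith
  · intro h4 hA'
    by_cases hp : S.p = 3
    swap
    · have := hb2 hp h4
      linarith
    -- the case `p = 3`
    rcases Nat.eq_zero_or_pos ν with h0 | h0
    · exfalso
      apply hA'
      subst h0
      refine ⟨S.X z (S.M z / 2 + 1), by simp, ?_, le_rfl⟩
      have h1 := S.X_sub_Y z (S.M z / 2 + 1)
      have h2 : 2 * (S.M z / 2 + 1) - S.M z = 2 := by omega
      rw [h2] at h1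
      have := S.hq
      linarith
    apply one h0
    rcases le_or_gt (S.M1 * S.p ^ 1) (2 * n - S.M z) with h | h
    · exact (hS.term (hS.lev hW 1 h0)).2 h
    have h1 : (2 * n - S.M z) / (S.M1 * S.p ^ 1) = 0 :=
      Int.ediv_eq_zero_of_lt (by linarith) h
    have h2 : (2 * n - S.M z - 1) / (S.M1 * S.p ^ 1) = 0 :=
      Int.ediv_eq_zero_of_lt (by linarith) (by linarith)
    rw [h1, h2]
    obtain ⟨t, ht, ht1, ht2⟩ := hW
    have ht3 : (3 : ℤ) ∣ t := by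
      have := (pow_dvd_pow S.p h0).trans ht
      rwa [hp, pow_one] at this
    have ht4 : ¬ (S.Y z (S.M z / 2 + 1) < t ∧ t ≤ S.X z (S.M z / 2 + 1)) := fun h ↦
      hA' ⟨t, ht, h.1, h.2⟩
    rw [pow_one, hp]
    have hx : S.X z n = S.X z (S.M z / 2 + 1) + S.q * (n - (S.M z / 2 + 1)) := by
      unfold X
      ring
    have hy : S.Y z n = S.Y z (S.M z / 2 + 1) - S.q * (n - (S.M z / 2 + 1)) := by
      unfold Y
      ring
    have hxy := S.X_sub_Y z (S.M z / 2 + 1)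
    rcases hS.ty with ⟨h, _, _⟩ | ⟨h, _, _⟩ | ⟨_, h, _⟩ | ⟨_, h, _⟩
    · rw [h] at hx hy hxy
      omega
    · rw [h] at hx hy hxy
      omega
    · rw [hp] at h
      norm_num at h
    · rw [hp] at h
      norm_num at h

/-! ### The centre -/

theorem IsG.X_eq_Y_mid (hS : S.IsG) (z : ℤ) : S.Y z (S.M z / 2) = S.X z (S.M z / 2) := by
  have h := S.X_sub_Y z (S.M z / 2)
  obtain ⟨u, hu⟩ := hS.even z
  have h1 : 2 * (S.M z / 2) - S.M z = 0 := by omega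
  rw [h1, mul_zero] at h
  linarith

theorem IsG.incZ_mid (hS : S.IsG) (ν : ℕ) (z : ℤ) : S.incZ ν z (S.M z / 2) = S.gZ ν z := by
  have h1 := S.incZ_add ν z (S.M z / 2)
  have h2 : S.M z - S.M z / 2 = S.M z / 2 := by
    obtain ⟨u, hu⟩ := hS.even z
    omega
  rw [h2, hS.X_eq_Y_mid] at h1
  unfold gZ
  linarith

/-- The sum of the increments at reflected places is `2 g` up to one. -/
theorem IsG.incZ_add_near (hS : S.IsG) (ν : ℕ) (z n : ℤ) :
    2 * S.gZ ν z - 1 ≤ S.incZ ν z n + S.incZ ν z (S.M z - n) ∧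
      S.incZ ν z n + S.incZ ν z (S.M z - n) ≤ 2 * S.gZ ν z + 1 := by
  have h1 := S.incZ_add ν z n
  have hT := S.ppos (ν + 1)
  have h2 := S.X_add_Y z n
  have h3 := S.X_add_Y z (S.M z / 2)
  rw [hS.X_eq_Y_mid] at h3
  have h4 := ediv_add_le hT
    (show S.X z n + S.Y z n = S.X z (S.M z / 2) + S.X z (S.M z / 2) by linarith)
  have h5 := ediv_add_le hT
    (show S.X z (S.M z / 2) + S.X z (S.M z / 2) = S.X z n + S.Y z n by linarith)
  unfold gZ
  constructor <;> linarith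

theorem IsG.strict (hS : S.IsG) {ν : ℕ} {z k : ℤ} (hW : S.W ν z k)
    (hR : 6 ≤ 2 * k - S.M z ∨ (4 ≤ 2 * k - S.M z ∧ ¬ S.W ν z (S.M z / 2 + 1))) :
    S.gZ ν z < S.incZ ν z k ∧ S.incZ ν z (S.M z - k) < S.gZ ν z := by
  have h1 : 2 ≤ S.incZ ν z k - S.incZ ν z (S.M z - k) := by
    rcases hR with h | ⟨h, h'⟩
    · exact (hS.incZ_sub_ge hW).2.2.1 h
    · exact (hS.incZ_sub_ge hW).2.2.2 h h'
  have h2 := hS.incZ_add_near ν z k
  omega

theorem IsG.weak (hS : S.IsG) {ν : ℕ} {z k : ℤ} (hW : S.W ν z k) :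
    S.gZ ν z ≤ S.incZ ν z k ∧ S.incZ ν z (S.M z - k) ≤ S.gZ ν z := by
  have h1 := (hS.incZ_sub_ge hW).1
  have h2 := hS.incZ_add_near ν z k
  omega

theorem IsG.add_eq (hS : S.IsG) {ν : ℕ} {z k : ℤ} (hk : S.M z ≤ 2 * k) (hW : ¬ S.W ν z k) :
    S.incZ ν z k + S.incZ ν z (S.M z - k) = 2 * S.gZ ν z := by
  have h1 := S.X_eq_Y_of_not_W hk hW
  have h2 : S.X z k / S.p ^ (ν + 1) = S.Y z k / S.p ^ (ν + 1) := by
    rw [pow_succ_ediv, pow_succ_ediv, h1]
  have hk0 : S.M z / 2 ≤ k := by omega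
  have h5 := S.X_mono z hk0
  have h6 := S.Y_anti z hk0
  rw [hS.X_eq_Y_mid] at h6
  have hT := S.ppos (ν + 1)
  have h7 := Int.ediv_le_ediv hT h5
  have h8 := Int.ediv_le_ediv hT h6
  have h9 := S.incZ_add ν z k
  have h10 := S.X_add_Y z k
  have h11 := S.X_add_Y z (S.M z / 2)
  rw [hS.X_eq_Y_mid] at h11
  unfold gZ
  linarith

/-! ### The local formula -/

/-- The number of multiples of `p^j` in `(X n, X (n + 1)]`. -/
def jx (S : Sys) (j : ℕ) (c n : ℤ) : ℤ := S.X c (n + 1) / S.p ^ j - S.X c n / S.p ^ j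

/-- The number of multiples of `p^(j+1)` in `(Y (n + 1), Y n]`. -/
def jy (S : Sys) (j : ℕ) (c n : ℤ) : ℤ :=
  S.Y c n / S.p ^ (j + 1) - S.Y c (n + 1) / S.p ^ (j + 1)

/-- The number of multiples of `M1 p^j` in `(2 n - 2 - M, 2 n + 2 - M]`. -/
def jm (S : Sys) (j : ℕ) (c n : ℤ) : ℤ :=
  (2 * n + 2 - S.M c) / (S.M1 * S.p ^ j) - (2 * n - 2 - S.M c) / (S.M1 * S.p ^ j)

theorem IsG.N_local (hS : S.IsG) (j : ℕ) (c n : ℤ) :
    S.N j c (n + 1) - S.N j c n = S.jx j c n + S.jy j c n - S.jm j c n := by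
  obtain ⟨m, hm⟩ := hS.even c
  have h2 : (2 : ℤ) ∣ S.M1 * S.p ^ j := by
    rcases hS.ty with ⟨_, _, h⟩ | ⟨_, _, h⟩ | ⟨_, _, h⟩ | ⟨_, _, h⟩ <;> rw [h] <;>
      exact Dvd.dvd.mul_right (by norm_num) _
  have hL := S.Lpos j
  have key : ∀ x : ℤ, (2 * x + 1) / (S.M1 * S.p ^ j) = 2 * x / (S.M1 * S.p ^ j) := by
    intro x
    symm
    apply ediv_eq_of_no hL (by linarith)
    intro t ht h3 h4
    have h5 := h2.trans ht
    omega
  have e1 : (2 * (n + 1) - S.M c - 1) / (S.M1 * S.p ^ j) =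
      (2 * n - S.M c) / (S.M1 * S.p ^ j) := by
    have := key (n - m)
    rw [hm]
    rw [show 2 * (n + 1) - 2 * m - 1 = 2 * (n - m) + 1 by ring, this]
    congr 1
    ring
  have e2 : (2 * n - S.M c - 1) / (S.M1 * S.p ^ j) =
      (2 * n - 2 - S.M c) / (S.M1 * S.p ^ j) := by
    have := key (n - m - 1)
    rw [hm]
    rw [show 2 * n - 2 * m - 1 = 2 * (n - m - 1) + 1 by ring, this]
    congr 1
    ring
  have e3 : 2 * (n + 1) - S.M c = 2 * n + 2 - S.M c := by ring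
  unfold N jx jy jm
  rw [e1, e2, e3]
  ring

theorem IsG.incZ_diff (hS : S.IsG) (ν : ℕ) (c n : ℤ) :
    S.incZ ν c (n + 1) - S.incZ ν c n =
      ∑ j ∈ Finset.range (ν + 1), (S.jx j c n + S.jy j c n - S.jm j c n) := by
  unfold incZ
  rw [← Finset.sum_sub_distrib]
  exact Finset.sum_congr rfl fun j _ ↦ hS.N_local j c n

theorem jx_zero (S : Sys) (c n : ℤ) : S.jx 0 c n = S.q := by
  unfold jx X
  simp only [pow_zero, Int.ediv_one]
  ring

theorem jx_nonneg (j : ℕ) (c n : ℤ) : 0 ≤ S.jx j c n := by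
  unfold jx
  have := Int.ediv_le_ediv (S.ppos j) (S.X_mono c (show n ≤ n + 1 by linarith))
  linarith

theorem jy_nonneg (j : ℕ) (c n : ℤ) : 0 ≤ S.jy j c n := by
  unfold jy
  have := Int.ediv_le_ediv (S.ppos (j + 1)) (S.Y_anti c (show n ≤ n + 1 by linarith))
  linarith

theorem jm_nonneg (j : ℕ) (c n : ℤ) : 0 ≤ S.jm j c n := by
  unfold jm
  have := Int.ediv_le_ediv (S.Lpos j) (show 2 * n - 2 - S.M c ≤ 2 * n + 2 - S.M c by linarith)
  linarith

theorem jx_anti {j j' : ℕ} (hj : j ≤ j') (c n : ℤ) : S.jx j' c n ≤ S.jx j c n := by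
  obtain ⟨i, rfl⟩ := Nat.exists_eq_add_of_le hj
  unfold jx
  rw [pow_add]
  exact mult_anti (S.ppos j) (S.ppos i) (S.X_mono c (by linarith))

theorem jy_anti {j j' : ℕ} (hj : j ≤ j') (c n : ℤ) : S.jy j' c n ≤ S.jy j c n := by
  obtain ⟨i, rfl⟩ := Nat.exists_eq_add_of_le hj
  unfold jy
  rw [show j + i + 1 = j + 1 + i by ring, pow_add _ (j + 1)]
  exact mult_anti (S.ppos (j + 1)) (S.ppos i) (S.Y_anti c (by linarith))

theorem jm_anti {j j' : ℕ} (hj : j ≤ j') (c n : ℤ) : S.jm j' c n ≤ S.jm j c n := by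
  obtain ⟨i, rfl⟩ := Nat.exists_eq_add_of_le hj
  unfold jm
  rw [pow_add, ← mul_assoc]
  exact mult_anti (S.Lpos j) (S.ppos i) (by linarith)

/-- At level zero there are at most `q` multiples. -/
theorem IsG.jm_zero_le (hS : S.IsG) (c n : ℤ) : S.jm 0 c n ≤ S.q := by
  unfold jm
  rw [pow_zero, mul_one]
  rcases hS.ty with ⟨h, _, h'⟩ | ⟨h, _, h'⟩ | ⟨h, _, h'⟩ | ⟨h, _, h'⟩ <;>
  · rw [h, h']
    obtain ⟨m, hm⟩ := hS.even c
    omega

theorem IsG.jm_le_one (hS : S.IsG) {j : ℕ} (hj : 1 ≤ j) (c n : ℤ) : S.jm j c n ≤ 1 := by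
  refine (jm_anti hj c n).trans ?_
  unfold jm
  rw [pow_one]
  rcases hS.ty with ⟨_, h, h'⟩ | ⟨_, h, h'⟩ | ⟨_, h, h'⟩ | ⟨_, h, h'⟩ <;>
  · rw [h, h']
    omega

theorem IsG.jy_le_one (hS : S.IsG) (j : ℕ) (c n : ℤ) : S.jy j c n ≤ 1 := by
  refine (jy_anti (Nat.zero_le j) c n).trans ?_
  unfold jy
  have h1 : S.Y c (n + 1) = S.Y c n - S.q := by
    unfold Y
    ring
  rw [h1, zero_add, pow_one]
  rcases hS.ty with ⟨h, h', _⟩ | ⟨h, h', _⟩ | ⟨h, h', _⟩ | ⟨h, h', _⟩ <;>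
  · rw [h, h']
    omega

theorem IsG.jx_le_one (hS : S.IsG) {j : ℕ} (hj : 1 ≤ j) (c n : ℤ) : S.jx j c n ≤ 1 := by
  refine (jx_anti hj c n).trans ?_
  unfold jx
  have h1 : S.X c (n + 1) = S.X c n + S.q := by
    unfold X
    ring
  rw [h1, pow_one]
  rcases hS.ty with ⟨h, h', _⟩ | ⟨h, h', _⟩ | ⟨h, h', _⟩ | ⟨h, h', _⟩ <;>
  · rw [h, h']
    omega

/-- Next to the centre the increments are nondecreasing. -/
theorem IsG.mono_near (hS : S.IsG) (ν : ℕ) {z n : ℤ}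
    (hn : n = S.M z / 2 + 1 ∨ n = S.M z / 2 - 2) :
    S.incZ ν z n ≤ S.incZ ν z (n + 1) := by
  have h := hS.incZ_diff ν z n
  have h1 : ∀ j ∈ Finset.range (ν + 1), 0 ≤ S.jx j z n + S.jy j z n - S.jm j z n := by
    intro j _
    rcases Nat.eq_zero_or_pos j with h0 | h0
    · subst h0
      have e1 := S.jx_zero z n
      have e2 := jy_nonneg (S := S) 0 z n
      have e3 := hS.jm_zero_le z n
      linarith
    · have e1 := jx_nonneg (S := S) j z n
      have e2 := jy_nonneg (S := S) j z n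
      have e3 : S.jm j z n ≤ 0 := by
        refine (jm_anti h0 z n).trans ?_
        unfold jm
        rw [show Nat.succ 0 = 1 from rfl, pow_one]
        obtain ⟨m, hm⟩ := hS.even z
        rcases hS.ty with ⟨_, h, h'⟩ | ⟨_, h, h'⟩ | ⟨_, h, h'⟩ | ⟨_, h, h'⟩ <;>
        · rw [h, h', hm]
          rw [hm] at hn
          omega
      linarith
  have h2 := Finset.sum_nonneg h1
  linarith

end Sys

end GH.CombU
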