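import Pool.Agent.GH.CombU.FZST

/-!
# Combinatorics of the hulls, `p = 13`: (K1), (K2), (K3a), (K3b')

A vertex of the child is a vertex of the parent, or it is flat at the parent and the child
contains the centre whose tent starts there.
-/

namespace GH.CombU

open GH.Comb

theorem flatOn_eq {f : ℕ → ℤ} {δ : ℤ → ℤ} (hf : ∀ n : ℕ, f (n + 1) = f n + δ ((n : ℤ) + 1))
    {a b : ℕ} (hF : FlatOn f a b) : ∃ u : ℤ, ∀ k : ℤ, a < k → k ≤ b → δ k = u := by
  obtain ⟨u, hu⟩ := hF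
  refine ⟨u, fun k h1 h2 ↦ ?_⟩
  obtain ⟨m, hm⟩ : ∃ m : ℕ, k = (m : ℤ) + 1 := ⟨(k - 1).toNat, by omega⟩
  have e1 := hu m (by omega) (by omega)
  have e2 := hu (m + 1) (by omega) (by omega)
  have e3 := hf m
  rw [hm]
  rw [e2, e1] at e3
  push_cast at e3
  linarith

/-- A vertex between `a` and `b` is strictly below the chord. -/
theorem isV_lt_chord {f : ℕ → ℤ} {a b n : ℕ} (h : IsV f n) (h1 : a < n) (h2 : n < b) :
    (f n - f a) * ((b : ℤ) - a) < (f b - f a) * ((n : ℤ) - a) := by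
  have := h a b h1 h2
  linarith

namespace Sys

variable {S : Sys}

/-- Flat at the parent and no centre of the class inside: flat at the child. -/
theorem flat_child {ν a b : ℕ} {c : ℤ} {l : ℚ} (hB : Block (S.FZ (ν + 1) c) a b l)
    (hno : ∀ z : ℤ, S.p ^ (ν + 1) ∣ z - c → 2 * (a : ℤ) + 2 ≤ S.M z → S.M z ≤ 2 * b → False)
    (hF : FlatOn (S.FZ ν c) a b) : FlatOn (S.FZ (ν + 1) c) a b := by
  obtain ⟨u, hu⟩ := flatOn_eq (δ := S.incZ ν c) (S.FZ_step ν c) hF
  refine flat_of_mono (δ := S.incZ (ν + 1) c) (S.FZ_step (ν + 1) c) hB ?_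
  intro k k' h1 h2 h3
  have e1 := S.N_mono hno h1 h2 h3
  rw [S.incZ_succ, S.incZ_succ, hu k h1 (h2.trans h3), hu k' (h1.trans_le h2) h3]
  linarith

theorem IsF.st (hS : S.IsF) (c : ℤ) (ν : ℕ) : ∀ (a b : ℕ) (l : ℚ), Block (S.FZ ν c) a b l →
    (∃ u : ℤ, l = u) ∧
      ((∃ (s : ℕ) (z : ℤ), s ≤ ν ∧ S.Cert s c a b z) ∨ FlatOn (S.FZ ν c) a b) := by
  induction ν with
  | zero =>
    intro a b l hB
    by_cases hex : ∃ z : ℤ, S.p ^ 0 ∣ z - c ∧ 2 * (a : ℤ) + 2 ≤ S.M z ∧ S.M z ≤ 2 * b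
    · obtain ⟨z, h1, h2, h3⟩ := hex
      obtain ⟨h4, h5⟩ := hS.cert_top hB h1 h2 h3
      exact ⟨h4, h5.imp (fun h ↦ ⟨0, z, le_rfl, h⟩) id⟩
    · have hno : ∀ z : ℤ, S.p ^ 0 ∣ z - c → 2 * (a : ℤ) + 2 ≤ S.M z → S.M z ≤ 2 * b →
          False := fun z h1 h2 h3 ↦ hex ⟨z, h1, h2, h3⟩
      have hF : FlatOn (S.FZ 0 c) a b := by
        refine flat_of_mono (δ := S.incZ 0 c) (S.FZ_step 0 c) hB ?_
        intro k k' h1 h2 h3
        rw [S.incZ_zero, S.incZ_zero]
        exact S.N_mono hno h1 h2 h3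
      obtain ⟨u, hu, _⟩ := hF.slope hB
      exact ⟨⟨u, hu⟩, Or.inr hF⟩
  | succ ν ih =>
    intro a b l hB
    by_cases hex : ∃ z : ℤ, S.p ^ (ν + 1) ∣ z - c ∧ 2 * (a : ℤ) + 2 ≤ S.M z ∧ S.M z ≤ 2 * b
    · obtain ⟨z, h1, h2, h3⟩ := hex
      obtain ⟨h4, h5⟩ := hS.cert_top hB h1 h2 h3
      exact ⟨h4, h5.imp (fun h ↦ ⟨ν + 1, z, le_rfl, h⟩) id⟩
    have hno : ∀ z : ℤ, S.p ^ (ν + 1) ∣ z - c → 2 * (a : ℤ) + 2 ≤ S.M z → S.M z ≤ 2 * b →
        False := fun z h1 h2 h3 ↦ hex ⟨z, h1, h2, h3⟩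
    have hab := hB.lt
    -- flat is inherited
    have hfl : FlatOn (S.FZ ν c) a b → (∃ u : ℤ, l = u) ∧
        ((∃ (s : ℕ) (z : ℤ), s ≤ ν + 1 ∧ S.Cert s c a b z) ∨ FlatOn (S.FZ (ν + 1) c) a b) := by
      intro hF
      have hF' := flat_child hB hno hF
      obtain ⟨u, hu, _⟩ := hF'.slope hB
      exact ⟨⟨u, hu⟩, Or.inr hF'⟩
    have h0 : ∀ (a b : ℕ) (l : ℚ), Block (S.FZ ν c) a b l →
        NForm (S.FZ ν c) (S.FZ (ν + 1) c) a b ∨ FlatOn (S.FZ ν c) a b := by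
      intro a b l hB'
      obtain ⟨_, h | h⟩ := ih a b l hB'
      · obtain ⟨s, z, hs, hC⟩ := h
        exact Or.inl (S.nformZ hC (by omega))
      · exact Or.inr h
    -- `N (ν + 1)` is below its chord
    have hch : ∀ k : ℕ, a < k → k ≤ b →
        (S.NN (ν + 1) c k - S.NN (ν + 1) c a) * ((b : ℤ) - a) ≤
          (S.NN (ν + 1) c b - S.NN (ν + 1) c a) * ((k : ℤ) - a) := fun k h1 h2 ↦
      below_chord (g := S.NN (ν + 1) c) (δ := S.N (ν + 1) c) (S.NN_step (ν + 1) c)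
        (fun k k' h1 h2 h3 ↦ S.N_mono hno h1 h2 h3) h1 h2
    -- no vertex of the parent strictly inside
    have hnv : ∀ k : ℕ, a < k → k < b → ¬ IsV (S.FZ ν c) k := by
      intro k h1 h2 hV
      have e1 := isV_lt_chord hV h1 h2
      have e2 := hch k h1 h2.le
      have e3 := block_ge hB k
      rw [S.FZ_succ, S.FZ_succ, S.FZ_succ] at e3
      linarith
    rcases isV_of_childF (hS.grows ν c) h0 hB.isV_left with va | ⟨A0, B0, l0, hB0, hF0, h1, h2⟩
    · rcases isV_of_childF (hS.grows ν c) h0 hB.isV_right with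
        vb | ⟨A0, B0, l0, hB0, hF0, h1, h2⟩
      · obtain ⟨l', hB'⟩ := block_of_isV (f := S.FZ ν c) hab va vb (by
          intro k hak hkb
          have e1 := block_ge hB k
          have e2 := hch k hak hkb.le
          rw [S.FZ_succ, S.FZ_succ, S.FZ_succ] at e1
          linarith)
        obtain ⟨⟨u, hu⟩, h | h⟩ := ih a b l' hB'
        swap
        · exact hfl h
        obtain ⟨s, z, hs, hC⟩ := h
        refine ⟨?_, Or.inl ⟨s, z, by omega, hC⟩⟩
        obtain ⟨E, θ, _, hN⟩ := S.nformZ hC (show s ≤ ν + 1 by omega)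
        have e1 := NForm.end (f0 := S.FZ ν c) (f1 := S.FZ (ν + 1) c) (show a ≤ b by omega) hN
        have e2 := chord_eq hB' hu
        have e3 := hB.eq
        refine ⟨u + E, ?_⟩
        have e4 : ((b : ℚ) - a) ≠ 0 := by
          have : (a : ℚ) < b := by exact_mod_cast (show a < b by omega)
          intro h
          linarith
        have e5 : ((S.FZ (ν + 1) c b : ℤ) : ℚ) =
            ((S.FZ (ν + 1) c a + (u + E) * ((b : ℤ) - a) : ℤ) : ℚ) := by
          rw [e1, e2]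
          push_cast
          ring
        rw [e3] at e5
        push_cast at e5 ⊢
        apply mul_right_cancel₀ e4
        linarith
      · apply hfl
        refine hF0.mono ?_ h2.le
        by_contra hc
        exact hnv A0 (by omega) h1 hB0.isV_left
    · apply hfl
      refine hF0.mono h1.le ?_
      by_contra hc
      exact hnv B0 h2 (by omega) hB0.isV_right

theorem IsF.int_slope (hS : S.IsF) (ν : ℕ) (c : ℤ) (a b : ℕ) (l : ℚ)
    (hB : Block (S.FZ ν c) a b l) : ∃ u : ℤ, l = u := (hS.st c ν a b l hB).1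

theorem IsF.nform0 (hS : S.IsF) (ν : ℕ) (c : ℤ) (a b : ℕ) (l : ℚ)
    (hB : Block (S.FZ ν c) a b l) :
    NForm (S.FZ ν c) (S.FZ (ν + 1) c) a b ∨ FlatOn (S.FZ ν c) a b := by
  obtain ⟨_, h | h⟩ := hS.st c ν a b l hB
  · obtain ⟨s, z, hs, hC⟩ := h
    exact Or.inl (S.nformZ hC (by omega))
  · exact Or.inr h

theorem IsF.nform1 (hS : S.IsF) (ν : ℕ) (c : ℤ) (a b : ℕ) (l : ℚ)
    (hB : Block (S.FZ (ν + 1) c) a b l) :
    NForm (S.FZ ν c) (S.FZ (ν + 1) c) a b ∨ FlatOn (S.FZ (ν + 1) c) a b := by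
  obtain ⟨_, h | h⟩ := hS.st c (ν + 1) a b l hB
  · obtain ⟨s, z, hs, hC⟩ := h
    exact Or.inl (S.nformZ hC hs)
  · exact Or.inr h

/-! ### The local formula -/

theorem ediv_succ {P : ℤ} (hP : 0 < P) (x : ℤ) :
    (x + 1) / P - x / P = if P ∣ x + 1 then 1 else 0 := by
  split_ifs with h
  · obtain ⟨u, hu⟩ := h
    have h1 : x = P * u - 1 := by linarith
    rw [hu, Int.mul_ediv_cancel_left _ hP.ne', h1]
    have : (P * u - 1) / P = u - 1 := by
      apply ediv_eq_of <;> linarith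
    rw [this]
    ring
  · have h1 : x / P = (x + 1) / P := by
      apply ediv_eq_of_no hP (by linarith)
      intro t ht h1 h2
      have : t = x + 1 := by omega
      exact h (this ▸ ht)
    rw [h1]
    ring

/-- The four indicators. -/
def ix (S : Sys) (j : ℕ) (c n : ℤ) : ℤ := if S.p ^ j ∣ S.X c (n + 1) then 1 else 0

/-- The four indicators. -/
def iy (S : Sys) (j : ℕ) (c n : ℤ) : ℤ := if S.p ^ (j + 1) ∣ S.Y c n then 1 else 0

/-- The four indicators. -/
def im (S : Sys) (j : ℕ) (c n : ℤ) : ℤ :=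
  (if S.M1 * S.p ^ j ∣ 2 * n + 2 - S.M c then 1 else 0) +
    (if S.M1 * S.p ^ j ∣ 2 * n - S.M c then 1 else 0)

theorem IsF.N_local (hS : S.IsF) (j : ℕ) (c n : ℤ) :
    S.N j c (n + 1) - S.N j c n = S.ix j c n + S.iy j c n -
      ((if S.M1 * S.p ^ j ∣ 2 * n + 2 - S.M c then 1 else 0) +
        (if S.M1 * S.p ^ j ∣ 2 * n + 1 - S.M c then 1 else 0)) -
      ((if S.M1 * S.p ^ j ∣ 2 * n + 1 - S.M c then 1 else 0) +
        (if S.M1 * S.p ^ j ∣ 2 * n - S.M c then 1 else 0)) := by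
  have h1 := ediv_succ (S.ppos j) (S.X c n)
  have h2 := ediv_succ (S.ppos (j + 1)) (S.Y c n - 1)
  have h3 := ediv_succ (S.Lpos j) (2 * n - S.M c)
  have h4 := ediv_succ (S.Lpos j) (2 * n + 1 - S.M c)
  have h5 := ediv_succ (S.Lpos j) (2 * n - 1 - S.M c)
  unfold N ix iy
  rw [hS.X_succ, hS.Y_succ]
  rw [sub_add_cancel] at h2
  have e1 : 2 * (n + 1) - S.M c = 2 * n + 1 - S.M c + 1 := by ring
  have e2 : 2 * n + 1 - S.M c + 1 - 1 = 2 * n - S.M c + 1 := by ring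
  have e3 : 2 * n - S.M c - 1 = 2 * n - 1 - S.M c := by ring
  have e4 : 2 * n - 1 - S.M c + 1 = 2 * n - S.M c := by ring
  have e5 : 2 * n - S.M c + 1 = 2 * n + 1 - S.M c := by ring
  have e6 : 2 * n + 1 - S.M c + 1 = 2 * n + 2 - S.M c := by ring
  rw [e1, e2, e3]
  rw [e4] at h5
  rw [e5] at h3
  rw [e6] at h4
  rw [e5, e6]
  linarith

theorem IsF.N_local' (hS : S.IsF) (j : ℕ) (c n : ℤ) :
    S.N j c (n + 1) - S.N j c n = S.ix j c n + S.iy j c n - S.im j c n := by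
  have h := hS.N_local j c n
  have h1 : ¬ S.M1 * S.p ^ j ∣ 2 * n + 1 - S.M c := by
    intro hd
    have h2 : (2 : ℤ) ∣ 2 * n + 1 - S.M c := by
      refine dvd_trans ?_ hd
      rw [hS.m14]
      exact Dvd.dvd.mul_right (by norm_num) _
    obtain ⟨u, hu⟩ := hS.even c
    omega
  rw [if_neg h1] at h
  unfold im
  linarith

theorem IsF.ix_zero (_ : S.IsF) (c n : ℤ) : S.ix 0 c n = 1 := by
  unfold ix
  simp

theorem ix_nonneg (j : ℕ) (c n : ℤ) : 0 ≤ S.ix j c n := by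
  unfold ix
  split_ifs <;> norm_num

theorem iy_nonneg (j : ℕ) (c n : ℤ) : 0 ≤ S.iy j c n := by
  unfold iy
  split_ifs <;> norm_num

theorem im_nonneg (j : ℕ) (c n : ℤ) : 0 ≤ S.im j c n := by
  unfold im
  split_ifs <;> norm_num

theorem ix_le_one (j : ℕ) (c n : ℤ) : S.ix j c n ≤ 1 := by
  unfold ix
  split_ifs <;> norm_num

theorem iy_le_one (j : ℕ) (c n : ℤ) : S.iy j c n ≤ 1 := by
  unfold iy
  split_ifs <;> norm_num

theorem IsF.im_le_one (hS : S.IsF) (j : ℕ) (c n : ℤ) : S.im j c n ≤ 1 := by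
  unfold im
  split_ifs with h1 h2
  · exfalso
    have h3 := dvd_sub h1 h2
    have h4 : (14 : ℤ) ∣ 2 * n + 2 - S.M c - (2 * n - S.M c) := by
      refine dvd_trans ?_ h3
      rw [hS.m14]
      exact dvd_mul_right _ _
    omega
  · norm_num
  · norm_num
  · norm_num

/-- The middle indicator at level zero. -/
theorem IsF.im_zero (hS : S.IsF) {c n : ℤ} (h : 1 ≤ S.im 0 c n) :
    (14 : ℤ) ∣ 2 * n + 2 - S.M c ∨ (14 : ℤ) ∣ 2 * n - S.M c := by
  unfold im at h
  rw [pow_zero, mul_one, hS.m14] at h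
  by_contra hc
  push Not at hc
  rw [if_neg hc.1, if_neg hc.2] at h
  norm_num at h

theorem im_anti {j j' : ℕ} (hj : j ≤ j') (c n : ℤ) : S.im j' c n ≤ S.im j c n := by
  unfold im
  have h : S.M1 * S.p ^ j ∣ S.M1 * S.p ^ j' := mul_dvd_mul_left _ (pow_dvd_pow _ hj)
  have h1 : S.M1 * S.p ^ j' ∣ 2 * n + 2 - S.M c → S.M1 * S.p ^ j ∣ 2 * n + 2 - S.M c := h.trans
  have h2 : S.M1 * S.p ^ j' ∣ 2 * n - S.M c → S.M1 * S.p ^ j ∣ 2 * n - S.M c := h.trans
  split_ifs <;> first | (exfalso; tauto) | norm_num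

theorem ix_anti {j j' : ℕ} (hj : j ≤ j') (c n : ℤ) : S.ix j' c n ≤ S.ix j c n := by
  unfold ix
  have h : S.p ^ j' ∣ S.X c (n + 1) → S.p ^ j ∣ S.X c (n + 1) := (pow_dvd_pow _ hj).trans
  split_ifs <;> first | (exfalso; tauto) | norm_num

theorem iy_anti {j j' : ℕ} (hj : j ≤ j') (c n : ℤ) : S.iy j' c n ≤ S.iy j c n := by
  unfold iy
  have h : S.p ^ (j' + 1) ∣ S.Y c n → S.p ^ (j + 1) ∣ S.Y c n :=
    (pow_dvd_pow _ (by omega)).trans
  split_ifs <;> first | (exfalso; tauto) | norm_num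

theorem IsF.incZ_diff (hS : S.IsF) (ν : ℕ) (c n : ℤ) :
    S.incZ ν c (n + 1) - S.incZ ν c n =
      ∑ j ∈ Finset.range (ν + 1), (S.ix j c n + S.iy j c n - S.im j c n) := by
  unfold incZ
  rw [← Finset.sum_sub_distrib]
  exact Finset.sum_congr rfl fun j _ ↦ hS.N_local' j c n

/-- A flat place is next to a centre at the root. -/
theorem IsF.im_of_flat (hS : S.IsF) {ν : ℕ} {c n : ℤ}
    (h : S.incZ ν c (n + 1) ≤ S.incZ ν c n) : 1 ≤ S.im 0 c n := by
  by_contra hc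
  have h1 := hS.incZ_diff ν c n
  rw [Finset.sum_range_succ'] at h1
  have h2 : 0 ≤ ∑ j ∈ Finset.range ν, (S.ix (j + 1) c n + S.iy (j + 1) c n
      - S.im (j + 1) c n) := by
    apply Finset.sum_nonneg
    intro j _
    have e1 := ix_nonneg (S := S) (j + 1) c n
    have e2 := iy_nonneg (S := S) (j + 1) c n
    have e3 := im_anti (S := S) (Nat.zero_le (j + 1)) c n
    have e4 := im_nonneg (S := S) 0 c n
    omega
  have e1 := hS.ix_zero c n
  have e2 := iy_nonneg (S := S) 0 c n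
  have e4 := im_nonneg (S := S) 0 c n
  omega

/-- All terms vanish when the class contains the centre whose tent starts at `n`. -/
theorem IsF.terms_zero (hS : S.IsF) {ν : ℕ} {c n : ℤ}
    (h : S.incZ ν c (n + 1) ≤ S.incZ ν c n) (hx : S.ix ν c n = 1) :
    ∀ j ≤ ν, S.ix j c n + S.iy j c n - S.im j c n = 0 := by
  have h1 := hS.incZ_diff ν c n
  have h2 : ∀ j ∈ Finset.range (ν + 1), 0 ≤ S.ix j c n + S.iy j c n - S.im j c n := by
    intro j hj
    have hj' : j ≤ ν := by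
      have := Finset.mem_range.1 hj
      omega
    have e1 := ix_anti (S := S) hj' c n
    have e2 := iy_nonneg (S := S) j c n
    have e3 := hS.im_le_one j c n
    omega
  have h3 : ∑ j ∈ Finset.range (ν + 1), (S.ix j c n + S.iy j c n - S.im j c n) = 0 :=
    le_antisymm (by linarith) (Finset.sum_nonneg h2)
  intro j hj
  exact (Finset.sum_eq_zero_iff_of_nonneg h2).1 h3 j (Finset.mem_range.2 (by omega))

theorem IsF.incZ_eq_of_terms (hS : S.IsF) {ν : ℕ} {c n : ℤ}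
    (h : ∀ j ≤ ν, S.ix j c n + S.iy j c n - S.im j c n = 0) :
    S.incZ ν c (n + 1) = S.incZ ν c n := by
  have h1 := hS.incZ_diff ν c n
  rw [Finset.sum_eq_zero (fun j hj ↦ h j (by have := Finset.mem_range.1 hj; omega))] at h1
  linarith

/-- Flat at the parent and not at the child: the child contains the centre whose tent starts at
`n`, and `n` is flat at the root. -/
theorem IsF.flat_step (hS : S.IsF) {ν : ℕ} {c n : ℤ}
    (h0 : S.incZ ν c (n + 1) ≤ S.incZ ν c n)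
    (h1 : S.incZ (ν + 1) c n < S.incZ (ν + 1) c (n + 1)) :
    S.p ^ (ν + 1) ∣ S.X c (n + 1) ∧ S.incZ 0 c (n + 1) = S.incZ 0 c n := by
  have e0 := hS.incZ_diff (ν + 1) c n
  rw [Finset.sum_range_succ, ← hS.incZ_diff ν c n] at e0
  have hy : S.iy (ν + 1) c n = 0 := by
    by_contra hc
    have hy1 : S.iy (ν + 1) c n = 1 := by
      have a1 := iy_nonneg (S := S) (ν + 1) c n
      have a2 := iy_le_one (S := S) (ν + 1) c n
      omega
    have e1 := hS.incZ_diff ν c n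
    rw [Finset.sum_range_succ'] at e1
    have h2 : 0 ≤ ∑ j ∈ Finset.range ν, (S.ix (j + 1) c n + S.iy (j + 1) c n
        - S.im (j + 1) c n) := by
      apply Finset.sum_nonneg
      intro j hj
      have hj' : j + 1 ≤ ν + 1 := by
        have := Finset.mem_range.1 hj
        omega
      have a1 := ix_nonneg (S := S) (j + 1) c n
      have a2 := iy_anti (S := S) hj' c n
      have a3 := hS.im_le_one (j + 1) c n
      omega
    have a1 := hS.ix_zero c n
    have a2 := iy_anti (S := S) (Nat.zero_le (ν + 1)) c n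
    have a3 := hS.im_le_one 0 c n
    omega
  have hx : S.ix (ν + 1) c n = 1 := by
    have a1 := ix_nonneg (S := S) (ν + 1) c n
    have a2 := ix_le_one (S := S) (ν + 1) c n
    have a3 := im_nonneg (S := S) (ν + 1) c n
    omega
  have hx' : S.ix ν c n = 1 := by
    have a1 := ix_anti (S := S) (Nat.le_succ ν) c n
    have a2 := ix_le_one (S := S) ν c n
    have a3 : S.ix (Nat.succ ν) c n = S.ix (ν + 1) c n := rfl
    omega
  refine ⟨?_, ?_⟩
  · by_contra hc
    unfold ix at hx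
    rw [if_neg hc] at hx
    norm_num at hx
  · exact hS.incZ_eq_of_terms (ν := 0)
      (fun j hj ↦ hS.terms_zero h0 hx' j (by omega))

theorem isV_incZ {ν n : ℕ} {c : ℤ} (hn : 1 ≤ n) (h : IsV (S.FZ ν c) n) :
    S.incZ ν c n < S.incZ ν c ((n : ℤ) + 1) := by
  obtain ⟨m, rfl⟩ : ∃ m, n = m + 1 := ⟨n - 1, by omega⟩
  have h1 := h m (m + 2) (by omega) (by omega)
  have h2 := S.FZ_step ν c m
  have h3 := S.FZ_step ν c (m + 1)
  rw [show m + 2 = m + 1 + 1 from rfl, h3, h2] at h1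
  push_cast at h1 ⊢
  linarith

theorem flat_incZ {ν a b n : ℕ} {c : ℤ} (hF : FlatOn (S.FZ ν c) a b) (h1 : a < n) (h2 : n < b) :
    S.incZ ν c ((n : ℤ) + 1) = S.incZ ν c n := by
  obtain ⟨u, hu⟩ := flatOn_eq (δ := S.incZ ν c) (S.FZ_step ν c) hF
  rw [hu _ (by omega) (by omega), hu _ (by omega) (by omega)]

/-- (K3b'). -/
theorem IsF.k3b (hS : S.IsF) {ν n : ℕ} {c : ℤ} (h1 : IsV (S.FZ (ν + 1) c) n) :
    IsV (S.FZ ν c) n ∨ (¬ IsV (S.FZ 0 c) n ∧ S.p ^ (ν + 1) ∣ (n : ℤ) + S.e - c ∧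
      ∃ (a b : ℕ) (l : ℚ), Block (S.FZ ν c) a b l ∧ FlatOn (S.FZ ν c) a b ∧ a < n ∧ n < b) := by
  rcases isV_of_childF (hS.grows ν c) (hS.nform0 ν c) h1 with h | ⟨a, b, l, hB, hF, h2, h3⟩
  · exact Or.inl h
  · right
    have e1 := isV_incZ (by omega) h1
    have e2 := flat_incZ hF h2 h3
    obtain ⟨e3, e4⟩ := hS.flat_step e2.le e1
    refine ⟨fun h ↦ ?_, ?_, a, b, l, hB, hF, h2, h3⟩
    · have e5 := isV_incZ (by omega) h
      omega
    · have e5 : S.X c ((n : ℤ) + 1) = (n : ℤ) + S.e - c := by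
        unfold X
        rw [hS.q1]
        ring
      rwa [e5] at e3

/-- On the path to the centre whose tent starts at `n`, a vertex remains a vertex. -/
theorem IsF.down (hS : S.IsF) {ν n : ℕ} (h0 : IsV (S.FZ ν ((n : ℤ) + S.e)) n) :
    IsV (S.FZ (ν + 1) ((n : ℤ) + S.e)) n := by
  by_contra hc
  obtain ⟨a, b, l, h1, h2, hB⟩ := block_of_not_isV (hS.grows (ν + 1) _) hc
  obtain ⟨_, ⟨s, z, hs, hC⟩ | hF⟩ := hS.st _ _ a b l hB
  · -- a multiple of `p^s` in the window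
    obtain ⟨hd, hmid, hnk, _⟩ := hC
    have e1 : S.Y z b < S.X z ((n : ℤ) + 1) := by
      have : S.X z (S.M z - b) = S.Y z b := S.X_refl z b
      rw [← this]
      unfold X
      rw [hS.q1]
      omega
    have e2 : S.X z ((n : ℤ) + 1) ≤ S.X z b := S.X_mono z (by omega)
    have e3 : S.p ^ s ∣ S.X z ((n : ℤ) + 1) := by
      have : S.X z ((n : ℤ) + 1) = -(z - ((n : ℤ) + S.e)) := by
        unfold X
        rw [hS.q1]
        ring
      rw [this]
      exact (dvd_neg).2 hd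
    have := ediv_lt_of_dvd (S.ppos s) e3 e1 e2
    omega
  · have e1 := flat_incZ hF h1 h2
    have hX : S.X ((n : ℤ) + S.e) ((n : ℤ) + 1) = 0 := by
      unfold X
      rw [hS.q1]
      ring
    have hx : S.ix (ν + 1) ((n : ℤ) + S.e) n = 1 := by
      unfold ix
      rw [hX, if_pos (dvd_zero _)]
    have e2 := hS.incZ_eq_of_terms (ν := ν)
      (fun j hj ↦ hS.terms_zero e1.le hx j (by omega))
    have e3 := isV_incZ (by omega) h0
    omega

/-! ### Vertices within a bounded distance -/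

/-- The right end of a block is bounded in terms of the left end. -/
theorem IsF.block_end_le (hS : S.IsF) {ν a b : ℕ} {c : ℤ} {l : ℚ} (hB : Block (S.FZ ν c) a b l) :
    (b : ℤ) ≤ S.p * ((a : ℤ) + 1) + S.M1 * (S.e - 1) + S.M0 ∨ b ≤ a + 3 := by
  obtain ⟨_, ⟨s, z, hs, hC⟩ | hF⟩ := hS.st c ν a b l hB
  · left
    obtain ⟨_, hmid, hnk, _⟩ := hC
    have hlt := hB.lt
    have hps := S.ppos s
    have hpq := S.hpq
    have hp := S.hp
    have hX : 0 ≤ S.X z b := by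
      by_contra hc
      push Not at hc
      unfold X at hc
      have h1 : S.q * b + S.e ≤ z := by linarith
      have h2 : S.M1 * (S.q * b + S.e) ≤ S.M1 * z := mul_le_mul_of_nonneg_left h1 S.hM1.le
      have h3 : S.M1 * z + S.M0 = a + b + 1 := by rw [hmid]; rfl
      have h4 : S.M1 * (S.q * b + S.e) = (S.p + 1) * b + S.M1 * S.e := by rw [hpq]; ring
      have h5 : 3 * (b : ℤ) ≤ (S.p + 1) * b :=
        mul_le_mul_of_nonneg_right (by linarith) (Int.natCast_nonneg b)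
      have h6 := S.he0
      omega
    have hY : 0 ≤ S.Y z b := by
      by_contra hc
      push Not at hc
      have h1 : S.Y z b / S.p ^ s < 0 := Int.ediv_lt_of_lt_mul hps (by linarith)
      have h2 : 0 ≤ S.X z b / S.p ^ s := Int.ediv_nonneg hX hps.le
      omega
    have h1 : S.M z - b = (a : ℤ) + 1 := by linarith
    unfold Y at hY
    rw [h1] at hY
    have h2 : z ≤ S.q * ((a : ℤ) + 1) + S.e - 1 := by linarith
    have h3 : S.M1 * z ≤ S.M1 * (S.q * ((a : ℤ) + 1) + S.e - 1) :=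
      mul_le_mul_of_nonneg_left h2 S.hM1.le
    have h4 : S.M1 * (S.q * ((a : ℤ) + 1) + S.e - 1) =
        (S.p + 1) * ((a : ℤ) + 1) + S.M1 * (S.e - 1) := by
      rw [hpq]; ring
    have h5 : S.M1 * z + S.M0 = a + b + 1 := by rw [hmid]; rfl
    linarith
  · right
    by_contra hc
    push Not at hc
    have k1 := hS.im_zero (hS.im_of_flat
      (flat_incZ (n := a + 1) hF (by omega) (by omega)).le)
    have k2 := hS.im_zero (hS.im_of_flat
      (flat_incZ (n := a + 2) hF (by omega) (by omega)).le)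
    have k3 := hS.im_zero (hS.im_of_flat
      (flat_incZ (n := a + 3) hF (by omega) (by omega)).le)
    push_cast at k1 k2 k3
    omega

/-- A strict vertex within a bounded distance, uniformly in the node. -/
theorem IsF.near (hS : S.IsF) (n : ℕ) : ∃ Q : ℕ, ∀ (ν : ℕ) (c : ℤ), ∃ b : ℕ, n ≤ b ∧ b ≤ Q ∧
    IsV (S.FZ ν c) b := by
  refine ⟨n + 3 + (S.p * ((n : ℤ) + 1) + S.M1 * (S.e - 1) + S.M0).toNat, ?_⟩
  intro ν c
  by_cases hn : IsV (S.FZ ν c) n
  · exact ⟨n, le_rfl, by omega, hn⟩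
  · obtain ⟨a, b, l, han, hnb, hB⟩ := block_of_not_isV (hS.grows ν c) hn
    refine ⟨b, hnb.le, ?_, hB.isV_right⟩
    rcases hS.block_end_le hB with h1 | h1
    · have h2 : S.p * ((a : ℤ) + 1) ≤ S.p * ((n : ℤ) + 1) :=
        mul_le_mul_of_nonneg_left (by omega) S.hp0.le
      omega
    · omega

/-- At the leaf `z` the hull is a line on `[t, M - 1 - t]`. -/
theorem IsF.leaf (hS : S.IsF) {z : ℤ} {t y : ℕ} (ht : z - S.e = t)
    (hy : (t : ℤ) + y + 1 = S.M z) (hty : t ≤ y) : ∃ K : ℕ, ∀ ν : ℕ, K ≤ ν →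
      2 * (S.FZ ν z y - S.FZ ν z t) = (S.M z + 2 * S.e - 2 * z - 2) * ((y : ℤ) - t) := by
  refine ⟨(S.X z y).toNat, ?_⟩
  intro ν hν
  have hT : S.X z y < S.p ^ (ν + 1) := by
    have h1 : (ν : ℤ) + 1 ≤ S.p ^ (ν + 1) := by
      have h2 : (ν + 1 : ℕ) < 2 ^ (ν + 1) := Nat.lt_two_pow_self
      have h3 : ((2 : ℤ)) ^ (ν + 1) ≤ S.p ^ (ν + 1) :=
        pow_le_pow_left₀ (by norm_num) (by have := S.hp; linarith) _
      have h4 : ((ν + 1 : ℕ) : ℤ) < 2 ^ (ν + 1) := by exact_mod_cast h2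
      push_cast at h4
      linarith
    omega
  have hge : ∀ k : ℤ, (t : ℤ) + 1 ≤ k → 0 ≤ S.X z k := by
    intro k hk
    unfold X
    rw [hS.q1]
    omega
  have key := refl_eq' (v := S.incZ ν z) (M := S.M z)
    (G := S.M z + 2 * S.e - 2 * z - 2) (S.FZ_step ν z) (y - t) t y (by omega) hy
    (by
      intro k hk hky
      rw [S.incZ_add ν z k]
      have h1 : S.X z k / S.p ^ (ν + 1) = 0 :=
        Int.ediv_eq_zero_of_lt (hge k (by omega)) ((S.X_mono z hky).trans_lt hT)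
      have h2 : S.Y z k / S.p ^ (ν + 1) = 0 := by
        rw [← X_refl]
        exact Int.ediv_eq_zero_of_lt (hge _ (by omega))
          ((S.X_mono z (show S.M z - k ≤ y by omega)).trans_lt hT)
      have h3 := S.X_add_Y z k
      rw [hS.q1, one_mul] at h3
      rw [h1, h2]
      linarith)
  linarith

end Sys

end GH.CombU
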