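import Pool.Agent.GH.CombU.FG
import Pool.Agent.GH.CombU.FZK

/-!
# Combinatorics of the hulls, the pairs `(p, N)` of genus zero: structure theorem, (K1), (K2),
(K3a), (K3b'), vertices within a bounded distance, leaves
-/

namespace GH.CombU

open GH.Comb

namespace Sys

variable {S : Sys}

/-- A block with a centre of its class inside, when the window next to the centre contains no
multiple of `p^ν`. -/
theorem IsG.block_centre (hS : S.IsG) {ν a b : ℕ} {c z : ℤ} {l : ℚ}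
    (hB : Block (S.FZ ν c) a b l) (hz : S.p ^ ν ∣ z - c) (ha : 2 * (a : ℤ) + 2 ≤ S.M z)
    (hb : S.M z ≤ 2 * b) (hA : ¬ S.W ν z (S.M z / 2 + 1)) :
    (a : ℤ) + b + 1 = S.M z ∧ (∃ u : ℤ, l = u) ∧ S.X z b / S.p ^ ν = S.Y z b / S.p ^ ν := by
  have hF : S.FZ ν c = S.FZ ν z := funext fun n ↦ (S.FZ_congr hz n).symm
  rw [hF] at hB
  obtain ⟨u, hu⟩ := hS.even z
  have dich : ∀ k, S.M z ≤ 2 * k → (S.W ν z k ∧ 2 * S.gZ ν z < 2 * S.incZ ν z k ∧
      2 * S.incZ ν z (S.M z - k) < 2 * S.gZ ν z) ∨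
      (¬ S.W ν z k ∧ S.incZ ν z k + S.incZ ν z (S.M z - k) = 2 * S.gZ ν z) := by
    intro k hk
    by_cases hW : S.W ν z k
    · left
      have hR : 4 ≤ 2 * k - S.M z := by
        by_contra hc
        have : k ≤ S.M z / 2 + 1 := by omega
        exact hA (S.W_mono this hW)
      have := hS.strict hW (Or.inr ⟨hR, hA⟩)
      refine ⟨hW, ?_, ?_⟩ <;> linarith
    · exact Or.inr ⟨hW, hS.add_eq hk hW⟩
  obtain ⟨h1, h2, h3⟩ := block_sym (v := S.incZ ν z) (W := S.W ν z) (M := S.M z)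
    (G := 2 * S.gZ ν z) (S.FZ_step ν z) dich (fun k k' _ h hW ↦ S.W_mono h hW) (S.W_top ν z)
    hB ha hb
  refine ⟨h1, ⟨S.gZ ν z, ?_⟩, S.X_eq_Y_of_not_W hb h3⟩
  push_cast at h2
  linarith

/-- A block with a centre of its class inside, when the window next to the centre contains a
multiple of `p^ν`. -/
theorem IsG.block_flat (hS : S.IsG) {ν a b : ℕ} {c z : ℤ} {l : ℚ}
    (hB : Block (S.FZ ν c) a b l) (hz : S.p ^ ν ∣ z - c) (ha : 2 * (a : ℤ) + 2 ≤ S.M z)
    (hb : S.M z ≤ 2 * b) (hA : S.W ν z (S.M z / 2 + 1)) : FlatOn (S.FZ ν c) a b := by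
  have hF : S.FZ ν c = S.FZ ν z := funext fun n ↦ (S.FZ_congr hz n).symm
  rw [hF] at hB ⊢
  obtain ⟨u, hu⟩ := hS.even z
  obtain ⟨K, hK⟩ : ∃ K : ℕ, S.M z / 2 = K + 1 := ⟨(S.M z / 2 - 1).toNat, by omega⟩
  have hMK : S.M z = 2 * (K + 1) := by omega
  have hmid := hS.incZ_mid ν z
  rw [hK] at hmid
  have hw2 := hS.weak hA
  have hW3 : S.W ν z (S.M z / 2 + 2) := S.W_mono (by omega) hA
  have hw3 := hS.weak hW3
  have hm2 := hS.mono_near ν (z := z) (n := S.M z / 2 + 1) (Or.inl rfl)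
  have hm3 := hS.mono_near ν (z := z) (n := S.M z / 2 - 2) (Or.inr rfl)
  rw [hK] at hw2 hw3 hm2 hm3
  have q1 : (K : ℤ) + 1 + 1 = K + 2 := by ring
  have q2 : (K : ℤ) + 1 + 2 = K + 3 := by ring
  have q3 : S.M z - ((K : ℤ) + 1 + 1) = K := by omega
  have q4 : S.M z - ((K : ℤ) + 1 + 2) = K - 1 := by omega
  have q5 : (K : ℤ) + 1 + 1 + 1 = K + 3 := by ring
  have q6 : (K : ℤ) + 1 - 2 + 1 = K := by ring
  have q7 : (K : ℤ) + 1 - 2 = K - 1 := by ring
  rw [q3, q1] at hw2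
  rw [q4, q2] at hw3
  rw [q5, q1] at hm2
  rw [q6, q7] at hm3
  have hst : ∀ k : ℤ, (K : ℤ) + 4 ≤ k → S.gZ ν z < S.incZ ν z k ∧
      S.incZ ν z (S.M z - k) < S.gZ ν z := by
    intro k hk
    exact hS.strict (S.W_mono (by omega) hA) (Or.inl (by omega))
  have hlow : ∀ k : ℤ, k ≤ (K : ℤ) - 2 → S.incZ ν z k < S.gZ ν z := by
    intro k hk
    have := (hst (S.M z - k) (by omega)).2
    rwa [sub_sub_cancel] at this
  have hb0 : ∃ b0 : ℕ, K + 1 ≤ b0 ∧ (∀ n : ℕ, K ≤ n → n < b0 → S.incZ ν z ((n : ℤ) + 1) =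
      S.gZ ν z) ∧ (∀ n : ℕ, b0 ≤ n → S.gZ ν z < S.incZ ν z ((n : ℤ) + 1)) := by
    by_cases h : S.incZ ν z ((K : ℤ) + 2) = S.gZ ν z
    · by_cases h' : S.incZ ν z ((K : ℤ) + 3) = S.gZ ν z
      · refine ⟨K + 3, by omega, fun n h1 h2 ↦ ?_, fun n h1 ↦ ?_⟩
        · rcases (show n = K ∨ n = K + 1 ∨ n = K + 2 by omega) with h3 | h3 | h3
          · rw [h3]; exact hmid
          · rw [h3]
            push_cast
            rw [q1]
            exact h
          · rw [h3]
            push_cast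
            rw [show (K : ℤ) + 2 + 1 = K + 3 by ring]
            exact h'
        · exact (hst _ (by omega)).1
      · refine ⟨K + 2, by omega, fun n h1 h2 ↦ ?_, fun n h1 ↦ ?_⟩
        · rcases (show n = K ∨ n = K + 1 by omega) with h3 | h3
          · rw [h3]; exact hmid
          · rw [h3]
            push_cast
            rw [q1]
            exact h
        · rcases (show n = K + 2 ∨ K + 3 ≤ n by omega) with h3 | h3
          · rw [h3]
            push_cast
            rw [show (K : ℤ) + 2 + 1 = K + 3 by ring]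
            omega
          · exact (hst _ (by omega)).1
    · refine ⟨K + 1, by omega, fun n h1 h2 ↦ ?_, fun n h1 ↦ ?_⟩
      · rw [show n = K by omega]; exact hmid
      · rcases (show n = K + 1 ∨ n = K + 2 ∨ K + 3 ≤ n by omega) with h3 | h3 | h3
        · rw [h3]
          push_cast
          rw [q1]
          omega
        · rw [h3]
          push_cast
          rw [show (K : ℤ) + 2 + 1 = K + 3 by ring]
          omega
        · exact (hst _ (by omega)).1
  have ha0 : ∃ a0 : ℕ, a0 ≤ K ∧ (∀ n : ℕ, n < a0 → S.incZ ν z ((n : ℤ) + 1) < S.gZ ν z) ∧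
      (∀ n : ℕ, a0 ≤ n → n < K → S.incZ ν z ((n : ℤ) + 1) = S.gZ ν z) := by
    by_cases h : S.incZ ν z (K : ℤ) = S.gZ ν z
    · by_cases h' : S.incZ ν z ((K : ℤ) - 1) = S.gZ ν z
      · refine ⟨K - 2, by omega, fun n h1 ↦ ?_, fun n h1 h2 ↦ ?_⟩
        · exact hlow _ (by omega)
        · rcases (show (n : ℤ) + 1 = K ∨ (n : ℤ) + 1 = K - 1 by omega) with h3 | h3
          · rw [h3]; exact h
          · rw [h3]; exact h'
      · refine ⟨K - 1, by omega, fun n h1 ↦ ?_, fun n h1 h2 ↦ ?_⟩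
        · rcases (show (n : ℤ) + 1 = K - 1 ∨ (n : ℤ) + 1 ≤ K - 2 by omega) with h3 | h3
          · rw [h3]
            omega
          · exact hlow _ h3
        · rw [show (n : ℤ) + 1 = K by omega]
          exact h
    · refine ⟨K, le_rfl, fun n h1 ↦ ?_, fun n h1 h2 ↦ by omega⟩
      rcases (show (n : ℤ) + 1 = K ∨ (n : ℤ) + 1 = K - 1 ∨ (n : ℤ) + 1 ≤ K - 2 by omega) with
        h3 | h3 | h3
      · rw [h3]
        omega
      · rw [h3]
        omega
      · exact hlow _ h3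
  obtain ⟨b0, hb1, hb2, hb3⟩ := hb0
  obtain ⟨a0, ha1, ha2, ha3⟩ := ha0
  refine flat_of_uni (v := S.incZ ν z) (S.FZ_step ν z) (a0 := a0) (b0 := b0) (by omega) ha2 ?_
    hb3 hB (by omega) (by omega)
  intro n h1 h2
  rcases lt_or_ge n K with h | h
  · exact ha3 n h1 h
  · exact hb2 n h h2

/-- A block with a centre of its class inside. -/
theorem IsG.cert_top (hS : S.IsG) {ν a b : ℕ} {c z : ℤ} {l : ℚ} (hB : Block (S.FZ ν c) a b l)
    (hz : S.p ^ ν ∣ z - c) (ha : 2 * (a : ℤ) + 2 ≤ S.M z) (hb : S.M z ≤ 2 * b) :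
    (∃ u : ℤ, l = u) ∧ (S.Cert ν c a b z ∨ FlatOn (S.FZ ν c) a b) := by
  by_cases hA : S.W ν z (S.M z / 2 + 1)
  · have hF := hS.block_flat hB hz ha hb hA
    obtain ⟨u, hu, _⟩ := hF.slope hB
    exact ⟨⟨u, hu⟩, Or.inr hF⟩
  obtain ⟨h1, h2, h3⟩ := hS.block_centre hB hz ha hb hA
  refine ⟨h2, ?_⟩
  by_cases hc : (b : ℤ) - a - 1 < S.M1 * S.p ^ ν
  · exact Or.inl ⟨hz, h1, h3, hc⟩
  · push Not at hc
    have hL := S.Lpos ν
    have hM : S.M (z + S.p ^ ν) = S.M z + S.M1 * S.p ^ ν := by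
      unfold M
      ring
    have hz' : S.p ^ ν ∣ z + S.p ^ ν - c := by
      have : z + S.p ^ ν - c = (z - c) + S.p ^ ν := by ring
      rw [this]
      exact dvd_add hz dvd_rfl
    by_cases hA' : S.W ν (z + S.p ^ ν) (S.M (z + S.p ^ ν) / 2 + 1)
    · exact Or.inr (hS.block_flat hB hz' (by rw [hM]; linarith) (by rw [hM]; linarith) hA')
    · exfalso
      have h5 := (hS.block_centre hB hz' (by rw [hM]; linarith) (by rw [hM]; linarith) hA').1
      rw [hM] at h5
      linarith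

/-- Superlinear growth. -/
theorem IsG.grows (hS : S.IsG) (ν : ℕ) (c : ℤ) : Grows (S.FZ ν c) := by
  intro C
  set T := S.p ^ (ν + 1) with hT
  have hTpos : 0 < T := S.ppos (ν + 1)
  set c1 := (S.q * S.M c + 2 * S.e - 2 * c - 2) - (S.q * S.M c + 2 * S.e - 2 * c - 2) / T
    with hc1
  refine ⟨((2 * C - c1 + 1) * T).natAbs + (S.M c).natAbs * 4 + (S.e - c - 1).natAbs + 100, ?_⟩
  intro k hk
  rw [S.FZ_step ν c k]
  set n : ℤ := (k : ℤ) + 1 with hn
  have hq : 1 ≤ S.q := S.hq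
  have hn0 : 0 ≤ n := by omega
  have hnM : 0 ≤ n - S.M c := by omega
  have hq1 : 1 * n ≤ S.q * n := mul_le_mul_of_nonneg_right hq hn0
  have hq2 : 1 * (n - S.M c) ≤ S.q * (n - S.M c) := mul_le_mul_of_nonneg_right hq hnM
  have hYn : S.Y c n = -(S.q * (n - S.M c)) + S.e - c - 1 := by
    unfold Y
    ring
  have hXn : S.X c n = S.q * n + S.e - c - 1 := rfl
  have hW : S.W ν c n := by
    refine ⟨0, dvd_zero _, ?_, ?_⟩
    · rw [hYn]
      omega
    · rw [hXn]
      omega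
  have h1 := (hS.incZ_sub_ge hW).2.1
  have h2 := S.incZ_add ν c n
  have h3 := S.X_add_Y c n
  have h4 : S.X c n / T + S.Y c n / T ≤ (S.q * S.M c + 2 * S.e - 2 * c - 2) / T := by
    rw [← h3, Int.le_ediv_iff_mul_le hTpos]
    have m1 := Int.mul_ediv_self_le (x := S.X c n) hTpos.ne'
    have m2 := Int.mul_ediv_self_le (x := S.Y c n) hTpos.ne'
    linarith
  have h5 : c1 ≤ S.incZ ν c n + S.incZ ν c (S.M c - n) := by
    rw [h2]
    linarith
  have h6 : 2 * C - c1 ≤ S.X c n / T - S.Y c n / T := by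
    have h7 : S.Y c n + T * (2 * C - c1 + 1) ≤ S.X c n := by
      have h8 := S.X_sub_Y c n
      have h9 : 1 * (2 * n - S.M c) ≤ S.q * (2 * n - S.M c) :=
        mul_le_mul_of_nonneg_right hq (by omega)
      have h10 : (2 * C - c1 + 1) * T ≤ |(2 * C - c1 + 1) * T| := le_abs_self _
      rw [Int.abs_eq_natAbs] at h10
      have h11 : T * (2 * C - c1 + 1) = (2 * C - c1 + 1) * T := by ring
      rw [h11]
      omega
    have h12 := Int.ediv_le_ediv hTpos h7
    rw [Int.add_mul_ediv_left _ _ hTpos.ne'] at h12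
    linarith
  linarith

theorem IsG.st (hS : S.IsG) (c : ℤ) (ν : ℕ) : ∀ (a b : ℕ) (l : ℚ), Block (S.FZ ν c) a b l →
    (∃ u : ℤ, l = u) ∧
      ((∃ (s : ℕ) (z : ℤ), s ≤ ν ∧ S.Cert s c a b z) ∨ FlatOn (S.FZ ν c) a b) := by
  induction ν with
  | zero =>
    intro a b l hB
    by_cases hex : ∃ z : ℤ, S.p ^ 0 ∣ z - c ∧ 2 * (a : ℤ) + 2 ≤ S.M z ∧ S.M z ≤ 2 * b
    · obtain ⟨z, h1, h2, h3⟩ := hex
      obtain ⟨h4, h5⟩ := hS.cert_top hB h1 h2 h3
      exact ⟨h4, h5.imp (fun h ↦ ⟨0, z, le_rfl, h⟩) id⟩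
    · have hno : ∀ z : ℤ, S.p ^ 0 ∣ z - c → 2 * (a : ℤ) + 2 ≤ S.M z → S.M z ≤ 2 * b →
          False := fun z h1 h2 h3 ↦ hex ⟨z, h1, h2, h3⟩
      have hF : FlatOn (S.FZ 0 c) a b := by
        refine flat_of_mono (δ := S.incZ 0 c) (S.FZ_step 0 c) hB ?_
        intro k k' h1 h2 h3
        rw [S.incZ_zero, S.incZ_zero]
        exact S.N_mono hno h1 h2 h3
      obtain ⟨u, hu, _⟩ := hF.slope hB
      exact ⟨⟨u, hu⟩, Or.inr hF⟩
  | succ ν ih =>
    intro a b l hB
    by_cases hex : ∃ z : ℤ, S.p ^ (ν + 1) ∣ z - c ∧ 2 * (a : ℤ) + 2 ≤ S.M z ∧ S.M z ≤ 2 * b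
    · obtain ⟨z, h1, h2, h3⟩ := hex
      obtain ⟨h4, h5⟩ := hS.cert_top hB h1 h2 h3
      exact ⟨h4, h5.imp (fun h ↦ ⟨ν + 1, z, le_rfl, h⟩) id⟩
    have hno : ∀ z : ℤ, S.p ^ (ν + 1) ∣ z - c → 2 * (a : ℤ) + 2 ≤ S.M z → S.M z ≤ 2 * b →
        False := fun z h1 h2 h3 ↦ hex ⟨z, h1, h2, h3⟩
    have hab := hB.lt
    -- flat is inherited
    have hfl : FlatOn (S.FZ ν c) a b → (∃ u : ℤ, l = u) ∧
        ((∃ (s : ℕ) (z : ℤ), s ≤ ν + 1 ∧ S.Cert s c a b z) ∨ FlatOn (S.FZ (ν + 1) c) a b) := by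
      intro hF
      have hF' := flat_child hB hno hF
      obtain ⟨u, hu, _⟩ := hF'.slope hB
      exact ⟨⟨u, hu⟩, Or.inr hF'⟩
    have h0 : ∀ (a b : ℕ) (l : ℚ), Block (S.FZ ν c) a b l →
        NForm (S.FZ ν c) (S.FZ (ν + 1) c) a b ∨ FlatOn (S.FZ ν c) a b := by
      intro a b l hB'
      obtain ⟨_, h | h⟩ := ih a b l hB'
      · obtain ⟨s, z, hs, hC⟩ := h
        exact Or.inl (S.nformZ hC (by omega))
      · exact Or.inr h
    -- `N (ν + 1)` is below its chord
    have hch : ∀ k : ℕ, a < k → k ≤ b →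
        (S.NN (ν + 1) c k - S.NN (ν + 1) c a) * ((b : ℤ) - a) ≤
          (S.NN (ν + 1) c b - S.NN (ν + 1) c a) * ((k : ℤ) - a) := fun k h1 h2 ↦
      below_chord (g := S.NN (ν + 1) c) (δ := S.N (ν + 1) c) (S.NN_step (ν + 1) c)
        (fun k k' h1 h2 h3 ↦ S.N_mono hno h1 h2 h3) h1 h2
    -- no vertex of the parent strictly inside
    have hnv : ∀ k : ℕ, a < k → k < b → ¬ IsV (S.FZ ν c) k := by
      intro k h1 h2 hV
      have e1 := isV_lt_chord hV h1 h2
      have e2 := hch k h1 h2.le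
      have e3 := block_ge hB k
      rw [S.FZ_succ, S.FZ_succ, S.FZ_succ] at e3
      linarith
    rcases isV_of_childF (hS.grows ν c) h0 hB.isV_left with va | ⟨A0, B0, l0, hB0, hF0, h1, h2⟩
    · rcases isV_of_childF (hS.grows ν c) h0 hB.isV_right with
        vb | ⟨A0, B0, l0, hB0, hF0, h1, h2⟩
      · obtain ⟨l', hB'⟩ := block_of_isV (f := S.FZ ν c) hab va vb (by
          intro k hak hkb
          have e1 := block_ge hB k
          have e2 := hch k hak hkb.le
          rw [S.FZ_succ, S.FZ_succ, S.FZ_succ] at e1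
          linarith)
        obtain ⟨⟨u, hu⟩, h | h⟩ := ih a b l' hB'
        swap
        · exact hfl h
        obtain ⟨s, z, hs, hC⟩ := h
        refine ⟨?_, Or.inl ⟨s, z, by omega, hC⟩⟩
        obtain ⟨E, θ, _, hN⟩ := S.nformZ hC (show s ≤ ν + 1 by omega)
        have e1 := NForm.end (f0 := S.FZ ν c) (f1 := S.FZ (ν + 1) c) (show a ≤ b by omega) hN
        have e2 := chord_eq hB' hu
        have e3 := hB.eq
        refine ⟨u + E, ?_⟩
        have e4 : ((b : ℚ) - a) ≠ 0 := by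
          have : (a : ℚ) < b := by exact_mod_cast (show a < b by omega)
          intro h
          linarith
        have e5 : ((S.FZ (ν + 1) c b : ℤ) : ℚ) =
            ((S.FZ (ν + 1) c a + (u + E) * ((b : ℤ) - a) : ℤ) : ℚ) := by
          rw [e1, e2]
          push_cast
          ring
        rw [e3] at e5
        push_cast at e5 ⊢
        apply mul_right_cancel₀ e4
        linarith
      · apply hfl
        refine hF0.mono ?_ h2.le
        by_contra hc
        exact hnv A0 (by omega) h1 hB0.isV_left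
    · apply hfl
      refine hF0.mono h1.le ?_
      by_contra hc
      exact hnv B0 h2 (by omega) hB0.isV_right

theorem IsG.int_slope (hS : S.IsG) (ν : ℕ) (c : ℤ) (a b : ℕ) (l : ℚ)
    (hB : Block (S.FZ ν c) a b l) : ∃ u : ℤ, l = u := (hS.st c ν a b l hB).1

theorem IsG.nform0 (hS : S.IsG) (ν : ℕ) (c : ℤ) (a b : ℕ) (l : ℚ)
    (hB : Block (S.FZ ν c) a b l) :
    NForm (S.FZ ν c) (S.FZ (ν + 1) c) a b ∨ FlatOn (S.FZ ν c) a b := by
  obtain ⟨_, h | h⟩ := hS.st c ν a b l hB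
  · obtain ⟨s, z, hs, hC⟩ := h
    exact Or.inl (S.nformZ hC (by omega))
  · exact Or.inr h

theorem IsG.nform1 (hS : S.IsG) (ν : ℕ) (c : ℤ) (a b : ℕ) (l : ℚ)
    (hB : Block (S.FZ (ν + 1) c) a b l) :
    NForm (S.FZ ν c) (S.FZ (ν + 1) c) a b ∨ FlatOn (S.FZ (ν + 1) c) a b := by
  obtain ⟨_, h | h⟩ := hS.st c (ν + 1) a b l hB
  · obtain ⟨s, z, hs, hC⟩ := h
    exact Or.inl (S.nformZ hC hs)
  · exact Or.inr h

/-! ### Flat indices -/

/-- If the terms of the levels `1 ≤ j ≤ ν` have a multiple in the `X`-window, all terms are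
nonnegative. -/
theorem IsG.terms_nonneg (hS : S.IsG) {ν : ℕ} {c n : ℤ} (hx : 1 ≤ ν → 1 ≤ S.jx ν c n) :
    ∀ j ∈ Finset.range (ν + 1), 0 ≤ S.jx j c n + S.jy j c n - S.jm j c n := by
  intro j hj
  have hj' : j ≤ ν := by
    have := Finset.mem_range.1 hj
    omega
  rcases Nat.eq_zero_or_pos j with h0 | h0
  · subst h0
    have e1 := S.jx_zero c n
    have e2 := jy_nonneg (S := S) 0 c n
    have e3 := hS.jm_zero_le c n
    linarith
  · have e1 := jx_anti (S := S) hj' c n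
    have e2 := jy_nonneg (S := S) j c n
    have e3 := hS.jm_le_one h0 c n
    have e4 := hx (by omega)
    linarith

theorem IsG.terms_zero (hS : S.IsG) {ν : ℕ} {c n : ℤ}
    (h : S.incZ ν c (n + 1) ≤ S.incZ ν c n) (hx : 1 ≤ ν → 1 ≤ S.jx ν c n) :
    ∀ j ≤ ν, S.jx j c n + S.jy j c n - S.jm j c n = 0 := by
  have h1 := hS.incZ_diff ν c n
  have h2 := hS.terms_nonneg hx
  have h3 : ∑ j ∈ Finset.range (ν + 1), (S.jx j c n + S.jy j c n - S.jm j c n) = 0 :=
    le_antisymm (by linarith) (Finset.sum_nonneg h2)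
  intro j hj
  exact (Finset.sum_eq_zero_iff_of_nonneg h2).1 h3 j (Finset.mem_range.2 (by omega))

theorem IsG.incZ_eq_of_terms (hS : S.IsG) {ν : ℕ} {c n : ℤ}
    (h : ∀ j ≤ ν, S.jx j c n + S.jy j c n - S.jm j c n = 0) :
    S.incZ ν c (n + 1) = S.incZ ν c n := by
  have h1 := hS.incZ_diff ν c n
  rw [Finset.sum_eq_zero (fun j hj ↦ h j (by have := Finset.mem_range.1 hj; omega))] at h1
  linarith

/-- Flat at the parent and not at the child: the child contains a centre whose tent starts at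
`n`, and `n` is flat at the root. -/
theorem IsG.flat_step (hS : S.IsG) {ν : ℕ} {c n : ℤ}
    (h0 : S.incZ ν c (n + 1) ≤ S.incZ ν c n)
    (h1 : S.incZ (ν + 1) c n < S.incZ (ν + 1) c (n + 1)) :
    1 ≤ S.jx (ν + 1) c n ∧ S.incZ 0 c (n + 1) = S.incZ 0 c n := by
  have e0 := hS.incZ_diff (ν + 1) c n
  rw [Finset.sum_range_succ, ← hS.incZ_diff ν c n] at e0
  have hy : S.jy (ν + 1) c n = 0 := by
    by_contra hc
    have hy1 : 1 ≤ S.jy (ν + 1) c n := by
      have a1 := jy_nonneg (S := S) (ν + 1) c n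
      omega
    have e1 := hS.incZ_diff ν c n
    rw [Finset.sum_range_succ'] at e1
    have h2 : 0 ≤ ∑ j ∈ Finset.range ν, (S.jx (j + 1) c n + S.jy (j + 1) c n
        - S.jm (j + 1) c n) := by
      apply Finset.sum_nonneg
      intro j hj
      have hj' : j + 1 ≤ ν + 1 := by
        have := Finset.mem_range.1 hj
        omega
      have a1 := jx_nonneg (S := S) (j + 1) c n
      have a2 := jy_anti (S := S) hj' c n
      have a3 := hS.jm_le_one (j := j + 1) (by omega) c n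
      omega
    have a1 := S.jx_zero c n
    have a2 := jy_anti (S := S) (Nat.zero_le (ν + 1)) c n
    have a3 := hS.jm_zero_le c n
    omega
  have hx : 1 ≤ S.jx (ν + 1) c n := by
    have a3 := jm_nonneg (S := S) (ν + 1) c n
    omega
  refine ⟨hx, ?_⟩
  have hx' : 1 ≤ ν → 1 ≤ S.jx ν c n := fun _ ↦
    hx.trans (jx_anti (S := S) (Nat.le_succ ν) c n)
  exact hS.incZ_eq_of_terms (ν := 0)
    (fun j hj ↦ hS.terms_zero h0 hx' j (by omega))

/-- A multiple in the `X`-window is a centre whose tent starts at `n`. -/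
theorem jx_pos_iff {j : ℕ} {c n : ℤ} (h : 1 ≤ S.jx j c n) :
    ∃ z : ℤ, S.p ^ j ∣ z - c ∧ S.q * n + S.e ≤ z ∧ z < S.q * n + S.e + S.q := by
  unfold jx at h
  have hP := S.ppos j
  refine ⟨S.p ^ j * (S.X c (n + 1) / S.p ^ j) + c, ⟨S.X c (n + 1) / S.p ^ j, by ring⟩, ?_, ?_⟩
  · have h1 : S.X c n < S.p ^ j * (S.X c (n + 1) / S.p ^ j) := by
      have h2 : S.X c n / S.p ^ j < S.X c (n + 1) / S.p ^ j := by linarith
      rw [Int.ediv_lt_iff_lt_mul hP] at h2
      linarith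
    unfold X at h1 ⊢
    linarith
  · have h1 : S.p ^ j * (S.X c (n + 1) / S.p ^ j) ≤ S.X c (n + 1) := Int.mul_ediv_self_le hP.ne'
    have h2 : S.X c (n + 1) = S.q * n + S.q + S.e - c - 1 := by unfold X; ring
    rw [h2] at h1 ⊢
    linarith

/-- (K3b'). -/
theorem IsG.k3b (hS : S.IsG) {ν n : ℕ} {c : ℤ} (h1 : IsV (S.FZ (ν + 1) c) n) :
    IsV (S.FZ ν c) n ∨ (¬ IsV (S.FZ 0 c) n ∧ 1 ≤ n ∧
      S.incZ 0 c ((n : ℤ) + 1) = S.incZ 0 c n ∧
      (∃ z : ℤ, S.p ^ (ν + 1) ∣ z - c ∧ S.q * n + S.e ≤ z ∧ z < S.q * n + S.e + S.q) ∧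
      ∃ (a b : ℕ) (l : ℚ), Block (S.FZ ν c) a b l ∧ FlatOn (S.FZ ν c) a b ∧ a < n ∧ n < b) := by
  rcases isV_of_childF (hS.grows ν c) (hS.nform0 ν c) h1 with h | ⟨a, b, l, hB, hF, h2, h3⟩
  · exact Or.inl h
  · right
    have e1 := isV_incZ (by omega) h1
    have e2 := flat_incZ hF h2 h3
    obtain ⟨e3, e4⟩ := hS.flat_step e2.le e1
    refine ⟨fun h ↦ ?_, by omega, e4, jx_pos_iff e3, a, b, l, hB, hF, h2, h3⟩
    have e5 := isV_incZ (by omega) h
    omega

/-- On the path to a centre whose tent starts at `n`, a vertex remains a vertex. -/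
theorem IsG.down (hS : S.IsG) {ν n : ℕ} {z : ℤ} (hz1 : S.q * n + S.e ≤ z)
    (hz2 : z < S.q * n + S.e + S.q) (h0 : IsV (S.FZ ν z) n) : IsV (S.FZ (ν + 1) z) n := by
  by_contra hc
  obtain ⟨a, b, l, h1, h2, hB⟩ := block_of_not_isV (hS.grows (ν + 1) _) hc
  obtain ⟨_, ⟨s, z', hs, hC⟩ | hF⟩ := hS.st _ _ a b l hB
  · -- a multiple of `p^s` in the window
    obtain ⟨hd, hmid, hnk, _⟩ := hC
    have e1 : S.Y z' b ≤ S.X z' n := by
      have e2 : S.X z' (S.M z' - b) = S.Y z' b := S.X_refl z' b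
      rw [← e2]
      exact S.X_mono z' (by omega)
    have e2 : S.X z' ((n : ℤ) + 1) ≤ S.X z' b := S.X_mono z' (by omega)
    have e3 : S.X z' n < z - z' := by
      unfold X
      linarith
    have e4 : z - z' ≤ S.X z' ((n : ℤ) + 1) := by
      have : S.X z' ((n : ℤ) + 1) = S.q * n + S.q + S.e - z' - 1 := by unfold X; ring
      rw [this]
      omega
    have e5 : S.p ^ s ∣ z - z' := by
      rw [← dvd_neg, neg_sub]
      exact hd
    have := ediv_lt_of_dvd (S.ppos s) e5 (e1.trans_lt e3) (e4.trans e2)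
    omega
  · have e1 := flat_incZ hF h1 h2
    have hx : ∀ j, 1 ≤ S.jx j z n := by
      intro j
      unfold jx
      have h3 : S.X z n < 0 := by
        unfold X
        linarith
      have h4 : 0 ≤ S.X z ((n : ℤ) + 1) := by
        have : S.X z ((n : ℤ) + 1) = S.q * n + S.q + S.e - z - 1 := by unfold X; ring
        rw [this]
        omega
      have := ediv_lt_of_dvd (S.ppos j) (dvd_zero _) h3 h4
      linarith
    have e2 := hS.incZ_eq_of_terms (ν := ν)
      (fun j hj ↦ hS.terms_zero e1.le (fun _ ↦ hx (ν + 1)) j (by omega))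
    have e3 := isV_incZ (by omega) h0
    omega

/-- A flat index needs a centre nearby at level `J` as soon as the levels below contribute
something positive. -/
theorem IsG.jm_of_flat (hS : S.IsG) {ν : ℕ} {c n : ℤ} (J : ℕ)
    (h : S.incZ ν c (n + 1) ≤ S.incZ ν c n)
    (h0 : ∀ j < J, 0 ≤ S.jx j c n + S.jy j c n - S.jm j c n)
    (h1 : 1 ≤ S.jx 0 c n + S.jy 0 c n - S.jm 0 c n) : 1 ≤ S.jm J c n := by
  by_contra hc
  have h2 := hS.incZ_diff ν c n
  rw [Finset.sum_range_succ'] at h2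
  have h3 : 0 ≤ ∑ j ∈ Finset.range ν, (S.jx (j + 1) c n + S.jy (j + 1) c n
      - S.jm (j + 1) c n) := by
    apply Finset.sum_nonneg
    intro j _
    rcases lt_or_ge (j + 1) J with h4 | h4
    · exact h0 _ h4
    · have e1 := jx_nonneg (S := S) (j + 1) c n
      have e2 := jy_nonneg (S := S) (j + 1) c n
      have e3 := jm_anti (S := S) h4 c n
      omega
  linarith

/-! ### Vertices within a bounded distance -/

/-- A flat block has at most five indices inside. -/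
theorem IsG.flat_len (hS : S.IsG) {ν a b : ℕ} {c : ℤ} (hF : FlatOn (S.FZ ν c) a b) :
    b ≤ a + 6 := by
  by_contra hc
  push Not at hc
  have hfl : ∀ i : ℕ, 1 ≤ i → i ≤ 6 →
      S.incZ ν c (((a + i : ℕ) : ℤ) + 1) ≤ S.incZ ν c ((a + i : ℕ) : ℤ) := fun i h1 h2 ↦
    (flat_incZ hF (by omega) (by omega)).le
  have hfl0 : ∀ n : ℤ, a < n → n ≤ a + 6 → S.incZ ν c (n + 1) ≤ S.incZ ν c n := by
    intro n h1 h2
    have := hfl (n - a).toNat (by omega) (by omega)
    have e : ((a + (n - a).toNat : ℕ) : ℤ) = n := by omega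
    rwa [e] at this
  obtain ⟨m, hm⟩ := hS.even c
  rcases hS.ty with ⟨h, h', h''⟩ | ⟨h, h', h''⟩ | ⟨h, h', h''⟩ | ⟨h, h', h''⟩
  · -- `(2, 3, 2)`
    have hM : S.M c = 2 * c + S.M0 := by unfold M; rw [h'']
    -- the levels zero and one
    have l0 : ∀ n : ℤ, S.jx 0 c n + S.jy 0 c n - S.jm 0 c n = S.jy 0 c n := by
      intro n
      have e1 := S.jx_zero c n
      have e2 : S.jm 0 c n = 2 := by
        unfold jm
        rw [pow_zero, mul_one, h'']
        omega
      rw [e1, e2, h]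
      ring
    have y0 : ∀ n : ℤ, S.jy 0 c n = S.Y c n / 3 - (S.Y c n - 2) / 3 := by
      intro n
      unfold jy
      have e1 : S.Y c (n + 1) = S.Y c n - 2 := by
        unfold Y
        rw [h]
        ring
      rw [e1, zero_add, pow_one, h']
    have hY : ∀ n : ℤ, S.Y c n = 2 * (S.M c - n) + S.e - c - 1 := by
      intro n
      unfold Y
      rw [h]
    have hX : ∀ n : ℤ, S.X c n = 2 * n + S.e - c - 1 := by
      intro n
      unfold X
      rw [h]
    have m1 : ∀ n : ℤ, S.jm 1 c n = (2 * n + 2 - S.M c) / 6 - (2 * n - 2 - S.M c) / 6 := by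
      intro n
      unfold jm
      rw [pow_one, h', h'']
      norm_num
    have m2 : ∀ n : ℤ, S.jm 2 c n = (2 * n + 2 - S.M c) / 18 - (2 * n - 2 - S.M c) / 18 := by
      intro n
      unfold jm
      rw [h', h'']
      norm_num
    have x1 : ∀ n : ℤ, S.jx 1 c n = (S.X c n + 2) / 3 - S.X c n / 3 := by
      intro n
      unfold jx
      have e1 : S.X c (n + 1) = S.X c n + 2 := by
        unfold X
        rw [h]
        ring
      rw [e1, pow_one, h']
    have one : ∀ n : ℤ, a < n → n ≤ a + 6 → 1 ≤ S.jy 0 c n → 1 ≤ S.jm 1 c n := by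
      intro n h1 h2 h3
      refine hS.jm_of_flat 1 (hfl0 n h1 h2) ?_ ?_
      · intro j hj
        rw [show j = 0 by omega, l0]
        linarith
      · rw [l0]
        exact h3
    have two : ∀ n : ℤ, a < n → n ≤ a + 6 → 1 ≤ S.jy 0 c n → 1 ≤ S.jx 1 c n →
        1 ≤ S.jm 2 c n := by
      intro n h1 h2 h3 h4
      refine hS.jm_of_flat 2 (hfl0 n h1 h2) ?_ ?_
      · intro j hj
        rcases (show j = 0 ∨ j = 1 by omega) with h5 | h5
        · rw [h5, l0]
          linarith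
        · rw [h5]
          have e1 := jy_nonneg (S := S) 1 c n
          have e2 := hS.jm_le_one (le_refl 1) c n
          linarith
      · rw [l0]
        exact h3
    obtain ⟨hM0, he⟩ := hS.q2 h
    rw [hM0, add_zero] at hM
    simp only [y0, m1, m2, x1, hY, hX, hM, he] at one two
    obtain ⟨n, hn1, hn2, hn3⟩ : ∃ n : ℤ, a < n ∧ n ≤ a + 3 ∧ n % 3 = 1 :=
      ⟨a + 1 + (3 - (a : ℤ) % 3) % 3, by omega, by omega, by omega⟩
    have o1 := one n (by omega) (by omega) (by omega)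
    have o2 := one (n + 1) (by omega) (by omega) (by omega)
    have hc3 : c % 3 = 2 := by omega
    have t1 := two n (by omega) (by omega) (by omega) (by omega)
    have t2 := two (n + 3) (by omega) (by omega) (by omega) (by omega)
    omega
  · -- `(1, 3, 4)`
    have l0 : ∀ n : ℤ, S.jx 0 c n + S.jy 0 c n - S.jm 0 c n = S.jy 0 c n := by
      intro n
      have e1 := S.jx_zero c n
      have e2 : S.jm 0 c n = 1 := by
        unfold jm
        rw [pow_zero, mul_one, h'', hm]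
        omega
      rw [e1, e2, h]
      ring
    have y0 : ∀ n : ℤ, S.jy 0 c n = S.Y c n / 3 - (S.Y c n - 1) / 3 := by
      intro n
      unfold jy
      have e1 : S.Y c (n + 1) = S.Y c n - 1 := by
        unfold Y
        rw [h]
        ring
      rw [e1, zero_add, pow_one, h']
    have hY : ∀ n : ℤ, S.Y c n = S.M c - n + S.e - c - 1 := by
      intro n
      unfold Y
      rw [h]
      ring
    have m1 : ∀ n : ℤ, S.jm 1 c n = (2 * n + 2 - S.M c) / 12 - (2 * n - 2 - S.M c) / 12 := by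
      intro n
      unfold jm
      rw [pow_one, h', h'']
      norm_num
    have one : ∀ n : ℤ, a < n → n ≤ a + 6 → 1 ≤ S.jy 0 c n → 1 ≤ S.jm 1 c n := by
      intro n h1 h2 h3
      refine hS.jm_of_flat 1 (hfl0 n h1 h2) ?_ ?_
      · intro j hj
        rw [show j = 0 by omega, l0]
        linarith
      · rw [l0]
        exact h3
    simp only [y0, m1, hY, hm] at one
    obtain ⟨n, hn1, hn2, hn3⟩ : ∃ n : ℤ, a < n ∧ n ≤ a + 3 ∧
        (2 * m - n + S.e - c - 1) % 3 = 0 :=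
      ⟨a + 1 + (2 * m - (a + 1) + S.e - c - 1) % 3, by omega, by omega, by omega⟩
    have o1 := one n (by omega) (by omega) (by omega)
    have o2 := one (n + 3) (by omega) (by omega) (by omega)
    omega
  · -- `(1, 5, 6)`
    have one : ∀ n : ℤ, a < n → n ≤ a + 6 → 1 ≤ S.jm 0 c n := by
      intro n h1 h2
      by_contra hc'
      have e1 := jm_nonneg (S := S) 0 c n
      have e2 := S.jx_zero c n
      have e3 := jy_nonneg (S := S) 0 c n
      exact hc' (hS.jm_of_flat 0 (hfl0 n h1 h2) (fun j hj ↦ by omega) (by omega))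
    unfold jm at one
    simp only [pow_zero, mul_one, h'', hm] at one
    have o1 := one (a + 1) (by omega) (by omega)
    have o2 := one (a + 2) (by omega) (by omega)
    have o3 := one (a + 3) (by omega) (by omega)
    omega
  · -- `(1, 13, 14)`
    have one : ∀ n : ℤ, a < n → n ≤ a + 6 → 1 ≤ S.jm 0 c n := by
      intro n h1 h2
      by_contra hc'
      have e1 := jm_nonneg (S := S) 0 c n
      have e2 := S.jx_zero c n
      have e3 := jy_nonneg (S := S) 0 c n
      exact hc' (hS.jm_of_flat 0 (hfl0 n h1 h2) (fun j hj ↦ by omega) (by omega))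
    unfold jm at one
    simp only [pow_zero, mul_one, h'', hm] at one
    have o1 := one (a + 1) (by omega) (by omega)
    have o2 := one (a + 2) (by omega) (by omega)
    have o3 := one (a + 3) (by omega) (by omega)
    omega

/-- The right end of a block is bounded in terms of the left end. -/
theorem IsG.block_end_le (hS : S.IsG) {ν a b : ℕ} {c : ℤ} {l : ℚ} (hB : Block (S.FZ ν c) a b l) :
    (b : ℤ) ≤ S.p * ((a : ℤ) + 1) + S.M1 * (S.e - 1) + S.M0 ∨ b ≤ a + 6 := by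
  obtain ⟨_, ⟨s, z, hs, hC⟩ | hF⟩ := hS.st c ν a b l hB
  · left
    obtain ⟨_, hmid, hnk, _⟩ := hC
    have hlt := hB.lt
    have hps := S.ppos s
    have hpq := S.hpq
    have hp := S.hp
    have hX : 0 ≤ S.X z b := by
      by_contra hc
      push Not at hc
      unfold X at hc
      have h1 : S.q * b + S.e ≤ z := by linarith
      have h2 : S.M1 * (S.q * b + S.e) ≤ S.M1 * z := mul_le_mul_of_nonneg_left h1 S.hM1.le
      have h3 : S.M1 * z + S.M0 = a + b + 1 := by rw [hmid]; rfl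
      have h4 : S.M1 * (S.q * b + S.e) = (S.p + 1) * b + S.M1 * S.e := by rw [hpq]; ring
      have h5 : 3 * (b : ℤ) ≤ (S.p + 1) * b :=
        mul_le_mul_of_nonneg_right (by linarith) (Int.natCast_nonneg b)
      have h6 := S.he0
      omega
    have hY : 0 ≤ S.Y z b := by
      by_contra hc
      push Not at hc
      have h1 : S.Y z b / S.p ^ s < 0 := Int.ediv_lt_of_lt_mul hps (by linarith)
      have h2 : 0 ≤ S.X z b / S.p ^ s := Int.ediv_nonneg hX hps.le
      omega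
    have h1 : S.M z - b = (a : ℤ) + 1 := by linarith
    unfold Y at hY
    rw [h1] at hY
    have h2 : z ≤ S.q * ((a : ℤ) + 1) + S.e - 1 := by linarith
    have h3 : S.M1 * z ≤ S.M1 * (S.q * ((a : ℤ) + 1) + S.e - 1) :=
      mul_le_mul_of_nonneg_left h2 S.hM1.le
    have h4 : S.M1 * (S.q * ((a : ℤ) + 1) + S.e - 1) =
        (S.p + 1) * ((a : ℤ) + 1) + S.M1 * (S.e - 1) := by
      rw [hpq]; ring
    have h5 : S.M1 * z + S.M0 = a + b + 1 := by rw [hmid]; rfl
    linarith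
  · exact Or.inr (hS.flat_len hF)

/-- A strict vertex within a bounded distance, uniformly in the node. -/
theorem IsG.near (hS : S.IsG) (n : ℕ) : ∃ Q : ℕ, ∀ (ν : ℕ) (c : ℤ), ∃ b : ℕ, n ≤ b ∧ b ≤ Q ∧
    IsV (S.FZ ν c) b := by
  refine ⟨n + 6 + (S.p * ((n : ℤ) + 1) + S.M1 * (S.e - 1) + S.M0).toNat, ?_⟩
  intro ν c
  by_cases hn : IsV (S.FZ ν c) n
  · exact ⟨n, le_rfl, by omega, hn⟩
  · obtain ⟨a, b, l, han, hnb, hB⟩ := block_of_not_isV (hS.grows ν c) hn
    refine ⟨b, hnb.le, ?_, hB.isV_right⟩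
    rcases hS.block_end_le hB with h1 | h1
    · have h2 : S.p * ((a : ℤ) + 1) ≤ S.p * ((n : ℤ) + 1) :=
        mul_le_mul_of_nonneg_left (by omega) S.hp0.le
      omega
    · omega

/-- At the leaf `z` the hull is a line on `[t, M - 1 - t]`. -/
theorem leafZ (S : Sys) {z : ℤ} {t y : ℕ} (ht : (z - S.e) / S.q = t)
    (hy : (t : ℤ) + y + 1 = S.M z) (hty : t ≤ y) : ∃ K : ℕ, ∀ ν : ℕ, K ≤ ν →
      2 * (S.FZ ν z y - S.FZ ν z t) =
        (S.q * S.M z + 2 * S.e - 2 * z - 2) * ((y : ℤ) - t) := by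
  refine ⟨(S.X z y).toNat, ?_⟩
  intro ν hν
  have hT : S.X z y < S.p ^ (ν + 1) := by
    have h1 : (ν : ℤ) + 1 ≤ S.p ^ (ν + 1) := by
      have h2 : (ν + 1 : ℕ) < 2 ^ (ν + 1) := Nat.lt_two_pow_self
      have h3 : ((2 : ℤ)) ^ (ν + 1) ≤ S.p ^ (ν + 1) :=
        pow_le_pow_left₀ (by norm_num) (by have := S.hp; linarith) _
      have h4 : ((ν + 1 : ℕ) : ℤ) < 2 ^ (ν + 1) := by exact_mod_cast h2
      push_cast at h4
      linarith
    omega
  have hge : ∀ k : ℤ, (t : ℤ) + 1 ≤ k → 0 ≤ S.X z k := by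
    intro k hk
    have h1 := S.X_mono z hk
    have h2 := Int.lt_mul_ediv_self_add (x := z - S.e) S.hq
    rw [ht] at h2
    have h3 : 0 ≤ S.X z ((t : ℤ) + 1) := by
      unfold X
      linarith
    linarith
  have key := refl_eq' (v := S.incZ ν z) (M := S.M z)
    (G := S.q * S.M z + 2 * S.e - 2 * z - 2) (S.FZ_step ν z) (y - t) t y (by omega) hy
    (by
      intro k hk hky
      rw [S.incZ_add ν z k]
      have h1 : S.X z k / S.p ^ (ν + 1) = 0 :=
        Int.ediv_eq_zero_of_lt (hge k (by omega)) ((S.X_mono z hky).trans_lt hT)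
      have h2 : S.Y z k / S.p ^ (ν + 1) = 0 := by
        rw [← X_refl]
        exact Int.ediv_eq_zero_of_lt (hge _ (by omega))
          ((S.X_mono z (show S.M z - k ≤ y by omega)).trans_lt hT)
      have h3 := S.X_add_Y z k
      rw [h1, h2]
      linarith)
  linarith

end Sys

end GH.CombU
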