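import Pool.Agent.GH.CombU.Tents

/-!
# Combinatorics of the hulls, `p = 13`: increments

For `p = 13` the number of zeros is not linear plus a floor, so the increments at the node
`z mod p^ν` are `∑_(j ≤ ν) N_j`. All statements for a type `S` with `q = 1`, `p = 13`, `M1 = 14`,
`M0` even.
-/

namespace GH.CombU

open GH.Comb

namespace Sys

/-- The types for `p = 13`. -/
structure IsF (S : Sys) : Prop where
  q1 : S.q = 1
  p13 : S.p = 13
  m14 : S.M1 = 14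
  ev : 2 ∣ S.M0

variable (S : Sys)

/-- The increment of the valuation at the node `z mod p^ν`. -/
def incZ (ν : ℕ) (z n : ℤ) : ℤ := ∑ j ∈ Finset.range (ν + 1), S.N j z n

/-- The valuation of the `n`-th leading minor at the node `z mod p^ν`. -/
def FZ (ν : ℕ) (z : ℤ) (n : ℕ) : ℤ := ∑ k ∈ Finset.range n, S.incZ ν z ((k : ℤ) + 1)

theorem incZ_succ (ν : ℕ) (z n : ℤ) : S.incZ (ν + 1) z n = S.incZ ν z n + S.N (ν + 1) z n := by
  unfold incZ
  rw [Finset.sum_range_succ]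

theorem incZ_zero (z n : ℤ) : S.incZ 0 z n = S.N 0 z n := by
  unfold incZ
  rw [zero_add, Finset.sum_range_one]

theorem incZ_congr {ν : ℕ} {z z' : ℤ} (h : S.p ^ ν ∣ z' - z) (n : ℤ) :
    S.incZ ν z' n = S.incZ ν z n := by
  unfold incZ
  apply Finset.sum_congr rfl
  intro j hj
  apply S.N_congr
  exact (pow_dvd_pow _ (by have := Finset.mem_range.1 hj; omega)).trans h

theorem FZ_congr {ν : ℕ} {z z' : ℤ} (h : S.p ^ ν ∣ z' - z) (n : ℕ) :
    S.FZ ν z' n = S.FZ ν z n := by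
  unfold FZ
  exact Finset.sum_congr rfl fun k _ ↦ S.incZ_congr h _

theorem FZ_succ (ν : ℕ) (z : ℤ) (n : ℕ) : S.FZ (ν + 1) z n = S.FZ ν z n + S.NN (ν + 1) z n := by
  unfold FZ NN
  rw [← Finset.sum_add_distrib]
  exact Finset.sum_congr rfl fun k _ ↦ S.incZ_succ ν z _

theorem FZ_step (ν : ℕ) (z : ℤ) (n : ℕ) :
    S.FZ ν z (n + 1) = S.FZ ν z n + S.incZ ν z ((n : ℤ) + 1) := by
  unfold FZ
  rw [Finset.sum_range_succ]

theorem FZ_zero (ν : ℕ) (z : ℤ) : S.FZ ν z 0 = 0 := by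
  unfold FZ
  rw [Finset.sum_range_zero]

/-- The near duality (B). -/
theorem incZ_add (ν : ℕ) (z n : ℤ) :
    S.incZ ν z n + S.incZ ν z (S.M z - n) = S.X z n + S.Y z n
      - S.X z n / S.p ^ (ν + 1) - S.Y z n / S.p ^ (ν + 1) := by
  induction ν with
  | zero =>
    have h := S.N_add 0 z n
    rw [incZ_zero, incZ_zero, h, pow_zero, Int.ediv_one, Int.ediv_one]
  | succ ν ih =>
    have h := S.N_add (ν + 1) z n
    rw [incZ_succ, incZ_succ]
    linarith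

/-- (A). -/
theorem incZ_sub (ν : ℕ) (z n : ℤ) :
    S.incZ ν z n - S.incZ ν z (S.M z - n) =
      ∑ j ∈ Finset.range (ν + 1), ((S.X z n / S.p ^ j - S.Y z n / S.p ^ j)
          + (S.X z n / S.p ^ (j + 1) - S.Y z n / S.p ^ (j + 1)) - 2)
      - 2 * ∑ j ∈ Finset.range (ν + 1), ((2 * n - S.M z) / (S.M1 * S.p ^ j)
          + (2 * n - S.M z - 1) / (S.M1 * S.p ^ j)) := by
  unfold incZ
  rw [← Finset.sum_sub_distrib, Finset.mul_sum, ← Finset.sum_sub_distrib]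
  refine Finset.sum_congr rfl fun j _ ↦ ?_
  have h := S.N_sub j z n
  linarith

variable {S}

theorem IsF.M_eq (hS : S.IsF) (z : ℤ) : S.M z = 14 * z + S.M0 := by
  unfold M
  rw [hS.m14]

theorem IsF.even (hS : S.IsF) (z : ℤ) : 2 ∣ S.M z := by
  obtain ⟨u, hu⟩ := hS.ev
  exact ⟨7 * z + u, by rw [hS.M_eq, hu]; ring⟩

theorem IsF.XY (hS : S.IsF) (z n : ℤ) : S.X z n - S.Y z n = 2 * n - S.M z := by
  rw [S.X_sub_Y, hS.q1, one_mul]

theorem IsF.X_succ (hS : S.IsF) (z n : ℤ) : S.X z (n + 1) = S.X z n + 1 := by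
  unfold X
  rw [hS.q1]
  ring

theorem IsF.Y_succ (hS : S.IsF) (z n : ℤ) : S.Y z (n + 1) = S.Y z n - 1 := by
  unfold Y
  rw [hS.q1]
  ring

/-- `12 ∑_(j ≤ ν) ⌊x/(14·13^j)⌋ ≤ 13 ⌊x/14⌋`. -/
theorem IsF.sum_R_le (hS : S.IsF) (ν : ℕ) {x : ℤ} (hx : 0 ≤ x) :
    12 * ∑ j ∈ Finset.range (ν + 1), x / (S.M1 * S.p ^ j) ≤ 13 * (x / 14) := by
  rw [Finset.sum_range_succ', pow_zero, mul_one, hS.m14]
  have h0 : 0 ≤ x / 14 := by omega
  have h1 : ∀ j : ℕ, x / (14 * S.p ^ (j + 1)) = x / 14 / S.p ^ (j + 1) := by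
    intro j
    rw [Int.ediv_ediv_of_nonneg (by norm_num)]
  rw [Finset.sum_congr rfl fun j _ ↦ h1 j]
  rcases eq_or_lt_of_le h0 with h | h
  · rw [← h]
    simp
  · have h2 := legendre S.hp ν (x / 14) h
    rw [hS.p13] at h2 ⊢
    linarith

theorem IsF.sum_R_nonneg (_ : S.IsF) (ν : ℕ) {x : ℤ} (hx : 0 ≤ x) :
    0 ≤ ∑ j ∈ Finset.range (ν + 1), x / (S.M1 * S.p ^ j) :=
  Finset.sum_nonneg fun _ _ ↦ Int.ediv_nonneg hx (S.Lpos _).le

/-- The main inequality: a window with a multiple of `p^ν`. -/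
theorem IsF.incZ_sub_ge (hS : S.IsF) {ν : ℕ} {z n : ℤ} (hW : S.W ν z n) :
    0 ≤ S.incZ ν z n - S.incZ ν z (S.M z - n) ∧
      (4 ≤ 2 * n - S.M z → 2 ≤ S.incZ ν z n - S.incZ ν z (S.M z - n)) ∧
      2 * n - S.M z ≤ 2 * (S.incZ ν z n - S.incZ ν z (S.M z - n)) + 6 := by
  have hR : 2 ≤ 2 * n - S.M z := by
    have h1 := S.R_pos_of_W hW
    obtain ⟨u, hu⟩ := hS.even z
    omega
  have hA := S.incZ_sub ν z n
  have hXY := hS.XY z n
  have hYX : S.Y z n ≤ S.X z n := by linarith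
  set R := 2 * n - S.M z with hRdef
  rw [Finset.sum_add_distrib (f := fun j ↦ R / (S.M1 * S.p ^ j))] at hA
  have s1 := hS.sum_R_le ν (show 0 ≤ R by linarith)
  have s2 := hS.sum_R_le ν (show 0 ≤ R - 1 by linarith)
  have s3 := hS.sum_R_nonneg ν (show 0 ≤ R by linarith)
  have s4 := hS.sum_R_nonneg ν (show 0 ≤ R - 1 by linarith)
  have hlast : 0 ≤ S.X z n / S.p ^ (ν + 1) - S.Y z n / S.p ^ (ν + 1) := by
    have := Int.ediv_le_ediv (S.ppos (ν + 1)) hYX
    linarith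
  -- lower bound of the first sum
  have hlow : R - 2 ≤ ∑ j ∈ Finset.range (ν + 1), ((S.X z n / S.p ^ j - S.Y z n / S.p ^ j)
      + (S.X z n / S.p ^ (j + 1) - S.Y z n / S.p ^ (j + 1)) - 2) := by
    rw [Finset.sum_range_succ']
    simp only [pow_zero, Int.ediv_one, zero_add, pow_one]
    rw [hXY]
    rcases Nat.eq_zero_or_pos ν with h0 | h0
    · subst h0
      rw [zero_add, pow_one] at hlast
      simp only [Finset.range_zero, Finset.sum_empty]
      linarith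
    · obtain ⟨t, ht, ht1, ht2⟩ := hW
      have hlev : ∀ j : ℕ, j ≤ ν → 1 ≤ S.X z n / S.p ^ j - S.Y z n / S.p ^ j := by
        intro j hj
        have := ediv_lt_of_dvd (S.ppos j) ((pow_dvd_pow S.p hj).trans ht) ht1 ht2
        linarith
      have htel := sum_tel (a := fun j ↦ S.X z n / S.p ^ (j + 1) - S.Y z n / S.p ^ (j + 1)) ν h0
        (fun j hj ↦ hlev (j + 1) hj)
      simp only [zero_add, pow_one] at htel
      have h1' := hlev 1 h0
      simp only [pow_one] at h1'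
      linarith
  generalize hs : ∑ j ∈ Finset.range (ν + 1), R / (S.M1 * S.p ^ j) = a at *
  generalize hs' : ∑ j ∈ Finset.range (ν + 1), (R - 1) / (S.M1 * S.p ^ j) = b at *
  clear_value R
  omega

end Sys

end GH.CombU
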