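import Pool.Agent.GH.CombU.KAbsF
import Pool.Agent.GH.CombU.FZ

/-!
# Combinatorics of the hulls, `p = 13`: the structure theorem

Every block of the hull at the node `c mod p^ν` has a certificate (see `ST.lean`) or is flat.
-/

namespace GH.CombU

open GH.Comb

/-- A block with nondecreasing increments is flat. -/
theorem flat_of_mono {f : ℕ → ℤ} {δ : ℤ → ℤ} (hf : ∀ n : ℕ, f (n + 1) = f n + δ ((n : ℤ) + 1))
    {a b : ℕ} {l : ℚ} (hB : Block f a b l)
    (hδ : ∀ k k' : ℤ, a < k → k ≤ k' → k' ≤ b → δ k ≤ δ k') : FlatOn f a b := by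
  have hlt := hB.lt
  have hab : (0 : ℤ) < (b : ℤ) - a := by omega
  have key : ∀ k : ℕ, a ≤ k → k ≤ b →
      (f k - f a) * ((b : ℤ) - a) = (f b - f a) * ((k : ℤ) - a) := by
    intro k h1 h2
    rcases eq_or_lt_of_le h1 with h | h
    · subst h
      ring
    · exact le_antisymm (Sys.below_chord hf hδ h h2) (Sys.block_ge hB k)
  have e1 := key (a + 1) (by omega) (by omega)
  refine ⟨f (a + 1) - f a, fun k h1 h2 ↦ ?_⟩
  have e2 := key k h1 h2
  push_cast at e1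
  have e3 : f b - f a = (f (a + 1) - f a) * ((b : ℤ) - a) := by linarith
  rw [e3] at e2
  have e4 : f k - f a = (f (a + 1) - f a) * ((k : ℤ) - a) := by
    apply mul_right_cancel₀ hab.ne'
    linarith
  linarith

/-- The bottom of a unimodal sequence: a block which meets it is flat. -/
theorem flat_of_uni {f : ℕ → ℤ} {v : ℤ → ℤ} {g : ℤ}
    (hf : ∀ n : ℕ, f (n + 1) = f n + v ((n : ℤ) + 1)) {a0 b0 a b : ℕ} {l : ℚ} (h0 : a0 ≤ b0)
    (h1 : ∀ n : ℕ, n < a0 → v ((n : ℤ) + 1) < g)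
    (h2 : ∀ n : ℕ, a0 ≤ n → n < b0 → v ((n : ℤ) + 1) = g)
    (h3 : ∀ n : ℕ, b0 ≤ n → g < v ((n : ℤ) + 1)) (hB : Block f a b l) (ha : a < b0)
    (hb : a0 < b) : FlatOn f a b := by
  -- values on `[a0, b0]`
  have e2 : ∀ n : ℕ, a0 ≤ n → n ≤ b0 → f n = f a0 + g * ((n : ℤ) - a0) := by
    intro n hn
    induction n, hn using Nat.le_induction with
    | base => intro _; ring
    | succ n hn ih =>
      intro hnb
      rw [hf n, ih (by omega), h2 n hn (by omega)]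
      push_cast
      ring
  have e1 : ∀ i n : ℕ, n + i = a0 → f a0 - g * a0 + i ≤ f n - g * n := by
    intro i
    induction i with
    | zero =>
      intro n hn
      rw [add_zero] at hn
      rw [hn]
      push_cast
      linarith
    | succ i ih =>
      intro n hn
      have h4 := ih (n + 1) (by omega)
      have h5 := h1 n (by omega)
      rw [hf n] at h4
      push_cast at h4 ⊢
      linarith
  have e3 : ∀ n : ℕ, b0 ≤ n → f b0 - g * b0 + ((n : ℤ) - b0) ≤ f n - g * n := by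
    intro n hn
    induction n, hn using Nat.le_induction with
    | base => linarith
    | succ n hn ih =>
      have h5 := h3 n hn
      rw [hf n]
      push_cast
      linarith
  have e4 : f b0 - g * b0 = f a0 - g * a0 := by
    rw [e2 b0 h0 le_rfl]
    ring
  have m1 : ∀ k : ℕ, 2 * f a0 - 2 * g * a0 ≤ 2 * f k - 2 * g * k := by
    intro k
    rcases lt_or_ge k a0 with h | h
    · have := e1 (a0 - k) k (by omega)
      have h6 : (0 : ℤ) ≤ ((a0 - k : ℕ) : ℤ) := Int.natCast_nonneg _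
      linarith
    · rcases le_or_gt k b0 with h' | h'
      · rw [e2 k h h']
        linarith
      · have := e3 k h'.le
        have h6 : (b0 : ℤ) ≤ k := by exact_mod_cast h'.le
        linarith
  have va : IsV f a0 := by
    refine isV_of_min (G := 2 * g) m1 (Or.inl fun k hk ↦ ?_)
    have := e1 (a0 - k) k (by omega)
    have h6 : (1 : ℤ) ≤ ((a0 - k : ℕ) : ℤ) := by omega
    linarith
  have vb : IsV f b0 := by
    refine isV_of_min (G := 2 * g) (fun k ↦ ?_) (Or.inr fun k hk ↦ ?_)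
    · have := m1 k
      linarith
    · have := e3 k (by omega)
      have h6 : (b0 : ℤ) + 1 ≤ k := by exact_mod_cast hk
      linarith
  have c1 : a0 ≤ a := by
    by_contra hc
    exact hB.not_isV (by omega) hb va
  have c2 : b ≤ b0 := by
    by_contra hc
    exact hB.not_isV ha (by omega) vb
  refine ⟨g, fun k hk hk' ↦ ?_⟩
  rw [e2 k (by omega) (by omega), e2 a c1 (by omega)]
  ring

namespace Sys

variable {S : Sys}

/-- Half of the slope at the centre. -/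
def gZ (S : Sys) (ν : ℕ) (z : ℤ) : ℤ := S.X z (S.M z / 2) - S.X z (S.M z / 2) / S.p ^ (ν + 1)

theorem IsF.X_eq_Y_mid (hS : S.IsF) (z : ℤ) : S.Y z (S.M z / 2) = S.X z (S.M z / 2) := by
  have h := hS.XY z (S.M z / 2)
  obtain ⟨u, hu⟩ := hS.even z
  omega

theorem IsF.incZ_mid (hS : S.IsF) (ν : ℕ) (z : ℤ) : S.incZ ν z (S.M z / 2) = S.gZ ν z := by
  have h1 := S.incZ_add ν z (S.M z / 2)
  have h2 : S.M z - S.M z / 2 = S.M z / 2 := by
    obtain ⟨u, hu⟩ := hS.even z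
    omega
  rw [h2, hS.X_eq_Y_mid] at h1
  unfold gZ
  linarith

/-- The sum of the increments at reflected places is `2 g` up to one. -/
theorem IsF.incZ_add_near (hS : S.IsF) (ν : ℕ) (z n : ℤ) :
    2 * S.gZ ν z - 1 ≤ S.incZ ν z n + S.incZ ν z (S.M z - n) ∧
      S.incZ ν z n + S.incZ ν z (S.M z - n) ≤ 2 * S.gZ ν z + 1 := by
  have h1 := S.incZ_add ν z n
  have hT := S.ppos (ν + 1)
  have h2 := S.X_add_Y z n
  have h3 := S.X_add_Y z (S.M z / 2)
  rw [hS.X_eq_Y_mid] at h3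
  have h4 := ediv_add_le hT
    (show S.X z n + S.Y z n = S.X z (S.M z / 2) + S.X z (S.M z / 2) by linarith)
  have h5 := ediv_add_le hT
    (show S.X z (S.M z / 2) + S.X z (S.M z / 2) = S.X z n + S.Y z n by linarith)
  unfold gZ
  constructor <;> linarith

theorem IsF.strict (hS : S.IsF) {ν : ℕ} {z k : ℤ} (hW : S.W ν z k)
    (hR : 4 ≤ 2 * k - S.M z) :
    S.gZ ν z < S.incZ ν z k ∧ S.incZ ν z (S.M z - k) < S.gZ ν z := by
  have h1 := (hS.incZ_sub_ge hW).2.1 hR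
  have h2 := hS.incZ_add_near ν z k
  omega

theorem IsF.add_eq (hS : S.IsF) {ν : ℕ} {z k : ℤ} (hk : S.M z ≤ 2 * k) (hW : ¬ S.W ν z k) :
    S.incZ ν z k + S.incZ ν z (S.M z - k) = 2 * S.gZ ν z := by
  have h1 := S.X_eq_Y_of_not_W hk hW
  have h2 : S.X z k / S.p ^ (ν + 1) = S.Y z k / S.p ^ (ν + 1) := by
    rw [pow_succ_ediv, pow_succ_ediv, h1]
  have hk0 : S.M z / 2 ≤ k := by omega
  have h5 := S.X_mono z hk0
  have h6 := S.Y_anti z hk0
  rw [hS.X_eq_Y_mid] at h6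
  have hT := S.ppos (ν + 1)
  have h7 := Int.ediv_le_ediv hT h5
  have h8 := Int.ediv_le_ediv hT h6
  have h9 := S.incZ_add ν z k
  have h10 := S.X_add_Y z k
  have h11 := S.X_add_Y z (S.M z / 2)
  rw [hS.X_eq_Y_mid] at h11
  unfold gZ
  linarith

/-- A block with a centre of its class inside, when the window next to the centre contains no
multiple of `p^ν`. -/
theorem IsF.block_centre (hS : S.IsF) {ν a b : ℕ} {c z : ℤ} {l : ℚ}
    (hB : Block (S.FZ ν c) a b l) (hz : S.p ^ ν ∣ z - c) (ha : 2 * (a : ℤ) + 2 ≤ S.M z)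
    (hb : S.M z ≤ 2 * b) (hA : ¬ S.W ν z (S.M z / 2 + 1)) :
    (a : ℤ) + b + 1 = S.M z ∧ (∃ u : ℤ, l = u) ∧ S.X z b / S.p ^ ν = S.Y z b / S.p ^ ν := by
  have hF : S.FZ ν c = S.FZ ν z := funext fun n ↦ (S.FZ_congr hz n).symm
  rw [hF] at hB
  obtain ⟨u, hu⟩ := hS.even z
  have dich : ∀ k, S.M z ≤ 2 * k → (S.W ν z k ∧ 2 * S.gZ ν z < 2 * S.incZ ν z k ∧
      2 * S.incZ ν z (S.M z - k) < 2 * S.gZ ν z) ∨
      (¬ S.W ν z k ∧ S.incZ ν z k + S.incZ ν z (S.M z - k) = 2 * S.gZ ν z) := by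
    intro k hk
    by_cases hW : S.W ν z k
    · left
      have hR : 4 ≤ 2 * k - S.M z := by
        by_contra hc
        have : k ≤ S.M z / 2 + 1 := by omega
        exact hA (S.W_mono this hW)
      have := hS.strict hW hR
      refine ⟨hW, ?_, ?_⟩ <;> linarith
    · exact Or.inr ⟨hW, hS.add_eq hk hW⟩
  obtain ⟨h1, h2, h3⟩ := block_sym (v := S.incZ ν z) (W := S.W ν z) (M := S.M z)
    (G := 2 * S.gZ ν z) (S.FZ_step ν z) dich (fun k k' _ h hW ↦ S.W_mono h hW) (S.W_top ν z)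
    hB ha hb
  refine ⟨h1, ⟨S.gZ ν z, ?_⟩, S.X_eq_Y_of_not_W hb h3⟩
  push_cast at h2
  linarith

/-- A block with a centre of its class inside, when the window next to the centre contains a
multiple of `p^ν`. -/
theorem IsF.block_flat (hS : S.IsF) {ν a b : ℕ} {c z : ℤ} {l : ℚ}
    (hB : Block (S.FZ ν c) a b l) (hz : S.p ^ ν ∣ z - c) (ha : 2 * (a : ℤ) + 2 ≤ S.M z)
    (hb : S.M z ≤ 2 * b) (hA : S.W ν z (S.M z / 2 + 1)) : FlatOn (S.FZ ν c) a b := by
  have hF : S.FZ ν c = S.FZ ν z := funext fun n ↦ (S.FZ_congr hz n).symm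
  rw [hF] at hB ⊢
  obtain ⟨u, hu⟩ := hS.even z
  obtain ⟨K, hK⟩ : ∃ K : ℕ, S.M z / 2 = K + 1 := ⟨(S.M z / 2 - 1).toNat, by omega⟩
  have hmid := hS.incZ_mid ν z
  rw [hK] at hmid
  have hnear := hS.incZ_add_near ν z ((K : ℤ) + 2)
  have hge := (hS.incZ_sub_ge hA).1
  rw [hK] at hge
  have hM : S.M z - ((K : ℤ) + 2) = K := by omega
  have hM' : S.M z - ((K : ℤ) + 1 + 1) = K := by omega
  have hK2 : (K : ℤ) + 1 + 1 = K + 2 := by ring
  rw [hM] at hnear
  rw [hM', hK2] at hge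
  have hst : ∀ k : ℤ, (K : ℤ) + 3 ≤ k → S.gZ ν z < S.incZ ν z k ∧
      S.incZ ν z (S.M z - k) < S.gZ ν z := by
    intro k hk
    refine hS.strict (S.W_mono ?_ hA) ?_
    · omega
    · omega
  have hlow : ∀ k : ℤ, k ≤ (K : ℤ) - 1 → S.incZ ν z k < S.gZ ν z := by
    intro k hk
    have := (hst (S.M z - k) (by omega)).2
    rwa [sub_sub_cancel] at this
  have hb0 : ∃ b0 : ℕ, K + 1 ≤ b0 ∧ (∀ n : ℕ, K ≤ n → n < b0 → S.incZ ν z ((n : ℤ) + 1) =
      S.gZ ν z) ∧ (∀ n : ℕ, b0 ≤ n → S.gZ ν z < S.incZ ν z ((n : ℤ) + 1)) := by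
    by_cases h : S.incZ ν z ((K : ℤ) + 2) = S.gZ ν z
    · refine ⟨K + 2, by omega, fun n h1 h2 ↦ ?_, fun n h1 ↦ ?_⟩
      · rcases (show n = K ∨ n = K + 1 by omega) with h3 | h3
        · rw [h3]; exact hmid
        · rw [h3]
          push_cast
          rw [hK2]
          exact h
      · exact (hst _ (by omega)).1
    · refine ⟨K + 1, by omega, fun n h1 h2 ↦ ?_, fun n h1 ↦ ?_⟩
      · rw [show n = K by omega]; exact hmid
      · rcases (show n = K + 1 ∨ K + 2 ≤ n by omega) with h3 | h3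
        · rw [h3]
          push_cast
          rw [hK2]
          omega
        · exact (hst _ (by omega)).1
  have ha0 : ∃ a0 : ℕ, a0 ≤ K ∧ (∀ n : ℕ, n < a0 → S.incZ ν z ((n : ℤ) + 1) < S.gZ ν z) ∧
      (∀ n : ℕ, a0 ≤ n → n < K → S.incZ ν z ((n : ℤ) + 1) = S.gZ ν z) := by
    by_cases h : S.incZ ν z (K : ℤ) = S.gZ ν z
    · refine ⟨K - 1, by omega, fun n h1 ↦ ?_, fun n h1 h2 ↦ ?_⟩
      · exact hlow _ (by omega)
      · rw [show (n : ℤ) + 1 = K by omega]
        exact h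
    · refine ⟨K, le_rfl, fun n h1 ↦ ?_, fun n h1 h2 ↦ by omega⟩
      rcases (show (n : ℤ) + 1 = K ∨ (n : ℤ) + 1 ≤ K - 1 by omega) with h3 | h3
      · rw [h3]
        omega
      · exact hlow _ h3
  obtain ⟨b0, hb1, hb2, hb3⟩ := hb0
  obtain ⟨a0, ha1, ha2, ha3⟩ := ha0
  refine flat_of_uni (v := S.incZ ν z) (S.FZ_step ν z) (a0 := a0) (b0 := b0) (by omega) ha2 ?_
    hb3 hB (by omega) (by omega)
  intro n h1 h2
  rcases lt_or_ge n K with h | h
  · exact ha3 n h1 h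
  · exact hb2 n h h2

/-- A block with a centre of its class inside. -/
theorem IsF.cert_top (hS : S.IsF) {ν a b : ℕ} {c z : ℤ} {l : ℚ} (hB : Block (S.FZ ν c) a b l)
    (hz : S.p ^ ν ∣ z - c) (ha : 2 * (a : ℤ) + 2 ≤ S.M z) (hb : S.M z ≤ 2 * b) :
    (∃ u : ℤ, l = u) ∧ (S.Cert ν c a b z ∨ FlatOn (S.FZ ν c) a b) := by
  by_cases hA : S.W ν z (S.M z / 2 + 1)
  · have hF := hS.block_flat hB hz ha hb hA
    obtain ⟨u, hu, _⟩ := hF.slope hB
    exact ⟨⟨u, hu⟩, Or.inr hF⟩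
  obtain ⟨h1, h2, h3⟩ := hS.block_centre hB hz ha hb hA
  refine ⟨h2, ?_⟩
  by_cases hc : (b : ℤ) - a - 1 < S.M1 * S.p ^ ν
  · exact Or.inl ⟨hz, h1, h3, hc⟩
  · push Not at hc
    have hL := S.Lpos ν
    have hM : S.M (z + S.p ^ ν) = S.M z + S.M1 * S.p ^ ν := by
      unfold M
      ring
    have hz' : S.p ^ ν ∣ z + S.p ^ ν - c := by
      have : z + S.p ^ ν - c = (z - c) + S.p ^ ν := by ring
      rw [this]
      exact dvd_add hz dvd_rfl
    by_cases hA' : S.W ν (z + S.p ^ ν) (S.M (z + S.p ^ ν) / 2 + 1)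
    · exact Or.inr (hS.block_flat hB hz' (by rw [hM]; linarith) (by rw [hM]; linarith) hA')
    · exfalso
      have h5 := (hS.block_centre hB hz' (by rw [hM]; linarith) (by rw [hM]; linarith) hA').1
      rw [hM] at h5
      linarith

/-- On a block `FZ (ν + 1) - FZ ν` is linear, or linear plus a tent. -/
theorem nformZ (S : Sys) {s ν a b : ℕ} {c z : ℤ} (hC : S.Cert s c a b z) (hs : s ≤ ν + 1) :
    NForm (S.FZ ν c) (S.FZ (ν + 1) c) a b := by
  obtain ⟨E, θ, hθ, hN⟩ := S.nform hC hs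
  refine ⟨E, θ, hθ, fun n h1 h2 ↦ ?_⟩
  have e1 := hN n h1 h2
  have e2 := S.F_succ ν c n
  have e3 := S.F_succ ν c a
  have e4 := S.FZ_succ ν c n
  have e5 := S.FZ_succ ν c a
  linarith

/-- Superlinear growth. -/
theorem IsF.grows (hS : S.IsF) (ν : ℕ) (c : ℤ) : Grows (S.FZ ν c) := by
  intro C
  set T := S.p ^ (ν + 1) with hT
  have hTpos : 0 < T := S.ppos (ν + 1)
  set c1 := (S.M c + 2 * S.e - 2 * c - 2) - (S.M c + 2 * S.e - 2 * c - 2) / T with hc1
  refine ⟨(2 * C - c1).natAbs * 4 + (S.M c).natAbs * 4 + (S.e - c - 1).natAbs + 100, ?_⟩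
  intro k hk
  rw [S.FZ_step ν c k]
  set n : ℤ := (k : ℤ) + 1 with hn
  have hW : S.W ν c n := by
    refine ⟨0, dvd_zero _, ?_, ?_⟩
    · unfold Y
      rw [hS.q1]
      omega
    · unfold X
      rw [hS.q1]
      omega
  have h1 := (hS.incZ_sub_ge hW).2.2
  have h2 := S.incZ_add ν c n
  have h3 := S.X_add_Y c n
  rw [hS.q1, one_mul] at h3
  have h4 : S.X c n / T + S.Y c n / T ≤ (S.M c + 2 * S.e - 2 * c - 2) / T := by
    rw [← h3, Int.le_ediv_iff_mul_le hTpos]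
    have m1 := Int.mul_ediv_self_le (x := S.X c n) hTpos.ne'
    have m2 := Int.mul_ediv_self_le (x := S.Y c n) hTpos.ne'
    linarith
  have h5 : c1 ≤ S.incZ ν c n + S.incZ ν c (S.M c - n) := by
    rw [h2]
    linarith
  clear_value c1 T
  omega

end Sys

end GH.CombU
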