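import Pool.Agent.GH.Comb.HullEx

/-!
# Generic combinatorics of the hulls: the one step inequalities for two sequences

`f0` is the sequence at the parent, `f1` the sequence at the child. If on every block of the
parent and of the child the difference is linear, or linear plus a tent, then the inequalities
(K1), (K2), (K3) hold.
-/

namespace GH.CombU

open GH.Comb

variable {h : ℕ → ℤ}

theorem conv_inc (hc : ∀ n, 2 * h (n + 1) ≤ h n + h (n + 2)) {i j : ℕ} (hij : i ≤ j) :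
    h (i + 1) - h i ≤ h (j + 1) - h j := by
  induction j, hij using Nat.le_induction with
  | base => exact le_rfl
  | succ j _ ih =>
    have h1 := hc j
    have h2 : h (j + 2) = h (j + 1 + 1) := rfl
    rw [h2] at h1
    linarith

theorem conv_up (hc : ∀ n, 2 * h (n + 1) ≤ h n + h (n + 2)) {k m : ℕ} (hkm : k ≤ m) :
    ((m : ℤ) - k) * (h (k + 1) - h k) ≤ h m - h k := by
  induction m, hkm using Nat.le_induction with
  | base => simp
  | succ m hm ih =>
    have h1 := conv_inc hc hm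
    push_cast
    linarith

theorem conv_low (hc : ∀ n, 2 * h (n + 1) ≤ h n + h (n + 2)) {a k : ℕ} (hak : a ≤ k) :
    h k - h a ≤ ((k : ℤ) - a) * (h (k + 1) - h k) := by
  induction k, hak using Nat.le_induction with
  | base => simp
  | succ k hk ih =>
    have h1 := hc k
    have h2 : h (k + 2) = h (k + 1 + 1) := rfl
    rw [h2] at h1
    have h3 : (0 : ℤ) ≤ (k : ℤ) + 1 - a := by have : (a : ℤ) ≤ k := by exact_mod_cast hk
                                              linarith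
    have h4 : ((k : ℤ) + 1 - a) * (h (k + 1) - h k) ≤
        ((k : ℤ) + 1 - a) * (h (k + 1 + 1) - h (k + 1)) :=
      mul_le_mul_of_nonneg_left (by linarith) h3
    push_cast
    linarith

theorem conv_chord (hc : ∀ n, 2 * h (n + 1) ≤ h n + h (n + 2)) {a k b : ℕ} (h1 : a ≤ k)
    (h2 : k ≤ b) :
    ((b : ℤ) - a) * h k ≤ ((b : ℤ) - k) * h a + ((k : ℤ) - a) * h b := by
  have ha := conv_low hc h1
  have hb := conv_up hc h2
  have h3 : (0 : ℤ) ≤ (k : ℤ) - a := by
    have : (a : ℤ) ≤ k := by exact_mod_cast h1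
    linarith
  have h4 : (0 : ℤ) ≤ (b : ℤ) - k := by
    have : (k : ℤ) ≤ b := by exact_mod_cast h2
    linarith
  have h5 := mul_le_mul_of_nonneg_left ha h4
  have h6 := mul_le_mul_of_nonneg_left hb h3
  linarith

/-- A convex integer valued sequence with a strict vertex `n` between `a` and `b`. -/
theorem hhat {a b n : ℕ} (hc : ∀ n, 2 * h (n + 1) ≤ h n + h (n + 2)) {L : ℤ}
    (han : a < n) (hnb : n < b) (hb : h b = h a + L * ((b : ℤ) - a))
    (hn : 2 * h n < h (n - 1) + h (n + 1)) :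
    h n ≤ h a + L * ((n : ℤ) - a) - min ((n : ℤ) - a) ((b : ℤ) - n) ∧
      h (n + 1) ≤ h a + L * ((n : ℤ) + 1 - a) + 1 - min ((n : ℤ) + 1 - a) ((b : ℤ) - n - 1) := by
  obtain ⟨n, rfl⟩ : ∃ m, n = m + 1 := ⟨n - 1, by omega⟩
  have h0 : n + 1 - 1 = n := by omega
  rw [h0] at hn
  have h1 := conv_low hc (show a ≤ n by omega)
  have h2 := conv_up hc (show n + 1 ≤ b by omega)
  have h3 : (a : ℤ) ≤ n := by exact_mod_cast (show a ≤ n by omega)
  have h4 : (n : ℤ) + 2 ≤ b := by exact_mod_cast (show n + 2 ≤ b by omega)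
  push_cast at *
  have m1 := min_le_left ((n : ℤ) + 1 - a) ((b : ℤ) - (n + 1))
  have m2 := min_le_right ((n : ℤ) + 1 - a) ((b : ℤ) - (n + 1))
  have m3 := min_le_left ((n : ℤ) + 1 + 1 - a) ((b : ℤ) - (n + 1) - 1)
  have m4 := min_le_right ((n : ℤ) + 1 + 1 - a) ((b : ℤ) - (n + 1) - 1)
  rcases le_or_gt (h (n + 1 + 1) - h (n + 1)) L with hs | hs
  · have h5 : h (n + 1) - h n ≤ L - 1 := by linarith
    have h6 : ((n : ℤ) - a) * (h (n + 1) - h n) ≤ ((n : ℤ) - a) * (L - 1) :=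
      mul_le_mul_of_nonneg_left h5 (by linarith)
    constructor
    · linarith
    · linarith
  · have h5 : L + 1 ≤ h (n + 1 + 1) - h (n + 1) := by linarith
    have h6 : ((b : ℤ) - (n + 1)) * (L + 1) ≤
        ((b : ℤ) - (n + 1)) * (h (n + 1 + 1) - h (n + 1)) :=
      mul_le_mul_of_nonneg_left h5 (by linarith)
    have h7 : ((b : ℤ) - (n + 1) - 1) * (L + 1) ≤
        ((b : ℤ) - (n + 1) - 1) * (h (n + 1 + 1) - h (n + 1)) :=
      mul_le_mul_of_nonneg_left h5 (by linarith)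
    constructor
    · linarith
    · linarith

/-- The properties of the integer valued hull of `f`. -/
structure HSpec (f h : ℕ → ℤ) : Prop where
  hull : IsHull f h
  val : ∀ n, IsV f n → h n = f n
  vtx : ∀ n, Vtx h n ↔ IsV f n
  blk : ∀ (a b : ℕ) (l : ℤ), Block f a b (l : ℚ) → ∀ k : ℕ, a ≤ k → k ≤ b →
    h k = f a + l * ((k : ℤ) - a)

theorem exists_hspec {f : ℕ → ℤ} (hg : Grows f)
    (hint : ∀ (a b : ℕ) (l : ℚ), Block f a b l → ∃ z : ℤ, l = z) : ∃ h, HSpec f h := by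
  obtain ⟨h, h1, h2, h3, h4⟩ := exists_hull hg hint
  refine ⟨h, h1, h2, h3, ?_⟩
  intro a b l hB k hak hkb
  have h5 := h4 a b l hB k hak hkb
  have h6 : ((h k : ℤ) : ℚ) = ((f a + l * ((k : ℤ) - a) : ℤ) : ℚ) := by
    rw [h5]
    push_cast
    ring
  exact_mod_cast h6

/-- The integer valued hull of `f` (if it exists). -/
noncomputable def hullOf (f : ℕ → ℤ) : ℕ → ℤ :=
  open Classical in if h : ∃ h, HSpec f h then h.choose else 0

theorem hullOf_spec {f : ℕ → ℤ} (hg : Grows f)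
    (hint : ∀ (a b : ℕ) (l : ℚ), Block f a b l → ∃ z : ℤ, l = z) : HSpec f (hullOf f) := by
  have h := exists_hspec hg hint
  unfold hullOf
  rw [dif_pos h]
  exact h.choose_spec

/-- On `[a, b]` the difference `f1 - f0` is linear, or linear plus a tent. -/
def NForm (f0 f1 : ℕ → ℤ) (a b : ℕ) : Prop :=
  ∃ E θ : ℤ, (θ = 0 ∨ θ = 1) ∧ ∀ n : ℕ, a ≤ n → n ≤ b →
    f1 n = f0 n + (f1 a - f0 a) + E * ((n : ℤ) - a) + θ * min ((n : ℤ) - a) ((b : ℤ) - n)

theorem NForm.end {f0 f1 : ℕ → ℤ} {a b : ℕ} (hab : a ≤ b) {E θ : ℤ}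
    (hN : ∀ n : ℕ, a ≤ n → n ≤ b →
      f1 n = f0 n + (f1 a - f0 a) + E * ((n : ℤ) - a) + θ * min ((n : ℤ) - a) ((b : ℤ) - n)) :
    f1 b = f0 b + (f1 a - f0 a) + E * ((b : ℤ) - a) := by
  have h1 := hN b hab le_rfl
  have h2 : min ((b : ℤ) - a) ((b : ℤ) - b) = 0 := by
    have : (a : ℤ) ≤ b := by exact_mod_cast hab
    rw [sub_self]
    exact min_eq_right (by linarith)
  rw [h2] at h1
  linarith

/-- (K3b): strict vertices of the child are strict vertices of the parent. -/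
theorem isV_of_child {f0 f1 : ℕ → ℤ} (hg : Grows f0)
    (h0 : ∀ (a b : ℕ) (l : ℚ), Block f0 a b l → NForm f0 f1 a b) {n : ℕ} (hn : IsV f1 n) :
    IsV f0 n := by
  by_contra hcon
  obtain ⟨a, b, l, han, hnb, hB⟩ := block_of_not_isV hg hcon
  obtain ⟨E, θ, hθ, hN⟩ := h0 a b l hB
  have h1 := hN n han.le hnb.le
  have h2 := NForm.end (f0 := f0) (f1 := f1) (show a ≤ b by omega) hN
  have h3 := hn a b han hnb
  have ha : (a : ℤ) + 1 ≤ n := by exact_mod_cast han
  have hb : (n : ℤ) + 1 ≤ b := by exact_mod_cast hnb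
  have h4 : (f0 b - f0 a) * ((n : ℤ) - a) ≤ (f0 n - f0 a) * ((b : ℤ) - a) := by
    have e1 := hB.ge n
    have e2 := hB.eq
    have e3 : (0 : ℚ) ≤ (b : ℚ) - a := by
      have : (a : ℚ) ≤ b := by exact_mod_cast (show a ≤ b by omega)
      linarith
    have e4 : l * ((n : ℚ) - a) * ((b : ℚ) - a) ≤ ((f0 n : ℚ) - f0 a) * ((b : ℚ) - a) :=
      mul_le_mul_of_nonneg_right (by linarith) e3
    have e5 : ((f0 b : ℚ) - f0 a) * ((n : ℚ) - a) ≤ ((f0 n : ℚ) - f0 a) * ((b : ℚ) - a) := by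
      rw [e2]
      linarith
    exact_mod_cast e5
  have h5 : 0 ≤ θ * min ((n : ℤ) - a) ((b : ℤ) - n) := by
    apply mul_nonneg
    · rcases hθ with h | h <;> rw [h] <;> norm_num
    · exact le_min (by linarith) (by linarith)
  have h6 : (0 : ℤ) ≤ (b : ℤ) - a := by linarith
  have h7 := mul_nonneg h5 h6
  generalize θ * min ((n : ℤ) - a) ((b : ℤ) - n) = w at *
  rw [h1, h2] at h3
  linarith

variable {f0 f1 H0 H1 : ℕ → ℤ}

theorem chord_eq {f : ℕ → ℤ} {a b : ℕ} {l : ℚ} {z : ℤ} (hB : Block f a b l) (hz : l = z) :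
    f b = f a + z * ((b : ℤ) - a) := by
  have h1 := hB.eq
  rw [hz] at h1
  exact_mod_cast h1

/-- (N1) gives `H1 ≤ H0 + (f1 - f0)` everywhere. -/
theorem hull_le (s0 : HSpec f0 H0) (s1 : HSpec f1 H1) (hg : Grows f0)
    (i0 : ∀ (a b : ℕ) (l : ℚ), Block f0 a b l → ∃ z : ℤ, l = z)
    (h0 : ∀ (a b : ℕ) (l : ℚ), Block f0 a b l → NForm f0 f1 a b) (k : ℕ) :
    H1 k ≤ H0 k + (f1 k - f0 k) := by
  by_cases hk : IsV f0 k
  · rw [s0.val k hk]
    have := s1.hull.le k
    linarith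
  · obtain ⟨a, b, l, hak, hkb, hB⟩ := block_of_not_isV hg hk
    obtain ⟨E, θ, hθ, hN⟩ := h0 a b l hB
    obtain ⟨z, hz⟩ := i0 a b l hB
    have h1 := hN k hak.le hkb.le
    have h2 := NForm.end (f0 := f0) (f1 := f1) (show a ≤ b by omega) hN
    have h3 := conv_chord s1.hull.conv hak.le hkb.le
    have h4 := s1.hull.le a
    have h5 := s1.hull.le b
    have h6 := s0.blk a b z (hz ▸ hB) k hak.le hkb.le
    have h7 := chord_eq hB hz
    have ha : (a : ℤ) + 1 ≤ k := by exact_mod_cast hak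
    have hb : (k : ℤ) + 1 ≤ b := by exact_mod_cast hkb
    have h8 : 0 ≤ θ * min ((k : ℤ) - a) ((b : ℤ) - k) := by
      apply mul_nonneg
      · rcases hθ with h | h <;> rw [h] <;> norm_num
      · exact le_min (by linarith) (by linarith)
    have h9 : ((b : ℤ) - k) * H1 a ≤ ((b : ℤ) - k) * f1 a :=
      mul_le_mul_of_nonneg_left h4 (by linarith)
    have h10 : ((k : ℤ) - a) * H1 b ≤ ((k : ℤ) - a) * f1 b :=
      mul_le_mul_of_nonneg_left h5 (by linarith)
    have h11 : 0 < (b : ℤ) - a := by linarith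
    have h12 := mul_nonneg h8 h11.le
    generalize θ * min ((k : ℤ) - a) ((b : ℤ) - k) = w at *
    refine le_of_mul_le_mul_left ?_ h11
    rw [h6, h1]
    rw [h2, h7] at h10
    nlinarith [h3, h9, h10, h12]

/-- (K1). -/
theorem k1_of (s0 : HSpec f0 H0) (s1 : HSpec f1 H1) (hg : Grows f0)
    (i0 : ∀ (a b : ℕ) (l : ℚ), Block f0 a b l → ∃ z : ℤ, l = z)
    (h0 : ∀ (a b : ℕ) (l : ℚ), Block f0 a b l → NForm f0 f1 a b) (k : ℕ) :
    f0 k - H0 k ≤ f1 k - H1 k := by
  have := hull_le s0 s1 hg i0 h0 k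
  linarith

/-- (K3a). -/
theorem k3a_of (s0 : HSpec f0 H0) (s1 : HSpec f1 H1) (hg0 : Grows f0) (hg1 : Grows f1)
    (i1 : ∀ (a b : ℕ) (l : ℚ), Block f1 a b l → ∃ z : ℤ, l = z)
    (h0 : ∀ (a b : ℕ) (l : ℚ), Block f0 a b l → NForm f0 f1 a b)
    (h1 : ∀ (a b : ℕ) (l : ℚ), Block f1 a b l → NForm f0 f1 a b) {n : ℕ} (hn : IsV f0 n) :
    H1 n = f1 n := by
  by_cases hk : IsV f1 n
  · exact s1.val n hk
  · obtain ⟨a, b, l, hak, hkb, hB⟩ := block_of_not_isV hg1 hk
    obtain ⟨E, θ, hθ, hN⟩ := h1 a b l hB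
    obtain ⟨z, hz⟩ := i1 a b l hB
    have va : IsV f0 a := isV_of_child hg0 h0 hB.isV_left
    have vb : IsV f0 b := isV_of_child hg0 h0 hB.isV_right
    have e1 := hN n hak.le hkb.le
    have e2 := NForm.end (f0 := f0) (f1 := f1) (show a ≤ b by omega) hN
    have e3 := s1.blk a b z (hz ▸ hB) n hak.le hkb.le
    have e4 := chord_eq hB hz
    have e5 : H0 b = H0 a + (z - E) * ((b : ℤ) - a) := by
      rw [s0.val a va, s0.val b vb]
      linarith
    have e6 : 2 * H0 n < H0 (n - 1) + H0 (n + 1) := by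
      rcases (s0.vtx n).2 hn with h | h
      · omega
      · exact h
    have e7 := (hhat s0.hull.conv hak hkb e5 e6).1
    rw [s0.val a va, s0.val n hn] at e7
    have ha : (a : ℤ) + 1 ≤ n := by exact_mod_cast hak
    have hb : (n : ℤ) + 1 ≤ b := by exact_mod_cast hkb
    have e8 : θ * min ((n : ℤ) - a) ((b : ℤ) - n) ≤ min ((n : ℤ) - a) ((b : ℤ) - n) := by
      have : 0 ≤ min ((n : ℤ) - a) ((b : ℤ) - n) := le_min (by linarith) (by linarith)
      rcases hθ with h | h <;> rw [h] <;> linarith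
    have e9 := s1.hull.le n
    apply le_antisymm e9
    rw [e3, e1]
    linarith

/-- (K2). -/
theorem k2_of (s0 : HSpec f0 H0) (s1 : HSpec f1 H1) (hg0 : Grows f0) (hg1 : Grows f1)
    (i1 : ∀ (a b : ℕ) (l : ℚ), Block f1 a b l → ∃ z : ℤ, l = z)
    (h0 : ∀ (a b : ℕ) (l : ℚ), Block f0 a b l → NForm f0 f1 a b)
    (h1 : ∀ (a b : ℕ) (l : ℚ), Block f1 a b l → NForm f0 f1 a b) {n : ℕ} (hn : IsV f0 n) :
    f1 (n + 1) - H1 (n + 1) ≤ f0 (n + 1) - H0 (n + 1) + 1 := by
  have hle := s0.hull.le (n + 1)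
  by_cases hk : IsV f1 (n + 1)
  · rw [s1.val _ hk]
    linarith
  · obtain ⟨a, b, l, hak, hkb, hB⟩ := block_of_not_isV hg1 hk
    obtain ⟨E, θ, hθ, hN⟩ := h1 a b l hB
    obtain ⟨z, hz⟩ := i1 a b l hB
    have va : IsV f0 a := isV_of_child hg0 h0 hB.isV_left
    have vb : IsV f0 b := isV_of_child hg0 h0 hB.isV_right
    have e1 := hN (n + 1) hak.le hkb.le
    have e2 := NForm.end (f0 := f0) (f1 := f1) (show a ≤ b by omega) hN
    have e3 := s1.blk a b z (hz ▸ hB) (n + 1) hak.le hkb.le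
    have e4 := chord_eq hB hz
    have e5 : H0 b = H0 a + (z - E) * ((b : ℤ) - a) := by
      rw [s0.val a va, s0.val b vb]
      linarith
    have ha : (a : ℤ) ≤ n := by exact_mod_cast (show a ≤ n by omega)
    have hb : (n : ℤ) + 2 ≤ b := by exact_mod_cast (show n + 2 ≤ b by omega)
    push_cast at e1 e3
    have e8 : θ * min ((n : ℤ) + 1 - a) ((b : ℤ) - (n + 1)) ≤
        min ((n : ℤ) + 1 - a) ((b : ℤ) - (n + 1)) := by
      have : 0 ≤ min ((n : ℤ) + 1 - a) ((b : ℤ) - (n + 1)) :=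
        le_min (by linarith) (by linarith)
      rcases hθ with h | h <;> rw [h] <;> linarith
    have key : H0 (n + 1) ≤ H0 a + (z - E) * ((n : ℤ) + 1 - a) + 1 -
        min ((n : ℤ) + 1 - a) ((b : ℤ) - (n + 1)) := by
      rcases (show a = n ∨ a < n by omega) with h | h
      · have c1 := conv_chord s0.hull.conv (show a ≤ n + 1 by omega) (show n + 1 ≤ b by omega)
        have c2 : (0 : ℤ) < (b : ℤ) - a := by linarith
        have c3 : ((b : ℤ) - a) * H0 (n + 1) ≤
            ((b : ℤ) - a) * (H0 a + (z - E) * ((n : ℤ) + 1 - a)) := by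
          rw [e5] at c1
          push_cast at c1
          linarith
        have c4 := le_of_mul_le_mul_left c3 c2
        have c5 : min ((n : ℤ) + 1 - a) ((b : ℤ) - (n + 1)) ≤ 1 := by
          refine (min_le_left _ _).trans ?_
          have : (a : ℤ) = n := by exact_mod_cast h
          linarith
        linarith
      · have e6 : 2 * H0 n < H0 (n - 1) + H0 (n + 1) := by
          rcases (s0.vtx n).2 hn with h' | h'
          · omega
          · exact h'
        have e7 := (hhat s0.hull.conv h (show n < b by omega) e5 e6).2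
        have e9 : (b : ℤ) - n - 1 = (b : ℤ) - (n + 1) := by ring
        rw [e9] at e7
        exact e7
    rw [s0.val a va] at key
    rw [e3, e1]
    linarith

end GH.CombU
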