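import Pool.Agent.GH.CombU.KAbs

/-!
# Generic combinatorics of the hulls: the one step inequalities with flat blocks

As `KAbs.lean`, but a block may also be flat (`f` is equal to its chord). A vertex of the child
is a vertex of the parent, or it lies inside a flat block of the parent.
-/

namespace GH.CombU

open GH.Comb

/-- `f` is linear on `[a, b]`. -/
def FlatOn (f : ℕ → ℤ) (a b : ℕ) : Prop :=
  ∃ l : ℤ, ∀ k : ℕ, a ≤ k → k ≤ b → f k = f a + l * ((k : ℤ) - a)

theorem FlatOn.mono {f : ℕ → ℤ} {a b a' b' : ℕ} (h : FlatOn f a b) (h1 : a ≤ a') (h2 : b' ≤ b) :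
    FlatOn f a' b' := by
  obtain ⟨l, hl⟩ := h
  refine ⟨l, fun k hk hk' ↦ ?_⟩
  have e1 := hl k (by omega) (by omega)
  have e2 := hl a' h1 (by omega)
  rw [e1, e2]
  ring

/-- The chord of a flat block. -/
theorem FlatOn.slope {f : ℕ → ℤ} {a b : ℕ} {l : ℚ} (hB : Block f a b l) (hF : FlatOn f a b) :
    ∃ u : ℤ, l = u ∧ ∀ k : ℕ, a ≤ k → k ≤ b → f k = f a + u * ((k : ℤ) - a) := by
  obtain ⟨u, hu⟩ := hF
  refine ⟨u, ?_, hu⟩
  have hlt := hB.lt
  have e1 := hu b (by omega) le_rfl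
  have e2 := hB.eq
  have e3 : ((b : ℚ) - a) ≠ 0 := by
    have : (a : ℚ) < b := by exact_mod_cast (show a < b by omega)
    intro h
    linarith
  have e4 : ((f b : ℤ) : ℚ) = ((f a + u * ((b : ℤ) - a) : ℤ) : ℚ) := by rw [e1]
  rw [e2] at e4
  push_cast at e4
  apply mul_right_cancel₀ e3
  linarith

/-- On a flat block the hull is equal to `f`. -/
theorem val_flat {f h : ℕ → ℤ} (s : HSpec f h) {a b : ℕ} {l : ℚ} (hB : Block f a b l)
    (hF : FlatOn f a b) {k : ℕ} (h1 : a ≤ k) (h2 : k ≤ b) : h k = f k := by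
  obtain ⟨u, hu, hf⟩ := hF.slope hB
  rw [s.blk a b u (hu ▸ hB) k h1 h2, hf k h1 h2]

variable {f0 f1 H0 H1 : ℕ → ℤ}

theorem not_isV_of_nform {a b n : ℕ} {l : ℚ} (hB : Block f0 a b l) (hN : NForm f0 f1 a b)
    (han : a < n) (hnb : n < b) : ¬ IsV f1 n := by
  intro hn
  obtain ⟨E, θ, hθ, hN⟩ := hN
  have h1 := hN n han.le hnb.le
  have h2 := NForm.end (f0 := f0) (f1 := f1) (show a ≤ b by omega) hN
  have h3 := hn a b han hnb
  have ha : (a : ℤ) + 1 ≤ n := by exact_mod_cast han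
  have hb : (n : ℤ) + 1 ≤ b := by exact_mod_cast hnb
  have h4 : (f0 b - f0 a) * ((n : ℤ) - a) ≤ (f0 n - f0 a) * ((b : ℤ) - a) := by
    have e1 := hB.ge n
    have e2 := hB.eq
    have e3 : (0 : ℚ) ≤ (b : ℚ) - a := by
      have : (a : ℚ) ≤ b := by exact_mod_cast (show a ≤ b by omega)
      linarith
    have e4 : l * ((n : ℚ) - a) * ((b : ℚ) - a) ≤ ((f0 n : ℚ) - f0 a) * ((b : ℚ) - a) :=
      mul_le_mul_of_nonneg_right (by linarith) e3
    have e5 : ((f0 b : ℚ) - f0 a) * ((n : ℚ) - a) ≤ ((f0 n : ℚ) - f0 a) * ((b : ℚ) - a) := by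
      rw [e2]
      linarith
    exact_mod_cast e5
  have h5 : 0 ≤ θ * min ((n : ℤ) - a) ((b : ℤ) - n) := by
    apply mul_nonneg
    · rcases hθ with h | h <;> rw [h] <;> norm_num
    · exact le_min (by linarith) (by linarith)
  have h6 : (0 : ℤ) ≤ (b : ℤ) - a := by linarith
  have h7 := mul_nonneg h5 h6
  generalize θ * min ((n : ℤ) - a) ((b : ℤ) - n) = w at *
  rw [h1, h2] at h3
  linarith

/-- A vertex of the child is a vertex of the parent or lies inside a flat block. -/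
theorem isV_of_childF (hg : Grows f0)
    (h0 : ∀ (a b : ℕ) (l : ℚ), Block f0 a b l → NForm f0 f1 a b ∨ FlatOn f0 a b) {n : ℕ}
    (hn : IsV f1 n) :
    IsV f0 n ∨ ∃ (a b : ℕ) (l : ℚ), Block f0 a b l ∧ FlatOn f0 a b ∧ a < n ∧ n < b := by
  by_cases hcon : IsV f0 n
  · exact Or.inl hcon
  · right
    obtain ⟨a, b, l, han, hnb, hB⟩ := block_of_not_isV hg hcon
    rcases h0 a b l hB with hN | hF
    · exact absurd hn (not_isV_of_nform hB hN han hnb)
    · exact ⟨a, b, l, hB, hF, han, hnb⟩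

/-- At a vertex of the child the hull of the parent is equal to `f0`. -/
theorem val_of_childF (s0 : HSpec f0 H0) (hg : Grows f0)
    (h0 : ∀ (a b : ℕ) (l : ℚ), Block f0 a b l → NForm f0 f1 a b ∨ FlatOn f0 a b) {n : ℕ}
    (hn : IsV f1 n) : H0 n = f0 n := by
  rcases isV_of_childF hg h0 hn with h | ⟨a, b, l, hB, hF, h1, h2⟩
  · exact s0.val n h
  · exact val_flat s0 hB hF h1.le h2.le

/-- (N1) gives `H1 ≤ H0 + (f1 - f0)` everywhere. -/
theorem hull_leF (s0 : HSpec f0 H0) (s1 : HSpec f1 H1) (hg : Grows f0)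
    (i0 : ∀ (a b : ℕ) (l : ℚ), Block f0 a b l → ∃ z : ℤ, l = z)
    (h0 : ∀ (a b : ℕ) (l : ℚ), Block f0 a b l → NForm f0 f1 a b ∨ FlatOn f0 a b) (k : ℕ) :
    H1 k ≤ H0 k + (f1 k - f0 k) := by
  by_cases hk : IsV f0 k
  · rw [s0.val k hk]
    have := s1.hull.le k
    linarith
  · obtain ⟨a, b, l, hak, hkb, hB⟩ := block_of_not_isV hg hk
    rcases h0 a b l hB with ⟨E, θ, hθ, hN⟩ | hF
    swap
    · rw [val_flat s0 hB hF hak.le hkb.le]
      have := s1.hull.le k
      linarith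
    obtain ⟨z, hz⟩ := i0 a b l hB
    have h1 := hN k hak.le hkb.le
    have h2 := NForm.end (f0 := f0) (f1 := f1) (show a ≤ b by omega) hN
    have h3 := conv_chord s1.hull.conv hak.le hkb.le
    have h4 := s1.hull.le a
    have h5 := s1.hull.le b
    have h6 := s0.blk a b z (hz ▸ hB) k hak.le hkb.le
    have h7 := chord_eq hB hz
    have ha : (a : ℤ) + 1 ≤ k := by exact_mod_cast hak
    have hb : (k : ℤ) + 1 ≤ b := by exact_mod_cast hkb
    have h8 : 0 ≤ θ * min ((k : ℤ) - a) ((b : ℤ) - k) := by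
      apply mul_nonneg
      · rcases hθ with h | h <;> rw [h] <;> norm_num
      · exact le_min (by linarith) (by linarith)
    have h9 : ((b : ℤ) - k) * H1 a ≤ ((b : ℤ) - k) * f1 a :=
      mul_le_mul_of_nonneg_left h4 (by linarith)
    have h10 : ((k : ℤ) - a) * H1 b ≤ ((k : ℤ) - a) * f1 b :=
      mul_le_mul_of_nonneg_left h5 (by linarith)
    have h11 : 0 < (b : ℤ) - a := by linarith
    have h12 := mul_nonneg h8 h11.le
    generalize θ * min ((k : ℤ) - a) ((b : ℤ) - k) = w at *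
    refine le_of_mul_le_mul_left ?_ h11
    rw [h6, h1]
    rw [h2, h7] at h10
    nlinarith [h3, h9, h10, h12]

/-- (K1). -/
theorem k1_ofF (s0 : HSpec f0 H0) (s1 : HSpec f1 H1) (hg : Grows f0)
    (i0 : ∀ (a b : ℕ) (l : ℚ), Block f0 a b l → ∃ z : ℤ, l = z)
    (h0 : ∀ (a b : ℕ) (l : ℚ), Block f0 a b l → NForm f0 f1 a b ∨ FlatOn f0 a b) (k : ℕ) :
    f0 k - H0 k ≤ f1 k - H1 k := by
  have := hull_leF s0 s1 hg i0 h0 k
  linarith

/-- (K3a). -/
theorem k3a_ofF (s0 : HSpec f0 H0) (s1 : HSpec f1 H1) (hg0 : Grows f0) (hg1 : Grows f1)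
    (i1 : ∀ (a b : ℕ) (l : ℚ), Block f1 a b l → ∃ z : ℤ, l = z)
    (h0 : ∀ (a b : ℕ) (l : ℚ), Block f0 a b l → NForm f0 f1 a b ∨ FlatOn f0 a b)
    (h1 : ∀ (a b : ℕ) (l : ℚ), Block f1 a b l → NForm f0 f1 a b ∨ FlatOn f1 a b) {n : ℕ}
    (hn : IsV f0 n) : H1 n = f1 n := by
  by_cases hk : IsV f1 n
  · exact s1.val n hk
  · obtain ⟨a, b, l, hak, hkb, hB⟩ := block_of_not_isV hg1 hk
    rcases h1 a b l hB with ⟨E, θ, hθ, hN⟩ | hF
    swap
    · exact val_flat s1 hB hF hak.le hkb.le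
    obtain ⟨z, hz⟩ := i1 a b l hB
    have va := val_of_childF s0 hg0 h0 hB.isV_left
    have vb := val_of_childF s0 hg0 h0 hB.isV_right
    have e1 := hN n hak.le hkb.le
    have e2 := NForm.end (f0 := f0) (f1 := f1) (show a ≤ b by omega) hN
    have e3 := s1.blk a b z (hz ▸ hB) n hak.le hkb.le
    have e4 := chord_eq hB hz
    have e5 : H0 b = H0 a + (z - E) * ((b : ℤ) - a) := by
      rw [va, vb]
      linarith
    have e6 : 2 * H0 n < H0 (n - 1) + H0 (n + 1) := by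
      rcases (s0.vtx n).2 hn with h | h
      · omega
      · exact h
    have e7 := (hhat s0.hull.conv hak hkb e5 e6).1
    rw [va, s0.val n hn] at e7
    have ha : (a : ℤ) + 1 ≤ n := by exact_mod_cast hak
    have hb : (n : ℤ) + 1 ≤ b := by exact_mod_cast hkb
    have e8 : θ * min ((n : ℤ) - a) ((b : ℤ) - n) ≤ min ((n : ℤ) - a) ((b : ℤ) - n) := by
      have : 0 ≤ min ((n : ℤ) - a) ((b : ℤ) - n) := le_min (by linarith) (by linarith)
      rcases hθ with h | h <;> rw [h] <;> linarith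
    have e9 := s1.hull.le n
    apply le_antisymm e9
    rw [e3, e1]
    linarith

/-- (K2). -/
theorem k2_ofF (s0 : HSpec f0 H0) (s1 : HSpec f1 H1) (hg0 : Grows f0) (hg1 : Grows f1)
    (i1 : ∀ (a b : ℕ) (l : ℚ), Block f1 a b l → ∃ z : ℤ, l = z)
    (h0 : ∀ (a b : ℕ) (l : ℚ), Block f0 a b l → NForm f0 f1 a b ∨ FlatOn f0 a b)
    (h1 : ∀ (a b : ℕ) (l : ℚ), Block f1 a b l → NForm f0 f1 a b ∨ FlatOn f1 a b) {n : ℕ}
    (hn : IsV f0 n) : f1 (n + 1) - H1 (n + 1) ≤ f0 (n + 1) - H0 (n + 1) + 1 := by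
  have hle := s0.hull.le (n + 1)
  by_cases hk : IsV f1 (n + 1)
  · rw [s1.val _ hk]
    linarith
  · obtain ⟨a, b, l, hak, hkb, hB⟩ := block_of_not_isV hg1 hk
    rcases h1 a b l hB with ⟨E, θ, hθ, hN⟩ | hF
    swap
    · rw [val_flat s1 hB hF hak.le hkb.le]
      linarith
    obtain ⟨z, hz⟩ := i1 a b l hB
    have va := val_of_childF s0 hg0 h0 hB.isV_left
    have vb := val_of_childF s0 hg0 h0 hB.isV_right
    have e1 := hN (n + 1) hak.le hkb.le
    have e2 := NForm.end (f0 := f0) (f1 := f1) (show a ≤ b by omega) hN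
    have e3 := s1.blk a b z (hz ▸ hB) (n + 1) hak.le hkb.le
    have e4 := chord_eq hB hz
    have e5 : H0 b = H0 a + (z - E) * ((b : ℤ) - a) := by
      rw [va, vb]
      linarith
    have ha : (a : ℤ) ≤ n := by exact_mod_cast (show a ≤ n by omega)
    have hb : (n : ℤ) + 2 ≤ b := by exact_mod_cast (show n + 2 ≤ b by omega)
    push_cast at e1 e3
    have e8 : θ * min ((n : ℤ) + 1 - a) ((b : ℤ) - (n + 1)) ≤
        min ((n : ℤ) + 1 - a) ((b : ℤ) - (n + 1)) := by
      have : 0 ≤ min ((n : ℤ) + 1 - a) ((b : ℤ) - (n + 1)) :=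
        le_min (by linarith) (by linarith)
      rcases hθ with h | h <;> rw [h] <;> linarith
    have key : H0 (n + 1) ≤ H0 a + (z - E) * ((n : ℤ) + 1 - a) + 1 -
        min ((n : ℤ) + 1 - a) ((b : ℤ) - (n + 1)) := by
      rcases (show a = n ∨ a < n by omega) with h | h
      · have c1 := conv_chord s0.hull.conv (show a ≤ n + 1 by omega) (show n + 1 ≤ b by omega)
        have c2 : (0 : ℤ) < (b : ℤ) - a := by linarith
        have c3 : ((b : ℤ) - a) * H0 (n + 1) ≤
            ((b : ℤ) - a) * (H0 a + (z - E) * ((n : ℤ) + 1 - a)) := by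
          rw [e5] at c1
          push_cast at c1
          linarith
        have c4 := le_of_mul_le_mul_left c3 c2
        have c5 : min ((n : ℤ) + 1 - a) ((b : ℤ) - (n + 1)) ≤ 1 := by
          refine (min_le_left _ _).trans ?_
          have : (a : ℤ) = n := by exact_mod_cast h
          linarith
        linarith
      · have e6 : 2 * H0 n < H0 (n - 1) + H0 (n + 1) := by
          rcases (s0.vtx n).2 hn with h' | h'
          · omega
          · exact h'
        have e7 := (hhat s0.hull.conv h (show n < b by omega) e5 e6).2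
        have e9 : (b : ℤ) - n - 1 = (b : ℤ) - (n + 1) := by ring
        rw [e9] at e7
        exact e7
    rw [va] at key
    rw [e3, e1]
    linarith

end GH.CombU
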