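import Pool.Agent.GH.Comb.HullGen

/-!
# Generic combinatorics of the hulls: localisation

A sequence whose increments satisfy a reflection property around `M`: the minimisers of
`2 f n - G n` are symmetric under `n ↦ M - 1 - n`.
-/

namespace GH.CombU

open GH.Comb

variable {f : ℕ → ℤ} {v : ℤ → ℤ} {W : ℤ → Prop} {M G : ℤ}

theorem refl_eq (hf : ∀ n : ℕ, f (n + 1) = f n + v ((n : ℤ) + 1))
    (h1 : ∀ k, M ≤ 2 * k → (W k ∧ G < 2 * v k ∧ 2 * v (M - k) < G) ∨
      (¬ W k ∧ v k + v (M - k) = G)) (i : ℕ) :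
    ∀ x y : ℕ, y = x + i → (x : ℤ) + y + 1 = M → (∀ k : ℤ, M ≤ 2 * k → k ≤ y → ¬ W k) →
      2 * f y - G * y = 2 * f x - G * x := by
  induction i using Nat.strong_induction_on with
  | _ i ih =>
    intro x y hy hM hW
    rcases (show i = 0 ∨ i = 1 ∨ 2 ≤ i by omega) with h | h | h
    · subst h
      subst hy
      rfl
    · subst h
      subst hy
      have h2 := hf x
      have h3 : M ≤ 2 * ((x : ℤ) + 1) := by push_cast at hM; linarith
      have h4 := hW ((x : ℤ) + 1) h3 (by push_cast; exact le_rfl)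
      rcases h1 _ h3 with h5 | h5
      · exact absurd h5.1 h4
      · have h6 : M - ((x : ℤ) + 1) = (x : ℤ) + 1 := by push_cast at hM; linarith
        rw [h6] at h5
        rw [h2]
        push_cast
        linarith [h5.2]
    · obtain ⟨y, rfl⟩ : ∃ z, y = z + 1 := ⟨y - 1, by omega⟩
      have h2 := ih (i - 2) (by omega) (x + 1) y (by omega) (by push_cast at hM ⊢; linarith)
        (by
          intro k hk hky
          exact hW k hk (by push_cast; linarith))
      have h3 := hf x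
      have h4 := hf y
      have hxy : (x : ℤ) + 1 ≤ y := by exact_mod_cast (show x + 1 ≤ y by omega)
      have h5 : M ≤ 2 * ((y : ℤ) + 1) := by push_cast at hM; linarith
      have h6 := hW ((y : ℤ) + 1) h5 (by push_cast; exact le_rfl)
      rcases h1 _ h5 with h7 | h7
      · exact absurd h7.1 h6
      · have h8 : M - ((y : ℤ) + 1) = (x : ℤ) + 1 := by push_cast at hM; linarith
        rw [h8] at h7
        rw [h3] at h2
        rw [h4]
        push_cast at h2 ⊢
        linarith [h7.2]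

/-- The set of minimisers of `2 f n - G n` is symmetric under `n ↦ M - 1 - n`. -/
theorem min_sym (hf : ∀ n : ℕ, f (n + 1) = f n + v ((n : ℤ) + 1))
    (h1 : ∀ k, M ≤ 2 * k → (W k ∧ G < 2 * v k ∧ 2 * v (M - k) < G) ∨
      (¬ W k ∧ v k + v (M - k) = G))
    (h2 : ∀ k k', M ≤ 2 * k → k ≤ k' → W k → W k') (hM : 2 ≤ M) (h3 : W M) :
    ∃ a b : ℕ, a ≤ b ∧ (a : ℤ) + b + 1 = M ∧ (a < b → ¬ W b) ∧
      (2 * f b - G * b = 2 * f a - G * a) ∧
      (∀ k : ℕ, 2 * f a - G * a ≤ 2 * f k - G * k) ∧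
      (∀ k : ℕ, k < a → 2 * f a - G * a < 2 * f k - G * k) ∧
      (∀ k : ℕ, b < k → 2 * f a - G * a < 2 * f k - G * k) := by
  classical
  -- increasing beyond `M`
  have hinc : ∀ n : ℕ, M ≤ (n : ℤ) + 1 → 2 * f n - G * n < 2 * f (n + 1) - G * (n + 1 : ℕ) := by
    intro n hn
    have h4 : M ≤ 2 * ((n : ℤ) + 1) := by linarith
    have h5 : W ((n : ℤ) + 1) := h2 M _ (by linarith) hn h3
    rcases h1 _ h4 with h6 | h6
    · rw [hf n]
      push_cast
      linarith [h6.2.1]
    · exact absurd h5 h6.1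
  obtain ⟨K, hK⟩ : ∃ K : ℕ, (K : ℤ) = M := ⟨M.toNat, by omega⟩
  have hinc2 : ∀ n : ℕ, K ≤ n → 2 * f K - G * K ≤ 2 * f n - G * n := by
    intro n hn
    induction n, hn using Nat.le_induction with
    | base => exact le_rfl
    | succ n hn ih =>
      have h4 : (K : ℤ) ≤ n := by exact_mod_cast hn
      have := hinc n (by linarith)
      linarith
  obtain ⟨n0, hn0, hmin⟩ := Finset.exists_min_image (Finset.range (K + 1))
    (fun n : ℕ ↦ 2 * f n - G * n) ⟨0, by simp⟩
  have hex : ∃ n : ℕ, ∀ k : ℕ, 2 * f n - G * n ≤ 2 * f k - G * k := by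
    refine ⟨n0, fun k ↦ ?_⟩
    rcases le_or_gt k K with hk | hk
    · exact hmin k (by simp; omega)
    · exact (hmin K (by simp)).trans (hinc2 k hk.le)
  set a := Nat.find hex with ha
  have ham := Nat.find_spec hex
  rw [← ha] at ham
  have hal : ∀ k : ℕ, k < a → 2 * f a - G * a < 2 * f k - G * k := by
    intro k hk
    by_contra hcon
    push Not at hcon
    exact Nat.find_min hex hk (fun j ↦ hcon.trans (ham j))
  -- `2 a < M`
  have hA : 2 * (a : ℤ) < M := by
    by_contra hcon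
    push Not at hcon
    obtain ⟨a', ha'⟩ : ∃ z, a = z + 1 := ⟨a - 1, by omega⟩
    have h4 := h1 a hcon
    rcases h4 with h4 | h4
    · have h5 := hal a' (by omega)
      have h6 := hf a'
      rw [ha'] at h4 h5
      rw [h6] at h5
      push_cast at h4 h5
      linarith [h4.2.1]
    · have haM : (a : ℤ) < M := by
        by_contra hc
        push Not at hc
        exact h4.1 (h2 M a (by linarith) hc h3)
      obtain ⟨x, hx⟩ : ∃ x : ℕ, (x : ℤ) + a + 1 = M := ⟨(M - 1 - a).toNat, by omega⟩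
      have h5 := refl_eq hf h1 (a - x) x a (by omega) hx
        (fun k hk hka hWk ↦ h4.1 (h2 k a hk hka hWk))
      have h6 := hal x (by omega)
      linarith
  obtain ⟨b, hb⟩ : ∃ b : ℕ, (a : ℤ) + b + 1 = M := ⟨(M - 1 - a).toNat, by omega⟩
  have hab : a ≤ b := by omega
  have hWb : a < b → ¬ W b := by
    intro hlt hW
    have h4 : M ≤ 2 * (b : ℤ) := by omega
    rcases h1 b h4 with h5 | h5
    · have h6 : M - b = (a : ℤ) + 1 := by linarith
      rw [h6] at h5
      have h7 := ham (a + 1)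
      rw [hf a] at h7
      push_cast at h7
      linarith [h5.2.2]
    · exact h5.1 hW
  have hval : 2 * f b - G * b = 2 * f a - G * a := by
    rcases (show a = b ∨ a < b by omega) with h | h
    · rw [h]
    · exact refl_eq hf h1 (b - a) a b (by omega) hb
        (fun k hk hkb hWk ↦ hWb h (h2 k b hk hkb hWk))
  refine ⟨a, b, hab, hb, hWb, hval, ham, hal, ?_⟩
  intro k hk
  by_contra hcon
  push Not at hcon
  have hkm : ∀ j : ℕ, 2 * f k - G * k ≤ 2 * f j - G * j := fun j ↦ hcon.trans (ham j)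
  have h4 : M ≤ 2 * (k : ℤ) := by omega
  rcases h1 k h4 with h5 | h5
  · obtain ⟨k', hk'⟩ : ∃ z, k = z + 1 := ⟨k - 1, by omega⟩
    have h6 := hkm k'
    rw [hk'] at h5 h6
    rw [hf k'] at h6
    push_cast at h5 h6
    linarith [h5.2.1]
  · have hkM : (k : ℤ) < M := by
      by_contra hc
      push Not at hc
      exact h5.1 (h2 M k (by linarith) hc h3)
    obtain ⟨x, hx⟩ : ∃ x : ℕ, (x : ℤ) + k + 1 = M := ⟨(M - 1 - k).toNat, by omega⟩
    have h6 := refl_eq hf h1 (k - x) x k (by omega) hx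
      (fun j hj hjk hWj ↦ h5.1 (h2 j k hj hjk hWj))
    have h7 := hal x (by omega)
    have h8 := ham k
    linarith

theorem isV_of_min {a : ℕ} (h1 : ∀ k : ℕ, 2 * f a - G * a ≤ 2 * f k - G * k)
    (h2 : (∀ k : ℕ, k < a → 2 * f a - G * a < 2 * f k - G * k) ∨
      (∀ k : ℕ, a < k → 2 * f a - G * a < 2 * f k - G * k)) : IsV f a := by
  intro x y hx hy
  have hx' : (0 : ℤ) < (a : ℤ) - x := by
    have : (x : ℤ) < a := by exact_mod_cast hx
    linarith
  have hy' : (0 : ℤ) < (y : ℤ) - a := by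
    have : (a : ℤ) < y := by exact_mod_cast hy
    linarith
  rcases h2 with h2 | h2
  · have e1 : 2 * (f a - f x) < G * ((a : ℤ) - x) := by linarith [h2 x hx]
    have e2 : G * ((y : ℤ) - a) ≤ 2 * (f y - f a) := by linarith [h1 y]
    have e3 := mul_lt_mul_of_pos_right e1 hy'
    have e4 := mul_le_mul_of_nonneg_right e2 hx'.le
    nlinarith [e3, e4]
  · have e1 : 2 * (f a - f x) ≤ G * ((a : ℤ) - x) := by linarith [h1 x]
    have e2 : G * ((y : ℤ) - a) < 2 * (f y - f a) := by linarith [h2 y hy]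
    have e3 := mul_le_mul_of_nonneg_right e1 hy'.le
    have e4 := mul_lt_mul_of_pos_right e2 hx'
    nlinarith [e3, e4]

/-- A block which has the centre `M / 2` inside is symmetric around it. -/
theorem block_sym (hf : ∀ n : ℕ, f (n + 1) = f n + v ((n : ℤ) + 1))
    (h1 : ∀ k, M ≤ 2 * k → (W k ∧ G < 2 * v k ∧ 2 * v (M - k) < G) ∨
      (¬ W k ∧ v k + v (M - k) = G))
    (h2 : ∀ k k', M ≤ 2 * k → k ≤ k' → W k → W k') (h3 : 2 ≤ M → W M) {a b : ℕ} {l : ℚ}
    (hB : Block f a b l) (ha : 2 * (a : ℤ) + 2 ≤ M) (hb : M ≤ 2 * b) :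
    (a : ℤ) + b + 1 = M ∧ 2 * l = G ∧ ¬ W b := by
  have hM : 2 ≤ M := by
    have : (0 : ℤ) ≤ a := Int.natCast_nonneg a
    linarith
  obtain ⟨a0, b0, hab0, hs, hW, hval, hm, hl, hr⟩ := min_sym hf h1 h2 hM (h3 hM)
  have va : IsV f a0 := isV_of_min hm (Or.inl hl)
  have vb : IsV f b0 := by
    refine isV_of_min (G := G) (fun k ↦ ?_) (Or.inr fun k hk ↦ ?_)
    · rw [hval]; exact hm k
    · rw [hval]; exact hr k hk
  have c1 : a0 < b := by omega
  have c2 : a < b0 := by omega
  have c3 : a0 ≤ a := by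
    by_contra hc
    push Not at hc
    exact hB.not_isV hc c1 va
  have c4 : b ≤ b0 := by
    by_contra hc
    push Not at hc
    exact hB.not_isV c2 hc vb
  have hab := hB.lt
  have c5 : a0 = a := by
    by_contra hc
    have hlt : a0 < a := by omega
    have e1 := hB.isV_left a0 b0 hlt c2
    have e2 := hm a
    have e3 : (0 : ℤ) < (a : ℤ) - a0 := by
      have : (a0 : ℤ) < a := by exact_mod_cast hlt
      linarith
    have e4 : (0 : ℤ) < (b0 : ℤ) - a := by
      have : (a : ℤ) < b0 := by exact_mod_cast c2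
      linarith
    have e5 : G * ((a : ℤ) - a0) ≤ 2 * (f a - f a0) := by linarith
    have e6 : 2 * (f b0 - f a) ≤ G * ((b0 : ℤ) - a) := by linarith
    have e7 := mul_le_mul_of_nonneg_right e5 e4.le
    have e8 := mul_le_mul_of_nonneg_right e6 e3.le
    nlinarith [e1, e7, e8]
  have c6 : b0 = b := by
    by_contra hc
    have hlt : b < b0 := by omega
    have hlt2 : a0 < b := c1
    have e1 := hB.isV_right a0 b0 hlt2 hlt
    have e2 := hm b
    have e3 : (0 : ℤ) < (b : ℤ) - a0 := by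
      have : (a0 : ℤ) < b := by exact_mod_cast hlt2
      linarith
    have e4 : (0 : ℤ) < (b0 : ℤ) - b := by
      have : (b : ℤ) < b0 := by exact_mod_cast hlt
      linarith
    have e5 : G * ((b : ℤ) - a0) ≤ 2 * (f b - f a0) := by linarith
    have e6 : 2 * (f b0 - f b) ≤ G * ((b0 : ℤ) - b) := by linarith
    have e7 := mul_le_mul_of_nonneg_right e5 e4.le
    have e8 := mul_le_mul_of_nonneg_right e6 e3.le
    nlinarith [e1, e7, e8]
  subst c5 c6
  refine ⟨hs, ?_, hW (by omega)⟩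
  have e1 := hB.eq
  have e2 : (2 * f b0 - G * b0 : ℚ) = 2 * f a0 - G * a0 := by exact_mod_cast hval
  have e3 : ((b0 : ℚ) - a0) ≠ 0 := by
    have : (a0 : ℚ) < b0 := by exact_mod_cast (show a0 < b0 by omega)
    intro h
    linarith
  apply mul_right_cancel₀ e3
  linarith

end GH.CombU
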