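import Pool.Agent.GH.CombU.ST

/-!
# Generic combinatorics of the hulls: vertices within a bounded distance, the slope at a leaf
-/

namespace GH.CombU

open GH.Comb

theorem refl_eq' {f : ℕ → ℤ} {v : ℤ → ℤ} {M G : ℤ}
    (hf : ∀ n : ℕ, f (n + 1) = f n + v ((n : ℤ) + 1)) (i : ℕ) :
    ∀ x y : ℕ, y = x + i → (x : ℤ) + y + 1 = M →
      (∀ k : ℤ, M ≤ 2 * k → k ≤ y → v k + v (M - k) = G) →
      2 * f y - G * y = 2 * f x - G * x := by
  induction i using Nat.strong_induction_on with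
  | _ i ih =>
    intro x y hy hM hW
    rcases (show i = 0 ∨ i = 1 ∨ 2 ≤ i by omega) with h | h | h
    · subst h
      subst hy
      rfl
    · subst h
      subst hy
      have h2 := hf x
      have h3 : M ≤ 2 * ((x : ℤ) + 1) := by push_cast at hM; linarith
      have h5 := hW ((x : ℤ) + 1) h3 (by push_cast; exact le_rfl)
      have h6 : M - ((x : ℤ) + 1) = (x : ℤ) + 1 := by push_cast at hM; linarith
      rw [h6] at h5
      rw [h2]
      push_cast
      linarith
    · obtain ⟨y, rfl⟩ : ∃ z, y = z + 1 := ⟨y - 1, by omega⟩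
      have h2 := ih (i - 2) (by omega) (x + 1) y (by omega) (by push_cast at hM ⊢; linarith)
        (by
          intro k hk hky
          exact hW k hk (by push_cast; linarith))
      have h3 := hf x
      have h4 := hf y
      have hxy : (x : ℤ) + 1 ≤ y := by exact_mod_cast (show x + 1 ≤ y by omega)
      have h5 : M ≤ 2 * ((y : ℤ) + 1) := by push_cast at hM; linarith
      have h7 := hW ((y : ℤ) + 1) h5 (by push_cast; exact le_rfl)
      have h8 : M - ((y : ℤ) + 1) = (x : ℤ) + 1 := by push_cast at hM; linarith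
      rw [h8] at h7
      rw [h3] at h2
      rw [h4]
      push_cast at h2 ⊢
      linarith

namespace Sys

variable (S : Sys)

/-- The right end of a block is bounded in terms of the left end. -/
theorem block_end_le {ν a b : ℕ} {c : ℤ} {l : ℚ} (hB : Block (S.F ν c) a b l) :
    (b : ℤ) ≤ S.p * ((a : ℤ) + 1) + S.M1 * (S.e - 1) + S.M0 := by
  obtain ⟨_, s, z, hs, hC⟩ := S.st c ν a b l hB
  obtain ⟨_, hmid, hnk, _⟩ := hC
  have hlt := hB.lt
  have hps := S.ppos s
  have hpq := S.hpq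
  have hp := S.hp
  have hX : 0 ≤ S.X z b := by
    by_contra hc
    push Not at hc
    unfold X at hc
    have h1 : S.q * b + S.e ≤ z := by linarith
    have h2 : S.M1 * (S.q * b + S.e) ≤ S.M1 * z := mul_le_mul_of_nonneg_left h1 S.hM1.le
    have h3 : S.M1 * z + S.M0 = a + b + 1 := by rw [hmid]; rfl
    have h4 : S.M1 * (S.q * b + S.e) = (S.p + 1) * b + S.M1 * S.e := by rw [hpq]; ring
    have h5 : 3 * (b : ℤ) ≤ (S.p + 1) * b :=
      mul_le_mul_of_nonneg_right (by linarith) (Int.natCast_nonneg b)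
    have h6 := S.he0
    omega
  have hY : 0 ≤ S.Y z b := by
    by_contra hc
    push Not at hc
    have h1 : S.Y z b / S.p ^ s < 0 := Int.ediv_lt_of_lt_mul hps (by linarith)
    have h2 : 0 ≤ S.X z b / S.p ^ s := Int.ediv_nonneg hX hps.le
    omega
  have h1 : S.M z - b = (a : ℤ) + 1 := by linarith
  unfold Y at hY
  rw [h1] at hY
  have h2 : z ≤ S.q * ((a : ℤ) + 1) + S.e - 1 := by linarith
  have h3 : S.M1 * z ≤ S.M1 * (S.q * ((a : ℤ) + 1) + S.e - 1) :=
    mul_le_mul_of_nonneg_left h2 S.hM1.le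
  have h4 : S.M1 * (S.q * ((a : ℤ) + 1) + S.e - 1) =
      (S.p + 1) * ((a : ℤ) + 1) + S.M1 * (S.e - 1) := by
    rw [hpq]; ring
  have h5 : S.M1 * z + S.M0 = a + b + 1 := by rw [hmid]; rfl
  linarith

/-- A strict vertex within a bounded distance, uniformly in the node. -/
theorem near (n : ℕ) : ∃ Q : ℕ, ∀ (ν : ℕ) (c : ℤ), ∃ b : ℕ, n ≤ b ∧ b ≤ Q ∧
    IsV (S.F ν c) b := by
  refine ⟨n + (S.p * ((n : ℤ) + 1) + S.M1 * (S.e - 1) + S.M0).toNat, ?_⟩
  intro ν c
  by_cases hn : IsV (S.F ν c) n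
  · exact ⟨n, le_rfl, by omega, hn⟩
  · obtain ⟨a, b, l, han, hnb, hB⟩ := block_of_not_isV (S.grows ν c) hn
    refine ⟨b, hnb.le, ?_, hB.isV_right⟩
    have h1 := S.block_end_le hB
    have h2 : S.p * ((a : ℤ) + 1) ≤ S.p * ((n : ℤ) + 1) :=
      mul_le_mul_of_nonneg_left (by omega) S.hp0.le
    omega

/-- At the leaf `z` the hull is a line on `[t, M - 1 - t]`. -/
theorem leaf {z : ℤ} {t y : ℕ} (ht : (z - S.e) / S.q = t) (hy : (t : ℤ) + y + 1 = S.M z)
    (hty : t ≤ y) : ∃ K : ℕ, ∀ ν : ℕ, K ≤ ν →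
      2 * (S.F ν z y - S.F ν z t) = (S.lin * S.M z + 2 * S.C0 + 2 * z) * ((y : ℤ) - t) := by
  refine ⟨(S.X z y).toNat, ?_⟩
  intro ν hν
  have hT : S.X z y < S.p ^ (ν + 1) := by
    have h1 : (ν : ℤ) + 1 ≤ S.p ^ (ν + 1) := by
      have h2 : (ν + 1 : ℕ) < 2 ^ (ν + 1) := Nat.lt_two_pow_self
      have h3 : ((2 : ℤ)) ^ (ν + 1) ≤ S.p ^ (ν + 1) :=
        pow_le_pow_left₀ (by norm_num) (by have := S.hp; linarith) _
      have h4 : ((ν + 1 : ℕ) : ℤ) < 2 ^ (ν + 1) := by exact_mod_cast h2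
      push_cast at h4
      linarith
    omega
  have hge : ∀ k : ℤ, (t : ℤ) + 1 ≤ k → 0 ≤ S.X z k := by
    intro k hk
    have h1 := S.X_mono z hk
    have h2 := Int.lt_mul_ediv_self_add (x := z - S.e) S.hq
    rw [ht] at h2
    have h3 : 0 ≤ S.X z ((t : ℤ) + 1) := by
      unfold X
      linarith
    linarith
  have key := refl_eq' (v := S.inc ν z) (M := S.M z)
    (G := S.lin * S.M z + 2 * S.C0 + 2 * z) (S.F_step ν z) (y - t) t y (by omega) hy
    (by
      intro k hk hky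
      rw [S.inc_add ν z k]
      have h1 : S.X z k / S.p ^ (ν + 1) = 0 :=
        Int.ediv_eq_zero_of_lt (hge k (by omega)) ((S.X_mono z hky).trans_lt hT)
      have h2 : S.Y z k / S.p ^ (ν + 1) = 0 := by
        rw [← X_refl]
        exact Int.ediv_eq_zero_of_lt (hge _ (by omega))
          ((S.X_mono z (show S.M z - k ≤ y by omega)).trans_lt hT)
      rw [h1, h2]
      ring)
  linarith

end Sys

end GH.CombU
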