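import Pool.Agent.GH.CombU.Tents
import Pool.Agent.GH.Pot.ADefs
import Pool.Agent.GH.Pot.Gv

/-!
# Generic combinatorics of the hulls: the combinatorial input `CombA` in one residue disc

The variable is `x`, the centres are `m = p A z + B0`, `z ≥ 0`, the root is the Gauss point of
the unit disc of `x`; the node `c mod p^(ν+1)`, `c ≡ B0 mod p`, corresponds to the node
`z mod p^ν` of the system `S`.
-/

namespace GH.CombU

open GH.Comb

/-! ### Strictly convex sequences -/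

theorem conv_lt {f : ℕ → ℤ} (h : ∀ n, 2 * f (n + 1) < f n + f (n + 2)) {i j : ℕ} (hij : i < j) :
    f (i + 1) - f i < f (j + 1) - f j := by
  induction j, hij using Nat.le_induction with
  | base =>
    have h1 := h i
    have h2 : f (i + 2) = f (i + 1 + 1) := rfl
    rw [h2] at h1
    simp only [Nat.succ_eq_add_one]
    linarith
  | succ j _ ih =>
    have h1 := h j
    have h2 : f (j + 2) = f (j + 1 + 1) := rfl
    rw [h2] at h1
    linarith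

theorem no_block_of_conv {f : ℕ → ℤ} (h : ∀ n, 2 * f (n + 1) < f n + f (n + 2)) {a b : ℕ} {l : ℚ}
    (hB : Block f a b l) : False := by
  have hlt := hB.lt
  obtain ⟨b, rfl⟩ : ∃ b', b = b' + 1 := ⟨b - 1, by omega⟩
  have h1 := hB.ge (a + 1)
  have h2 := hB.ge b
  have h3 := hB.eq
  have h4 := conv_lt h (show a < b by omega)
  have h5 : ((f (a + 1) : ℚ) - f a) < f (b + 1) - f b := by exact_mod_cast h4
  push_cast at h1 h3
  linarith

theorem grows_of_conv {f : ℕ → ℤ} (h : ∀ n, 2 * f (n + 1) < f n + f (n + 2)) : Grows f := by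
  intro C
  refine ⟨(C - (f 1 - f 0)).toNat, ?_⟩
  have key : ∀ k : ℕ, (k : ℤ) + (f 1 - f 0) ≤ f (k + 1) - f k := by
    intro k
    induction k with
    | zero => simp
    | succ k ih =>
      have h1 := h k
      have h2 : f (k + 2) = f (k + 1 + 1) := rfl
      rw [h2] at h1
      push_cast
      linarith
  intro k hk
  have h1 := key k
  omega

/-! ### Data -/

/-- The data of one residue disc. -/
structure XD where
  S : Sys
  p : ℕ
  ρ : ℕ
  A : ℕ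
  B0 : ℕ
  B : ℕ → ℕ
  Z : ℕ → ℕ
  T : ℕ → ℕ → ℕ
  s : ℕ → ℕ
  t : ℕ → ℕ
  L : ℕ → ℕ
  hpp : S.p = p
  hcop : Nat.Coprime A p
  hA : 0 < A
  hρ : B0 ≡ ρ [MOD p]
  B_zero : B 0 = 0
  B_step : ∀ n : ℕ, S.lin * ((n : ℤ) + 1) + S.C0 = ((B (n + 1) : ℤ) - B n)
    + S.q * ((n : ℤ) + 1) + S.e - 2 - (2 * ((n : ℤ) + 1) - S.M0) / S.M1
    - (2 * ((n : ℤ) + 1) - 1 - S.M0) / S.M1
  B_conv : ∀ n, 2 * B (n + 1) < B n + B (n + 2)
  bd : ∀ k n : ℕ, k < n → S.Bd ((k : ℤ) + 1) (L n)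
  T_zero : ∀ m, T 0 m = 0
  T_step : ∀ n z : ℕ, (T (n + 1) (p * A * z + B0) : ℤ) =
    T n (p * A * z + B0) + S.ee z ((n : ℤ) + 1)
  T_ne : ∀ n m, T n m ≠ 0 → ∃ z, m = p * A * z + B0
  T_supp : ∀ n m, Z n ≤ m → T n m = 0
  T_suppL : ∀ n m, p * A * L n + B0 ≤ m → T n m = 0
  T_fin : ∀ m, ∃ N, ∀ n, N ≤ n → T n m = 0
  T_start : ∀ n z : ℕ, T n (p * A * z + B0) = 0 → T (n + 1) (p * A * z + B0) ≠ 0 →
    n = t (p * A * z + B0) ∧ ((z : ℤ) - S.e) / S.q = n ∧ 2 * (n : ℤ) + 2 ≤ S.M z ∧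
      2 * (s (p * A * z + B0) : ℤ) = S.lin * S.M z + 2 * S.C0 + 2 * z

namespace XD

variable (D : XD)

theorem sum_reindex {g : ℕ → ℤ} {a b L Z' : ℕ} (ha : 0 < a)
    (hg : ∀ m, g m ≠ 0 → ∃ z, m = a * z + b) (hZ : ∀ m, Z' ≤ m → g m = 0)
    (hL : ∀ m, a * L + b ≤ m → g m = 0) :
    ∑ m ∈ Finset.range Z', g m = ∑ z ∈ Finset.range L, g (a * z + b) := by
  have h1 : ∑ m ∈ Finset.range Z', g m = ∑ m ∈ Finset.range (max Z' (a * L + b)), g m := by
    apply Finset.sum_subset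
    · intro m hm
      simp only [Finset.mem_range] at hm ⊢
      exact hm.trans_le (le_max_left _ _)
    · intro m _ hm
      exact hZ m (by simpa using hm)
  have h2 : ∑ z ∈ Finset.range L, g (a * z + b) =
      ∑ m ∈ (Finset.range L).image (fun z ↦ a * z + b), g m := by
    rw [Finset.sum_image]
    intro x _ y _ hxy
    have : a * x = a * y := by simpa using hxy
    exact Nat.eq_of_mul_eq_mul_left ha this
  rw [h1, h2]
  symm
  apply Finset.sum_subset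
  · intro m hm
    obtain ⟨z, hz, rfl⟩ := Finset.mem_image.1 hm
    simp only [Finset.mem_range] at hz ⊢
    refine lt_of_lt_of_le ?_ (le_max_right _ _)
    have : a * z < a * L := Nat.mul_lt_mul_of_pos_left hz ha
    omega
  · intro m _ hm
    by_contra hne
    obtain ⟨z, rfl⟩ := hg m hne
    rcases lt_or_ge z L with h | h
    · exact hm (Finset.mem_image.2 ⟨z, Finset.mem_range.2 h, rfl⟩)
    · have : a * L ≤ a * z := Nat.mul_le_mul_left a h
      exact hne (hL _ (by omega))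

theorem F_eq (ν : ℕ) (z : ℤ) (n : ℕ) :
    D.S.F ν z n = D.B n + ∑ j ∈ Finset.range (ν + 1), D.S.NN j z n := by
  induction ν with
  | zero =>
    rw [Finset.sum_range_one]
    induction n with
    | zero => simp [Sys.F, Sys.NN, D.B_zero]
    | succ n ih =>
      rw [D.S.F_step, D.S.NN_step, ih]
      have h1 := D.B_step n
      have h2 := D.S.N_eq 0 z ((n : ℤ) + 1)
      have h3 : D.S.inc 0 z ((n : ℤ) + 1) = D.S.lin * ((n : ℤ) + 1) + D.S.C0 + z -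
          D.S.Y z ((n : ℤ) + 1) / D.S.p := by
        unfold Sys.inc
        simp
      have h4 : ((D.S.q * ((n : ℤ) + 1) - D.S.q * D.S.M0 - D.S.e) / D.S.p - z) =
          -(D.S.Y z ((n : ℤ) + 1) / D.S.p) - 1 := by
        have h5 : D.S.q * ((n : ℤ) + 1) - D.S.q * D.S.M0 - D.S.e =
            -(D.S.Y z ((n : ℤ) + 1) + 1) + D.S.p * z := by
          rw [Sys.Y_eq]; ring
        rw [h5, Int.add_mul_ediv_left _ _ D.S.hp0.ne', neg_ediv_eq D.S.hp0]
        have h6 : D.S.Y z ((n : ℤ) + 1) + 1 - 1 = D.S.Y z ((n : ℤ) + 1) := by ring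
        rw [h6]
        ring
      simp only [pow_zero, Int.ediv_one] at h2
      rw [h4] at h2
      rw [h2, h3]
      linarith
  | succ ν ih =>
    rw [D.S.F_succ, ih, Finset.sum_range_succ _ (ν + 1)]
    ring

theorem tau_eq [Fact D.p.Prime] {c ν m : ℕ} :
    (Pot.tau D.p c ν m : ℤ) =
      ∑ j ∈ Finset.range ν, (if m ≡ c [MOD D.p ^ (j + 1)] then (1 : ℤ) else 0) := by
  induction ν with
  | zero => simp [Pot.tau]
  | succ ν ih =>
    rw [Pot.tau_succ, Finset.sum_range_succ, ← ih]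
    push_cast
    rfl

theorem modEq_iff {c : ℕ} {ν : ℕ} {z : ℤ}
    (hz : (D.p : ℤ) ^ (ν + 1) ∣ (c : ℤ) - (D.p * D.A * z + D.B0)) {j : ℕ} (hj : j ≤ ν)
    (w : ℕ) (hp : 0 < D.p) :
    D.p * D.A * w + D.B0 ≡ c [MOD D.p ^ (j + 1)] ↔ D.S.p ^ j ∣ (w : ℤ) - z := by
  rw [Nat.modEq_iff_dvd, D.hpp]
  have h1 : ((D.p ^ (j + 1) : ℕ) : ℤ) ∣ (c : ℤ) - (D.p * D.A * z + D.B0) := by
    push_cast
    exact (pow_dvd_pow _ (by omega)).trans hz
  have h2 : (c : ℤ) - ((D.p * D.A * w + D.B0 : ℕ) : ℤ) =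
      ((c : ℤ) - (D.p * D.A * z + D.B0)) - D.p * (D.A * ((w : ℤ) - z)) := by
    push_cast
    ring
  rw [h2, dvd_sub_right h1]
  push_cast
  rw [pow_succ']
  have hp' : (D.p : ℤ) ≠ 0 := by exact_mod_cast hp.ne'
  rw [mul_dvd_mul_iff_left hp']
  have hcop : IsCoprime ((D.p : ℤ) ^ j) (D.A : ℤ) := by
    apply IsCoprime.pow_left
    exact (Nat.isCoprime_iff_coprime.2 D.hcop).symm
  exact ⟨fun h ↦ hcop.dvd_of_dvd_mul_left h, fun h ↦ h.mul_left _⟩

theorem T_zero_or (n : ℕ) (m : ℕ) (h : ∀ z, m ≠ D.p * D.A * z + D.B0) : D.T n m = 0 := by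
  by_contra hne
  obtain ⟨z, hz⟩ := D.T_ne n m hne
  exact h z hz

theorem fv_eq [Fact D.p.Prime] {c ν : ℕ} {z : ℤ}
    (hz : (D.p : ℤ) ^ (ν + 1) ∣ (c : ℤ) - (D.p * D.A * z + D.B0)) (n : ℕ) :
    (Pot.fv D.p D.B D.Z D.T n c (ν + 1) : ℤ) = D.S.F ν z n := by
  have hp : 0 < D.p := (Fact.out : D.p.Prime).pos
  have ha : 0 < D.p * D.A := Nat.mul_pos hp D.hA
  rw [D.F_eq]
  unfold Pot.fv
  push_cast
  congr 1
  have h1 : ∑ m ∈ Finset.range (D.Z n), (D.T n m : ℤ) * (Pot.tau D.p c (ν + 1) m : ℤ) =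
      ∑ w ∈ Finset.range (D.L n), (D.T n (D.p * D.A * w + D.B0) : ℤ) *
        (Pot.tau D.p c (ν + 1) (D.p * D.A * w + D.B0) : ℤ) := by
    apply sum_reindex (g := fun m ↦ (D.T n m : ℤ) * (Pot.tau D.p c (ν + 1) m : ℤ)) ha
    · intro m hm
      apply D.T_ne n m
      intro h0
      apply hm
      simp [h0]
    · intro m hm
      simp [D.T_supp n m hm]
    · intro m hm
      simp [D.T_suppL n m hm]
  rw [h1]
  have h2 : ∀ j ∈ Finset.range (ν + 1), D.S.NN j z n =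
      ∑ w ∈ Finset.range (D.L n),
        (if D.S.p ^ j ∣ (w : ℤ) - z then (D.T n (D.p * D.A * w + D.B0) : ℤ) else 0) := by
    intro j _
    exact D.S.NN_eq (τ := fun n w ↦ (D.T n (D.p * D.A * w + D.B0) : ℤ))
      (fun w ↦ by simp [D.T_zero]) (fun n w ↦ D.T_step n w) n (fun k hk ↦ D.bd k n hk)
  rw [Finset.sum_congr rfl h2, Finset.sum_comm]
  apply Finset.sum_congr rfl
  intro w _
  rw [D.tau_eq, Finset.mul_sum]
  apply Finset.sum_congr rfl
  intro j hj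
  have hj' : j ≤ ν := by
    have := Finset.mem_range.1 hj
    omega
  have h3 := D.modEq_iff hz hj' w hp
  by_cases h : D.S.p ^ j ∣ (w : ℤ) - z
  · rw [if_pos h, if_pos (h3.2 h), mul_one]
  · rw [if_neg h, if_neg (fun h' ↦ h (h3.1 h')), mul_zero]

/-- Every class is the class of an integer of the system. -/
theorem exists_z {c : ℕ} (hc : c ≡ D.ρ [MOD D.p]) (ν : ℕ) :
    ∃ z : ℤ, (D.p : ℤ) ^ (ν + 1) ∣ (c : ℤ) - (D.p * D.A * z + D.B0) := by
  have h1 : (D.p : ℤ) ∣ (c : ℤ) - D.B0 := Nat.modEq_iff_dvd.1 (D.hρ.trans hc.symm)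
  obtain ⟨w, hw⟩ := h1
  have hcop : IsCoprime (D.A : ℤ) ((D.p : ℤ) ^ ν) :=
    (Nat.isCoprime_iff_coprime.2 D.hcop).pow_right
  obtain ⟨u, v, huv⟩ := hcop
  refine ⟨u * w, v * w, ?_⟩
  rw [pow_succ]
  linear_combination hw - D.p * w * huv

/-- The valuation of the leading minors, integer valued. -/
def f (c ν : ℕ) (n : ℕ) : ℤ := (Pot.fv D.p D.B D.Z D.T n c ν : ℤ)

theorem f_root (c : ℕ) (n : ℕ) : D.f c 0 n = D.B n := by
  unfold f Pot.fv
  simp [Pot.tau]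

theorem B_conv' (c : ℕ) : ∀ n, 2 * D.f c 0 (n + 1) < D.f c 0 n + D.f c 0 (n + 2) := by
  intro n
  rw [f_root, f_root, f_root]
  exact_mod_cast D.B_conv n

theorem f_succ [Fact D.p.Prime] {c ν : ℕ} {z : ℤ}
    (hz : (D.p : ℤ) ^ (ν + 1) ∣ (c : ℤ) - (D.p * D.A * z + D.B0)) :
    D.f c (ν + 1) = D.S.F ν z := funext fun n ↦ D.fv_eq hz n

theorem f_grows [Fact D.p.Prime] {c : ℕ} (hc : c ≡ D.ρ [MOD D.p]) (ν : ℕ) :
    Grows (D.f c ν) := by
  cases ν with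
  | zero => exact grows_of_conv (D.B_conv' c)
  | succ ν =>
    obtain ⟨z, hz⟩ := D.exists_z hc ν
    rw [D.f_succ hz]
    exact D.S.grows ν z

theorem f_int [Fact D.p.Prime] {c : ℕ} (hc : c ≡ D.ρ [MOD D.p]) (ν : ℕ) (a b : ℕ) (l : ℚ)
    (hB : Block (D.f c ν) a b l) : ∃ u : ℤ, l = u := by
  cases ν with
  | zero => exact (no_block_of_conv (D.B_conv' c) hB).elim
  | succ ν =>
    obtain ⟨z, hz⟩ := D.exists_z hc ν
    rw [D.f_succ hz] at hB
    exact D.S.int_slope ν z a b l hB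

theorem f_nform0 [Fact D.p.Prime] {c : ℕ} (hc : c ≡ D.ρ [MOD D.p]) (ν : ℕ) (a b : ℕ) (l : ℚ)
    (hB : Block (D.f c ν) a b l) : NForm (D.f c ν) (D.f c (ν + 1)) a b := by
  cases ν with
  | zero => exact (no_block_of_conv (D.B_conv' c) hB).elim
  | succ ν =>
    obtain ⟨z, hz⟩ := D.exists_z hc (ν + 1)
    have hz' : (D.p : ℤ) ^ (ν + 1) ∣ (c : ℤ) - (D.p * D.A * z + D.B0) :=
      (pow_dvd_pow _ (by omega)).trans hz
    rw [D.f_succ hz'] at hB
    rw [D.f_succ hz', D.f_succ hz]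
    exact D.S.nform0 ν z a b l hB

theorem f_nform1 [Fact D.p.Prime] {c : ℕ} (hc : c ≡ D.ρ [MOD D.p]) (ν : ℕ) (a b : ℕ) (l : ℚ)
    (hB : Block (D.f c (ν + 1)) a b l) : NForm (D.f c ν) (D.f c (ν + 1)) a b := by
  cases ν with
  | zero =>
    obtain ⟨z, hz⟩ := D.exists_z hc 0
    rw [D.f_succ hz] at hB
    exact (D.S.no_block_zero hB).elim
  | succ ν =>
    obtain ⟨z, hz⟩ := D.exists_z hc (ν + 1)
    have hz' : (D.p : ℤ) ^ (ν + 1) ∣ (c : ℤ) - (D.p * D.A * z + D.B0) :=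
      (pow_dvd_pow _ (by omega)).trans hz
    rw [D.f_succ hz] at hB
    rw [D.f_succ hz', D.f_succ hz]
    exact D.S.nform1 ν z a b l hB

/-- The hulls. -/
noncomputable def h (n c ν : ℕ) : ℤ := hullOf (D.f c ν) n

theorem h_spec [Fact D.p.Prime] {c : ℕ} (hc : c ≡ D.ρ [MOD D.p]) (ν : ℕ) :
    HSpec (D.f c ν) (fun n ↦ D.h n c ν) := hullOf_spec (D.f_grows hc ν) (D.f_int hc ν)

theorem near [Fact D.p.Prime] (n : ℕ) : ∃ Q, ∀ c ν, c ≡ D.ρ [MOD D.p] →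
    ∃ b, n ≤ b ∧ b ≤ Q ∧ Pot.Vtx (fun k ↦ D.h k c ν) b := by
  obtain ⟨Q, hQ⟩ := D.S.near n
  refine ⟨max n Q, ?_⟩
  intro c ν hc
  cases ν with
  | zero =>
    refine ⟨n, le_rfl, le_max_left _ _, ?_⟩
    refine ((D.h_spec hc 0).vtx n).2 ?_
    by_contra hn
    obtain ⟨a, b, l, _, _, hB⟩ := block_of_not_isV (D.f_grows hc 0) hn
    exact no_block_of_conv (D.B_conv' c) hB
  | succ ν =>
    obtain ⟨z, hz⟩ := D.exists_z hc ν
    obtain ⟨b, hb1, hb2, hb3⟩ := hQ ν z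
    refine ⟨b, hb1, hb2.trans (le_max_right _ _), ?_⟩
    refine ((D.h_spec hc (ν + 1)).vtx b).2 ?_
    rw [D.f_succ hz]
    exact hb3

/-- The combinatorial input of the discrete potential theory. -/
theorem combA [Fact D.p.Prime] : Pot.CombA D.p D.ρ D.B D.Z D.T D.s D.t D.h where
  hull := by
    intro c ν hc
    have hs := D.h_spec hc ν
    exact ⟨hs.hull.le, hs.hull.zero, hs.hull.conv, hs.hull.lin, hs.hull.touch⟩
  near := D.near
  k1 := by
    intro n c ν hc _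
    exact k1_of (D.h_spec hc ν) (D.h_spec hc (ν + 1)) (D.f_grows hc ν) (D.f_int hc ν)
      (D.f_nform0 hc ν) (n + 1)
  k2 := by
    intro n c ν hc hn
    exact k2_of (D.h_spec hc ν) (D.h_spec hc (ν + 1)) (D.f_grows hc ν) (D.f_grows hc (ν + 1))
      (D.f_int hc (ν + 1)) (D.f_nform0 hc ν) (D.f_nform1 hc ν) (((D.h_spec hc ν).vtx n).1 hn)
  k3a := by
    intro n c ν hc hn
    exact k3a_of (D.h_spec hc ν) (D.h_spec hc (ν + 1)) (D.f_grows hc ν) (D.f_grows hc (ν + 1))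
      (D.f_int hc (ν + 1)) (D.f_nform0 hc ν) (D.f_nform1 hc ν) (((D.h_spec hc ν).vtx n).1 hn)
  k3b := by
    intro n c ν hc hn
    exact ((D.h_spec hc ν).vtx n).2
      (isV_of_child (D.f_grows hc ν) (D.f_nform0 hc ν) (((D.h_spec hc (ν + 1)).vtx n).1 hn))
  supp := D.T_supp
  cls := by
    intro n m hm
    obtain ⟨z, rfl⟩ := D.T_ne n m hm
    refine Nat.ModEq.trans ?_ D.hρ
    have h1 : D.p * D.A * z + D.B0 = D.B0 + D.p * (D.A * z) := by ring
    rw [h1]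
    exact Nat.add_mul_mod_self_left _ _ _
  fin := D.T_fin
  start := by
    intro n m h0 h1
    obtain ⟨z, rfl⟩ := D.T_ne (n + 1) m h1
    exact (D.T_start n z h0 h1).1
  leaf := by
    intro n m h0 h1
    obtain ⟨z, rfl⟩ := D.T_ne (n + 1) m h1
    obtain ⟨_, h3, h4, h5⟩ := D.T_start n z h0 h1
    obtain ⟨y, hy⟩ : ∃ y : ℕ, (n : ℤ) + y + 1 = D.S.M z := ⟨(D.S.M z - 1 - n).toNat, by omega⟩
    obtain ⟨K, hK⟩ := D.S.leaf h3 hy (by omega)
    refine ⟨y, by omega, K + 1, ?_⟩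
    intro ν hν
    obtain ⟨ν, rfl⟩ : ∃ ν', ν = ν' + 1 := ⟨ν - 1, by omega⟩
    have hz : (D.p : ℤ) ^ (ν + 1) ∣ ((D.p * D.A * z + D.B0 : ℕ) : ℤ) -
        (D.p * D.A * ((z : ℕ) : ℤ) + D.B0) := by
      push_cast
      simp
    rw [D.fv_eq hz, D.fv_eq hz]
    have h6 := hK ν (by omega)
    have h7 : ((y - n : ℕ) : ℤ) = (y : ℤ) - n := by omega
    rw [h7, ← h5] at *
    nlinarith [h6]

end XD

end GH.CombU
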