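import Pool.Agent.GH.CombU.FZK
import Pool.Agent.GH.CombU.Defs13
import Pool.Agent.GH.CombU.XD
import Pool.Agent.GH.Pot.FDefs

/-!
# The combinatorial input for `p = 13`

The weight variable `m`, components `c = 0, …, 5`, weights `12 m + 2 c`.
-/

namespace GH.CombU

open GH.Comb

/-- `p = 13`, component `c`. -/
def sys13 (c : ℕ) (hc : c ≤ 5) : Sys where
  p := 13
  q := 1
  M1 := 14
  M0 := M013 c
  e := e13 c
  lin := 1
  C0 := 0
  hp := by norm_num
  hq := by norm_num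
  hM1 := by norm_num
  hpq := by norm_num
  hlin := by norm_num
  hz := by
    intro z hz
    rcases (show c = 0 ∨ c = 1 ∨ c = 2 ∨ c = 3 ∨ c = 4 ∨ c = 5 by omega) with
      rfl | rfl | rfl | rfl | rfl | rfl <;> norm_num [M013, e13] at * <;> omega
  hR := by
    intro R s n z k h1 h2 h3 h4 h5 h6 h7
    rcases (show c = 0 ∨ c = 1 ∨ c = 2 ∨ c = 3 ∨ c = 4 ∨ c = 5 by omega) with
      rfl | rfl | rfl | rfl | rfl | rfl <;> norm_num [M013] at * <;> omega
  hR0 := by
    intro R z k h1 h2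
    rcases (show c = 0 ∨ c = 1 ∨ c = 2 ∨ c = 3 ∨ c = 4 ∨ c = 5 by omega) with
      rfl | rfl | rfl | rfl | rfl | rfl <;> norm_num [M013] at * <;> omega
  hev := by
    intro z
    rcases (show c = 0 ∨ c = 1 ∨ c = 2 ∨ c = 3 ∨ c = 4 ∨ c = 5 by omega) with
      rfl | rfl | rfl | rfl | rfl | rfl <;> norm_num [M013] at * <;> omega
  he0 := by positivity

theorem sys13_isF (c : ℕ) (hc : c ≤ 5) : (sys13 c hc).IsF where
  q1 := rfl
  p13 := rfl
  m14 := rfl
  ev := by
    rcases (show c = 0 ∨ c = 1 ∨ c = 2 ∨ c = 3 ∨ c = 4 ∨ c = 5 by omega) with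
      rfl | rfl | rfl | rfl | rfl | rfl <;> norm_num [sys13, M013]

theorem T13_zero (c m : ℕ) : T13 c 0 m = 0 := by
  unfold T13
  omega

theorem T13_supp (c n m : ℕ) (h : Z13 n ≤ m) : T13 c n m = 0 := by
  unfold Z13 at h
  unfold T13 t13 e13
  split_ifs <;> omega

theorem T13_step (c : ℕ) (hc : c ≤ 5) (n z : ℕ) :
    (T13 c (n + 1) z : ℤ) = T13 c n z + (sys13 c hc).ee z ((n : ℤ) + 1) := by
  unfold Sys.ee
  rcases (show c = 0 ∨ c = 1 ∨ c = 2 ∨ c = 3 ∨ c = 4 ∨ c = 5 by omega) with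
    rfl | rfl | rfl | rfl | rfl | rfl <;>
  · simp only [sys13, T13, t13, cen13, M013, e13]
    norm_num only [if_true, if_false, Nat.cast_ofNat, Nat.cast_zero, Nat.cast_one]
    split_ifs <;> omega

theorem bd13 (c : ℕ) (hc : c ≤ 5) (k n : ℕ) (hkn : k < n) :
    (sys13 c hc).Bd ((k : ℤ) + 1) (Z13 n) := by
  rcases (show c = 0 ∨ c = 1 ∨ c = 2 ∨ c = 3 ∨ c = 4 ∨ c = 5 by omega) with
    rfl | rfl | rfl | rfl | rfl | rfl <;>
  · constructor <;> simp only [sys13, M013, e13, Z13] <;> push_cast <;>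
      norm_num only [if_true, if_false] <;> omega

/-- `F` is the sum of the numbers of zeros in the classes. -/
theorem FZ_eq (S : Sys) (ν : ℕ) (z : ℤ) (n : ℕ) :
    S.FZ ν z n = S.NN 0 z n + ∑ j ∈ Finset.range ν, S.NN (j + 1) z n := by
  induction ν with
  | zero =>
    rw [Finset.sum_range_zero, add_zero]
    unfold Sys.FZ Sys.NN
    exact Finset.sum_congr rfl fun k _ ↦ S.incZ_zero z _
  | succ ν ih =>
    rw [S.FZ_succ, ih, Finset.sum_range_succ]
    ring

instance fact13 : Fact (Nat.Prime 13) := ⟨by norm_num⟩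

theorem fv13_eq (c : ℕ) (hc : c ≤ 5) (d ν n : ℕ) :
    (Pot.fv 13 (B13 c) Z13 (T13 c) n d ν : ℤ) = (sys13 c hc).FZ ν d n := by
  rw [FZ_eq]
  have hNN : ∀ j : ℕ, (sys13 c hc).NN j d n =
      ∑ w ∈ Finset.range (Z13 n), (if (13 : ℤ) ^ j ∣ (w : ℤ) - d then (T13 c n w : ℤ) else 0) :=
    fun j ↦ (sys13 c hc).NN_eq (τ := fun n w ↦ (T13 c n w : ℤ))
      (fun w ↦ by simp [T13_zero]) (fun n w ↦ T13_step c hc n w) n (fun k hk ↦ bd13 c hc k n hk)
  unfold Pot.fv
  push_cast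
  have h0 : (B13 c n : ℤ) = (sys13 c hc).NN 0 d n := by
    rw [hNN 0]
    unfold B13
    push_cast
    exact Finset.sum_congr rfl fun w _ ↦ by simp
  rw [h0]
  congr 1
  rw [Finset.sum_congr rfl (fun j _ ↦ hNN (j + 1)), Finset.sum_comm]
  apply Finset.sum_congr rfl
  intro w _
  have h3 : (Pot.tau 13 d ν w : ℤ) =
      ∑ j ∈ Finset.range ν, (if w ≡ d [MOD 13 ^ (j + 1)] then (1 : ℤ) else 0) := by
    clear h0 hNN
    induction ν with
    | zero => simp [Pot.tau]
    | succ ν ih =>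
      rw [Pot.tau_succ, Finset.sum_range_succ, ← ih]
      push_cast
      rfl
  rw [h3, Finset.mul_sum]
  apply Finset.sum_congr rfl
  intro j _
  have h4 : w ≡ d [MOD 13 ^ (j + 1)] ↔ (13 : ℤ) ^ (j + 1) ∣ (w : ℤ) - d := by
    rw [Nat.modEq_iff_dvd, ← dvd_neg, neg_sub]
    push_cast
    rfl
  by_cases h : (13 : ℤ) ^ (j + 1) ∣ (w : ℤ) - d
  · rw [if_pos h, if_pos (h4.2 h), mul_one]
  · rw [if_neg h, if_neg (fun h' ↦ h (h4.1 h')), mul_zero]

/-- The hulls. -/
noncomputable def h13 (c : ℕ) (n d ν : ℕ) : ℤ :=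
  hullOf (fun n ↦ (Pot.fv 13 (B13 c) Z13 (T13 c) n d ν : ℤ)) n

theorem f13_eq (c : ℕ) (hc : c ≤ 5) (d ν : ℕ) :
    (fun n ↦ (Pot.fv 13 (B13 c) Z13 (T13 c) n d ν : ℤ)) = (sys13 c hc).FZ ν d :=
  funext fun n ↦ fv13_eq c hc d ν n

theorem h13_spec (c : ℕ) (hc : c ≤ 5) (d ν : ℕ) :
    HSpec ((sys13 c hc).FZ ν d) (fun n ↦ h13 c n d ν) := by
  have h : (fun n ↦ h13 c n d ν) = hullOf ((sys13 c hc).FZ ν d) := by
    funext n
    unfold h13
    rw [f13_eq c hc]
  rw [h]
  exact hullOf_spec ((sys13_isF c hc).grows ν d) ((sys13_isF c hc).int_slope ν d)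

theorem vtx13 (c : ℕ) (hc : c ≤ 5) (d ν n : ℕ) :
    Pot.Vtx (fun k ↦ h13 c k d ν) n ↔ IsV ((sys13 c hc).FZ ν d) n :=
  (h13_spec c hc d ν).vtx n

theorem root13 (c : ℕ) (hc : c ≤ 5) (d : ℤ) : (sys13 c hc).FZ 0 d = (sys13 c hc).FZ 0 0 :=
  funext fun n ↦ (sys13 c hc).FZ_congr (by simp) n

/-- The combinatorial input for `p = 13`. -/
theorem comb13' (c : ℕ) (hc : c ≤ 5) :
    Pot.CombF 13 (B13 c) Z13 (T13 c) (s13 c) (t13 c) (zf13 c) (h13 c) where
  hull := by
    intro d ν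
    have hs := h13_spec c hc d ν
    rw [← f13_eq c hc] at hs
    exact ⟨hs.hull.le, hs.hull.zero, hs.hull.conv, hs.hull.lin, hs.hull.touch⟩
  near := by
    intro n
    obtain ⟨Q, hQ⟩ := (sys13_isF c hc).near n
    refine ⟨Q, fun d ν ↦ ?_⟩
    obtain ⟨b, hb1, hb2, hb3⟩ := hQ ν d
    exact ⟨b, hb1, hb2, (vtx13 c hc d ν b).2 hb3⟩
  k1 := by
    intro n d ν _
    rw [fv13_eq c hc, fv13_eq c hc]
    have hS := sys13_isF c hc
    exact k1_ofF (h13_spec c hc d ν) (h13_spec c hc d (ν + 1)) (hS.grows ν d)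
      (hS.int_slope ν d) (hS.nform0 ν d) (n + 1)
  k2 := by
    intro n d ν hn
    rw [fv13_eq c hc, fv13_eq c hc]
    have hS := sys13_isF c hc
    exact k2_ofF (h13_spec c hc d ν) (h13_spec c hc d (ν + 1)) (hS.grows ν d)
      (hS.grows (ν + 1) d) (hS.int_slope (ν + 1) d) (hS.nform0 ν d) (hS.nform1 ν d)
      ((vtx13 c hc d ν n).1 hn)
  k3a := by
    intro n d ν hn
    rw [fv13_eq c hc]
    have hS := sys13_isF c hc
    exact k3a_ofF (h13_spec c hc d ν) (h13_spec c hc d (ν + 1)) (hS.grows ν d)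
      (hS.grows (ν + 1) d) (hS.int_slope (ν + 1) d) (hS.nform0 ν d) (hS.nform1 ν d)
      ((vtx13 c hc d ν n).1 hn)
  k3b := by
    intro n d ν hn
    have hS := sys13_isF c hc
    rcases hS.k3b ((vtx13 c hc d (ν + 1) n).1 hn) with h | ⟨h1, h2, a, b, l, hB, hF, h3, h4⟩
    · exact Or.inl ((vtx13 c hc d ν n).2 h)
    · refine Or.inr ⟨?_, ?_, ?_⟩
      · rw [vtx13 c hc]
        rw [root13 c hc] at h1
        exact_mod_cast h1
      · rw [fv13_eq c hc]
        exact val_flat (h13_spec c hc d ν) hB hF h3.le h4.le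
      · rw [Nat.modEq_iff_dvd]
        have h5 : ((zf13 c n : ℕ) : ℤ) - d = (n : ℤ) + (sys13 c hc).e - d := by
          unfold zf13 sys13
          push_cast
          ring
        rw [h5]
        push_cast
        exact h2
  down := by
    intro n ν _ hn
    have hS := sys13_isF c hc
    have h5 : ((zf13 c n : ℕ) : ℤ) = (n : ℤ) + (sys13 c hc).e := by
      unfold zf13 sys13
      push_cast
      ring
    rw [vtx13 c hc, h5] at hn ⊢
    exact hS.down hn
  flat := by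
    intro n hn
    have h1 : 1 ≤ n := by
      by_contra hc'
      apply hn
      left
      omega
    unfold zf13 T13 t13 cen13 M013 e13
    split_ifs <;> omega
  supp := fun n m h ↦ T13_supp c n m h
  fin := by
    intro m
    refine ⟨cen13 c m, ?_⟩
    intro n hn
    unfold T13
    omega
  start := by
    intro n m h0 h1
    unfold T13 at h0 h1
    omega
  leaf := by
    intro n m h0 h1
    have hS := sys13_isF c hc
    have hn : n = t13 c m := by
      unfold T13 at h0 h1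
      omega
    have h2 : (sys13 c hc).M m = cen13 c m := by
      unfold Sys.M sys13 cen13
      push_cast
      ring
    have h3 : 2 * n + 2 ≤ cen13 c m := by
      unfold T13 at h0 h1
      omega
    have h4 : (m : ℤ) - (sys13 c hc).e = n := by
      have : e13 c ≤ m := by
        unfold T13 cen13 t13 M013 e13 at *
        split_ifs at * <;> omega
      unfold sys13
      rw [hn]
      unfold t13
      push_cast [this]
      ring
    obtain ⟨y, hy⟩ : ∃ y : ℕ, (n : ℤ) + y + 1 = (sys13 c hc).M m :=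
      ⟨cen13 c m - 1 - n, by rw [h2]; omega⟩
    obtain ⟨K, hK⟩ := hS.leaf h4 hy (by omega)
    refine ⟨y, by omega, K, ?_⟩
    intro ν hν
    rw [fv13_eq c hc, fv13_eq c hc]
    have h6 := hK ν hν
    have h7 : ((y - n : ℕ) : ℤ) = (y : ℤ) - n := by omega
    have h8 : (sys13 c hc).M m + 2 * (sys13 c hc).e - 2 * m - 2 = 2 * (s13 c m : ℤ) := by
      have h9 : (sys13 c hc).e = e13 c := rfl
      rw [h2, h9]
      rw [h2] at hy
      unfold cen13 s13 M013 e13 at *
      split_ifs at * <;> omega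
    rw [h8] at h6
    rw [h7]
    linarith

/-- The combinatorial input for `p = 13`, all components. -/
theorem comb13 (c : ℕ) (hc : c ≤ 5) :
    ∃ h : ℕ → ℕ → ℕ → ℤ, Pot.CombF 13 (B13 c) Z13 (T13 c) (s13 c) (t13 c) (zf13 c) h :=
  ⟨h13 c, comb13' c hc⟩

/-! ### The root -/

/-- The numbers of zeros are convex. -/
theorem B13_conv (c : ℕ) (hc : c ≤ 5) (n : ℕ) : 2 * B13 c (n + 1) ≤ B13 c n + B13 c (n + 2) := by
  have hS := sys13_isF c hc
  have e0 : ∀ n, (B13 c n : ℤ) = (sys13 c hc).FZ 0 0 n := by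
    intro n
    have := fv13_eq c hc 0 0 n
    unfold Pot.fv at this
    simpa [Pot.tau] using this
  have h1 := (sys13 c hc).FZ_step 0 0 n
  have h2 := (sys13 c hc).FZ_step 0 0 (n + 1)
  have h3 := hS.incZ_diff 0 0 ((n : ℤ) + 1)
  rw [zero_add, Finset.sum_range_one] at h3
  have h4 := hS.ix_zero 0 ((n : ℤ) + 1)
  have h5 := Sys.iy_nonneg (S := sys13 c hc) 0 0 ((n : ℤ) + 1)
  have h6 := hS.im_le_one 0 0 ((n : ℤ) + 1)
  rw [← e0, ← e0] at h1 h2
  push_cast at h2
  have h7 : ((B13 c n : ℤ) + B13 c (n + 2)) - 2 * B13 c (n + 1) =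
      (sys13 c hc).incZ 0 0 ((n : ℤ) + 1 + 1) - (sys13 c hc).incZ 0 0 ((n : ℤ) + 1) := by
    have : B13 c (n + 2) = B13 c (n + 1 + 1) := rfl
    rw [this]
    linarith
  omega

theorem B13_zero (c : ℕ) : B13 c 0 = 0 := by
  unfold B13
  exact Finset.sum_eq_zero fun m _ ↦ T13_zero c m

theorem B13_eq_FZ (c : ℕ) (hc : c ≤ 5) (d : ℤ) (n : ℕ) :
    (B13 c n : ℤ) = (sys13 c hc).FZ 0 d n := by
  rw [root13 c hc d]
  have := fv13_eq c hc 0 0 n
  unfold Pot.fv at this
  simpa [Pot.tau] using this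

/-- At the root the hull is the number of zeros. -/
theorem h13_root (c : ℕ) (hc : c ≤ 5) (n d : ℕ) : h13 c n d 0 = B13 c n := by
  have hS := sys13_isF c hc
  rw [B13_eq_FZ c hc d]
  have hs := h13_spec c hc d 0
  by_cases hn : IsV ((sys13 c hc).FZ 0 d) n
  · exact hs.val n hn
  · obtain ⟨a, b, l, h1, h2, hB⟩ := block_of_not_isV (hS.grows 0 d) hn
    refine val_flat hs hB ?_ h1.le h2.le
    refine flat_of_mono (δ := (sys13 c hc).incZ 0 d) ((sys13 c hc).FZ_step 0 d) hB ?_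
    intro k k' _ h4 _
    obtain ⟨i, rfl⟩ : ∃ i : ℕ, k' = k + i := ⟨(k' - k).toNat, by omega⟩
    clear h4
    induction i with
    | zero => simp
    | succ i ih =>
      have h3 := hS.incZ_diff 0 d (k + i)
      rw [zero_add, Finset.sum_range_one] at h3
      have h4 := hS.ix_zero d (k + i)
      have h5 := Sys.iy_nonneg (S := sys13 c hc) 0 d (k + i)
      have h6 := hS.im_le_one 0 d (k + i)
      have h7 := ih (by push_cast at *; omega)
      have h8 : k + ((i + 1 : ℕ) : ℤ) = k + i + 1 := by push_cast; ring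
      rw [h8]
      linarith

/-- The vertices at the root. -/
theorem vtx13_root (c : ℕ) (hc : c ≤ 5) (n : ℕ) : Pot.Vtx (fun k ↦ h13 c k 0 0) n ↔
    n = 0 ∨ 2 * B13 c n < B13 c (n - 1) + B13 c (n + 1) := by
  unfold Pot.Vtx
  simp only [h13_root c hc]
  norm_cast

end GH.CombU
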