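import Pool.Agent.GH.CombU.XE
import Pool.Agent.GH.CombU.Defs5

/-!
# The combinatorial input for `p = 5`
-/

namespace GH.CombU

open GH.Comb

/-- `p = 5`, weights `4z + 2e`. -/
def sys5 (e : ℕ) (he : e < 2) : Sys where
  p := 5
  q := 3
  M1 := 2
  M0 := 0
  e := e
  lin := 1
  C0 := e - 1
  hp := by norm_num
  hq := by norm_num
  hM1 := by norm_num
  hpq := by norm_num
  hlin := by norm_num
  hz := by intro z hz; omega
  hR := by intro R s n z k h1 h2 h3 h4 h5 h6 h7; omega
  hR0 := by intro R z k h1 h2; omega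
  hev := by intro z; exact ⟨z, by ring⟩
  he0 := by omega

theorem T5_even (e n z : ℕ) :
    T5 e n (2 * z + 0) = min (n - (z - e) / 3) (2 * z - 1 - (z - e) / 3 - n) := by
  unfold T5 t5
  have h1 : (2 * z + 0) / 2 = z := by omega
  rw [if_pos (by omega), h1, add_zero]

/-- The data for `p = 5`. -/
def xe5 (e : ℕ) (he : e < 2) : XE where
  S := sys5 e he
  p := 5
  A := 2
  B0 := 0
  B := B5 e
  Z := Z5
  T := T5 e
  s := s5 e
  t := t5 e
  L := fun n ↦ 3 * n + 2
  hpp := rfl
  hcop := by norm_num
  hA := by norm_num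
  B_zero := by simp [B5]
  B_step := by
    intro n
    unfold B5
    rw [Finset.sum_range_succ]
    simp only [sys5]
    push_cast
    generalize (∑ l ∈ Finset.range n, ((8 * ((l : ℤ) + 1) + 4 * (e : ℤ)) / 5)) = w
    omega
  bd := by
    intro k n hkn
    constructor <;> simp only [sys5] <;> push_cast <;> omega
  T_zero := by
    intro m
    unfold T5
    split_ifs <;> omega
  T_step := by
    intro n z
    rw [T5_even, T5_even]
    unfold Sys.ee
    simp only [sys5]
    split_ifs <;> omega
  T_ne := by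
    intro n m h
    refine ⟨m / 2, ?_⟩
    unfold T5 at h
    split_ifs at h with h1
    · omega
    · exact absurd rfl h
  T_supp := by
    intro n m h
    unfold Z5 at h
    unfold T5 t5
    split_ifs <;> omega
  T_suppL := by
    intro n m h
    unfold T5 t5
    split_ifs <;> omega
  T_fin := by
    intro m
    refine ⟨m, ?_⟩
    intro n hn
    unfold T5 t5
    split_ifs <;> omega
  T_start := by
    intro n z h0 h1
    rw [T5_even] at h0 h1
    unfold t5 s5 Sys.M
    simp only [sys5]
    refine ⟨by omega, by omega, by omega, by omega⟩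

/-- The combinatorial input for `p = 5`, all residue classes. -/
theorem comb5 {e : ℕ} (he : e < 2) : Pot.Comb 5 (B5 e) Z5 (T5 e) (s5 e) (t5 e) (xe5 e he).h :=
  haveI : Fact (xe5 e he).p.Prime := ⟨Nat.prime_five⟩
  (xe5 e he).comb

/-- The combinatorial input for `p = 5` in the residue class of `ρ`. -/
theorem combA5 {e ρ : ℕ} (he : e < 2) (hρ : ρ < 5) :
    Pot.CombA 5 ρ (B5 e) Z5 (fun n m ↦ if m % 5 = ρ then T5 e n m else 0) (s5 e) (t5 e)
      (xe5 e he).h :=
  haveI : Fact (xe5 e he).p.Prime := ⟨Nat.prime_five⟩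
  (xe5 e he).combA hρ

end GH.CombU
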