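import Pool.Agent.GH.CombU.XE

/-!
# The combinatorial input for `p = 7`

Variable `y`, centres `y = m = dim S_k(Γ_0(7)) + 1` (`m = 4z`, `4z`, `4z + 2` for the weights
`k = 6z`, `6z + 2`, `6z + 4`, `a = 0, 1, 2`), `t = dim S_k(1)`, `s = k/2 - 1`.
-/

namespace GH.CombU

open GH.Comb

/-- `t_m = ⌊z/2⌋` (`a = 0, 2`), `⌊(z-1)/2⌋` (`a = 1`). -/
def t7 (a m : ℕ) : ℕ := (m / 4 - if a = 1 then 1 else 0) / 2

/-- The multiplicity of the zero `m` of the `n`-th minor. -/
def T7 (a n m : ℕ) : ℕ :=
  if m % 4 = (if a = 2 then 2 else 0) then min (n - t7 a m) (m - 1 - t7 a m - n) else 0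

/-- The slope `k/2 - 1`. -/
def s7 (a m : ℕ) : ℕ := 3 * (m / 4) - 1 + a

/-- The valuation at the root. -/
def B7 (a n : ℕ) : ℕ := ∑ l ∈ Finset.range n,
  (9 * (l + 1) + (if a = 0 then 0 else if a = 1 then 6 else 3)) / 7

/-- All centres of the `n`-th minor are below. -/
def Z7 (n : ℕ) : ℕ := 8 * n + 4

/-- `p = 7`, weights `6z + 2a`. -/
def sys7 (a : ℕ) : Sys where
  p := 7
  q := 2
  M1 := 4
  M0 := if a = 2 then 2 else 0
  e := if a = 1 then 1 else 0
  lin := 1
  C0 := if a = 0 then -1 else 0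
  hp := by norm_num
  hq := by norm_num
  hM1 := by norm_num
  hpq := by norm_num
  hlin := by norm_num
  hz := by intro z hz; split_ifs at * <;> omega
  hR := by intro R s n z k h1 h2 h3 h4 h5 h6 h7; split_ifs at * <;> omega
  hR0 := by intro R z k h1 h2; split_ifs at * <;> omega
  hev := by intro z; split_ifs <;> omega
  he0 := by split_ifs <;> norm_num

theorem T7_zero (n z : ℕ) :
    T7 0 n (4 * z + 0) = min (n - z / 2) (4 * z - 1 - z / 2 - n) := by
  unfold T7 t7
  have h1 : (4 * z + 0) / 4 = z := by omega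
  have h2 : (4 * z + 0) % 4 = 0 := by omega
  rw [h1, h2]
  simp

theorem T7_one (n z : ℕ) :
    T7 1 n (4 * z + 0) = min (n - (z - 1) / 2) (4 * z - 1 - (z - 1) / 2 - n) := by
  unfold T7 t7
  have h1 : (4 * z + 0) / 4 = z := by omega
  have h2 : (4 * z + 0) % 4 = 0 := by omega
  rw [h1, h2]
  simp

theorem T7_two (n z : ℕ) :
    T7 2 n (4 * z + 2) = min (n - z / 2) (4 * z + 1 - z / 2 - n) := by
  unfold T7 t7
  have h1 : (4 * z + 2) / 4 = z := by omega
  have h2 : (4 * z + 2) % 4 = 2 := by omega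
  rw [h1, h2]
  simp

/-- The data for `p = 7`. -/
def xe7 (a : ℕ) (ha : a < 3) : XE where
  S := sys7 a
  p := 7
  A := 4
  B0 := if a = 2 then 2 else 0
  B := B7 a
  Z := Z7
  T := T7 a
  s := s7 a
  t := t7 a
  L := fun n ↦ 2 * n + 2
  hpp := rfl
  hcop := by norm_num
  hA := by norm_num
  B_zero := by simp [B7]
  B_step := by
    intro n
    unfold B7
    rw [Finset.sum_range_succ, Nat.cast_add, add_sub_cancel_left]
    simp only [sys7]
    push_cast
    rcases (show a = 0 ∨ a = 1 ∨ a = 2 by omega) with rfl | rfl | rfl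
    · norm_num only [if_true, if_false]
      omega
    · norm_num only [if_true, if_false]
      omega
    · norm_num only [if_true, if_false]
      omega
  bd := by
    intro k n hkn
    constructor <;> simp only [sys7] <;> push_cast <;> split_ifs <;> omega
  T_zero := by
    intro m
    unfold T7
    split_ifs <;> omega
  T_step := by
    intro n z
    rcases (show a = 0 ∨ a = 1 ∨ a = 2 by omega) with rfl | rfl | rfl
    · rw [if_neg (by norm_num), T7_zero, T7_zero]
      unfold Sys.ee
      simp only [sys7]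
      norm_num only [if_true, if_false]
      split_ifs <;> omega
    · rw [if_neg (by norm_num), T7_one, T7_one]
      unfold Sys.ee
      simp only [sys7]
      norm_num only [if_true, if_false]
      split_ifs <;> omega
    · rw [if_pos rfl, T7_two, T7_two]
      unfold Sys.ee
      simp only [sys7]
      norm_num only [if_true, if_false]
      split_ifs <;> omega
  T_ne := by
    intro n m h
    refine ⟨m / 4, ?_⟩
    unfold T7 at h
    by_cases h1 : m % 4 = (if a = 2 then 2 else 0)
    · split_ifs at h1 ⊢ <;> omega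
    · rw [if_neg h1] at h
      exact absurd rfl h
  T_supp := by
    intro n m h
    unfold Z7 at h
    unfold T7 t7
    split_ifs <;> omega
  T_suppL := by
    intro n m h
    unfold T7 t7
    split_ifs at h ⊢ <;> omega
  T_fin := by
    intro m
    refine ⟨m, ?_⟩
    intro n hn
    unfold T7 t7
    split_ifs <;> omega
  T_start := by
    intro n z
    rcases (show a = 0 ∨ a = 1 ∨ a = 2 by omega) with rfl | rfl | rfl
    · rw [if_neg (by norm_num), T7_zero, T7_zero]
      intro h0 h1
      have e3 : t7 0 (4 * z + 0) = z / 2 := by unfold t7; norm_num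
      have e4 : s7 0 (4 * z + 0) = 3 * z - 1 := by unfold s7; norm_num
      rw [e3, e4]
      show _ ∧ ((z : ℤ) - 0) / 2 = n ∧ 2 * (n : ℤ) + 2 ≤ 4 * z + 0 ∧ _ = 1 * (4 * (z : ℤ) + 0) +
        2 * (-1) + 2 * z
      refine ⟨by omega, by omega, by omega, by omega⟩
    · rw [if_neg (by norm_num), T7_one, T7_one]
      intro h0 h1
      have e3 : t7 1 (4 * z + 0) = (z - 1) / 2 := by unfold t7; norm_num
      have e4 : s7 1 (4 * z + 0) = 3 * z - 1 + 1 := by unfold s7; norm_num
      rw [e3, e4]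
      show _ ∧ ((z : ℤ) - 1) / 2 = n ∧ 2 * (n : ℤ) + 2 ≤ 4 * z + 0 ∧ _ = 1 * (4 * (z : ℤ) + 0) +
        2 * 0 + 2 * z
      refine ⟨by omega, by omega, by omega, by omega⟩
    · rw [if_pos rfl, T7_two, T7_two]
      intro h0 h1
      have e3 : t7 2 (4 * z + 2) = z / 2 := by
        unfold t7
        have : (4 * z + 2) / 4 = z := by omega
        rw [this]
        norm_num
      have e4 : s7 2 (4 * z + 2) = 3 * z - 1 + 2 := by
        unfold s7
        have : (4 * z + 2) / 4 = z := by omega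
        rw [this]
      rw [e3, e4]
      show _ ∧ ((z : ℤ) - 0) / 2 = n ∧ 2 * (n : ℤ) + 2 ≤ 4 * z + 2 ∧ _ = 1 * (4 * (z : ℤ) + 2) +
        2 * 0 + 2 * z
      refine ⟨by omega, by omega, by omega, by omega⟩

/-- The combinatorial input for `p = 7`, all residue classes. -/
theorem comb7 {a : ℕ} (ha : a < 3) : Pot.Comb 7 (B7 a) Z7 (T7 a) (s7 a) (t7 a) (xe7 a ha).h :=
  haveI : Fact (xe7 a ha).p.Prime := ⟨by norm_num [xe7]⟩
  (xe7 a ha).comb

/-- The combinatorial input for `p = 7` in the residue class of `ρ`. -/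
theorem combA7 {a ρ : ℕ} (ha : a < 3) (hρ : ρ < 7) :
    Pot.CombA 7 ρ (B7 a) Z7 (fun n m ↦ if m % 7 = ρ then T7 a n m else 0) (s7 a) (t7 a)
      (xe7 a ha).h :=
  haveI : Fact (xe7 a ha).p.Prime := ⟨by norm_num [xe7]⟩
  (xe7 a ha).combA hρ

end GH.CombU
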