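import Pool.Agent.GH.CombU.FGK
import Pool.Agent.GH.CombU.DefsLN
import Pool.Agent.GH.CombU.XD
import Pool.Agent.GH.Pot.GDefs

/-!
# The combinatorial input for `(p, N) = (3, 2), (3, 4), (5, 2)`
-/

namespace GH.CombU

open GH.Comb

/-- The systems. -/
def sysLN (i : ℕ) (hi : i ≤ 3) : Sys where
  p := if i ≤ 1 then 3 else 5
  q := if i = 0 then 2 else 1
  M1 := if i = 0 then 2 else if i = 1 then 4 else 6
  M0 := if i = 3 then 2 else 0
  e := 0
  lin := 10
  C0 := 0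
  hp := by split_ifs <;> norm_num
  hq := by split_ifs <;> norm_num
  hM1 := by split_ifs <;> norm_num
  hpq := by
    rcases (show i = 0 ∨ i = 1 ∨ i = 2 ∨ i = 3 by omega) with rfl | rfl | rfl | rfl <;> norm_num
  hlin := by norm_num
  hz := by
    intro z hz
    rcases (show i = 0 ∨ i = 1 ∨ i = 2 ∨ i = 3 by omega) with rfl | rfl | rfl | rfl <;>
      norm_num at * <;> omega
  hR := by
    intro R s n z k h1 h2 h3 h4 h5 h6 h7
    rcases (show i = 0 ∨ i = 1 ∨ i = 2 ∨ i = 3 by omega) with rfl | rfl | rfl | rfl <;>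
      norm_num at * <;> omega
  hR0 := by
    intro R z k h1 h2
    omega
  hev := by
    intro z
    exact Dvd.dvd.mul_right (by norm_num) _
  he0 := by split_ifs <;> norm_num

theorem sysLN_isG (i : ℕ) (hi : i ≤ 3) : (sysLN i hi).IsG where
  ty := by
    rcases (show i = 0 ∨ i = 1 ∨ i = 2 ∨ i = 3 by omega) with rfl | rfl | rfl | rfl <;>
      norm_num [sysLN]
  ev := by
    unfold sysLN
    simp only
    split_ifs <;> norm_num
  q2 := by
    rcases (show i = 0 ∨ i = 1 ∨ i = 2 ∨ i = 3 by omega) with rfl | rfl | rfl | rfl <;>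
      norm_num [sysLN]

theorem sysLN_p (i : ℕ) (hi : i ≤ 3) : (sysLN i hi).p = pLN i := by
  unfold sysLN pLN
  simp only
  split_ifs <;> norm_num

theorem TLN_zero (i m : ℕ) : TLN i 0 m = 0 := by
  unfold TLN
  omega

theorem TLN_supp (i n m : ℕ) (h : ZLN n ≤ m) : TLN i n m = 0 := by
  unfold ZLN at h
  unfold TLN tLN
  split_ifs <;> omega

theorem TLN_step (i : ℕ) (hi : i ≤ 3) (n z : ℕ) :
    (TLN i (n + 1) z : ℤ) = TLN i n z + (sysLN i hi).ee z ((n : ℤ) + 1) := by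
  unfold Sys.ee
  rcases (show i = 0 ∨ i = 1 ∨ i = 2 ∨ i = 3 by omega) with rfl | rfl | rfl | rfl <;>
  · simp only [sysLN, TLN, tLN, cenLN]
    norm_num only [if_true, if_false]
    split_ifs <;> omega

theorem bdLN (i : ℕ) (hi : i ≤ 3) (k n : ℕ) (hkn : k < n) :
    (sysLN i hi).Bd ((k : ℤ) + 1) (ZLN n) := by
  rcases (show i = 0 ∨ i = 1 ∨ i = 2 ∨ i = 3 by omega) with rfl | rfl | rfl | rfl <;>
  · constructor <;> simp only [sysLN, ZLN] <;> norm_num <;> omega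

/-- `F` is the sum of the numbers of zeros in the classes. -/
theorem FZ_eq' (S : Sys) (ν : ℕ) (z : ℤ) (n : ℕ) :
    S.FZ ν z n = S.NN 0 z n + ∑ j ∈ Finset.range ν, S.NN (j + 1) z n := by
  induction ν with
  | zero =>
    rw [Finset.sum_range_zero, add_zero]
    unfold Sys.FZ Sys.NN
    exact Finset.sum_congr rfl fun k _ ↦ S.incZ_zero z _
  | succ ν ih =>
    rw [S.FZ_succ, ih, Finset.sum_range_succ]
    ring

instance factLN (i : ℕ) : Fact (pLN i).Prime := ⟨by unfold pLN; split_ifs <;> norm_num⟩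

theorem fvLN_eq (i : ℕ) (hi : i ≤ 3) (d ν n : ℕ) :
    (Pot.fv (pLN i) (BLN i) ZLN (TLN i) n d ν : ℤ) = (sysLN i hi).FZ ν d n := by
  rw [FZ_eq']
  have hNN : ∀ j : ℕ, (sysLN i hi).NN j d n =
      ∑ w ∈ Finset.range (ZLN n),
        (if (pLN i : ℤ) ^ j ∣ (w : ℤ) - d then (TLN i n w : ℤ) else 0) := by
    intro j
    have := (sysLN i hi).NN_eq (τ := fun n w ↦ (TLN i n w : ℤ)) (j := j) (c := d)
      (fun w ↦ by simp [TLN_zero]) (fun n w ↦ TLN_step i hi n w) n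
      (fun k hk ↦ bdLN i hi k n hk)
    rw [this, sysLN_p]
  unfold Pot.fv
  push_cast
  have h0 : (BLN i n : ℤ) = (sysLN i hi).NN 0 d n := by
    rw [hNN 0]
    unfold BLN
    push_cast
    exact Finset.sum_congr rfl fun w _ ↦ by simp
  rw [h0]
  congr 1
  rw [Finset.sum_congr rfl (fun j _ ↦ hNN (j + 1)), Finset.sum_comm]
  apply Finset.sum_congr rfl
  intro w _
  have h3 : (Pot.tau (pLN i) d ν w : ℤ) =
      ∑ j ∈ Finset.range ν, (if w ≡ d [MOD (pLN i) ^ (j + 1)] then (1 : ℤ) else 0) := by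
    clear h0 hNN
    induction ν with
    | zero => simp [Pot.tau]
    | succ ν ih =>
      rw [Pot.tau_succ, Finset.sum_range_succ, ← ih]
      push_cast
      rfl
  rw [h3, Finset.mul_sum]
  apply Finset.sum_congr rfl
  intro j _
  have h4 : w ≡ d [MOD (pLN i) ^ (j + 1)] ↔ (pLN i : ℤ) ^ (j + 1) ∣ (w : ℤ) - d := by
    rw [Nat.modEq_iff_dvd, ← dvd_neg, neg_sub]
    push_cast
    rfl
  by_cases h : (pLN i : ℤ) ^ (j + 1) ∣ (w : ℤ) - d
  · rw [if_pos h, if_pos (h4.2 h), mul_one]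
  · rw [if_neg h, if_neg (fun h' ↦ h (h4.1 h')), mul_zero]

/-- The hulls. -/
noncomputable def hLN (i : ℕ) (n d ν : ℕ) : ℤ :=
  hullOf (fun n ↦ (Pot.fv (pLN i) (BLN i) ZLN (TLN i) n d ν : ℤ)) n

theorem fLN_eq (i : ℕ) (hi : i ≤ 3) (d ν : ℕ) :
    (fun n ↦ (Pot.fv (pLN i) (BLN i) ZLN (TLN i) n d ν : ℤ)) = (sysLN i hi).FZ ν d :=
  funext fun n ↦ fvLN_eq i hi d ν n

theorem hLN_spec (i : ℕ) (hi : i ≤ 3) (d ν : ℕ) :
    HSpec ((sysLN i hi).FZ ν d) (fun n ↦ hLN i n d ν) := by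
  have h : (fun n ↦ hLN i n d ν) = hullOf ((sysLN i hi).FZ ν d) := by
    funext n
    unfold hLN
    rw [fLN_eq i hi]
  rw [h]
  exact hullOf_spec ((sysLN_isG i hi).grows ν d) ((sysLN_isG i hi).int_slope ν d)

theorem vtxLN (i : ℕ) (hi : i ≤ 3) (d ν n : ℕ) :
    Pot.Vtx (fun k ↦ hLN i k d ν) n ↔ IsV ((sysLN i hi).FZ ν d) n :=
  (hLN_spec i hi d ν).vtx n

theorem rootLN (i : ℕ) (hi : i ≤ 3) (d : ℤ) : (sysLN i hi).FZ 0 d = (sysLN i hi).FZ 0 0 :=
  funext fun n ↦ (sysLN i hi).FZ_congr (by simp) n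

theorem B_eq_FZ (i : ℕ) (hi : i ≤ 3) (d : ℤ) (n : ℕ) :
    (BLN i n : ℤ) = (sysLN i hi).FZ 0 d n := by
  rw [rootLN i hi d]
  have := fvLN_eq i hi 0 0 n
  unfold Pot.fv at this
  simpa [Pot.tau] using this

/-- The tent of `z` starts at `n` if `q n ≤ z < q (n + 1)`, unless `n = 1` and the tent is
zero. -/
theorem tent_start (i : ℕ) (hi : i ≤ 3) {n m : ℕ} (hn : 1 ≤ n)
    (h1 : (sysLN i hi).q * n + (sysLN i hi).e ≤ m)
    (h2 : (m : ℤ) < (sysLN i hi).q * n + (sysLN i hi).e + (sysLN i hi).q)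
    (h3 : 2 ≤ n ∨ i = 2 ∨ i = 3) : TLN i n m = 0 ∧ TLN i (n + 1) m ≠ 0 := by
  rcases (show i = 0 ∨ i = 1 ∨ i = 2 ∨ i = 3 by omega) with rfl | rfl | rfl | rfl <;>
  · simp only [sysLN] at h1 h2
    norm_num at h1 h2
    simp only [TLN, tLN, cenLN]
    norm_num only [if_true, if_false]
    omega

theorem tent_start' (i : ℕ) (hi : i ≤ 3) {n m : ℕ} (h1 : TLN i n m = 0)
    (h2 : TLN i (n + 1) m ≠ 0) : n = tLN i m ∧ 2 * n + 2 ≤ cenLN i m ∧
      ((m : ℤ) - (sysLN i hi).e) / (sysLN i hi).q = n ∧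
      (sysLN i hi).q * n + (sysLN i hi).e ≤ m ∧
      (m : ℤ) < (sysLN i hi).q * n + (sysLN i hi).e + (sysLN i hi).q ∧
      (sysLN i hi).M m = cenLN i m ∧
      (sysLN i hi).q * (sysLN i hi).M m + 2 * (sysLN i hi).e - 2 * m - 2 =
        2 * (sLN i m : ℤ) := by
  rcases (show i = 0 ∨ i = 1 ∨ i = 2 ∨ i = 3 by omega) with rfl | rfl | rfl | rfl <;>
  · simp only [TLN, tLN, cenLN, sLN, sysLN, Sys.M] at *
    norm_num only [if_true, if_false] at *
    push_cast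
    omega

/-- For `(3, 4)` the index one is never a vertex. -/
theorem not_vertex_one (d ν : ℕ) : ¬ IsV ((sysLN 1 (by norm_num)).FZ ν d) 1 := by
  intro h
  have h1 := h 0 2 (by norm_num) (by norm_num)
  have h0 : ∀ n : ℕ, n ≤ 2 → (sysLN 1 (by norm_num)).FZ ν d n = 0 := by
    intro n hn
    rw [← fvLN_eq 1 (by norm_num)]
    have hT : ∀ m, TLN 1 n m = 0 := by
      intro m
      unfold TLN tLN cenLN
      norm_num only [if_true, if_false]
      omega
    unfold Pot.fv BLN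
    simp [hT]
  rw [h0 0 (by norm_num), h0 1 (by norm_num), h0 2 (by norm_num)] at h1
  norm_num at h1

theorem incZ_root (i : ℕ) (hi : i ≤ 3) (d : ℤ) (n : ℕ) :
    (sysLN i hi).incZ 0 d ((n : ℤ) + 1) = (BLN i (n + 1) : ℤ) - BLN i n := by
  have h := (sysLN i hi).FZ_step 0 d n
  rw [← B_eq_FZ i hi, ← B_eq_FZ i hi] at h
  linarith

/-- The combinatorial input for `(p, N) = (3, 2), (3, 4), (5, 2)`. -/
theorem combLN' (i : ℕ) (hi : i ≤ 3) :
    Pot.CombG (pLN i) (BLN i) ZLN (TLN i) (sLN i) (tLN i) (hLN i) where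
  hull := by
    intro d ν
    have hs := hLN_spec i hi d ν
    rw [← fLN_eq i hi] at hs
    exact ⟨hs.hull.le, hs.hull.zero, hs.hull.conv, hs.hull.lin, hs.hull.touch⟩
  near := by
    intro n
    obtain ⟨Q, hQ⟩ := (sysLN_isG i hi).near n
    refine ⟨Q, fun d ν ↦ ?_⟩
    obtain ⟨b, hb1, hb2, hb3⟩ := hQ ν d
    exact ⟨b, hb1, hb2, (vtxLN i hi d ν b).2 hb3⟩
  k1 := by
    intro n d ν _
    rw [fvLN_eq i hi, fvLN_eq i hi]
    have hS := sysLN_isG i hi
    exact k1_ofF (hLN_spec i hi d ν) (hLN_spec i hi d (ν + 1)) (hS.grows ν d)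
      (hS.int_slope ν d) (hS.nform0 ν d) (n + 1)
  k2 := by
    intro n d ν hn
    rw [fvLN_eq i hi, fvLN_eq i hi]
    have hS := sysLN_isG i hi
    exact k2_ofF (hLN_spec i hi d ν) (hLN_spec i hi d (ν + 1)) (hS.grows ν d)
      (hS.grows (ν + 1) d) (hS.int_slope (ν + 1) d) (hS.nform0 ν d) (hS.nform1 ν d)
      ((vtxLN i hi d ν n).1 hn)
  k3a := by
    intro n d ν hn
    rw [fvLN_eq i hi]
    have hS := sysLN_isG i hi
    exact k3a_ofF (hLN_spec i hi d ν) (hLN_spec i hi d (ν + 1)) (hS.grows ν d)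
      (hS.grows (ν + 1) d) (hS.int_slope (ν + 1) d) (hS.nform0 ν d) (hS.nform1 ν d)
      ((vtxLN i hi d ν n).1 hn)
  k3b := by
    intro n d ν hn
    have hS := sysLN_isG i hi
    have hn' := (vtxLN i hi d (ν + 1) n).1 hn
    rcases hS.k3b hn' with
      h | ⟨h1, h2, h3, ⟨z, hz1, hz2, hz3⟩, a, b, l, hB, hF, h4, h5⟩
    · exact Or.inl ((vtxLN i hi d ν n).2 h)
    · have hq : 0 ≤ (sysLN i hi).q * n := mul_nonneg (sysLN i hi).hq.le (Int.natCast_nonneg n)
      have he : (sysLN i hi).e = 0 := rfl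
      obtain ⟨m, rfl⟩ : ∃ m : ℕ, z = m := ⟨z.toNat, by omega⟩
      have hc : 2 ≤ n ∨ i = 2 ∨ i = 3 := by
        by_contra hcc
        have hn1 : n = 1 := by omega
        subst hn1
        rcases (show i = 0 ∨ i = 1 by omega) with rfl | rfl
        · have e1 := incZ_root 0 (by norm_num) d 0
          have e2 := incZ_root 0 (by norm_num) d 1
          have e3 : BLN 0 0 = 0 := by decide
          have e4 : BLN 0 1 = 0 := by decide
          have e5 : BLN 0 2 = 1 := by decide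
          push_cast at e1 e2 h3
          rw [e3, e4] at e1
          rw [e4, e5, h3, e1] at e2
          norm_num at e2
        · exact not_vertex_one d (ν + 1) hn'
      obtain ⟨t1, t2⟩ := tent_start i hi h2 hz2 hz3 hc
      refine Or.inr ⟨?_, ?_, m, t1, t2, ?_⟩
      · rw [vtxLN i hi]
        rw [rootLN i hi] at h1
        exact_mod_cast h1
      · rw [fvLN_eq i hi]
        exact val_flat (hLN_spec i hi d ν) hB hF h4.le h5.le
      · rw [Nat.modEq_iff_dvd]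
        rw [sysLN_p] at hz1
        push_cast
        exact hz1
  down := by
    intro n ν m _ t1 t2 hn
    have hS := sysLN_isG i hi
    obtain ⟨_, _, _, h4, h5, _⟩ := tent_start' i hi t1 t2
    rw [vtxLN i hi] at hn ⊢
    exact hS.down h4 h5 hn
  supp := fun n m h ↦ TLN_supp i n m h
  fin := by
    intro m
    refine ⟨cenLN i m, ?_⟩
    intro n hn
    unfold TLN
    omega
  start := fun n m h0 h1 ↦ (tent_start' i hi h0 h1).1
  leaf := by
    intro n m h0 h1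
    obtain ⟨_, h3, h4, _, _, h6, h8⟩ := tent_start' i hi h0 h1
    obtain ⟨y, hy⟩ : ∃ y : ℕ, (n : ℤ) + y + 1 = (sysLN i hi).M m :=
      ⟨cenLN i m - 1 - n, by rw [h6]; omega⟩
    obtain ⟨K, hK⟩ := (sysLN i hi).leafZ h4 hy (by omega)
    refine ⟨y, by omega, K, ?_⟩
    intro ν hν
    rw [fvLN_eq i hi, fvLN_eq i hi]
    have h9 := hK ν hν
    have h7 : ((y - n : ℕ) : ℤ) = (y : ℤ) - n := by omega
    rw [h8] at h9
    rw [h7]
    linarith

/-- The combinatorial input for `(p, N) = (3, 2), (3, 4), (5, 2)`. -/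
theorem combLN (i : ℕ) (hi : i ≤ 3) : ∃ h : ℕ → ℕ → ℕ → ℤ,
    Pot.CombG (pLN i) (BLN i) ZLN (TLN i) (sLN i) (tLN i) h := ⟨hLN i, combLN' i hi⟩

/-! ### The root -/

/-- The numbers of zeros are convex. -/
theorem BLN_conv (i : ℕ) (hi : i ≤ 3) (n : ℕ) : 2 * BLN i (n + 1) ≤ BLN i n + BLN i (n + 2) := by
  have hS := sysLN_isG i hi
  have h1 := incZ_root i hi 0 n
  have h2 := incZ_root i hi 0 (n + 1)
  have h3 := hS.incZ_diff 0 0 ((n : ℤ) + 1)
  rw [zero_add, Finset.sum_range_one] at h3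
  have h4 := (sysLN i hi).jx_zero 0 ((n : ℤ) + 1)
  have h5 := Sys.jy_nonneg (S := sysLN i hi) 0 0 ((n : ℤ) + 1)
  have h6 := hS.jm_zero_le 0 ((n : ℤ) + 1)
  push_cast at h2
  rw [h1, h2, h4] at h3
  have : BLN i (n + 2) = BLN i (n + 1 + 1) := rfl
  rw [this]
  omega

theorem BLN_zero (i : ℕ) : BLN i 0 = 0 := by
  unfold BLN
  exact Finset.sum_eq_zero fun m _ ↦ TLN_zero i m

/-- At the root the hull is the number of zeros. -/
theorem hLN_root (i : ℕ) (hi : i ≤ 3) (n d : ℕ) : hLN i n d 0 = BLN i n := by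
  have hS := sysLN_isG i hi
  rw [B_eq_FZ i hi d]
  have hs := hLN_spec i hi d 0
  by_cases hn : IsV ((sysLN i hi).FZ 0 d) n
  · exact hs.val n hn
  · obtain ⟨a, b, l, h1, h2, hB⟩ := block_of_not_isV (hS.grows 0 d) hn
    refine val_flat hs hB ?_ h1.le h2.le
    refine flat_of_mono (δ := (sysLN i hi).incZ 0 d) ((sysLN i hi).FZ_step 0 d) hB ?_
    intro k k' _ h4 _
    obtain ⟨j, rfl⟩ : ∃ j : ℕ, k' = k + j := ⟨(k' - k).toNat, by omega⟩
    clear h4
    induction j with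
    | zero => simp
    | succ j ih =>
      have h3 := hS.incZ_diff 0 d (k + j)
      rw [zero_add, Finset.sum_range_one] at h3
      have h4 := (sysLN i hi).jx_zero d (k + j)
      have h5 := Sys.jy_nonneg (S := sysLN i hi) 0 d (k + j)
      have h6 := hS.jm_zero_le d (k + j)
      have h7 := ih (by push_cast at *; omega)
      have h8 : k + ((j + 1 : ℕ) : ℤ) = k + j + 1 := by push_cast; ring
      rw [h8]
      linarith

/-- The vertices at the root. -/
theorem vtxLN_root (i : ℕ) (hi : i ≤ 3) (n : ℕ) : Pot.Vtx (fun k ↦ hLN i k 0 0) n ↔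
    n = 0 ∨ 2 * BLN i n < BLN i (n - 1) + BLN i (n + 1) := by
  unfold Pot.Vtx
  simp only [hLN_root i hi]
  norm_cast

end GH.CombU
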