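import Mathlib

/-!
# Generic combinatorics of the hulls: the ghost numbers for a type `(p, q, M1, M0, e, lin)`

Centres `z : ℤ`, `M z = M1 z + M0` (the dimension plus one), `d z = ⌊(z - e)/q⌋`. The increment of
the valuation of the leading minors at the node `z mod p^ν` is given by a floor formula, which is
used for all integers `n`.
-/

namespace GH.CombU

/-! ### Floors -/

theorem ediv_eq_of {L c x : ℤ} (h1 : L * c ≤ x) (h2 : x < L * c + L) : x / L = c := by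
  have hL : 0 < L := by linarith
  apply le_antisymm
  · have : x / L < c + 1 := by
      rw [Int.ediv_lt_iff_lt_mul hL]
      linarith
    linarith
  · rw [Int.le_ediv_iff_mul_le hL]
    linarith

theorem neg_ediv_eq {L : ℤ} (hL : 0 < L) (R : ℤ) : (-R) / L = -((R - 1) / L) - 1 := by
  have h1 := Int.mul_ediv_self_le (x := R - 1) hL.ne'
  have h2 := Int.lt_mul_ediv_self_add (x := R - 1) hL
  apply ediv_eq_of <;> linarith

theorem ediv_lt_of_dvd {T t x y : ℤ} (hT : 0 < T) (ht : T ∣ t) (h1 : y < t) (h2 : t ≤ x) :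
    y / T < x / T := by
  obtain ⟨u, rfl⟩ := ht
  have e1 : y / T < u := by
    rw [Int.ediv_lt_iff_lt_mul hT]
    linarith
  have e2 : u ≤ x / T := by
    rw [Int.le_ediv_iff_mul_le hT]
    linarith
  linarith

theorem ediv_eq_of_no {T x y : ℤ} (hT : 0 < T) (hyx : y ≤ x)
    (h : ∀ t, T ∣ t → y < t → t ≤ x → False) : y / T = x / T := by
  apply le_antisymm (Int.ediv_le_ediv hT hyx)
  by_contra hc
  push Not at hc
  refine h (T * (x / T)) (dvd_mul_right _ _) ?_ (Int.mul_ediv_self_le hT.ne')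
  rw [Int.ediv_lt_iff_lt_mul hT] at hc
  linarith

theorem ediv_add_le {T a b a' b' : ℤ} (hT : 0 < T) (h : a + b = a' + b') :
    a / T + b / T ≤ a' / T + b' / T + 1 := by
  have h1 := Int.mul_ediv_self_le (x := a) hT.ne'
  have h2 := Int.mul_ediv_self_le (x := b) hT.ne'
  have h3 := Int.lt_mul_ediv_self_add (x := a') hT
  have h4 := Int.lt_mul_ediv_self_add (x := b') hT
  have h5 : T * (a / T + b / T) < T * (a' / T + b' / T + 2) := by linarith
  have h6 := lt_of_mul_lt_mul_left h5 hT.le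
  linarith

/-- Legendre: `(p-1) ∑_(j ≥ 1) ⌊x/p^j⌋ ≤ x - 1` for `x ≥ 1`. -/
theorem legendre {p : ℤ} (hp : 1 < p) (ν : ℕ) :
    ∀ x : ℤ, 1 ≤ x → (p - 1) * ∑ j ∈ Finset.range ν, x / p ^ (j + 1) ≤ x - 1 := by
  induction ν with
  | zero => intro x hx; simpa using hx
  | succ ν ih =>
    intro x hx
    have hp0 : (0 : ℤ) < p := by linarith
    have e1 : ∑ j ∈ Finset.range (ν + 1), x / p ^ (j + 1) =
        x / p + ∑ j ∈ Finset.range ν, (x / p) / p ^ (j + 1) := by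
      rw [Finset.sum_range_succ', add_comm]
      simp only [zero_add, pow_one]
      congr 1
      apply Finset.sum_congr rfl
      intro j _
      rw [Int.ediv_ediv_of_nonneg hp0.le, ← pow_succ']
    rw [e1]
    rcases le_or_gt (x / p) 0 with h | h
    · have h0 : x / p = 0 := le_antisymm h (Int.ediv_nonneg (by linarith) hp0.le)
      rw [h0]
      simp only [Int.zero_ediv, Finset.sum_const_zero, add_zero, mul_zero]
      linarith
    · have h1 := ih (x / p) h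
      have h2 := Int.mul_ediv_self_le (x := x) hp0.ne'
      linarith

/-! ### Types -/

/-- A type: the parameters and the numerical inequalities used in the proof. -/
structure Sys where
  p : ℤ
  q : ℤ
  M1 : ℤ
  M0 : ℤ
  e : ℤ
  lin : ℤ
  C0 : ℤ
  hp : 1 < p
  hq : 0 < q
  hM1 : 0 < M1
  hpq : p + 1 = q * M1
  hlin : 0 < lin
  hz : ∀ z : ℤ, 2 ≤ M1 * z + M0 → e - z - 1 < 0 ∧ 0 ≤ q * (M1 * z + M0) + e - z - 1
  hR : ∀ R s n z k : ℤ, 1 ≤ R → R = 2 * k - (M1 * z + M0) → 0 ≤ s → (R = 1 → s = 0) →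
    (2 ≤ R → M1 * (p - 1) * s ≤ 2 * R - 3) → 1 ≤ n → q * R ≤ p * n + (p - 1) →
    R + 2 ≤ 2 * (lin * R + 2 * n - 2 - 2 * s)
  hR0 : ∀ R z k : ℤ, 1 ≤ R → R = 2 * k - (M1 * z + M0) → R + 2 ≤ 2 * (lin * R)
  hev : ∀ z : ℤ, 2 ∣ lin * (M1 * z + M0)
  he0 : 0 ≤ M1 * e + M0

namespace Sys

variable (S : Sys)

/-- The dimension plus one. -/
def M (z : ℤ) : ℤ := S.M1 * z + S.M0

/-- Upper end of the window `(Y, X]`. -/
def X (z n : ℤ) : ℤ := S.q * n + S.e - z - 1

/-- Lower end of the window `(Y, X]`. -/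
def Y (z n : ℤ) : ℤ := S.q * (S.M z - n) + S.e - z - 1

/-- The increment of the number of zeros in the class `z mod p^j`. -/
def N (j : ℕ) (z n : ℤ) : ℤ :=
  S.X z n / S.p ^ j - S.Y z n / S.p ^ (j + 1) - 1 - (2 * n - S.M z) / (S.M1 * S.p ^ j)
    - (2 * n - S.M z - 1) / (S.M1 * S.p ^ j)

/-- The increment of the valuation of the leading minors at the node `z mod p^ν`. -/
def inc (ν : ℕ) (z n : ℤ) : ℤ :=
  S.lin * n + S.C0 + z - S.Y z n / S.p + ∑ j ∈ Finset.range ν, S.N (j + 1) z n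

/-- The valuation of the `n`-th leading minor at the node `z mod p^ν`. -/
def F (ν : ℕ) (z : ℤ) (n : ℕ) : ℤ := ∑ k ∈ Finset.range n, S.inc ν z ((k : ℤ) + 1)

/-- The number of zeros of the `n`-th leading minor in the class `z mod p^j`. -/
def NN (j : ℕ) (z : ℤ) (n : ℕ) : ℤ := ∑ k ∈ Finset.range n, S.N j z ((k : ℤ) + 1)

theorem hp0 : 0 < S.p := by have := S.hp; linarith

theorem ppos (j : ℕ) : 0 < S.p ^ j := pow_pos S.hp0 j

theorem Lpos (j : ℕ) : 0 < S.M1 * S.p ^ j := mul_pos S.hM1 (S.ppos j)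

/-- `Y` in terms of `p z`. -/
theorem Y_eq (z n : ℤ) : S.Y z n = S.p * z + S.q * S.M0 - S.q * n + S.e - 1 := by
  unfold Y M
  linear_combination -z * S.hpq

theorem X_refl (z n : ℤ) : S.X z (S.M z - n) = S.Y z n := rfl

theorem Y_refl (z n : ℤ) : S.Y z (S.M z - n) = S.X z n := by
  unfold Y X
  ring

theorem X_sub_Y (z n : ℤ) : S.X z n - S.Y z n = S.q * (2 * n - S.M z) := by
  unfold X Y
  ring

theorem X_add_Y (z n : ℤ) : S.X z n + S.Y z n = S.q * S.M z + 2 * S.e - 2 * z - 2 := by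
  unfold X Y
  ring

theorem X_mono (z : ℤ) {n n' : ℤ} (h : n ≤ n') : S.X z n ≤ S.X z n' := by
  unfold X
  have := mul_le_mul_of_nonneg_left h S.hq.le
  linarith

theorem Y_anti (z : ℤ) {n n' : ℤ} (h : n ≤ n') : S.Y z n' ≤ S.Y z n := by
  unfold Y
  have := mul_le_mul_of_nonneg_left h S.hq.le
  linarith

theorem N_congr {j : ℕ} {z z' : ℤ} (h : S.p ^ j ∣ z' - z) (n : ℤ) : S.N j z' n = S.N j z n := by
  obtain ⟨u, hu⟩ := h
  have hz : z' = z + S.p ^ j * u := by linarith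
  subst hz
  have h1 : S.X (z + S.p ^ j * u) n / S.p ^ j = S.X z n / S.p ^ j - u := by
    have : S.X (z + S.p ^ j * u) n = S.X z n + S.p ^ j * (-u) := by unfold X; ring
    rw [this, Int.add_mul_ediv_left _ _ (S.ppos j).ne']
    ring
  have h2 : S.Y (z + S.p ^ j * u) n / S.p ^ (j + 1) = S.Y z n / S.p ^ (j + 1) + u := by
    have : S.Y (z + S.p ^ j * u) n = S.Y z n + S.p ^ (j + 1) * u := by
      rw [Y_eq, Y_eq]; ring
    rw [this, Int.add_mul_ediv_left _ _ (S.ppos _).ne']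
  have h3 : (2 * n - S.M (z + S.p ^ j * u)) / (S.M1 * S.p ^ j) =
      (2 * n - S.M z) / (S.M1 * S.p ^ j) - u := by
    have : 2 * n - S.M (z + S.p ^ j * u) = 2 * n - S.M z + (S.M1 * S.p ^ j) * (-u) := by
      unfold M; ring
    rw [this, Int.add_mul_ediv_left _ _ (S.Lpos j).ne']
    ring
  have h4 : (2 * n - S.M (z + S.p ^ j * u) - 1) / (S.M1 * S.p ^ j) =
      (2 * n - S.M z - 1) / (S.M1 * S.p ^ j) - u := by
    have : 2 * n - S.M (z + S.p ^ j * u) - 1 = 2 * n - S.M z - 1 + (S.M1 * S.p ^ j) * (-u) := by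
      unfold M; ring
    rw [this, Int.add_mul_ediv_left _ _ (S.Lpos j).ne']
    ring
  unfold N
  rw [h1, h2, h3, h4]
  ring

theorem inc_congr {ν : ℕ} {z z' : ℤ} (h : S.p ^ ν ∣ z' - z) (n : ℤ) :
    S.inc ν z' n = S.inc ν z n := by
  unfold inc
  have h1 : ∑ j ∈ Finset.range ν, S.N (j + 1) z' n = ∑ j ∈ Finset.range ν, S.N (j + 1) z n := by
    apply Finset.sum_congr rfl
    intro j hj
    apply S.N_congr
    exact (pow_dvd_pow _ (by simpa using hj)).trans h
  rw [h1]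
  have h2 : S.Y z' n / S.p = S.Y z n / S.p + (z' - z) := by
    have : S.Y z' n = S.Y z n + S.p * (z' - z) := by rw [Y_eq, Y_eq]; ring
    rw [this, Int.add_mul_ediv_left _ _ S.hp0.ne']
  rw [h2]
  ring

theorem inc_succ (ν : ℕ) (z n : ℤ) : S.inc (ν + 1) z n = S.inc ν z n + S.N (ν + 1) z n := by
  unfold inc
  rw [Finset.sum_range_succ]
  ring

theorem F_congr {ν : ℕ} {z z' : ℤ} (h : S.p ^ ν ∣ z' - z) (n : ℕ) : S.F ν z' n = S.F ν z n := by
  unfold F
  exact Finset.sum_congr rfl fun k _ ↦ S.inc_congr h _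

theorem F_succ (ν : ℕ) (z : ℤ) (n : ℕ) : S.F (ν + 1) z n = S.F ν z n + S.NN (ν + 1) z n := by
  unfold F NN
  rw [← Finset.sum_add_distrib]
  exact Finset.sum_congr rfl fun k _ ↦ S.inc_succ ν z _

theorem F_step (ν : ℕ) (z : ℤ) (n : ℕ) :
    S.F ν z (n + 1) = S.F ν z n + S.inc ν z ((n : ℤ) + 1) := by
  unfold F
  rw [Finset.sum_range_succ]

theorem NN_step (j : ℕ) (z : ℤ) (n : ℕ) :
    S.NN j z (n + 1) = S.NN j z n + S.N j z ((n : ℤ) + 1) := by
  unfold NN
  rw [Finset.sum_range_succ]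

/-- Reflection of the floors of `R` and `R - 1`. -/
theorem R_refl (j : ℕ) (z n : ℤ) :
    (2 * (S.M z - n) - S.M z) / (S.M1 * S.p ^ j) + (2 * (S.M z - n) - S.M z - 1) / (S.M1 * S.p ^ j)
      = -((2 * n - S.M z) / (S.M1 * S.p ^ j)) - (2 * n - S.M z - 1) / (S.M1 * S.p ^ j) - 2 := by
  have h1 : 2 * (S.M z - n) - S.M z = -(2 * n - S.M z) := by ring
  have h2 : 2 * (S.M z - n) - S.M z - 1 = -(2 * n - S.M z + 1) := by ring
  rw [h2, h1, neg_ediv_eq (S.Lpos j), neg_ediv_eq (S.Lpos j)]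
  have h3 : 2 * n - S.M z + 1 - 1 = 2 * n - S.M z := by ring
  rw [h3]
  ring

theorem N_add (j : ℕ) (z n : ℤ) :
    S.N j z n + S.N j z (S.M z - n) = S.X z n / S.p ^ j + S.Y z n / S.p ^ j
      - S.X z n / S.p ^ (j + 1) - S.Y z n / S.p ^ (j + 1) := by
  have h := S.R_refl j z n
  unfold N
  rw [X_refl, Y_refl]
  linarith

theorem N_sub (j : ℕ) (z n : ℤ) :
    S.N j z n - S.N j z (S.M z - n) = (S.X z n / S.p ^ j - S.Y z n / S.p ^ j)
      + (S.X z n / S.p ^ (j + 1) - S.Y z n / S.p ^ (j + 1)) - 2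
      - 2 * ((2 * n - S.M z) / (S.M1 * S.p ^ j) + (2 * n - S.M z - 1) / (S.M1 * S.p ^ j)) := by
  have h := S.R_refl j z n
  unfold N
  rw [X_refl, Y_refl]
  linarith

/-- The near duality (B). -/
theorem inc_add (ν : ℕ) (z n : ℤ) :
    S.inc ν z n + S.inc ν z (S.M z - n) = S.lin * S.M z + 2 * S.C0 + 2 * z
      - S.X z n / S.p ^ (ν + 1) - S.Y z n / S.p ^ (ν + 1) := by
  induction ν with
  | zero =>
    unfold inc
    rw [Y_refl]
    simp only [Finset.range_zero, Finset.sum_empty, zero_add, pow_one]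
    ring
  | succ ν ih =>
    have h := S.N_add (ν + 1) z n
    rw [inc_succ, inc_succ]
    linarith

/-- (A). -/
theorem inc_sub (ν : ℕ) (z n : ℤ) :
    S.inc ν z n - S.inc ν z (S.M z - n) = S.lin * (2 * n - S.M z)
      + (S.X z n / S.p - S.Y z n / S.p)
      + ∑ j ∈ Finset.range ν, ((S.X z n / S.p ^ (j + 1) - S.Y z n / S.p ^ (j + 1))
          + (S.X z n / S.p ^ (j + 1 + 1) - S.Y z n / S.p ^ (j + 1 + 1)) - 2)
      - 2 * ∑ j ∈ Finset.range ν, ((2 * n - S.M z) / (S.M1 * S.p ^ (j + 1))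
          + (2 * n - S.M z - 1) / (S.M1 * S.p ^ (j + 1))) := by
  induction ν with
  | zero =>
    unfold inc
    rw [Y_refl]
    simp only [Finset.range_zero, Finset.sum_empty]
    ring
  | succ ν ih =>
    have h := S.N_sub (ν + 1) z n
    rw [inc_succ, inc_succ, Finset.sum_range_succ, Finset.sum_range_succ]
    linarith

/-- The window of `n` at the node `z mod p^ν` contains a multiple of `p^ν`. -/
def W (ν : ℕ) (z n : ℤ) : Prop := ∃ t, S.p ^ ν ∣ t ∧ S.Y z n < t ∧ t ≤ S.X z n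

theorem W_mono {ν : ℕ} {z n n' : ℤ} (h : n ≤ n') (hW : S.W ν z n) : S.W ν z n' := by
  obtain ⟨t, h1, h2, h3⟩ := hW
  exact ⟨t, h1, (S.Y_anti z h).trans_lt h2, h3.trans (S.X_mono z h)⟩

theorem R_pos_of_W {ν : ℕ} {z n : ℤ} (hW : S.W ν z n) : 1 ≤ 2 * n - S.M z := by
  obtain ⟨t, _, h2, h3⟩ := hW
  have h := S.X_sub_Y z n
  by_contra hc
  have h4 : 2 * n - S.M z ≤ 0 := by linarith
  have h5 := mul_nonpos_of_nonneg_of_nonpos S.hq.le h4
  linarith

theorem sum_R_le (ν : ℕ) {x : ℤ} (hx : 1 ≤ x) :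
    S.M1 * (S.p - 1) * ∑ j ∈ Finset.range ν, x / (S.M1 * S.p ^ (j + 1)) ≤ x - 1 := by
  refine le_trans ?_ (legendre S.hp ν x hx)
  have h1 : S.M1 * ∑ j ∈ Finset.range ν, x / (S.M1 * S.p ^ (j + 1)) ≤
      ∑ j ∈ Finset.range ν, x / S.p ^ (j + 1) := by
    rw [Finset.mul_sum]
    apply Finset.sum_le_sum
    intro j _
    have h2 : x / (S.M1 * S.p ^ (j + 1)) = x / S.p ^ (j + 1) / S.M1 := by
      rw [Int.ediv_ediv_of_nonneg (S.ppos _).le, mul_comm]
    rw [h2]
    exact Int.mul_ediv_self_le S.hM1.ne'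
  have h3 : 0 ≤ S.p - 1 := by have := S.hp; linarith
  have h4 := mul_le_mul_of_nonneg_left h1 h3
  linarith

theorem sum_R_nonneg (ν : ℕ) {x : ℤ} (hx : 0 ≤ x) :
    0 ≤ ∑ j ∈ Finset.range ν, x / (S.M1 * S.p ^ (j + 1)) :=
  Finset.sum_nonneg fun j _ ↦ Int.ediv_nonneg hx (S.Lpos _).le

theorem sum_tel {a : ℕ → ℤ} (ν : ℕ) (hν : 1 ≤ ν) (ha : ∀ j, j < ν → 1 ≤ a j) :
    a 0 - 2 + a ν ≤ ∑ j ∈ Finset.range ν, (a j + a (j + 1) - 2) := by
  induction ν, hν using Nat.le_induction with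
  | base => simp; linarith
  | succ ν hν ih =>
    rw [Finset.sum_range_succ]
    have h1 := ih (fun j hj ↦ ha j (by omega))
    have h2 := ha ν (by omega)
    linarith

/-- (C''). -/
theorem inc_sub_ge {ν : ℕ} {z n : ℤ} (hW : S.W ν z n) :
    (2 * n - S.M z) + 2 ≤ 2 * (S.inc ν z n - S.inc ν z (S.M z - n)) := by
  have hR := S.R_pos_of_W hW
  have hA := S.inc_sub ν z n
  have hXY := S.X_sub_Y z n
  have hp := S.hp
  have hYX : S.Y z n ≤ S.X z n := by
    have := mul_nonneg S.hq.le (show 0 ≤ 2 * n - S.M z by linarith)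
    linarith
  have hn1 : S.q * (2 * n - S.M z) ≤ S.p * (S.X z n / S.p - S.Y z n / S.p) + (S.p - 1) := by
    have h1 := Int.lt_mul_ediv_self_add (x := S.X z n) S.hp0
    have h2 := Int.mul_ediv_self_le (x := S.Y z n) S.hp0.ne'
    linarith
  rcases Nat.eq_zero_or_pos ν with h0 | h0
  · subst h0
    simp only [Finset.range_zero, Finset.sum_empty] at hA
    have h1 := S.hR0 (2 * n - S.M z) z n hR rfl
    have h2 := Int.ediv_le_ediv S.hp0 hYX
    linarith
  · obtain ⟨t, ht, ht1, ht2⟩ := hW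
    have hlev : ∀ j : ℕ, j ≤ ν → 1 ≤ S.X z n / S.p ^ j - S.Y z n / S.p ^ j := by
      intro j hj
      have := ediv_lt_of_dvd (S.ppos j) ((pow_dvd_pow S.p hj).trans ht) ht1 ht2
      linarith
    have hlast : 0 ≤ S.X z n / S.p ^ (ν + 1) - S.Y z n / S.p ^ (ν + 1) := by
      have := Int.ediv_le_ediv (S.ppos (ν + 1)) hYX
      linarith
    have htel := sum_tel (a := fun j ↦ S.X z n / S.p ^ (j + 1) - S.Y z n / S.p ^ (j + 1)) ν h0
      (fun j hj ↦ hlev (j + 1) hj)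
    simp only [zero_add, pow_one] at htel
    have h1' := hlev 1 h0
    simp only [pow_one] at h1'
    rw [Finset.sum_add_distrib (f := fun j ↦ (2 * n - S.M z) / (S.M1 * S.p ^ (j + 1)))] at hA
    have hs1 := S.sum_R_le ν hR
    have hs0 := S.sum_R_nonneg ν (show 0 ≤ 2 * n - S.M z by linarith)
    have hs0' := S.sum_R_nonneg ν (show 0 ≤ 2 * n - S.M z - 1 by linarith)
    have hc : 0 < S.M1 * (S.p - 1) := mul_pos S.hM1 (by linarith)
    have hfin := S.hR (2 * n - S.M z)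
      (∑ j ∈ Finset.range ν, (2 * n - S.M z) / (S.M1 * S.p ^ (j + 1)) +
        ∑ j ∈ Finset.range ν, (2 * n - S.M z - 1) / (S.M1 * S.p ^ (j + 1)))
      (S.X z n / S.p - S.Y z n / S.p) z n hR rfl (by linarith)
      (by
        intro hR1
        have e1 : ∑ j ∈ Finset.range ν, (2 * n - S.M z - 1) / (S.M1 * S.p ^ (j + 1)) = 0 := by
          rw [hR1]
          simp
        rw [e1]
        rw [hR1] at hs1 hs0 ⊢
        have e2 : S.M1 * (S.p - 1) *
            ∑ j ∈ Finset.range ν, (1 : ℤ) / (S.M1 * S.p ^ (j + 1)) ≤ 0 := by linarith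
        have e3 := nonpos_of_mul_nonpos_right e2 hc
        linarith)
      (by
        intro hR2
        have e1 := S.sum_R_le ν (show 1 ≤ 2 * n - S.M z - 1 by linarith)
        linarith)
      h1' hn1
    rw [hA]
    linarith

end Sys

end GH.CombU
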