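import Pool.Agent.GH.CombU.KAbs
import Pool.Agent.GH.CombU.Loc
import Pool.Agent.GH.CombU.Sys

/-!
# Generic combinatorics of the hulls: the structure theorem

Every block `(a, b)` of the hull at the node `c mod p^ν` has a certificate: a level `s ≤ ν` and a
centre `z` of the class `c mod p^s` with `a + b + 1 = M z`, `b - a - 1 < M1 p^s` and no multiple
of `p^s` in the window of `b`.
-/

namespace GH.CombU

open GH.Comb

namespace Sys

variable (S : Sys)

/-- Twice the slope at the centre `z`. -/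
def G (ν : ℕ) (z : ℤ) : ℤ :=
  S.lin * S.M z + 2 * S.C0 + 2 * z - S.X z ((S.M z + 1) / 2) / S.p ^ (ν + 1)
    - S.Y z ((S.M z + 1) / 2) / S.p ^ (ν + 1)

theorem X_eq_Y_of_not_W {ν : ℕ} {z k : ℤ} (hk : S.M z ≤ 2 * k) (hW : ¬ S.W ν z k) :
    S.X z k / S.p ^ ν = S.Y z k / S.p ^ ν := by
  have hXY := S.X_sub_Y z k
  have hYX : S.Y z k ≤ S.X z k := by
    have := mul_nonneg S.hq.le (show 0 ≤ 2 * k - S.M z by linarith)
    linarith
  exact (ediv_eq_of_no (S.ppos ν) hYX fun t h1 h2 h3 ↦ hW ⟨t, h1, h2, h3⟩).symm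

theorem pow_succ_ediv (x : ℤ) (ν : ℕ) : x / S.p ^ (ν + 1) = x / S.p ^ ν / S.p := by
  rw [Int.ediv_ediv_of_nonneg (S.ppos ν).le, pow_succ]

theorem dich (ν : ℕ) (z k : ℤ) (hk : S.M z ≤ 2 * k) :
    (S.W ν z k ∧ S.G ν z < 2 * S.inc ν z k ∧ 2 * S.inc ν z (S.M z - k) < S.G ν z) ∨
      (¬ S.W ν z k ∧ S.inc ν z k + S.inc ν z (S.M z - k) = S.G ν z) := by
  have hadd := S.inc_add ν z k
  have hT := S.ppos (ν + 1)
  set k0 := (S.M z + 1) / 2 with hk0
  have hk0k : k0 ≤ k := by omega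
  have e1 := S.X_add_Y z k
  have e2 := S.X_add_Y z k0
  by_cases hW : S.W ν z k
  · left
    have h1 := S.inc_sub_ge hW
    have h2 := S.R_pos_of_W hW
    have h3 := ediv_add_le hT (show S.X z k + S.Y z k = S.X z k0 + S.Y z k0 by linarith)
    have h4 := ediv_add_le hT (show S.X z k0 + S.Y z k0 = S.X z k + S.Y z k by linarith)
    have hG : S.G ν z = S.lin * S.M z + 2 * S.C0 + 2 * z - S.X z k0 / S.p ^ (ν + 1)
      - S.Y z k0 / S.p ^ (ν + 1) := rfl
    refine ⟨hW, ?_, ?_⟩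
    · rw [hG]
      omega
    · rw [hG]
      omega
  · right
    refine ⟨hW, ?_⟩
    have h1 := S.X_eq_Y_of_not_W hk hW
    have h2 : S.X z k / S.p ^ (ν + 1) = S.Y z k / S.p ^ (ν + 1) := by
      rw [pow_succ_ediv, pow_succ_ediv, h1]
    have hYX0 : S.Y z k0 ≤ S.X z k0 := by
      have h3 := S.X_sub_Y z k0
      have h4 := mul_nonneg S.hq.le (show 0 ≤ 2 * k0 - S.M z by omega)
      linarith
    have h5 := S.X_mono z hk0k
    have h6 := S.Y_anti z hk0k
    have h7 := Int.ediv_le_ediv hT h5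
    have h8 := Int.ediv_le_ediv hT h6
    have h9 := Int.ediv_le_ediv hT hYX0
    have hG : S.G ν z = S.lin * S.M z + 2 * S.C0 + 2 * z - S.X z k0 / S.p ^ (ν + 1)
      - S.Y z k0 / S.p ^ (ν + 1) := rfl
    rw [hG, hadd]
    omega

theorem not_W_of_eq {ν : ℕ} {z k : ℤ} (h : S.X z k / S.p ^ ν = S.Y z k / S.p ^ ν) :
    ¬ S.W ν z k := by
  rintro ⟨t, h1, h2, h3⟩
  have := ediv_lt_of_dvd (S.ppos ν) h1 h2 h3
  omega

theorem W_top (ν : ℕ) (z : ℤ) (h : 2 ≤ S.M z) : S.W ν z (S.M z) := by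
  obtain ⟨h1, h2⟩ := S.hz z h
  refine ⟨0, dvd_zero _, ?_, ?_⟩
  · unfold Y
    rw [sub_self, mul_zero]
    linarith
  · exact h2

theorem block_centre {ν a b : ℕ} {c z : ℤ} {l : ℚ} (hB : Block (S.F ν c) a b l)
    (hz : S.p ^ ν ∣ z - c) (ha : 2 * (a : ℤ) + 2 ≤ S.M z) (hb : S.M z ≤ 2 * b) :
    (a : ℤ) + b + 1 = S.M z ∧ (∃ u : ℤ, l = u) ∧ S.X z b / S.p ^ ν = S.Y z b / S.p ^ ν := by
  have hF : S.F ν c = S.F ν z := funext fun n ↦ (S.F_congr hz n).symm
  rw [hF] at hB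
  obtain ⟨h1, h2, h3⟩ := block_sym (v := S.inc ν z) (W := S.W ν z) (M := S.M z) (G := S.G ν z)
    (S.F_step ν z) (S.dich ν z) (fun k k' _ h hW ↦ S.W_mono h hW) (S.W_top ν z) hB ha hb
  have h4 := S.X_eq_Y_of_not_W hb h3
  refine ⟨h1, ?_, h4⟩
  rcases S.dich ν z b hb with h5 | h5
  · exact absurd h5.1 h3
  · have h6 : S.X z b / S.p ^ (ν + 1) = S.Y z b / S.p ^ (ν + 1) := by
      rw [pow_succ_ediv, pow_succ_ediv, h4]
    have h7 := S.inc_add ν z b
    obtain ⟨w, hw⟩ : 2 ∣ S.lin * S.M z := S.hev z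
    refine ⟨w + S.C0 + z - S.Y z b / S.p ^ (ν + 1), ?_⟩
    have h8 : S.G ν z = 2 * (w + S.C0 + z - S.Y z b / S.p ^ (ν + 1)) := by
      rw [← h5.2, h7, hw, h6]
      ring
    rw [h8] at h2
    have h9 : (2 : ℚ) * l = 2 * ((w + S.C0 + z - S.Y z b / S.p ^ (ν + 1) : ℤ) : ℚ) := by
      rw [h2]
      push_cast
      ring
    linarith

/-- The certificate of a block. -/
structure Cert (s : ℕ) (c : ℤ) (a b : ℕ) (z : ℤ) : Prop where
  dvd : S.p ^ s ∣ z - c
  mid : (a : ℤ) + b + 1 = S.M z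
  nk : S.X z b / S.p ^ s = S.Y z b / S.p ^ s
  len : (b : ℤ) - a - 1 < S.M1 * S.p ^ s

theorem cert_top {ν a b : ℕ} {c z : ℤ} {l : ℚ} (hB : Block (S.F ν c) a b l)
    (hz : S.p ^ ν ∣ z - c) (ha : 2 * (a : ℤ) + 2 ≤ S.M z) (hb : S.M z ≤ 2 * b) :
    (∃ u : ℤ, l = u) ∧ S.Cert ν c a b z := by
  obtain ⟨h1, h2, h3⟩ := S.block_centre hB hz ha hb
  refine ⟨h2, hz, h1, h3, ?_⟩
  by_contra hc
  push Not at hc
  have hL := S.Lpos ν
  have hM : S.M (z + S.p ^ ν) = S.M z + S.M1 * S.p ^ ν := by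
    unfold M
    ring
  have h4 := S.block_centre (z := z + S.p ^ ν) hB
    (by
      have : z + S.p ^ ν - c = (z - c) + S.p ^ ν := by ring
      rw [this]
      exact dvd_add hz dvd_rfl)
    (by rw [hM]; linarith) (by rw [hM]; linarith)
  have h5 := h4.1
  rw [hM] at h5
  linarith

/-- `N` of a deeper class on a block. -/
theorem N_block {s j a b : ℕ} {c z : ℤ} (hC : S.Cert s c a b z) (hsj : s ≤ j) :
    ∃ E θ : ℤ, (θ = 0 ∨ θ = 1) ∧ ∀ k : ℤ, a < k → k ≤ b →
      (2 * k < S.M z → S.N j c k = E + θ) ∧ (2 * k = S.M z → S.N j c k = E) ∧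
        (S.M z < 2 * k → S.N j c k = E - θ) := by
  obtain ⟨hd, hmid, hnk, hlen⟩ := hC
  have hps := S.ppos s
  have hpj := S.ppos j
  have hL := S.Lpos j
  have hsj' : S.p ^ s ∣ S.p ^ j := pow_dvd_pow _ hsj
  have hsj1 : S.p ^ s ∣ S.p ^ (j + 1) := pow_dvd_pow _ (by omega)
  have hle : S.M1 * S.p ^ s ≤ S.M1 * S.p ^ j :=
    mul_le_mul_of_nonneg_left (Int.le_of_dvd hpj hsj') S.hM1.le
  -- no multiple of `p^s` in the window of `b`
  have hno : ∀ t, S.p ^ s ∣ t → S.Y z b < t → t ≤ S.X z b → False := by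
    intro t h1 h2 h3
    have := ediv_lt_of_dvd hps h1 h2 h3
    omega
  have hXa : S.X z ((a : ℤ) + 1) = S.Y z b := by
    have : (a : ℤ) + 1 = S.M z - b := by linarith
    rw [this, X_refl]
  have hYa : S.Y z ((a : ℤ) + 1) = S.X z b := by
    have : (a : ℤ) + 1 = S.M z - b := by linarith
    rw [this, Y_refl]
  -- first term
  have hX : ∀ k : ℤ, a < k → k ≤ b → S.X c k / S.p ^ j = S.X c b / S.p ^ j := by
    intro k h1 h2
    apply ediv_eq_of_no hpj (S.X_mono c h2)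
    intro t ht1 ht2 ht3
    have e1 : S.X c k = S.X z k + (z - c) := by unfold X; ring
    have e2 : S.X c b = S.X z b + (z - c) := by unfold X; ring
    have e3 := S.X_mono z (show (a : ℤ) + 1 ≤ k by linarith)
    rw [hXa] at e3
    exact hno (t - (z - c)) (dvd_sub (hsj'.trans ht1) hd) (by linarith) (by linarith)
  -- second term
  have hY : ∀ k : ℤ, a < k → k ≤ b → S.Y c k / S.p ^ (j + 1) = S.Y c b / S.p ^ (j + 1) := by
    intro k h1 h2
    symm
    apply ediv_eq_of_no (S.ppos (j + 1)) (S.Y_anti c h2)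
    intro t ht1 ht2 ht3
    have e1 : S.Y c k = S.Y z k - S.p * (z - c) := by rw [Y_eq, Y_eq]; ring
    have e2 : S.Y c b = S.Y z b - S.p * (z - c) := by rw [Y_eq, Y_eq]; ring
    have e3 := S.Y_anti z (show (a : ℤ) + 1 ≤ k by linarith)
    rw [hYa] at e3
    exact hno (t + S.p * (z - c)) (dvd_add (hsj1.trans ht1) (hd.mul_left _)) (by linarith)
      (by linarith)
  by_cases hjz : S.p ^ j ∣ z - c
  · -- the centre is in the class
    obtain ⟨u, hu⟩ := hjz
    refine ⟨S.X c b / S.p ^ j - S.Y c b / S.p ^ (j + 1) - 2 * u, 1, Or.inr rfl, ?_⟩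
    intro k h1 h2
    have hMc : S.M c = S.M z - S.M1 * S.p ^ j * u := by
      have : c = z - S.p ^ j * u := by linarith
      rw [this]
      unfold M
      ring
    have r1 : (2 * k - S.M c) / (S.M1 * S.p ^ j) =
        (2 * k - S.M z) / (S.M1 * S.p ^ j) + u := by
      have : 2 * k - S.M c = 2 * k - S.M z + (S.M1 * S.p ^ j) * u := by rw [hMc]; ring
      rw [this, Int.add_mul_ediv_left _ _ hL.ne']
    have r2 : (2 * k - S.M c - 1) / (S.M1 * S.p ^ j) =
        (2 * k - S.M z - 1) / (S.M1 * S.p ^ j) + u := by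
      have : 2 * k - S.M c - 1 = 2 * k - S.M z - 1 + (S.M1 * S.p ^ j) * u := by rw [hMc]; ring
      rw [this, Int.add_mul_ediv_left _ _ hL.ne']
    have hN : S.N j c k = S.X c b / S.p ^ j - S.Y c b / S.p ^ (j + 1) - 1
        - ((2 * k - S.M z) / (S.M1 * S.p ^ j) + u)
        - ((2 * k - S.M z - 1) / (S.M1 * S.p ^ j) + u) := by
      unfold N
      rw [hX k h1 h2, hY k h1 h2, r1, r2]
    refine ⟨fun h ↦ ?_, fun h ↦ ?_, fun h ↦ ?_⟩
    · have q1 : (2 * k - S.M z) / (S.M1 * S.p ^ j) = -1 := by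
        apply ediv_eq_of <;> linarith
      have q2 : (2 * k - S.M z - 1) / (S.M1 * S.p ^ j) = -1 := by
        apply ediv_eq_of <;> linarith
      rw [hN, q1, q2]
      ring
    · have q1 : (2 * k - S.M z) / (S.M1 * S.p ^ j) = 0 := by
        apply ediv_eq_of <;> linarith
      have q2 : (2 * k - S.M z - 1) / (S.M1 * S.p ^ j) = -1 := by
        apply ediv_eq_of <;> linarith
      rw [hN, q1, q2]
      ring
    · have q1 : (2 * k - S.M z) / (S.M1 * S.p ^ j) = 0 := by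
        apply ediv_eq_of <;> linarith
      have q2 : (2 * k - S.M z - 1) / (S.M1 * S.p ^ j) = 0 := by
        apply ediv_eq_of <;> linarith
      rw [hN, q1, q2]
      ring
  · -- the centre is not in the class: no multiple of `M1 p^j` in `[2a+2-M c, 2b-M c]`
    have hnoM : ∀ t, S.M1 * S.p ^ j ∣ t → 2 * (a : ℤ) + 2 - S.M c ≤ t → t ≤ 2 * b - S.M c →
        False := by
      rintro t ⟨i, rfl⟩ h1 h2
      have e1 : S.M (c + S.p ^ j * i) = S.M c + S.M1 * S.p ^ j * i := by unfold M; ring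
      obtain ⟨u, hu⟩ := hd
      obtain ⟨w, hw⟩ := hsj'
      have e2 : c + S.p ^ j * i - z = S.p ^ s * (w * i - u) := by
        rw [hw]
        linarith
      have e3 : S.M (c + S.p ^ j * i) - S.M z = S.M1 * (c + S.p ^ j * i - z) := by
        unfold M; ring
      have e4 : S.M (c + S.p ^ j * i) - S.M z = (S.M1 * S.p ^ s) * (w * i - u) := by
        rw [e3, e2]; ring
      have e5 : (S.M1 * S.p ^ s) * (w * i - u) < S.M1 * S.p ^ s := by
        rw [← e4, e1]; linarith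
      have e6 : -(S.M1 * S.p ^ s) < (S.M1 * S.p ^ s) * (w * i - u) := by
        rw [← e4, e1]; linarith
      have hLs := S.Lpos s
      have e7 : w * i - u < 1 := by
        have : (S.M1 * S.p ^ s) * (w * i - u) < (S.M1 * S.p ^ s) * 1 := by linarith
        exact lt_of_mul_lt_mul_left this hLs.le
      have e8 : -1 < w * i - u := by
        have : (S.M1 * S.p ^ s) * (-1) < (S.M1 * S.p ^ s) * (w * i - u) := by linarith
        exact lt_of_mul_lt_mul_left this hLs.le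
      have e9 : w * i - u = 0 := by omega
      rw [e9, mul_zero] at e2
      exact hjz ⟨i, by linarith⟩
    have hR1 : ∀ k : ℤ, a < k → k ≤ b → (2 * k - S.M c) / (S.M1 * S.p ^ j) =
        (2 * b - S.M c) / (S.M1 * S.p ^ j) := by
      intro k h1 h2
      apply ediv_eq_of_no hL (by linarith)
      intro t ht1 ht2 ht3
      exact hnoM t ht1 (by linarith) ht3
    have hR2 : ∀ k : ℤ, a < k → k ≤ b → (2 * k - S.M c - 1) / (S.M1 * S.p ^ j) =
        (2 * b - S.M c - 1) / (S.M1 * S.p ^ j) := by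
      intro k h1 h2
      apply ediv_eq_of_no hL (by linarith)
      intro t ht1 ht2 ht3
      exact hnoM t ht1 (by linarith) (by linarith)
    refine ⟨S.N j c b, 0, Or.inl rfl, ?_⟩
    intro k h1 h2
    have hN : S.N j c k = S.N j c b := by
      unfold N
      rw [hX k h1 h2, hY k h1 h2, hR1 k h1 h2, hR2 k h1 h2]
    refine ⟨fun _ ↦ by rw [hN]; ring, fun _ ↦ hN, fun _ ↦ by rw [hN]; ring⟩

/-- On a block `F (ν + 1) - F ν` is linear, or linear plus a tent. -/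
theorem nform {s ν a b : ℕ} {c z : ℤ} (hC : S.Cert s c a b z) (hs : s ≤ ν + 1) :
    NForm (S.F ν c) (S.F (ν + 1) c) a b := by
  obtain ⟨E, θ, hθ, hN⟩ := S.N_block hC hs
  refine ⟨E, θ, hθ, ?_⟩
  have hmid := hC.mid
  intro n han
  induction n, han using Nat.le_induction with
  | base =>
    intro hab
    have h1 : min ((a : ℤ) - a) ((b : ℤ) - a) = 0 := by
      have : (a : ℤ) ≤ b := by exact_mod_cast hab
      rw [sub_self]
      exact min_eq_left (by linarith)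
    rw [h1]
    ring
  | succ n hn ih =>
    intro hnb
    have h1 := ih (by omega)
    have h2 := S.F_step (ν + 1) c n
    have h3 := S.F_step ν c n
    have h4 := S.inc_succ ν c ((n : ℤ) + 1)
    obtain ⟨c1, c2, c3⟩ := hN ((n : ℤ) + 1) (by omega) (by omega)
    rw [h2, h3, h4, h1]
    push_cast
    rcases lt_trichotomy (2 * ((n : ℤ) + 1)) (S.M z) with h | h | h
    · rw [c1 h]
      have m1 : min ((n : ℤ) - a) ((b : ℤ) - n) = (n : ℤ) - a := min_eq_left (by linarith)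
      have m2 : min ((n : ℤ) + 1 - a) ((b : ℤ) - (n + 1)) = (n : ℤ) + 1 - a :=
        min_eq_left (by omega)
      rw [m1, m2]
      ring
    · rw [c2 h]
      have m1 : min ((n : ℤ) - a) ((b : ℤ) - n) = (n : ℤ) - a := min_eq_left (by linarith)
      have m2 : min ((n : ℤ) + 1 - a) ((b : ℤ) - (n + 1)) = (b : ℤ) - (n + 1) :=
        min_eq_right (by omega)
      rw [m1, m2]
      have : (b : ℤ) - (n + 1) = (n : ℤ) - a := by linarith
      rw [this]
      ring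
    · rw [c3 h]
      have m1 : min ((n : ℤ) - a) ((b : ℤ) - n) = (b : ℤ) - n := min_eq_right (by omega)
      have m2 : min ((n : ℤ) + 1 - a) ((b : ℤ) - (n + 1)) = (b : ℤ) - (n + 1) :=
        min_eq_right (by omega)
      rw [m1, m2]
      ring

/-- If no centre of the class is inside, `N` is nondecreasing. -/
theorem N_mono {j a b : ℕ} {c : ℤ}
    (hno : ∀ z : ℤ, S.p ^ j ∣ z - c → 2 * (a : ℤ) + 2 ≤ S.M z → S.M z ≤ 2 * b → False)
    {k k' : ℤ} (h1 : a < k) (h2 : k ≤ k') (h3 : k' ≤ b) : S.N j c k ≤ S.N j c k' := by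
  have hL := S.Lpos j
  have hnoM : ∀ t, S.M1 * S.p ^ j ∣ t → 2 * (a : ℤ) + 2 - S.M c ≤ t → t ≤ 2 * b - S.M c →
      False := by
    rintro t ⟨i, rfl⟩ h1 h2
    have e1 : S.M (c + S.p ^ j * i) = S.M c + S.M1 * S.p ^ j * i := by unfold M; ring
    refine hno (c + S.p ^ j * i) ⟨i, by ring⟩ ?_ ?_
    · rw [e1]; linarith
    · rw [e1]; linarith
  have e1 := Int.ediv_le_ediv (S.ppos j) (S.X_mono c h2)
  have e2 := Int.ediv_le_ediv (S.ppos (j + 1)) (S.Y_anti c h2)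
  have e3 : (2 * k - S.M c) / (S.M1 * S.p ^ j) = (2 * k' - S.M c) / (S.M1 * S.p ^ j) := by
    apply ediv_eq_of_no hL (by linarith)
    intro t ht1 ht2 ht3
    exact hnoM t ht1 (by linarith) (by linarith)
  have e4 : (2 * k - S.M c - 1) / (S.M1 * S.p ^ j) =
      (2 * k' - S.M c - 1) / (S.M1 * S.p ^ j) := by
    apply ediv_eq_of_no hL (by linarith)
    intro t ht1 ht2 ht3
    exact hnoM t ht1 (by linarith) (by linarith)
  unfold N
  rw [e3, e4]
  linarith

/-- A sequence with nondecreasing increments on `(a, b]` is below its chord. -/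
theorem below_chord {g : ℕ → ℤ} {δ : ℤ → ℤ} (hg : ∀ n : ℕ, g (n + 1) = g n + δ ((n : ℤ) + 1))
    {a b : ℕ} (hδ : ∀ k k' : ℤ, a < k → k ≤ k' → k' ≤ b → δ k ≤ δ k') {k : ℕ} (h1 : a < k)
    (h2 : k ≤ b) : (g k - g a) * ((b : ℤ) - a) ≤ (g b - g a) * ((k : ℤ) - a) := by
  have low : ∀ n : ℕ, a ≤ n → n ≤ b → g n - g a ≤ ((n : ℤ) - a) * δ n := by
    intro n han
    induction n, han using Nat.le_induction with
    | base => intro _; simp
    | succ n hn ih =>
      intro hnb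
      have e1 := ih (by omega)
      rw [hg n]
      push_cast
      have e2 : ((n : ℤ) - a) * δ n ≤ ((n : ℤ) - a) * δ ((n : ℤ) + 1) := by
        rcases (show a = n ∨ a < n by omega) with h | h
        · subst h
          simp
        · exact mul_le_mul_of_nonneg_left (hδ _ _ (by omega) (by omega) (by omega)) (by omega)
      linarith
  have up : ∀ m : ℕ, k ≤ m → m ≤ b → ((m : ℤ) - k) * δ k ≤ g m - g k := by
    intro m hkm
    induction m, hkm using Nat.le_induction with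
    | base => intro _; simp
    | succ m hm ih =>
      intro hmb
      have e1 := ih (by omega)
      have e2 := hδ k ((m : ℤ) + 1) (by omega) (by omega) (by omega)
      rw [hg m]
      push_cast
      linarith
  have e1 := low k h1.le h2
  have e2 := up b h2 le_rfl
  have e3 : (0 : ℤ) ≤ (b : ℤ) - k := by omega
  have e4 : (0 : ℤ) ≤ (k : ℤ) - a := by omega
  have e5 := mul_le_mul_of_nonneg_left e1 e3
  have e6 := mul_le_mul_of_nonneg_left e2 e4
  linarith

theorem block_ge {f : ℕ → ℤ} {a b : ℕ} {l : ℚ} (hB : Block f a b l) (k : ℕ) :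
    (f b - f a) * ((k : ℤ) - a) ≤ (f k - f a) * ((b : ℤ) - a) := by
  have e1 := hB.ge k
  have e2 := hB.eq
  have hlt := hB.lt
  have e3 : (0 : ℚ) ≤ (b : ℚ) - a := by
    have : (a : ℚ) ≤ b := by exact_mod_cast (show a ≤ b by omega)
    linarith
  have e4 : l * ((k : ℚ) - a) * ((b : ℚ) - a) ≤ ((f k : ℚ) - f a) * ((b : ℚ) - a) :=
    mul_le_mul_of_nonneg_right (by linarith) e3
  have e5 : ((f b : ℚ) - f a) * ((k : ℚ) - a) ≤ ((f k : ℚ) - f a) * ((b : ℚ) - a) := by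
    rw [e2]
    linarith
  exact_mod_cast e5

/-- No block at the root. -/
theorem no_block_zero {c : ℤ} {a b : ℕ} {l : ℚ} (hB : Block (S.F 0 c) a b l) : False := by
  have hlt := hB.lt
  obtain ⟨b, rfl⟩ : ∃ b', b = b' + 1 := ⟨b - 1, by omega⟩
  have h1 := hB.ge (a + 1)
  have h2 := hB.ge b
  have h3 := hB.eq
  have h4 := S.F_step 0 c a
  have h5 := S.F_step 0 c b
  have h6 : S.inc 0 c ((a : ℤ) + 1) < S.inc 0 c ((b : ℤ) + 1) := by
    unfold inc
    have e1 := Int.ediv_le_ediv S.hp0 (S.Y_anti c (show (a : ℤ) + 1 ≤ (b : ℤ) + 1 by omega))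
    have e2 : S.lin * ((a : ℤ) + 1) < S.lin * ((b : ℤ) + 1) :=
      mul_lt_mul_of_pos_left (by omega) S.hlin
    simp only [Finset.range_zero, Finset.sum_empty]
    linarith
  have h7 : ((S.inc 0 c ((a : ℤ) + 1) : ℤ) : ℚ) < ((S.inc 0 c ((b : ℤ) + 1) : ℤ) : ℚ) := by
    exact_mod_cast h6
  rw [h4] at h1
  rw [h5] at h3
  push_cast at h1 h3
  linarith

/-- Superlinear growth. -/
theorem grows (ν : ℕ) (c : ℤ) : Grows (S.F ν c) := by
  intro C
  set T := S.p ^ (ν + 1) with hT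
  have hTpos : 0 < T := S.ppos (ν + 1)
  set c1 := 2 * (S.lin * S.M c + 2 * S.C0 + 2 * c - (S.q * S.M c + 2 * S.e - 2 * c - 2) / T)
    - S.M c + 2 with hc1
  refine ⟨(4 * C - c1).natAbs + (S.M c).natAbs + (S.e - c - 1).natAbs + 1, ?_⟩
  intro k hk
  have hk' : (4 * C - c1) + (k : ℤ) ≤ 2 * k ∧ S.M c + |S.e - c - 1| + 1 ≤ k ∧
      |S.e - c - 1| ≤ k ∧ 4 * C - c1 ≤ k ∧ S.M c + 1 ≤ 2 * k := by
    have a1 : |S.e - c - 1| = ((S.e - c - 1).natAbs : ℤ) := Int.abs_eq_natAbs _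
    rw [a1]
    omega
  obtain ⟨k1, k2, k3, k4, k5⟩ := hk'
  rw [S.F_step ν c k]
  set n : ℤ := (k : ℤ) + 1 with hn
  have a2 := neg_abs_le (S.e - c - 1)
  have a3 := le_abs_self (S.e - c - 1)
  have hW : S.W ν c n := by
    refine ⟨0, dvd_zero _, ?_, ?_⟩
    · unfold Y
      have e1 : S.q * (S.M c - n) ≤ 1 * (S.M c - n) := by
        have h1 : (1 : ℤ) ≤ S.q := S.hq
        have h2 : S.M c - n ≤ 0 := by linarith
        exact mul_le_mul_of_nonpos_right h1 h2
      linarith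
    · unfold X
      have e1 : 1 * n ≤ S.q * n := by
        have h1 : (1 : ℤ) ≤ S.q := S.hq
        have h2 : 0 ≤ n := by positivity
        exact mul_le_mul_of_nonneg_right h1 h2
      linarith
  have h1 := S.inc_sub_ge hW
  have h2 := S.inc_add ν c n
  have h3 := S.X_add_Y c n
  have h4 : S.X c n / T + S.Y c n / T ≤ (S.q * S.M c + 2 * S.e - 2 * c - 2) / T := by
    rw [← h3, Int.le_ediv_iff_mul_le hTpos]
    have m1 := Int.mul_ediv_self_le (x := S.X c n) hTpos.ne'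
    have m2 := Int.mul_ediv_self_le (x := S.Y c n) hTpos.ne'
    linarith
  linarith

theorem st (c : ℤ) (ν : ℕ) : ∀ (a b : ℕ) (l : ℚ), Block (S.F ν c) a b l →
    (∃ u : ℤ, l = u) ∧ ∃ (s : ℕ) (z : ℤ), s ≤ ν ∧ S.Cert s c a b z := by
  induction ν with
  | zero => intro a b l hB; exact (S.no_block_zero hB).elim
  | succ ν ih =>
    intro a b l hB
    by_cases hex : ∃ z : ℤ, S.p ^ (ν + 1) ∣ z - c ∧ 2 * (a : ℤ) + 2 ≤ S.M z ∧ S.M z ≤ 2 * b
    · obtain ⟨z, h1, h2, h3⟩ := hex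
      obtain ⟨h4, h5⟩ := S.cert_top hB h1 h2 h3
      exact ⟨h4, ν + 1, z, le_rfl, h5⟩
    · have hno : ∀ z : ℤ, S.p ^ (ν + 1) ∣ z - c → 2 * (a : ℤ) + 2 ≤ S.M z → S.M z ≤ 2 * b →
          False := fun z h1 h2 h3 ↦ hex ⟨z, h1, h2, h3⟩
      have hab := hB.lt
      have h0 : ∀ (a b : ℕ) (l : ℚ), Block (S.F ν c) a b l → NForm (S.F ν c) (S.F (ν + 1) c) a b :=
        fun a b l hB' ↦ by
          obtain ⟨_, s, z, hs, hC⟩ := ih a b l hB'
          exact S.nform hC (by omega)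
      have va := isV_of_child (S.grows ν c) h0 hB.isV_left
      have vb := isV_of_child (S.grows ν c) h0 hB.isV_right
      obtain ⟨l', hB'⟩ := block_of_isV (f := S.F ν c) hab va vb (by
        intro k hak hkb
        have e1 := block_ge hB k
        have e2 := below_chord (g := S.NN (ν + 1) c) (δ := S.N (ν + 1) c) (S.NN_step (ν + 1) c)
          (fun k k' h1 h2 h3 ↦ S.N_mono hno h1 h2 h3) hak hkb.le
        rw [S.F_succ, S.F_succ, S.F_succ] at e1
        linarith)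
      obtain ⟨⟨u, hu⟩, s, z, hs, hC⟩ := ih a b l' hB'
      refine ⟨?_, s, z, by omega, hC⟩
      obtain ⟨E, θ, _, hN⟩ := S.nform hC (show s ≤ ν + 1 by omega)
      have e1 := NForm.end (f0 := S.F ν c) (f1 := S.F (ν + 1) c) (show a ≤ b by omega) hN
      have e2 := chord_eq hB' hu
      have e3 := hB.eq
      refine ⟨u + E, ?_⟩
      have e4 : ((b : ℚ) - a) ≠ 0 := by
        have : (a : ℚ) < b := by exact_mod_cast (show a < b by omega)
        intro h
        linarith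
      have e5 : ((S.F (ν + 1) c b : ℤ) : ℚ) =
          ((S.F (ν + 1) c a + (u + E) * ((b : ℤ) - a) : ℤ) : ℚ) := by
        rw [e1, e2]
        push_cast
        ring
      rw [e3] at e5
      push_cast at e5 ⊢
      apply mul_right_cancel₀ e4
      linarith

theorem int_slope (ν : ℕ) (c : ℤ) (a b : ℕ) (l : ℚ) (hB : Block (S.F ν c) a b l) :
    ∃ u : ℤ, l = u := (S.st c ν a b l hB).1

theorem nform0 (ν : ℕ) (c : ℤ) (a b : ℕ) (l : ℚ) (hB : Block (S.F ν c) a b l) :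
    NForm (S.F ν c) (S.F (ν + 1) c) a b := by
  obtain ⟨_, s, z, hs, hC⟩ := S.st c ν a b l hB
  exact S.nform hC (by omega)

theorem nform1 (ν : ℕ) (c : ℤ) (a b : ℕ) (l : ℚ) (hB : Block (S.F (ν + 1) c) a b l) :
    NForm (S.F ν c) (S.F (ν + 1) c) a b := by
  obtain ⟨_, s, z, hs, hC⟩ := S.st c (ν + 1) a b l hB
  exact S.nform hC hs

/-- The hull. -/
noncomputable def H (ν : ℕ) (c : ℤ) : ℕ → ℤ := hullOf (S.F ν c)

theorem H_spec (ν : ℕ) (c : ℤ) : HSpec (S.F ν c) (S.H ν c) :=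
  hullOf_spec (S.grows ν c) (S.int_slope ν c)

/-- (K1). -/
theorem K1 (ν : ℕ) (c : ℤ) (n : ℕ) :
    S.F ν c n - S.H ν c n ≤ S.F (ν + 1) c n - S.H (ν + 1) c n :=
  k1_of (S.H_spec ν c) (S.H_spec (ν + 1) c) (S.grows ν c) (S.int_slope ν c) (S.nform0 ν c) n

/-- (K2). -/
theorem K2 (ν : ℕ) (c : ℤ) (n : ℕ) (hn : Vtx (S.H ν c) n) :
    S.F (ν + 1) c (n + 1) - S.H (ν + 1) c (n + 1) ≤ S.F ν c (n + 1) - S.H ν c (n + 1) + 1 :=
  k2_of (S.H_spec ν c) (S.H_spec (ν + 1) c) (S.grows ν c) (S.grows (ν + 1) c)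
    (S.int_slope (ν + 1) c) (S.nform0 ν c) (S.nform1 ν c) (((S.H_spec ν c).vtx n).1 hn)

/-- (K3a). -/
theorem K3a (ν : ℕ) (c : ℤ) (n : ℕ) (hn : Vtx (S.H ν c) n) :
    S.H (ν + 1) c n = S.F (ν + 1) c n :=
  k3a_of (S.H_spec ν c) (S.H_spec (ν + 1) c) (S.grows ν c) (S.grows (ν + 1) c)
    (S.int_slope (ν + 1) c) (S.nform0 ν c) (S.nform1 ν c) (((S.H_spec ν c).vtx n).1 hn)

/-- (K3b). -/
theorem K3b (ν : ℕ) (c : ℤ) (n : ℕ) (hn : Vtx (S.H (ν + 1) c) n) : Vtx (S.H ν c) n :=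
  ((S.H_spec ν c).vtx n).2
    (isV_of_child (S.grows ν c) (S.nform0 ν c) (((S.H_spec (ν + 1) c).vtx n).1 hn))

end Sys

end GH.CombU
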