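import Pool.Agent.GH.CombU.DefsLN

/-!
# GH-LN: the symmetry of the ghost numbers for `(3, 2), (3, 4), (5, 2)`
-/

namespace GH.CombU

/-- `B_n + ∑ T_m(n) v_p(m0 - m)`. -/
def FFLN (i n : ℕ) (m0 : ℤ) : ℕ :=
  BLN i n + ∑ m ∈ Finset.range (ZLN n), TLN i n m * padicValInt (pLN i) (m0 - m)

/-! ### Sums -/

/-- The sum of the positive parts. -/
theorem sy_tri (N : ℕ) : ∀ A : ℕ, A ≤ N →
    2 * ∑ k ∈ Finset.range N, ((A - (k + 1) : ℕ) : ℤ) = (A : ℤ) * (A - 1) := by
  induction N with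
  | zero =>
    intro A hA
    have h0 : A = 0 := by omega
    rw [h0]
    simp
  | succ N ih =>
    intro A hA
    have h1 := ih (A - 1) (by omega)
    rw [Finset.sum_range_succ']
    have h2 : ∀ k ∈ Finset.range N, ((A - (k + 1 + 1) : ℕ) : ℤ) = ((A - 1 - (k + 1) : ℕ) : ℤ) := by
      intro k _
      congr 1
      omega
    rw [Finset.sum_congr rfl h2, mul_add, h1]
    rcases Nat.eq_zero_or_pos A with h0 | h0
    · rw [h0]
      simp
    · obtain ⟨a, rfl⟩ : ∃ a, A = a + 1 := ⟨A - 1, by omega⟩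
      have e1 : a + 1 - 1 = a := by omega
      rw [e1]
      push_cast
      ring

/-- The sum of the positive parts, every second step, `m` even. -/
theorem sy_tri2 (N : ℕ) : ∀ A : ℕ, 2 * A ≤ N →
    ∑ k ∈ Finset.range N, ((A - (k + 1) / 2 : ℕ) : ℤ) = (A : ℤ) * A := by
  intro A
  induction A generalizing N with
  | zero => intro _; simp
  | succ a ih =>
    intro hA
    obtain ⟨M, rfl⟩ : ∃ M, N = M + 2 := ⟨N - 2, by omega⟩
    rw [Finset.sum_range_succ', Finset.sum_range_succ']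
    have h2 : ∀ k ∈ Finset.range M, ((a + 1 - (k + 1 + 1 + 1) / 2 : ℕ) : ℤ) =
        ((a - (k + 1) / 2 : ℕ) : ℤ) := by
      intro k _
      congr 1
      omega
    rw [Finset.sum_congr rfl h2, ih M (by omega)]
    have e1 : a + 1 - (0 + 1 + 1) / 2 = a := by omega
    have e2 : a + 1 - (0 + 1) / 2 = a + 1 := by omega
    rw [e1, e2]
    push_cast
    ring

/-- The sum of the positive parts, every second step, `m` odd. -/
theorem sy_tri3 (N : ℕ) : ∀ A : ℕ, 2 * A ≤ N →
    ∑ k ∈ Finset.range N, ((A - (k + 2) / 2 : ℕ) : ℤ) = (A : ℤ) * (A - 1) := by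
  intro A
  induction A generalizing N with
  | zero => intro _; simp
  | succ a ih =>
    intro hA
    obtain ⟨M, rfl⟩ : ∃ M, N = M + 2 := ⟨N - 2, by omega⟩
    rw [Finset.sum_range_succ', Finset.sum_range_succ']
    have h2 : ∀ k ∈ Finset.range M, ((a + 1 - (k + 1 + 1 + 2) / 2 : ℕ) : ℤ) =
        ((a - (k + 2) / 2 : ℕ) : ℤ) := by
      intro k _
      congr 1
      omega
    rw [Finset.sum_congr rfl h2, ih M (by omega)]
    have e1 : a + 1 - (0 + 1 + 2) / 2 = a := by omega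
    rw [e1]
    push_cast
    ring

/-- The sum over the multiples of `p`. -/
theorem sy_mult (p : ℕ) (hp : p.Prime) (g : ℕ → ℤ) (N : ℕ) :
    ∑ j ∈ Finset.range (p * N), (padicValNat p (j + 1) : ℤ) * g (j + 1) =
      ∑ k ∈ Finset.range N, (1 + (padicValNat p (k + 1) : ℤ)) * g (p * (k + 1)) := by
  have : Fact p.Prime := ⟨hp⟩
  induction N with
  | zero => simp
  | succ N ih =>
    rw [show p * (N + 1) = p * N + p by ring, Finset.sum_range_add, ih,
      Finset.sum_range_succ _ N]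
    congr 1
    have hp1 := hp.two_le
    rw [Finset.sum_eq_single (p - 1)]
    · have h1 : p * N + (p - 1) + 1 = p * (N + 1) := by
        rw [mul_add, mul_one]
        omega
      rw [h1, padicValNat.mul (by omega) (by omega), padicValNat_self]
      push_cast
      ring
    · intro i hi h12
      have h2 := Finset.mem_range.1 hi
      have h3 : padicValNat p (p * N + i + 1) = 0 := by
        refine padicValNat.eq_zero_of_not_dvd fun h4 => ?_
        have h5 : p ∣ i + 1 := by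
          have h6 : p * N + i + 1 = p * N + (i + 1) := by ring
          rw [h6] at h4
          exact (Nat.dvd_add_right (Dvd.intro _ rfl)).1 h4
        have h7 := Nat.le_of_dvd (by omega) h5
        omega
      rw [h3, Nat.cast_zero, zero_mul]
    · intro h
      exact absurd (Finset.mem_range.2 (by omega)) h

/-- Splitting a sum around `m`. -/
theorem sy_split (F : ℕ → ℤ) {m N : ℕ} (h : m ≤ N) :
    ∑ w ∈ Finset.range (m + 1 + N), F w =
      F m + ∑ k ∈ Finset.range N, (F (m + 1 + k) + if k < m then F (m - 1 - k) else 0) := by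
  rw [Finset.sum_range_add, Finset.sum_range_succ, Finset.sum_add_distrib,
    ← Finset.sum_range_reflect]
  have h1 : ∑ k ∈ Finset.range N, (if k < m then F (m - 1 - k) else 0) =
      ∑ k ∈ Finset.range m, F (m - 1 - k) := by
    rw [← Finset.sum_filter]
    congr 1
    ext k
    rw [Finset.mem_filter, Finset.mem_range, Finset.mem_range]
    omega
  rw [h1]
  ring

theorem sy_supp (i n w : ℕ) (h : 2 * n + 2 ≤ w) : TLN i n w = 0 := by
  unfold TLN tLN cenLN
  split_ifs <;> omega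

theorem sy_FF (i n m K : ℕ) (hK : 2 * n + 2 ≤ K) : ((FFLN i n (m : ℤ) : ℕ) : ℤ) =
    ∑ w ∈ Finset.range K, (TLN i n w : ℤ) * (1 + (padicValInt (pLN i) ((m : ℤ) - w) : ℤ)) := by
  have h1 : ((FFLN i n (m : ℤ) : ℕ) : ℤ) = ∑ w ∈ Finset.range (2 * n + 2),
      (TLN i n w : ℤ) * (1 + (padicValInt (pLN i) ((m : ℤ) - w) : ℤ)) := by
    unfold FFLN BLN ZLN
    push_cast
    rw [← Finset.sum_add_distrib]
    refine Finset.sum_congr rfl fun w _ => ?_
    ring
  rw [h1]
  refine Finset.sum_subset (fun w hw => Finset.mem_range.2 (by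
    have := Finset.mem_range.1 hw
    omega)) fun w _ hw => ?_
  rw [Finset.mem_range, not_lt] at hw
  rw [sy_supp i n w hw, Nat.cast_zero, zero_mul]

theorem sy_val_up (p m k : ℕ) :
    padicValInt p ((m : ℤ) - ((m + 1 + k : ℕ) : ℤ)) = padicValNat p (k + 1) := by
  have h1 : (m : ℤ) - ((m + 1 + k : ℕ) : ℤ) = -((k + 1 : ℕ) : ℤ) := by
    push_cast
    ring
  rw [h1]
  unfold padicValInt
  rw [Int.natAbs_neg, Int.natAbs_natCast]

theorem sy_val_dn {p m k : ℕ} (hk : k < m) :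
    padicValInt p ((m : ℤ) - ((m - 1 - k : ℕ) : ℤ)) = padicValNat p (k + 1) := by
  have h1 : (m : ℤ) - ((m - 1 - k : ℕ) : ℤ) = ((k + 1 : ℕ) : ℤ) := by
    omega
  rw [h1]
  unfold padicValInt
  rw [Int.natAbs_natCast]

/-! ### The identity of the tents -/

/-- Both sides. `u = t(m + K)`, `u' = t(m - K)`, `c = cen(m + K) - cen m`. -/
theorem sy_q1 {n n' u u' c t : ℕ} (hn : n' ≤ n) (ht : t ≤ n') (h1 : u' ≤ t) (h3 : u ≤ t + c) :
    ((min (n - u) (n' + c - u) : ℕ) : ℤ) - ((min (n' - u) (n + c - u) : ℕ) : ℤ) +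
      (((min (n - u') (n' - (c + u')) : ℕ) : ℤ) - ((min (n' - u') (n - (c + u')) : ℕ) : ℤ)) =
    (((n - u : ℕ) : ℤ) - ((n' - u : ℕ) : ℤ)) -
      (((n - (c + u') : ℕ) : ℤ) - ((n' - (c + u') : ℕ) : ℤ)) := by
  have e1 : min (n' - u) (n + c - u) = n' - u := min_eq_left (by omega)
  have e2 : min (n - u') (n' - (c + u')) = n' - (c + u') := min_eq_right (by omega)
  rw [e1, e2]
  rcases le_total n (n' + c) with h | h
  · have e3 : min (n - u) (n' + c - u) = n - u := min_eq_left (by omega)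
    have e4 : min (n' - u') (n - (c + u')) = n - (c + u') := min_eq_right (by omega)
    rw [e3, e4]
    ring
  · have e3 : min (n - u) (n' + c - u) = n' + c - u := min_eq_right (by omega)
    have e4 : min (n' - u') (n - (c + u')) = n' - u' := min_eq_left (by omega)
    rw [e3, e4]
    omega

/-- Above the centre only. -/
theorem sy_q2 {n n' u c v : ℕ} (hn : n' ≤ n) (h2 : n ≤ n' + c) (h3 : n ≤ v) :
    ((min (n - u) (n' + c - u) : ℕ) : ℤ) - ((min (n' - u) (n + c - u) : ℕ) : ℤ) =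
    (((n - u : ℕ) : ℤ) - ((n' - u : ℕ) : ℤ)) -
      (((n - v : ℕ) : ℤ) - ((n' - v : ℕ) : ℤ)) := by
  have e1 : min (n' - u) (n + c - u) = n' - u := min_eq_left (by omega)
  have e3 : min (n - u) (n' + c - u) = n - u := min_eq_left (by omega)
  have e5 : n - v = 0 := by omega
  have e6 : n' - v = 0 := by omega
  rw [e1, e3, e5, e6]
  simp

/-- The growth of `cen`. -/
def cLN (i K : ℕ) : ℕ := if i = 0 then 2 * K else if i = 1 then 4 * K else 6 * K

theorem sy_up (i : ℕ) {m n n' K : ℕ} (h : n + n' + 1 = cenLN i m) :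
    cenLN i (m + K) - 1 - tLN i (m + K) - n = n' + cLN i K - tLN i (m + K) := by
  unfold cenLN at h ⊢
  unfold tLN cLN
  split_ifs at h ⊢ <;> omega

theorem sy_dn (i : ℕ) {m n n' j K : ℕ} (hj : m = K + j)
    (h : n + n' + 1 = cenLN i m) (ht : tLN i m ≤ n') :
    cenLN i j - 1 - tLN i j - n = n' - (cLN i K + tLN i j) := by
  subst hj
  unfold cenLN at h ⊢
  unfold tLN at ht ⊢
  unfold cLN
  split_ifs at h ht ⊢ <;> omega

theorem sy_t1 (i : ℕ) {m K : ℕ} : tLN i (m + K) ≤ tLN i m + cLN i K := by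
  unfold tLN cLN
  split_ifs <;> omega

theorem sy_t2 (i : ℕ) {m j : ℕ} (h : j ≤ m) : tLN i j ≤ tLN i m := by
  unfold tLN
  split_ifs <;> omega

theorem sy_t3 (i : ℕ) (hi : i ≤ 3) {m j K : ℕ} (hj : m = K + j) :
    cLN i K + tLN i j = tLN i (m + pLN i * K) := by
  subst hj
  unfold tLN cLN pLN
  split_ifs <;> omega

theorem sy_t4 (i : ℕ) (hi : i ≤ 3) {m n n' K : ℕ} (hK : m < K)
    (h : n + n' + 1 = cenLN i m) : n ≤ n' + cLN i K ∧ n ≤ tLN i (m + pLN i * K) := by
  unfold cenLN at h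
  unfold tLN cLN pLN
  split_ifs at h ⊢ <;> omega

/-- The identity of the tents. -/
theorem sy_tent {i m n n' : ℕ} (hi : i ≤ 3) (hn : n' ≤ n)
    (h : n + n' + 1 = cenLN i m) (ht : tLN i m ≤ n') (k : ℕ) :
    (TLN i n (m + 1 + k) : ℤ) - TLN i n' (m + 1 + k) +
      (if k < m then (TLN i n (m - 1 - k) : ℤ) - TLN i n' (m - 1 - k) else 0) =
    (((n - tLN i (m + (k + 1)) : ℕ) : ℤ) - ((n' - tLN i (m + (k + 1)) : ℕ) : ℤ)) -
      (((n - tLN i (m + pLN i * (k + 1)) : ℕ) : ℤ) -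
        ((n' - tLN i (m + pLN i * (k + 1)) : ℕ) : ℤ)) := by
  have e0 : m + 1 + k = m + (k + 1) := by ring
  have h' : n' + n + 1 = cenLN i m := by omega
  rw [e0]
  unfold TLN
  rw [sy_up i h, sy_up i h']
  split_ifs with hk
  · obtain ⟨j, hj⟩ : ∃ j, m = (k + 1) + j := ⟨m - (k + 1), by omega⟩
    have e1 : m - 1 - k = j := by omega
    rw [e1, sy_dn i hj h ht, sy_dn i hj h' (by omega),
      ← sy_t3 i hi hj]
    exact sy_q1 hn ht (sy_t2 i (by omega)) (sy_t1 i)
  · have h2 := sy_t4 i hi (K := k + 1) (by omega) h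
    rw [add_zero]
    exact sy_q2 hn h2.1 h2.2

/-- The term at the centre. -/
theorem sy_mid {i m n n' : ℕ} (hn : n' ≤ n) (h : n + n' + 1 = cenLN i m)
    (ht : tLN i m ≤ n') : TLN i n m = TLN i n' m := by
  unfold TLN
  omega

/-- The sum. -/
theorem sy_sum {i m n n' N : ℕ} (hi : i ≤ 3) (hn : n' ≤ n) (hN : 2 * n ≤ N)
    (h : n + n' + 1 = cenLN i m) (ht : tLN i m ≤ n') :
    ∑ k ∈ Finset.range N, (((n - tLN i (m + (k + 1)) : ℕ) : ℤ) -
      ((n' - tLN i (m + (k + 1)) : ℕ) : ℤ)) = (((n - n') * sLN i m : ℕ) : ℤ) := by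
  rw [Finset.sum_sub_distrib]
  rcases Nat.eq_zero_or_pos i with h0 | h0
  · subst h0
    have ht' : ∀ x, tLN 0 x = x / 2 := fun x => rfl
    have hc' : cenLN 0 m = 2 * m := rfl
    have hs' : sLN 0 m = m - 1 := rfl
    rw [ht'] at ht
    rw [hc'] at h
    rw [hs']
    rcases Nat.even_or_odd' m with ⟨μ, rfl | rfl⟩
    · have e1 : ∀ x k, x - tLN 0 (2 * μ + (k + 1)) = x - μ - (k + 1) / 2 := by
        intro x k
        rw [ht']
        omega
      simp only [e1]
      rw [sy_tri2 N (n - μ) (by omega), sy_tri2 N (n' - μ) (by omega)]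
      obtain ⟨b, rfl⟩ : ∃ b, n' = μ + b := ⟨n' - μ, by omega⟩
      obtain ⟨a, rfl⟩ : ∃ a, n = μ + b + a := ⟨n - (μ + b), by omega⟩
      have e2 : μ + b + a - μ = b + a := by omega
      have e3 : μ + b - μ = b := by omega
      have e4 : μ + b + a - (μ + b) = a := by omega
      have e5 : 2 * μ - 1 = 2 * b + a := by omega
      rw [e2, e3, e4, e5]
      push_cast
      ring
    · have e1 : ∀ x k, x - tLN 0 (2 * μ + 1 + (k + 1)) = x - μ - (k + 2) / 2 := by
        intro x k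
        rw [ht']
        omega
      simp only [e1]
      rw [sy_tri3 N (n - μ) (by omega), sy_tri3 N (n' - μ) (by omega)]
      obtain ⟨b, rfl⟩ : ∃ b, n' = μ + b := ⟨n' - μ, by omega⟩
      obtain ⟨a, rfl⟩ : ∃ a, n = μ + b + a := ⟨n - (μ + b), by omega⟩
      have e2 : μ + b + a - μ = b + a := by omega
      have e3 : μ + b - μ = b := by omega
      have e4 : μ + b + a - (μ + b) = a := by omega
      have e5 : 2 * μ + 1 - 1 + 1 = 2 * b + a := by omega
      have e6 : ((2 * μ + 1 - 1 : ℕ) : ℤ) = 2 * b + a - 1 := by omega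
      rw [e2, e3, e4, Nat.cast_mul, e6]
      push_cast
      ring
  · have ht' : ∀ x, tLN i x = x := by
      intro x
      unfold tLN
      rw [if_neg (by omega)]
    have hs' : ((n : ℤ) - m) + (n' - m) - 1 = 2 * (sLN i m : ℤ) := by
      rw [ht'] at ht
      unfold cenLN at h
      unfold sLN
      split_ifs at h ⊢ <;> omega
    rw [ht'] at ht
    have e1 : ∀ x k, x - tLN i (m + (k + 1)) = x - m - (k + 1) := by
      intro x k
      rw [ht']
      omega
    simp only [e1]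
    have h4 := sy_tri N (n - m) (by omega)
    have h5 := sy_tri N (n' - m) (by omega)
    have e2 : ((n - m : ℕ) : ℤ) = (n : ℤ) - m := by omega
    have e3 : ((n' - m : ℕ) : ℤ) = (n' : ℤ) - m := by omega
    rw [e2] at h4
    rw [e3] at h5
    have h6 : (2 : ℤ) * (∑ k ∈ Finset.range N, ((n - m - (k + 1) : ℕ) : ℤ) -
        ∑ k ∈ Finset.range N, ((n' - m - (k + 1) : ℕ) : ℤ)) =
        2 * (((n - n') * sLN i m : ℕ) : ℤ) := by
      rw [mul_sub, h4, h5]
      push_cast [hn]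
      linear_combination ((n : ℤ) - n') * hs'
    exact mul_left_cancel₀ (two_ne_zero (α := ℤ)) h6

theorem sy_prime (i : ℕ) : (pLN i).Prime := by
  unfold pLN
  split_ifs <;> norm_num

/-- The symmetry of the ghost numbers. -/
theorem symLN (i : ℕ) (hi : i ≤ 3) (m n n' : ℕ) (hn : n' ≤ n) (h : n + n' + 1 = cenLN i m)
    (ht : tLN i m ≤ n') : FFLN i n m = (n - n') * sLN i m + FFLN i n' m := by
  obtain ⟨N, hN⟩ : ∃ N, N = 2 * n + m + 2 := ⟨_, rfl⟩
  obtain ⟨g, hg⟩ : ∃ g : ℕ → ℤ, g = fun x => ((n - tLN i (m + x) : ℕ) : ℤ) -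
    ((n' - tLN i (m + x) : ℕ) : ℤ) := ⟨_, rfl⟩
  -- the difference
  have h1 : ((FFLN i n (m : ℤ) : ℕ) : ℤ) - ((FFLN i n' (m : ℤ) : ℕ) : ℤ) =
      ∑ k ∈ Finset.range N, (1 + (padicValNat (pLN i) (k + 1) : ℤ)) *
        (g (k + 1) - g (pLN i * (k + 1))) := by
    rw [sy_FF i n m (m + 1 + N) (by omega), sy_FF i n' m (m + 1 + N) (by omega),
      ← Finset.sum_sub_distrib, sy_split _ (show m ≤ N by omega), sy_mid hn h ht, sub_self,
      zero_add]
    refine Finset.sum_congr rfl fun k _ => ?_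
    have h2 := sy_tent hi hn h ht k
    rw [hg]
    show _ = (1 + (padicValNat (pLN i) (k + 1) : ℤ)) *
      ((((n - tLN i (m + (k + 1)) : ℕ) : ℤ) - ((n' - tLN i (m + (k + 1)) : ℕ) : ℤ)) -
      (((n - tLN i (m + pLN i * (k + 1)) : ℕ) : ℤ) -
        ((n' - tLN i (m + pLN i * (k + 1)) : ℕ) : ℤ)))
    rw [← h2, sy_val_up]
    split_ifs with hk
    · rw [sy_val_dn hk]
      ring
    · ring
  -- the sum over the multiples of `p`
  have h2 : ∑ k ∈ Finset.range N, (1 + (padicValNat (pLN i) (k + 1) : ℤ)) *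
      g (pLN i * (k + 1)) = ∑ k ∈ Finset.range N, (padicValNat (pLN i) (k + 1) : ℤ) * g (k + 1) := by
    rw [← sy_mult (pLN i) (sy_prime i) g N]
    symm
    refine Finset.sum_subset (fun k hk => Finset.mem_range.2 (by
      have h3 := Finset.mem_range.1 hk
      have h4 := (sy_prime i).two_le
      nlinarith)) fun k _ hk => ?_
    rw [Finset.mem_range, not_lt] at hk
    have h3 : g (k + 1) = 0 := by
      rw [hg]
      show ((n - tLN i (m + (k + 1)) : ℕ) : ℤ) - ((n' - tLN i (m + (k + 1)) : ℕ) : ℤ) = 0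
      have h4 : n ≤ tLN i (m + (k + 1)) := by
        unfold tLN
        split_ifs <;> omega
      omega
    rw [h3, mul_zero]
  have h3 : ((FFLN i n (m : ℤ) : ℕ) : ℤ) - ((FFLN i n' (m : ℤ) : ℕ) : ℤ) =
      ∑ k ∈ Finset.range N, g (k + 1) := by
    rw [h1]
    have h4 : ∑ k ∈ Finset.range N, (1 + (padicValNat (pLN i) (k + 1) : ℤ)) *
        (g (k + 1) - g (pLN i * (k + 1))) =
        ∑ k ∈ Finset.range N, (1 + (padicValNat (pLN i) (k + 1) : ℤ)) * g (k + 1) -
          ∑ k ∈ Finset.range N, (1 + (padicValNat (pLN i) (k + 1) : ℤ)) *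
            g (pLN i * (k + 1)) := by
      rw [← Finset.sum_sub_distrib]
      refine Finset.sum_congr rfl fun k _ => ?_
      ring
    rw [h4, h2, ← Finset.sum_sub_distrib]
    refine Finset.sum_congr rfl fun k _ => ?_
    ring
  rw [hg] at h3
  have h5 := sy_sum hi hn (show 2 * n ≤ N by omega) h ht
  have h6 : ((FFLN i n (m : ℤ) : ℕ) : ℤ) - ((FFLN i n' (m : ℤ) : ℕ) : ℤ) =
      (((n - n') * sLN i m : ℕ) : ℤ) := by
    rw [h3]
    exact h5
  have h7 : ((FFLN i n (m : ℤ) : ℕ) : ℤ) =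
      (((n - n') * sLN i m + FFLN i n' (m : ℤ) : ℕ) : ℤ) := by
    rw [Nat.cast_add]
    linarith
  exact_mod_cast h7

end GH.CombU
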