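import Pool.Agent.GH.CombU.Near

/-!
# Generic combinatorics of the hulls: the floor formula as a sum of tents
-/

namespace GH.CombU

theorem ediv_sub_pred {P : ℤ} (hP : 0 < P) (x : ℤ) :
    x / P - (x - 1) / P = if P ∣ x then 1 else 0 := by
  split_ifs with h
  · obtain ⟨u, rfl⟩ := h
    rw [Int.mul_ediv_cancel_left _ hP.ne']
    have : (P * u - 1) / P = u - 1 := by
      apply ediv_eq_of <;> linarith
    rw [this]
    ring
  · have h1 : (x - 1) / P = x / P := by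
      apply ediv_eq_of_no hP (by linarith)
      intro t ht h1 h2
      have : t = x := by omega
      exact h (this ▸ ht)
    rw [h1]
    ring

theorem cnt_aux {P : ℤ} (hP : 0 < P) (c : ℤ) (L : ℕ) (m : ℕ) : m ≤ L →
    ∑ z ∈ Finset.range L, (if P ∣ (z : ℤ) - c then (if z < m then (1 : ℤ) else 0) else 0) =
      ((m : ℤ) - 1 - c) / P - (-1 - c) / P := by
  induction m with
  | zero =>
    intro _
    simp
  | succ m ih =>
    intro hm
    have h1 := ih (by omega)
    have h2 : ∀ z ∈ Finset.range L,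
        (if P ∣ (z : ℤ) - c then (if z < m + 1 then (1 : ℤ) else 0) else 0) =
        (if P ∣ (z : ℤ) - c then (if z < m then (1 : ℤ) else 0) else 0) +
          (if z = m then (if P ∣ (m : ℤ) - c then (1 : ℤ) else 0) else 0) := by
      intro z _
      by_cases hz : z = m
      · subst hz
        by_cases hd : P ∣ (z : ℤ) - c <;> simp [hd]
      · by_cases hd : P ∣ (z : ℤ) - c
        · simp only [hd, if_true, hz, if_false, add_zero]
          have : z < m + 1 ↔ z < m := by omega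
          simp only [this]
        · simp [hd, hz]
    rw [Finset.sum_congr rfl h2, Finset.sum_add_distrib, h1, Finset.sum_ite_eq',
      if_pos (Finset.mem_range.2 (by omega)), ← ediv_sub_pred hP]
    push_cast
    ring_nf

/-- The number of `z < L`, `z ≤ A`, in the class `c mod P`. -/
theorem cnt {P : ℤ} (hP : 0 < P) (c : ℤ) {L : ℕ} {A : ℤ} (h1 : -1 ≤ A) (h2 : A < L) :
    ∑ z ∈ Finset.range L, (if P ∣ (z : ℤ) - c then (if (z : ℤ) ≤ A then (1 : ℤ) else 0) else 0) =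
      (A - c) / P - (-1 - c) / P := by
  obtain ⟨m, hm⟩ : ∃ m : ℕ, (m : ℤ) = A + 1 := ⟨(A + 1).toNat, by omega⟩
  have h3 := cnt_aux hP c L m (by omega)
  have h4 : (m : ℤ) - 1 - c = A - c := by linarith
  rw [h4] at h3
  rw [← h3]
  apply Finset.sum_congr rfl
  intro z _
  have h5 : (z : ℤ) ≤ A ↔ z < m := by omega
  simp only [h5]

namespace Sys

variable (S : Sys)

/-- The increment of the tent of `z` between `n - 1` and `n`, as a combination of half lines. -/
def ee (z n : ℤ) : ℤ :=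
  (if z ≤ S.q * n + S.e - 1 then 1 else 0) - (if z ≤ (2 * n - S.M0) / S.M1 then 1 else 0) -
    (if z ≤ (2 * n - 1 - S.M0) / S.M1 then 1 else 0) +
    (if z ≤ (S.q * n - S.q * S.M0 - S.e) / S.p then 1 else 0)

theorem N_eq (j : ℕ) (c n : ℤ) : S.N j c n = (S.q * n + S.e - 1 - c) / S.p ^ j
    - ((2 * n - S.M0) / S.M1 - c) / S.p ^ j - ((2 * n - 1 - S.M0) / S.M1 - c) / S.p ^ j
    + ((S.q * n - S.q * S.M0 - S.e) / S.p - c) / S.p ^ j := by
  have e1 : S.X c n = S.q * n + S.e - 1 - c := by unfold X; ring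
  have e2 : (2 * n - S.M c) / (S.M1 * S.p ^ j) = ((2 * n - S.M0) / S.M1 - c) / S.p ^ j := by
    have h1 : (2 * n - S.M0) / S.M1 - c = (2 * n - S.M c) / S.M1 := by
      have h2 : 2 * n - S.M c = 2 * n - S.M0 + S.M1 * (-c) := by unfold M; ring
      rw [h2, Int.add_mul_ediv_left _ _ S.hM1.ne']
      ring
    rw [h1, Int.ediv_ediv_of_nonneg S.hM1.le]
  have e3 : (2 * n - S.M c - 1) / (S.M1 * S.p ^ j) =
      ((2 * n - 1 - S.M0) / S.M1 - c) / S.p ^ j := by
    have h1 : (2 * n - 1 - S.M0) / S.M1 - c = (2 * n - S.M c - 1) / S.M1 := by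
      have h2 : 2 * n - S.M c - 1 = 2 * n - 1 - S.M0 + S.M1 * (-c) := by unfold M; ring
      rw [h2, Int.add_mul_ediv_left _ _ S.hM1.ne']
      ring
    rw [h1, Int.ediv_ediv_of_nonneg S.hM1.le]
  have e4 : ((S.q * n - S.q * S.M0 - S.e) / S.p - c) / S.p ^ j =
      -(S.Y c n / S.p ^ (j + 1)) - 1 := by
    have h1 : (S.q * n - S.q * S.M0 - S.e) / S.p - c = (-(S.Y c n + 1)) / S.p := by
      have h2 : -(S.Y c n + 1) = S.q * n - S.q * S.M0 - S.e + S.p * (-c) := by
        rw [Y_eq]; ring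
      rw [h2, Int.add_mul_ediv_left _ _ S.hp0.ne']
      ring
    rw [h1, Int.ediv_ediv_of_nonneg S.hp0.le, ← pow_succ', neg_ediv_eq (S.ppos _)]
    have h2 : S.Y c n + 1 - 1 = S.Y c n := by ring
    rw [h2]
  unfold N
  rw [e1, e2, e3, e4]
  ring

/-- Numerical bounds needed for the sums over naturals. -/
structure Bd (n : ℤ) (L : ℕ) : Prop where
  b1 : -1 ≤ S.q * n + S.e - 1
  b2 : -1 ≤ (2 * n - S.M0) / S.M1
  b3 : -1 ≤ (2 * n - 1 - S.M0) / S.M1
  b4 : -1 ≤ (S.q * n - S.q * S.M0 - S.e) / S.p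
  c1 : S.q * n + S.e - 1 < L
  c2 : (2 * n - S.M0) / S.M1 < L
  c3 : (2 * n - 1 - S.M0) / S.M1 < L
  c4 : (S.q * n - S.q * S.M0 - S.e) / S.p < L

theorem sum_ee {j : ℕ} {c n : ℤ} {L : ℕ} (hb : S.Bd n L) :
    ∑ z ∈ Finset.range L, (if S.p ^ j ∣ (z : ℤ) - c then S.ee z n else 0) = S.N j c n := by
  have hP := S.ppos j
  have h1 := cnt hP c hb.b1 hb.c1
  have h2 := cnt hP c hb.b2 hb.c2
  have h3 := cnt hP c hb.b3 hb.c3
  have h4 := cnt hP c hb.b4 hb.c4
  rw [S.N_eq]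
  have h5 : ∀ z ∈ Finset.range L, (if S.p ^ j ∣ (z : ℤ) - c then S.ee z n else 0) =
      (if S.p ^ j ∣ (z : ℤ) - c then (if (z : ℤ) ≤ S.q * n + S.e - 1 then (1 : ℤ) else 0) else 0)
      - (if S.p ^ j ∣ (z : ℤ) - c then
          (if (z : ℤ) ≤ (2 * n - S.M0) / S.M1 then (1 : ℤ) else 0) else 0)
      - (if S.p ^ j ∣ (z : ℤ) - c then
          (if (z : ℤ) ≤ (2 * n - 1 - S.M0) / S.M1 then (1 : ℤ) else 0) else 0)
      + (if S.p ^ j ∣ (z : ℤ) - c then
          (if (z : ℤ) ≤ (S.q * n - S.q * S.M0 - S.e) / S.p then (1 : ℤ) else 0) else 0) := by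
    intro z _
    unfold ee
    split_ifs <;> simp
  rw [Finset.sum_congr rfl h5, Finset.sum_add_distrib, Finset.sum_sub_distrib,
    Finset.sum_sub_distrib, h1, h2, h3, h4]
  ring

/-- The number of zeros in a class is a sum of tents. -/
theorem NN_eq {τ : ℕ → ℕ → ℤ} (h0 : ∀ z, τ 0 z = 0)
    (hs : ∀ n z : ℕ, τ (n + 1) z = τ n z + S.ee z ((n : ℤ) + 1)) {j : ℕ} {c : ℤ} {L : ℕ} (n : ℕ)
    (hb : ∀ k : ℕ, k < n → S.Bd ((k : ℤ) + 1) L) :
    S.NN j c n = ∑ z ∈ Finset.range L, (if S.p ^ j ∣ (z : ℤ) - c then τ n z else 0) := by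
  induction n with
  | zero =>
    unfold NN
    simp [h0]
  | succ n ih =>
    rw [S.NN_step, ih (fun k hk ↦ hb k (by omega)), ← S.sum_ee (j := j) (c := c) (hb n (by omega)),
      ← Finset.sum_add_distrib]
    apply Finset.sum_congr rfl
    intro z _
    rw [hs n z]
    split_ifs <;> simp

end Sys

end GH.CombU
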