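import Pool.Agent.GH.CombU.XD

/-!
# Generic combinatorics of the hulls: the root is the Gauss point of the disc of the centres

The centres are `m = A z + B0`, `z ≥ 0`, `A` prime to `p`; the node `c mod p^ν` corresponds to the
node `z mod p^ν` of the system `S`. Outputs: `Comb` (all residue classes) and `CombA` (one residue
class).
-/

namespace GH.CombU

open GH.Comb

/-- The data. -/
structure XE where
  S : Sys
  p : ℕ
  A : ℕ
  B0 : ℕ
  B : ℕ → ℕ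
  Z : ℕ → ℕ
  T : ℕ → ℕ → ℕ
  s : ℕ → ℕ
  t : ℕ → ℕ
  L : ℕ → ℕ
  hpp : S.p = p
  hcop : Nat.Coprime A p
  hA : 0 < A
  B_zero : B 0 = 0
  B_step : ∀ n : ℕ, (B (n + 1) : ℤ) - B n = S.lin * ((n : ℤ) + 1) + S.C0
    - (S.q * S.M0 - S.q * ((n : ℤ) + 1) + S.e - 1) / S.p
  bd : ∀ k n : ℕ, k < n → S.Bd ((k : ℤ) + 1) (L n)
  T_zero : ∀ m, T 0 m = 0
  T_step : ∀ n z : ℕ, (T (n + 1) (A * z + B0) : ℤ) =
    T n (A * z + B0) + S.ee z ((n : ℤ) + 1)
  T_ne : ∀ n m, T n m ≠ 0 → ∃ z, m = A * z + B0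
  T_supp : ∀ n m, Z n ≤ m → T n m = 0
  T_suppL : ∀ n m, A * L n + B0 ≤ m → T n m = 0
  T_fin : ∀ m, ∃ N, ∀ n, N ≤ n → T n m = 0
  T_start : ∀ n z : ℕ, T n (A * z + B0) = 0 → T (n + 1) (A * z + B0) ≠ 0 →
    n = t (A * z + B0) ∧ ((z : ℤ) - S.e) / S.q = n ∧ 2 * (n : ℤ) + 2 ≤ S.M z ∧
      2 * (s (A * z + B0) : ℤ) = S.lin * S.M z + 2 * S.C0 + 2 * z

namespace XE

variable (D : XE)

theorem F_eq (ν : ℕ) (z : ℤ) (n : ℕ) :
    D.S.F ν z n = D.B n + ∑ j ∈ Finset.range ν, D.S.NN (j + 1) z n := by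
  induction ν with
  | zero =>
    rw [Finset.sum_range_zero]
    induction n with
    | zero => simp [Sys.F, D.B_zero]
    | succ n ih =>
      rw [D.S.F_step, ih]
      have h1 := D.B_step n
      have h3 : D.S.inc 0 z ((n : ℤ) + 1) = D.S.lin * ((n : ℤ) + 1) + D.S.C0 + z -
          D.S.Y z ((n : ℤ) + 1) / D.S.p := by
        unfold Sys.inc
        simp
      have h4 : D.S.Y z ((n : ℤ) + 1) / D.S.p =
          (D.S.q * D.S.M0 - D.S.q * ((n : ℤ) + 1) + D.S.e - 1) / D.S.p + z := by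
        have h5 : D.S.Y z ((n : ℤ) + 1) =
            D.S.q * D.S.M0 - D.S.q * ((n : ℤ) + 1) + D.S.e - 1 + D.S.p * z := by
          rw [Sys.Y_eq]; ring
        rw [h5, Int.add_mul_ediv_left _ _ D.S.hp0.ne']
      rw [h3, h4]
      linarith
  | succ ν ih =>
    rw [D.S.F_succ, ih, Finset.sum_range_succ]
    ring

theorem modEq_iff {c : ℕ} {ν : ℕ} {z : ℤ}
    (hz : (D.p : ℤ) ^ ν ∣ (c : ℤ) - (D.A * z + D.B0)) {j : ℕ} (hj : j ≤ ν) (w : ℕ) :
    D.A * w + D.B0 ≡ c [MOD D.p ^ j] ↔ D.S.p ^ j ∣ (w : ℤ) - z := by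
  rw [Nat.modEq_iff_dvd, D.hpp]
  have h1 : ((D.p ^ j : ℕ) : ℤ) ∣ (c : ℤ) - (D.A * z + D.B0) := by
    push_cast
    exact (pow_dvd_pow _ hj).trans hz
  have h2 : (c : ℤ) - ((D.A * w + D.B0 : ℕ) : ℤ) =
      ((c : ℤ) - (D.A * z + D.B0)) - (D.A * ((w : ℤ) - z)) := by
    push_cast
    ring
  rw [h2, dvd_sub_right h1]
  push_cast
  have hcop : IsCoprime ((D.p : ℤ) ^ j) (D.A : ℤ) := by
    apply IsCoprime.pow_left
    exact (Nat.isCoprime_iff_coprime.2 D.hcop).symm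
  exact ⟨fun h ↦ hcop.dvd_of_dvd_mul_left h, fun h ↦ h.mul_left _⟩

theorem fv_eq [Fact D.p.Prime] {c ν : ℕ} {z : ℤ}
    (hz : (D.p : ℤ) ^ ν ∣ (c : ℤ) - (D.A * z + D.B0)) (n : ℕ) :
    (Pot.fv D.p D.B D.Z D.T n c ν : ℤ) = D.S.F ν z n := by
  rw [D.F_eq]
  unfold Pot.fv
  push_cast
  congr 1
  have h1 : ∑ m ∈ Finset.range (D.Z n), (D.T n m : ℤ) * (Pot.tau D.p c ν m : ℤ) =
      ∑ w ∈ Finset.range (D.L n), (D.T n (D.A * w + D.B0) : ℤ) *
        (Pot.tau D.p c ν (D.A * w + D.B0) : ℤ) := by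
    apply XD.sum_reindex (g := fun m ↦ (D.T n m : ℤ) * (Pot.tau D.p c ν m : ℤ)) D.hA
    · intro m hm
      apply D.T_ne n m
      intro h0
      apply hm
      simp [h0]
    · intro m hm
      simp [D.T_supp n m hm]
    · intro m hm
      simp [D.T_suppL n m hm]
  rw [h1]
  have h2 : ∀ j ∈ Finset.range ν, D.S.NN (j + 1) z n =
      ∑ w ∈ Finset.range (D.L n),
        (if D.S.p ^ (j + 1) ∣ (w : ℤ) - z then (D.T n (D.A * w + D.B0) : ℤ) else 0) := by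
    intro j _
    exact D.S.NN_eq (τ := fun n w ↦ (D.T n (D.A * w + D.B0) : ℤ))
      (fun w ↦ by simp [D.T_zero]) (fun n w ↦ D.T_step n w) n (fun k hk ↦ D.bd k n hk)
  rw [Finset.sum_congr rfl h2, Finset.sum_comm]
  apply Finset.sum_congr rfl
  intro w _
  have h3 : (Pot.tau D.p c ν (D.A * w + D.B0) : ℤ) =
      ∑ j ∈ Finset.range ν, (if D.A * w + D.B0 ≡ c [MOD D.p ^ (j + 1)] then (1 : ℤ) else 0) := by
    clear h1 h2 hz
    induction ν with
    | zero => simp [Pot.tau]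
    | succ ν ih =>
      rw [Pot.tau_succ, Finset.sum_range_succ, ← ih]
      push_cast
      rfl
  rw [h3, Finset.mul_sum]
  apply Finset.sum_congr rfl
  intro j hj
  have hj' : j + 1 ≤ ν := by
    have := Finset.mem_range.1 hj
    omega
  have h4 := D.modEq_iff hz hj' w
  by_cases h : D.S.p ^ (j + 1) ∣ (w : ℤ) - z
  · rw [if_pos h, if_pos (h4.2 h), mul_one]
  · rw [if_neg h, if_neg (fun h' ↦ h (h4.1 h')), mul_zero]

/-- Every class is the class of an integer of the system. -/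
theorem exists_z (c ν : ℕ) : ∃ z : ℤ, (D.p : ℤ) ^ ν ∣ (c : ℤ) - (D.A * z + D.B0) := by
  have hcop : IsCoprime (D.A : ℤ) ((D.p : ℤ) ^ ν) :=
    (Nat.isCoprime_iff_coprime.2 D.hcop).pow_right
  obtain ⟨u, v, huv⟩ := hcop
  refine ⟨u * ((c : ℤ) - D.B0), v * ((c : ℤ) - D.B0), ?_⟩
  linear_combination -((c : ℤ) - D.B0) * huv

/-- The valuation of the leading minors, integer valued. -/
def f (c ν : ℕ) (n : ℕ) : ℤ := (Pot.fv D.p D.B D.Z D.T n c ν : ℤ)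

theorem f_eq [Fact D.p.Prime] {c ν : ℕ} {z : ℤ}
    (hz : (D.p : ℤ) ^ ν ∣ (c : ℤ) - (D.A * z + D.B0)) :
    D.f c ν = D.S.F ν z := funext fun n ↦ D.fv_eq hz n

theorem f_grows [Fact D.p.Prime] (c ν : ℕ) : Grows (D.f c ν) := by
  obtain ⟨z, hz⟩ := D.exists_z c ν
  rw [D.f_eq hz]
  exact D.S.grows ν z

theorem f_int [Fact D.p.Prime] (c ν : ℕ) (a b : ℕ) (l : ℚ)
    (hB : Block (D.f c ν) a b l) : ∃ u : ℤ, l = u := by
  obtain ⟨z, hz⟩ := D.exists_z c ν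
  rw [D.f_eq hz] at hB
  exact D.S.int_slope ν z a b l hB

theorem f_nform0 [Fact D.p.Prime] (c ν : ℕ) (a b : ℕ) (l : ℚ)
    (hB : Block (D.f c ν) a b l) : NForm (D.f c ν) (D.f c (ν + 1)) a b := by
  obtain ⟨z, hz⟩ := D.exists_z c (ν + 1)
  have hz' : (D.p : ℤ) ^ ν ∣ (c : ℤ) - (D.A * z + D.B0) := (pow_dvd_pow _ (by omega)).trans hz
  rw [D.f_eq hz'] at hB
  rw [D.f_eq hz', D.f_eq hz]
  exact D.S.nform0 ν z a b l hB

theorem f_nform1 [Fact D.p.Prime] (c ν : ℕ) (a b : ℕ) (l : ℚ)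
    (hB : Block (D.f c (ν + 1)) a b l) : NForm (D.f c ν) (D.f c (ν + 1)) a b := by
  obtain ⟨z, hz⟩ := D.exists_z c (ν + 1)
  have hz' : (D.p : ℤ) ^ ν ∣ (c : ℤ) - (D.A * z + D.B0) := (pow_dvd_pow _ (by omega)).trans hz
  rw [D.f_eq hz] at hB
  rw [D.f_eq hz', D.f_eq hz]
  exact D.S.nform1 ν z a b l hB

/-- The hulls. -/
noncomputable def h (n c ν : ℕ) : ℤ := hullOf (D.f c ν) n

theorem h_spec [Fact D.p.Prime] (c ν : ℕ) :
    HSpec (D.f c ν) (fun n ↦ D.h n c ν) := hullOf_spec (D.f_grows c ν) (D.f_int c ν)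

/-- The combinatorial input, all residue classes at once. -/
theorem comb [Fact D.p.Prime] : Pot.Comb D.p D.B D.Z D.T D.s D.t D.h where
  hull := by
    intro c ν
    have hs := D.h_spec c ν
    exact ⟨hs.hull.le, hs.hull.zero, hs.hull.conv, hs.hull.lin, hs.hull.touch⟩
  near := by
    intro n
    obtain ⟨Q, hQ⟩ := D.S.near n
    refine ⟨Q, ?_⟩
    intro c ν
    obtain ⟨z, hz⟩ := D.exists_z c ν
    obtain ⟨b, hb1, hb2, hb3⟩ := hQ ν z
    refine ⟨b, hb1, hb2, ?_⟩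
    refine ((D.h_spec c ν).vtx b).2 ?_
    rw [D.f_eq hz]
    exact hb3
  k1 := by
    intro n c ν _
    exact k1_of (D.h_spec c ν) (D.h_spec c (ν + 1)) (D.f_grows c ν) (D.f_int c ν)
      (D.f_nform0 c ν) (n + 1)
  k2 := by
    intro n c ν hn
    exact k2_of (D.h_spec c ν) (D.h_spec c (ν + 1)) (D.f_grows c ν) (D.f_grows c (ν + 1))
      (D.f_int c (ν + 1)) (D.f_nform0 c ν) (D.f_nform1 c ν) (((D.h_spec c ν).vtx n).1 hn)
  k3a := by
    intro n c ν hn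
    exact k3a_of (D.h_spec c ν) (D.h_spec c (ν + 1)) (D.f_grows c ν) (D.f_grows c (ν + 1))
      (D.f_int c (ν + 1)) (D.f_nform0 c ν) (D.f_nform1 c ν) (((D.h_spec c ν).vtx n).1 hn)
  k3b := by
    intro n c ν hn
    exact ((D.h_spec c ν).vtx n).2
      (isV_of_child (D.f_grows c ν) (D.f_nform0 c ν) (((D.h_spec c (ν + 1)).vtx n).1 hn))
  supp := D.T_supp
  fin := D.T_fin
  start := by
    intro n m h0 h1
    obtain ⟨z, rfl⟩ := D.T_ne (n + 1) m h1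
    exact (D.T_start n z h0 h1).1
  leaf := by
    intro n m h0 h1
    obtain ⟨z, rfl⟩ := D.T_ne (n + 1) m h1
    obtain ⟨_, h3, h4, h5⟩ := D.T_start n z h0 h1
    obtain ⟨y, hy⟩ : ∃ y : ℕ, (n : ℤ) + y + 1 = D.S.M z := ⟨(D.S.M z - 1 - n).toNat, by omega⟩
    obtain ⟨K, hK⟩ := D.S.leaf h3 hy (by omega)
    refine ⟨y, by omega, K, ?_⟩
    intro ν hν
    have hz : (D.p : ℤ) ^ ν ∣ ((D.A * z + D.B0 : ℕ) : ℤ) -
        (D.A * ((z : ℕ) : ℤ) + D.B0) := by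
      push_cast
      simp
    rw [D.fv_eq hz, D.fv_eq hz]
    have h6 := hK ν hν
    have h7 : ((y - n : ℕ) : ℤ) = (y : ℤ) - n := by omega
    rw [h7, ← h5] at *
    nlinarith [h6]

/-- The tents of the centres in one residue class. -/
def Tr (ρ n m : ℕ) : ℕ := if m % D.p = ρ then D.T n m else 0

theorem fv_Tr {ρ c : ℕ} (hρ : ρ < D.p) (hc : c ≡ ρ [MOD D.p]) (n ν : ℕ) :
    Pot.fv D.p D.B D.Z (D.Tr ρ) n c ν = Pot.fv D.p D.B D.Z D.T n c ν := by
  unfold Pot.fv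
  congr 1
  apply Finset.sum_congr rfl
  intro m _
  unfold Tr
  split_ifs with h
  · rfl
  · have h1 : Pot.tau D.p c ν m = 0 := by
      unfold Pot.tau
      rw [Finset.card_eq_zero, Finset.filter_eq_empty_iff]
      intro k hk hmc
      have hk1 := (Finset.mem_Icc.1 hk).1
      apply h
      have h2 : m ≡ c [MOD D.p] := hmc.of_dvd (dvd_pow_self _ (by omega))
      have h3 := h2.trans hc
      unfold Nat.ModEq at h3
      rw [h3, Nat.mod_eq_of_lt hρ]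
    rw [h1, mul_zero, mul_zero]

/-- The combinatorial input in one residue class. -/
theorem combA [Fact D.p.Prime] {ρ : ℕ} (hρ : ρ < D.p) :
    Pot.CombA D.p ρ D.B D.Z (D.Tr ρ) D.s D.t D.h where
  hull := by
    intro c ν hc
    have h1 := D.comb.hull c ν
    have h2 : (fun n ↦ Pot.fv D.p D.B D.Z (D.Tr ρ) n c ν) =
        fun n ↦ Pot.fv D.p D.B D.Z D.T n c ν := funext fun n ↦ D.fv_Tr hρ hc n ν
    rw [h2]
    exact h1
  near := by
    intro n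
    obtain ⟨Q, hQ⟩ := D.comb.near n
    exact ⟨Q, fun c ν _ ↦ hQ c ν⟩
  k1 := by
    intro n c ν hc hn
    rw [D.fv_Tr hρ hc, D.fv_Tr hρ hc]
    exact D.comb.k1 n c ν hn
  k2 := by
    intro n c ν hc hn
    rw [D.fv_Tr hρ hc, D.fv_Tr hρ hc]
    exact D.comb.k2 n c ν hn
  k3a := by
    intro n c ν hc hn
    rw [D.fv_Tr hρ hc]
    exact D.comb.k3a n c ν hn
  k3b := by
    intro n c ν _ hn
    exact D.comb.k3b n c ν hn
  supp := by
    intro n m h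
    unfold Tr
    rw [D.T_supp n m h, ite_self]
  cls := by
    intro n m h
    unfold Tr at h
    split_ifs at h with h1
    · unfold Nat.ModEq
      rw [h1, Nat.mod_eq_of_lt hρ]
    · exact absurd rfl h
  fin := by
    intro m
    obtain ⟨N, hN⟩ := D.T_fin m
    refine ⟨N, fun n hn ↦ ?_⟩
    unfold Tr
    rw [hN n hn, ite_self]
  start := by
    intro n m h0 h1
    unfold Tr at h0 h1
    split_ifs at h0 h1 with h2
    · exact D.comb.start n m h0 h1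
    · exact absurd rfl h1
  leaf := by
    intro n m h0 h1
    unfold Tr at h0 h1
    split_ifs at h0 h1 with h2
    · obtain ⟨b, hb, K, hK⟩ := D.comb.leaf n m h0 h1
      refine ⟨b, hb, K, fun ν hν ↦ ?_⟩
      have hc : m ≡ ρ [MOD D.p] := by
        unfold Nat.ModEq
        rw [h2, Nat.mod_eq_of_lt hρ]
      rw [D.fv_Tr hρ hc, D.fv_Tr hρ hc]
      exact hK ν hν
    · exact absurd rfl h1

end XE

end GH.CombU
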